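import Mathlib

open Complex MeasureTheory Metric Set Filter Topology
open scoped ENNReal Real ComplexConjugate

set_option autoImplicit false

namespace Pool.Agent.Run7.h820

local instance instFactTwoPi : Fact (0 < 2 * π) := ⟨by positivity⟩

lemma fourier_two_pi (n : ℤ) (θ : ℝ) :
    (fourier n (θ : AddCircle (2 * π)) : ℂ) = Complex.exp ((θ : ℂ) * I) ^ n := by
  rw [fourier_coe_apply, ← Complex.exp_int_mul]
  congr 1
  have : (π : ℂ) ≠ 0 := by exact_mod_cast Real.pi_ne_zero
  push_cast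
  field_simp

lemma fourier_re {r : ℝ} (hr : 0 < r) (Q : C(AddCircle (2 * π), ℂ))
    (hQ : Q ∈ Submodule.span ℂ (range (@fourier (2 * π)))) :
    ∀ c : ℂ, ∃ P : ℂ → ℂ, Differentiable ℂ P ∧
      ∀ θ : ℝ, (P (r * Complex.exp ((θ : ℂ) * I))).re = (c * Q (θ : AddCircle (2 * π))).re := by
  have hr' : (r : ℂ) ≠ 0 := by exact_mod_cast hr.ne'
  induction hQ using Submodule.span_induction with
  | mem Q h =>
    obtain ⟨n, rfl⟩ := h
    intro c
    obtain ⟨k, rfl | rfl⟩ := n.eq_nat_or_neg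
    · refine ⟨fun z => c * (z / r) ^ k, by fun_prop, fun θ => ?_⟩
      simp only [mul_div_cancel_left₀ _ hr']
      rw [fourier_two_pi]
      simp
    · refine ⟨fun z => conj c * (z / r) ^ k, by fun_prop, fun θ => ?_⟩
      simp only [mul_div_cancel_left₀ _ hr']
      rw [fourier_neg, fourier_two_pi]
      rw [← Complex.conj_re (c * _), map_mul, Complex.conj_conj]
      simp
  | zero => exact fun c => ⟨fun _ => 0, by fun_prop, fun x => by simp⟩
  | add Q1 Q2 _ _ h1 h2 =>
    intro c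
    obtain ⟨P1, hd1, hP1⟩ := h1 c
    obtain ⟨P2, hd2, hP2⟩ := h2 c
    refine ⟨fun z => P1 z + P2 z, hd1.add hd2, fun x => ?_⟩
    simp only [Complex.add_re, hP1, hP2, ContinuousMap.add_apply, mul_add]
  | smul a Q _ h =>
    intro c
    obtain ⟨P, hd, hP⟩ := h (c * a)
    refine ⟨P, hd, fun x => ?_⟩
    rw [hP]
    simp [mul_assoc]

lemma circle_approx {r : ℝ} (hr : 0 < r) (u : ℂ → ℝ) (hu : ContinuousOn u (sphere 0 r))
    {ε : ℝ} (hε : 0 < ε) :
    ∃ P : ℂ → ℂ, Differentiable ℂ P ∧ ∀ z ∈ sphere (0 : ℂ) r, |u z - (P z).re| ≤ ε := by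
  have hnorm : ∀ x : AddCircle (2 * π), ‖(fourier 1 x : ℂ)‖ = 1 := by
    intro x
    induction x using QuotientAddGroup.induction_on with
    | H θ =>
      have := fourier_two_pi 1 θ
      simp only [zpow_one] at this
      erw [this]
      exact Complex.norm_exp_ofReal_mul_I θ
  have hmaps : ∀ x : AddCircle (2 * π), (r : ℂ) * (fourier 1 x : ℂ) ∈ sphere (0 : ℂ) r := by
    intro x
    rw [mem_sphere_zero_iff_norm, norm_mul, hnorm, mul_one, Complex.norm_real, Real.norm_of_nonneg hr.le]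
  have hcont : Continuous (fun x : AddCircle (2 * π) => (r : ℂ) * (fourier 1 x : ℂ)) :=
    continuous_const.mul (fourier 1).continuous
  set U : C(AddCircle (2 * π), ℂ) :=
    ⟨fun x => ((u (r * (fourier 1 x : ℂ)) : ℝ) : ℂ),
      Complex.continuous_ofReal.comp (hu.comp_continuous hcont hmaps)⟩ with hU
  have hmem : U ∈ (Submodule.span ℂ (range (@fourier (2 * π)))).topologicalClosure := by
    rw [span_fourier_closure_eq_top]; trivial
  rw [← SetLike.mem_coe, Submodule.topologicalClosure_coe, Metric.mem_closure_iff] at hmem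
  obtain ⟨Q, hQ, hdist⟩ := hmem ε hε
  obtain ⟨P, hPd, hP⟩ := fourier_re hr Q hQ 1
  refine ⟨P, hPd, fun z hz => ?_⟩
  have hz1 : ‖z‖ = r := by simpa using hz
  have hzx : z = (r : ℂ) * Complex.exp ((Complex.arg z : ℂ) * I) := by
    conv_lhs => rw [← Complex.norm_mul_exp_arg_mul_I z, hz1]
  rw [hzx, hP (Complex.arg z)]
  set x : AddCircle (2 * π) := ((Complex.arg z : ℝ) : AddCircle (2 * π)) with hx
  have h1 : ‖U x - Q x‖ ≤ ε := by
    have := (ContinuousMap.dist_apply_le_dist (f := U) (g := Q) x)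
    rw [dist_eq_norm] at this
    exact this.trans hdist.le
  have h3 : (fourier 1 x : ℂ) = Complex.exp ((Complex.arg z : ℂ) * I) := by
    have := fourier_two_pi 1 (Complex.arg z)
    simpa using this
  have h2 : (U x - Q x).re = u (r * Complex.exp ((Complex.arg z : ℂ) * I)) - (1 * Q x).re := by
    rw [← h3]
    simp [hU]
  rw [← h2]
  exact (Complex.abs_re_le_norm _).trans h1

end Pool.Agent.Run7.h820
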