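import Mathlib

open Complex MeasureTheory Metric Set Filter Topology
open scoped ENNReal Real

set_option autoImplicit false

namespace Pool.Agent.Run7.h820

/-- real determinant of complex multiplication -/
lemma det_smulRight (c : ℂ) :
    ((ContinuousLinearMap.toSpanSingleton ℂ c).restrictScalars ℝ : ℂ →L[ℝ] ℂ).det = ‖c‖ ^ 2 := by
  rw [ContinuousLinearMap.det]
  rw [← LinearMap.det_toMatrix Complex.basisOneI]
  rw [Matrix.det_fin_two]
  simp only [LinearMap.toMatrix_apply]
  rw [← Complex.normSq_eq_norm_sq, Complex.normSq_apply]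
  simp

/-- change of variables for injective holomorphic maps -/
lemma lintegral_holo_image {E : Set ℂ} (hE : MeasurableSet E) {φ φ' : ℂ → ℂ}
    (hd : ∀ z ∈ E, HasDerivAt φ (φ' z) z) (hinj : InjOn φ E) (g : ℂ → ℝ≥0∞) :
    ∫⁻ w in φ '' E, g w = ∫⁻ z in E, ENNReal.ofReal (‖φ' z‖ ^ 2) * g (φ z) := by
  have h := lintegral_image_eq_lintegral_abs_det_fderiv_mul volume hE
    (f := φ) (f' := fun z => ((ContinuousLinearMap.toSpanSingleton ℂ (φ' z)).restrictScalars ℝ : ℂ →L[ℝ] ℂ))
    (fun z hz => ((hd z hz).hasFDerivAt.restrictScalars ℝ).hasFDerivWithinAt) hinj g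
  rw [h]
  refine lintegral_congr fun z => ?_
  rw [det_smulRight, abs_of_nonneg (by positivity)]

/-- integral over an open rectangle as an iterated integral -/
lemma lintegral_rect (a b c d : ℝ) (g : ℂ → ℝ≥0∞)
    (hg : AEMeasurable g (volume.restrict (Ioo a b ×ℂ Ioo c d))) :
    ∫⁻ z in Ioo a b ×ℂ Ioo c d, g z = ∫⁻ y in Ioo c d, ∫⁻ x in Ioo a b, g (x + y * I) := by
  have h := (Complex.volume_preserving_equiv_real_prod.symm).setLIntegral_comp_preimage_emb
    Complex.measurableEquivRealProd.symm.measurableEmbedding g (Ioo a b ×ℂ Ioo c d)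
  rw [← h]
  have hpre : (Complex.measurableEquivRealProd.symm ⁻¹' (Ioo a b ×ℂ Ioo c d)) = Ioo a b ×ˢ Ioo c d := by
    ext p
    simp [Complex.mem_reProdIm]
  rw [hpre, Measure.volume_eq_prod, ← Measure.prod_restrict, lintegral_prod_symm]
  · refine lintegral_congr fun y => lintegral_congr fun x => ?_
    congr 1
    apply Complex.ext <;> simp
  · rw [Measure.prod_restrict, ← Measure.volume_eq_prod, ← hpre]
    exact hg.comp_quasiMeasurePreserving
      ((Complex.volume_preserving_equiv_real_prod.symm).restrict_preimage_emb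
        Complex.measurableEquivRealProd.symm.measurableEmbedding _).quasiMeasurePreserving

end Pool.Agent.Run7.h820
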