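import Pool.Agent.Run7.h820.Defs
import Pool.Agent.Run7.h820.CV

open Complex MeasureTheory Metric Set Filter Topology
open scoped ENNReal Real

set_option autoImplicit false

namespace Pool.Agent.Run7.h820

lemma ind_sum_le_valence {f : ℂ → ℂ} (hf : DifferentiableOn ℂ f (ball 0 1)) (R : ℝ)
    (E : ℕ → Set ℂ) (hE : Pairwise (Function.onFun Disjoint E)) (w : ℂ) :
    ∑' n, (f '' ((ball (0 : ℂ) 1 ∩ {z | ‖f z‖ < R}) ∩ E n)).indicator (fun _ => (1 : ℝ≥0∞)) w
      ≤ (ball (0 : ℂ) R).indicator (valence f) w := by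
  classical
  set s : Set ℂ := ball (0 : ℂ) 1 ∩ {z | ‖f z‖ < R} with hs
  set T : Set ℕ := {n | w ∈ f '' (s ∩ E n)} with hT
  have h1 : ∀ n, (f '' (s ∩ E n)).indicator (fun _ => (1 : ℝ≥0∞)) w = T.indicator (fun _ => (1 : ℝ≥0∞)) n := by
    intro n
    by_cases h : w ∈ f '' (s ∩ E n)
    · rw [indicator_of_mem h, indicator_of_mem (show n ∈ T from h)]
    · rw [indicator_of_notMem h, indicator_of_notMem (show n ∉ T from h)]
  simp_rw [h1]
  rw [← tsum_subtype T (fun _ => (1 : ℝ≥0∞))]
  by_cases hne : T.Nonempty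
  · obtain ⟨n0, hn0⟩ := hne
    have hw : w ∈ ball (0 : ℂ) R := by
      obtain ⟨z, hz, rfl⟩ := hn0
      simpa using hz.1.2
    rw [indicator_of_mem hw]
    choose zc hzc using fun n : T => n.2
    let φ : T → ball (0 : ℂ) 1 := fun n => ⟨zc n, (hzc n).1.1.1⟩
    have hφ : Function.Injective φ := by
      intro a b hab
      have h2 : zc a = zc b := congrArg Subtype.val hab
      by_contra hne
      have h3 : (a : ℕ) ≠ (b : ℕ) := fun h => hne (Subtype.ext h)
      have h4 := hE h3
      rw [Function.onFun, Set.disjoint_left] at h4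
      exact h4 (hzc a).1.2 (h2 ▸ (hzc b).1.2)
    refine le_trans ?_ (ENNReal.tsum_comp_le_tsum_of_injective hφ _)
    refine ENNReal.tsum_le_tsum fun n => ?_
    have hz : (φ n : ℂ) ∈ ball (0 : ℂ) 1 := (φ n).2
    have han : AnalyticAt ℂ (fun ζ => f ζ - w) (φ n : ℂ) :=
      (hf.analyticAt (isOpen_ball.mem_nhds hz)).sub analyticAt_const
    have h5 : analyticOrderAt (fun ζ => f ζ - w) (φ n : ℂ) ≠ 0 := by
      rw [analyticOrderAt_ne_zero]
      exact ⟨han, by simpa [φ, sub_eq_zero] using (hzc n).2⟩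
    have h6 : (1 : ℕ∞) ≤ analyticOrderAt (fun ζ => f ζ - w) (φ n : ℂ) :=
      ENat.one_le_iff_ne_zero.mpr h5
    calc (1 : ℝ≥0∞) = ((1 : ℕ∞) : ℝ≥0∞) := by simp
      _ ≤ _ := ENat.toENNReal_le.mpr h6
  · rw [not_nonempty_iff_eq_empty] at hne
    rw [hne]
    simp

lemma area_le_valence {f : ℂ → ℂ} (hf : DifferentiableOn ℂ f (ball 0 1)) (R : ℝ) :
    ∫⁻ z in ball (0 : ℂ) 1 ∩ {z | ‖f z‖ < R}, ENNReal.ofReal (‖deriv f z‖ ^ 2)
      ≤ ∫⁻ w in ball (0 : ℂ) R, valence f w := by
  classical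
  set s : Set ℂ := ball (0 : ℂ) 1 ∩ {z | ‖f z‖ < R} with hs
  have hso : IsOpen s := by
    have := hf.continuousOn.norm.isOpen_inter_preimage isOpen_ball (isOpen_Iio (a := R))
    exact this
  -- the good sets
  set b := TopologicalSpace.countableBasis ℂ with hb
  set G : Set (Set ℂ) := insert ∅ {V ∈ b | V ⊆ ball 0 1 ∧ InjOn f V ∧ ∀ z ∈ V, deriv f z ≠ 0} with hG
  have hGc : G.Countable :=
    ((TopologicalSpace.countable_countableBasis ℂ).mono (sep_subset _ _)).insert _
  obtain ⟨V, hV⟩ := hGc.exists_eq_range (insert_nonempty _ _)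
  have hVmem : ∀ n, V n ∈ G := fun n => hV ▸ mem_range_self n
  have hVopen : ∀ n, IsOpen (V n) := by
    intro n
    rcases hVmem n with h | h
    · rw [h]; exact isOpen_empty
    · exact TopologicalSpace.isOpen_of_mem_countableBasis h.1
  have hVsub : ∀ n, V n ⊆ ball 0 1 := by
    intro n
    rcases hVmem n with h | h
    · rw [h]; exact empty_subset _
    · exact h.2.1
  have hVinj : ∀ n, InjOn f (V n) := by
    intro n
    rcases hVmem n with h | h
    · rw [h]; exact injOn_empty _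
    · exact h.2.2.1
  have hVd : ∀ n, ∀ z ∈ V n, deriv f z ≠ 0 := by
    intro n
    rcases hVmem n with h | h
    · rw [h]; intro z hz; exact absurd hz (notMem_empty z)
    · exact h.2.2.2
  have hcover : ∀ z ∈ ball (0 : ℂ) 1, deriv f z ≠ 0 → ∃ n, z ∈ V n := by
    intro z hz hd
    have han : AnalyticAt ℂ f z := hf.analyticAt (isOpen_ball.mem_nhds hz)
    have hstrict : HasStrictDerivAt f (deriv f z) z := han.hasStrictDerivAt
    have h1 : ∃ W ∈ 𝓝 z, InjOn f W := by
      have hop := hstrict.hasStrictFDerivAt_equiv hd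
      refine ⟨(hop.toOpenPartialHomeomorph f).source, ?_, ?_⟩
      · exact (hop.toOpenPartialHomeomorph f).open_source.mem_nhds hop.mem_toOpenPartialHomeomorph_source
      · exact (hop.toOpenPartialHomeomorph f).injOn
    obtain ⟨W, hW, hWi⟩ := h1
    have h2 : {y | deriv f y ≠ 0} ∈ 𝓝 z := by
      have hc : ContinuousAt (deriv f) z := han.deriv.continuousAt
      exact hc.eventually_ne hd
    have h3 : W ∩ {y | deriv f y ≠ 0} ∩ ball 0 1 ∈ 𝓝 z :=
      Filter.inter_mem (Filter.inter_mem hW h2) (isOpen_ball.mem_nhds hz)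
    obtain ⟨B, hB, hzB, hBs⟩ := (TopologicalSpace.isBasis_countableBasis ℂ).mem_nhds_iff.mp h3
    have hBG : B ∈ G := by
      refine Or.inr ⟨hB, fun y hy => (hBs hy).2, fun x hx y hy h => ?_, fun y hy => (hBs hy).1.2⟩
      exact hWi (hBs hx).1.1 (hBs hy).1.1 h
    rw [hV] at hBG
    obtain ⟨n, hn⟩ := hBG
    exact ⟨n, hn ▸ hzB⟩
  set E : ℕ → Set ℂ := disjointed V with hE
  have hEd : Pairwise (Function.onFun Disjoint E) := disjoint_disjointed V
  have hEm : ∀ n, MeasurableSet (E n) := fun n => MeasurableSet.disjointed (fun k => (hVopen k).measurableSet) n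
  have hEV : ∀ n, E n ⊆ V n := fun n => disjointed_subset V n
  have hEU : ⋃ n, E n = ⋃ n, V n := iUnion_disjointed
  set U : Set ℂ := ⋃ n, E n with hU
  have hUm : MeasurableSet U := MeasurableSet.iUnion hEm
  rw [← lintegral_inter_add_diff _ s hUm]
  have hz : ∫⁻ z in s \ U, ENNReal.ofReal (‖deriv f z‖ ^ 2) = 0 := by
    rw [lintegral_eq_zero_iff' ?_]
    · rw [EventuallyEq, ae_restrict_iff' (hso.measurableSet.diff hUm)]
      refine ae_of_all _ fun z hz => ?_
      have : deriv f z = 0 := by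
        by_contra hne
        obtain ⟨n, hn⟩ := hcover z hz.1.1 hne
        exact hz.2 (by rw [hEU]; exact mem_iUnion.mpr ⟨n, hn⟩)
      simp [this]
    · exact ((measurable_deriv f).norm.pow_const 2).ennreal_ofReal.aemeasurable
  rw [hz, add_zero, hU, inter_iUnion]
  rw [lintegral_iUnion (fun n => hso.measurableSet.inter (hEm n))]
  swap
  · intro i j hij
    exact (hEd hij).mono inter_subset_right inter_subset_right
  have hdiff : ∀ n, ∀ z ∈ s ∩ E n, HasDerivAt f (deriv f z) z := fun n z hz =>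
    (hf.differentiableAt (isOpen_ball.mem_nhds hz.1.1)).hasDerivAt
  have hinj : ∀ n, InjOn f (s ∩ E n) := fun n => (hVinj n).mono (inter_subset_right.trans (hEV n))
  have himg : ∀ n, MeasurableSet (f '' (s ∩ E n)) := fun n =>
    measurable_image_of_fderivWithin (hso.measurableSet.inter (hEm n))
      (fun z hz => ((hdiff n z hz).hasFDerivAt.restrictScalars ℝ).hasFDerivWithinAt) (hinj n)
  have hterm : ∀ n, ∫⁻ z in s ∩ E n, ENNReal.ofReal (‖deriv f z‖ ^ 2)
      = ∫⁻ w, (f '' (s ∩ E n)).indicator (fun _ => (1 : ℝ≥0∞)) w := by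
    intro n
    have h := lintegral_holo_image (hso.measurableSet.inter (hEm n)) (hdiff n) (hinj n) (fun _ => 1)
    simp only [mul_one] at h
    rw [← h, lintegral_indicator (himg n)]
  simp_rw [hterm]
  rw [← lintegral_tsum (fun n => (measurable_const.indicator (himg n)).aemeasurable)]
  rw [← lintegral_indicator measurableSet_ball]
  exact lintegral_mono fun w => ind_sum_le_valence hf R E hEd w

end Pool.Agent.Run7.h820
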