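import Pool.Agent.Run7.h820.Area

open Complex MeasureTheory Metric Set Filter Topology
open scoped ENNReal Real

set_option autoImplicit false

namespace Pool.Agent.Run7.h820

lemma inj_decomp {f : ℂ → ℂ} (hf : DifferentiableOn ℂ f (ball 0 1)) :
    ∃ E : ℕ → Set ℂ, Pairwise (Function.onFun Disjoint E) ∧ (∀ n, MeasurableSet (E n)) ∧
      (∀ n, InjOn f (E n)) ∧ (∀ z ∈ ball (0 : ℂ) 1, deriv f z ≠ 0 → ∃ n, z ∈ E n) := by
  classical
  set b := TopologicalSpace.countableBasis ℂ with hb
  set G : Set (Set ℂ) := insert ∅ {V ∈ b | V ⊆ ball 0 1 ∧ InjOn f V ∧ ∀ z ∈ V, deriv f z ≠ 0} with hG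
  have hGc : G.Countable :=
    ((TopologicalSpace.countable_countableBasis ℂ).mono (sep_subset _ _)).insert _
  obtain ⟨V, hV⟩ := hGc.exists_eq_range (insert_nonempty _ _)
  have hVmem : ∀ n, V n ∈ G := fun n => hV ▸ mem_range_self n
  have hVopen : ∀ n, IsOpen (V n) := by
    intro n
    rcases hVmem n with h | h
    · rw [h]; exact isOpen_empty
    · exact TopologicalSpace.isOpen_of_mem_countableBasis h.1
  have hVinj : ∀ n, InjOn f (V n) := by
    intro n
    rcases hVmem n with h | h
    · rw [h]; exact injOn_empty _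
    · exact h.2.2.1
  have hcover : ∀ z ∈ ball (0 : ℂ) 1, deriv f z ≠ 0 → ∃ n, z ∈ V n := by
    intro z hz hd
    have han : AnalyticAt ℂ f z := hf.analyticAt (isOpen_ball.mem_nhds hz)
    have hstrict : HasStrictDerivAt f (deriv f z) z := han.hasStrictDerivAt
    have h1 : ∃ W ∈ 𝓝 z, InjOn f W := by
      have hop := hstrict.hasStrictFDerivAt_equiv hd
      refine ⟨(hop.toOpenPartialHomeomorph f).source, ?_, ?_⟩
      · exact (hop.toOpenPartialHomeomorph f).open_source.mem_nhds hop.mem_toOpenPartialHomeomorph_source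
      · exact (hop.toOpenPartialHomeomorph f).injOn
    obtain ⟨W, hW, hWi⟩ := h1
    have h2 : {y | deriv f y ≠ 0} ∈ 𝓝 z := by
      have hc : ContinuousAt (deriv f) z := han.deriv.continuousAt
      exact hc.eventually_ne hd
    have h3 : W ∩ {y | deriv f y ≠ 0} ∩ ball 0 1 ∈ 𝓝 z :=
      Filter.inter_mem (Filter.inter_mem hW h2) (isOpen_ball.mem_nhds hz)
    obtain ⟨B, hB, hzB, hBs⟩ := (TopologicalSpace.isBasis_countableBasis ℂ).mem_nhds_iff.mp h3
    have hBG : B ∈ G := by
      refine Or.inr ⟨hB, fun y hy => (hBs hy).2, fun x hx y hy h => ?_, fun y hy => (hBs hy).1.2⟩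
      exact hWi (hBs hx).1.1 (hBs hy).1.1 h
    rw [hV] at hBG
    obtain ⟨n, hn⟩ := hBG
    exact ⟨n, hn ▸ hzB⟩
  refine ⟨disjointed V, disjoint_disjointed V,
    fun n => MeasurableSet.disjointed (fun k => (hVopen k).measurableSet) n,
    fun n => (hVinj n).mono (disjointed_subset V n), fun z hz hd => ?_⟩
  obtain ⟨n, hn⟩ := hcover z hz hd
  have : z ∈ ⋃ n, disjointed V n := by
    rw [iUnion_disjointed]
    exact mem_iUnion.mpr ⟨n, hn⟩
  exact mem_iUnion.mp this

/-- the area formula, other direction -/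
lemma valence_le_area {f : ℂ → ℂ} (hf : DifferentiableOn ℂ f (ball 0 1)) (R : ℝ) :
    ∫⁻ w in ball (0 : ℂ) R, valence f w ≤
      ∫⁻ z in ball (0 : ℂ) 1 ∩ {z | ‖f z‖ < R}, ENNReal.ofReal (‖deriv f z‖ ^ 2) := by
  classical
  set s : Set ℂ := ball (0 : ℂ) 1 ∩ {z | ‖f z‖ < R} with hs
  have hso : IsOpen s := by
    have := hf.continuousOn.norm.isOpen_inter_preimage isOpen_ball (isOpen_Iio (a := R))
    exact this
  obtain ⟨E, hEd, hEm, hEinj, hEc⟩ := inj_decomp hf
  have hdiff : ∀ n, ∀ z ∈ s ∩ E n, HasDerivAt f (deriv f z) z := fun n z hz =>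
    (hf.differentiableAt (isOpen_ball.mem_nhds hz.1.1)).hasDerivAt
  have hinj : ∀ n, InjOn f (s ∩ E n) := fun n => (hEinj n).mono inter_subset_right
  have himg : ∀ n, MeasurableSet (f '' (s ∩ E n)) := fun n =>
    measurable_image_of_fderivWithin (hso.measurableSet.inter (hEm n))
      (fun z hz => ((hdiff n z hz).hasFDerivAt.restrictScalars ℝ).hasFDerivWithinAt) (hinj n)
  have hterm : ∀ n, ∫⁻ z in s ∩ E n, ENNReal.ofReal (‖deriv f z‖ ^ 2)
      = ∫⁻ w, (f '' (s ∩ E n)).indicator (fun _ => (1 : ℝ≥0∞)) w := by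
    intro n
    have h := lintegral_holo_image (hso.measurableSet.inter (hEm n)) (hdiff n) (hinj n) (fun _ => 1)
    simp only [mul_one] at h
    rw [← h, lintegral_indicator (himg n)]
  -- the critical values
  set Z : Set ℂ := {z ∈ ball (0 : ℂ) 1 | deriv f z = 0} with hZ
  have hnull : volume (f '' Z) = 0 := by
    refine addHaar_image_eq_zero_of_det_fderivWithin_eq_zero volume (s := Z)
      (f' := fun z => ((ContinuousLinearMap.smulRight (1 : ℂ →L[ℂ] ℂ) (deriv f z)).restrictScalars ℝ)) ?_ ?_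
    · intro z hz
      have h1 : HasDerivAt f (deriv f z) z :=
        (hf.differentiableAt (isOpen_ball.mem_nhds hz.1)).hasDerivAt
      exact (h1.hasFDerivAt.restrictScalars ℝ).hasFDerivWithinAt
    · intro z hz
      rw [hz.2]
      have : (ContinuousLinearMap.restrictScalars ℝ (ContinuousLinearMap.smulRight (1 : ℂ →L[ℂ] ℂ) (0 : ℂ))) = 0 := by
        ext <;> simp
      rw [this]
      simp [ContinuousLinearMap.det]
  have hpt : ∀ w ∉ f '' Z, (ball (0 : ℂ) R).indicator (valence f) w ≤
      ∑' n, (f '' (s ∩ E n)).indicator (fun _ => (1 : ℝ≥0∞)) w := by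
    intro w hw
    by_cases hwR : w ∈ ball (0 : ℂ) R
    swap
    · rw [indicator_of_notMem hwR]; exact bot_le
    rw [indicator_of_mem hwR]
    set T : Set ℕ := {n | w ∈ f '' (s ∩ E n)} with hT
    have h1 : ∀ n, (f '' (s ∩ E n)).indicator (fun _ => (1 : ℝ≥0∞)) w = T.indicator (fun _ => (1 : ℝ≥0∞)) n := by
      intro n
      by_cases h : w ∈ f '' (s ∩ E n)
      · rw [indicator_of_mem h, indicator_of_mem (show n ∈ T from h)]
      · rw [indicator_of_notMem h, indicator_of_notMem (show n ∉ T from h)]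
    simp_rw [h1]
    rw [← tsum_subtype T (fun _ => (1 : ℝ≥0∞))]
    -- valence as a sum over the preimage
    set P : Set (ball (0 : ℂ) 1) := {z | f z = w} with hP
    have h2 : valence f w = ∑' z : P, (1 : ℝ≥0∞) := by
      unfold valence
      rw [← tsum_subtype_eq_of_support_subset (s := P)]
      · refine tsum_congr fun z => ?_
        have hz : f (z : ball (0 : ℂ) 1) = w := z.2
        have hd : deriv f (z : ball (0 : ℂ) 1) ≠ 0 := by
          intro h0
          exact hw ⟨_, ⟨(z : ball (0 : ℂ) 1).2, h0⟩, hz⟩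
        have han : AnalyticAt ℂ f ((z : ball (0 : ℂ) 1) : ℂ) :=
          hf.analyticAt (isOpen_ball.mem_nhds (z : ball (0 : ℂ) 1).2)
        have h3 := han.analyticOrderAt_sub_eq_one_of_deriv_ne_zero hd
        rw [hz] at h3
        rw [h3]
        simp
      · intro y hy
        by_contra hne
        apply hy
        have h7 : analyticOrderAt (fun ζ => f ζ - w) (y : ℂ) = 0 := by
          rw [analyticOrderAt_eq_zero]
          right
          intro h8
          exact hne (sub_eq_zero.mp h8)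
        simp only [h7]
        simp
    rw [h2]
    have h4 : ∀ z : P, ∃ n : T, ((z : ball (0 : ℂ) 1) : ℂ) ∈ E n := by
      intro z
      have hz : f (z : ball (0 : ℂ) 1) = w := z.2
      have hd : deriv f (z : ball (0 : ℂ) 1) ≠ 0 := by
        intro h0
        exact hw ⟨_, ⟨(z : ball (0 : ℂ) 1).2, h0⟩, hz⟩
      obtain ⟨n, hn⟩ := hEc _ (z : ball (0 : ℂ) 1).2 hd
      refine ⟨⟨n, ?_⟩, hn⟩
      refine ⟨_, ⟨⟨(z : ball (0 : ℂ) 1).2, ?_⟩, hn⟩, hz⟩
      rw [mem_ofPred_eq, hz]
      simpa using hwR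
    choose φ hφ using h4
    have hφi : Function.Injective φ := by
      intro a b hab
      have ha := hφ a
      have hb := hφ b
      rw [← hab] at hb
      have hfa : f (a : ball (0 : ℂ) 1) = w := a.2
      have hfb : f (b : ball (0 : ℂ) 1) = w := b.2
      have h5 := hEinj _ ha hb (hfa.trans hfb.symm)
      exact Subtype.ext (Subtype.ext h5)
    exact ENNReal.tsum_comp_le_tsum_of_injective hφi (fun _ : T => (1 : ℝ≥0∞))
  have hae : ∀ᵐ w : ℂ, (ball (0 : ℂ) R).indicator (valence f) w ≤
      ∑' n, (f '' (s ∩ E n)).indicator (fun _ => (1 : ℝ≥0∞)) w := by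
    rw [ae_iff]
    refine measure_mono_null (fun w hw => ?_) hnull
    by_contra hne
    exact hw (hpt w hne)
  rw [← lintegral_indicator measurableSet_ball]
  refine (lintegral_mono_ae hae).trans ?_
  rw [lintegral_tsum (fun n => (measurable_const.indicator (himg n)).aemeasurable)]
  simp_rw [← hterm]
  rw [← lintegral_iUnion (fun n => hso.measurableSet.inter (hEm n))]
  · apply lintegral_mono_set
    exact iUnion_subset fun n => inter_subset_left
  · intro i j hij
    exact (hEd hij).mono inter_subset_right inter_subset_right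

end Pool.Agent.Run7.h820
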