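import Mathlib

open Complex MeasureTheory Metric Set Filter Topology
open scoped ENNReal Real

set_option autoImplicit false

namespace Pool.Agent.Run7.h820

lemma lintegral_lin (c b : ℝ) (hc : 0 ≤ c) (hb : 0 ≤ b) :
    ∫⁻ R in Ioo (0 : ℝ) b, ENNReal.ofReal (2 * c * R) = ENNReal.ofReal (c * b ^ 2) := by
  have h1 : ∫ R in (0 : ℝ)..b, 2 * c * R = c * b ^ 2 := by
    have : ∀ x ∈ uIcc (0 : ℝ) b, HasDerivAt (fun R : ℝ => c * R ^ 2) (2 * c * x) x := by
      intro x _
      have := ((hasDerivAt_id x).pow 2).const_mul c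
      simp only [id_eq] at this
      refine this.congr_deriv ?_
      ring
    rw [intervalIntegral.integral_eq_sub_of_hasDerivAt this]
    · ring
    · apply Continuous.intervalIntegrable
      fun_prop
  rw [restrict_Ioo_eq_restrict_Ioc, ← ofReal_integral_eq_lintegral_ofReal]
  · rw [← intervalIntegral.integral_of_le hb, h1]
  · have : IntervalIntegrable (fun R : ℝ => 2 * c * R) volume 0 b := by
      apply Continuous.intervalIntegrable
      fun_prop
    rw [intervalIntegrable_iff_integrableOn_Ioc_of_le hb] at this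
    exact this
  · rw [EventuallyLE, ae_restrict_iff' measurableSet_Ioc]
    refine ae_of_all _ fun x hx => ?_
    have : 0 ≤ x := hx.1.le
    simp only [Pi.zero_apply]
    positivity

lemma weight_lemma {α : Type*} [MeasurableSpace α] (μ : Measure α) (h : α → ℝ) (hm : Measurable h)
    (hpos : ∀ x, 0 < h x) (c : ℝ) (hc : 0 ≤ c)
    (hμ : ∀ R : ℝ, 0 < R → μ {x | h x < R} ≤ ENNReal.ofReal (c * R ^ 2))
    (ψ : ℝ → ℝ) (hψm : Measurable ψ) (hψa : AntitoneOn ψ (Ioi 0)) (hψ0 : ∀ R, 0 < R → 0 ≤ ψ R) :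
    ∫⁻ x, ENNReal.ofReal (ψ (h x)) ∂μ ≤ ∫⁻ R in Ioi (0 : ℝ), ENNReal.ofReal (ψ R * (2 * c * R)) := by
  set ν : Measure ℝ := (volume.restrict (Ioi (0 : ℝ))).withDensity
    (fun R => ENNReal.ofReal (2 * c * R)) with hν
  have hdm : Measurable (fun R : ℝ => ENNReal.ofReal (2 * c * R)) := by fun_prop
  have hRHS : ∫⁻ R in Ioi (0 : ℝ), ENNReal.ofReal (ψ R * (2 * c * R)) = ∫⁻ R, ENNReal.ofReal (ψ R) ∂ν := by
    rw [hν, lintegral_withDensity_eq_lintegral_mul _ hdm hψm.ennreal_ofReal]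
    refine setLIntegral_congr_fun measurableSet_Ioi fun R hR => ?_
    simp only [Pi.mul_apply]
    rw [← ENNReal.ofReal_mul (by have : 0 < R := hR; positivity), mul_comm]
  rw [hRHS]
  have hνae : 0 ≤ᵐ[ν] ψ := by
    have h1 : ∀ᵐ R ∂(volume.restrict (Ioi (0 : ℝ))), 0 ≤ ψ R := by
      rw [ae_restrict_iff' measurableSet_Ioi]
      exact ae_of_all _ fun R hR => hψ0 R hR
    exact (withDensity_absolutelyContinuous _ _).ae_le h1
  rw [lintegral_eq_lintegral_meas_lt μ (ae_of_all _ fun x => hψ0 _ (hpos x)) (hψm.comp hm).aemeasurable,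
    lintegral_eq_lintegral_meas_lt ν hνae hψm.aemeasurable]
  have hνIoo : ∀ b : ℝ, 0 ≤ b → ν (Ioo 0 b) = ENNReal.ofReal (c * b ^ 2) := by
    intro b hb
    rw [hν, withDensity_apply _ measurableSet_Ioo, Measure.restrict_restrict measurableSet_Ioo,
      inter_eq_left.mpr (fun x hx => hx.1), lintegral_lin c b hc hb]
  refine setLIntegral_mono' measurableSet_Ioi fun t ht => ?_
  set At : Set ℝ := {R | 0 < R ∧ t < ψ R} with hAt
  have hlow : ∀ R ∈ At, ∀ R', 0 < R' → R' ≤ R → R' ∈ At := by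
    intro R hR R' hR' hle
    exact ⟨hR', lt_of_lt_of_le hR.2 (hψa hR' hR.1 hle)⟩
  have hL : {a | t < ψ (h a)} ⊆ {a | h a ∈ At} := fun a ha => ⟨hpos a, ha⟩
  have hR : At ⊆ {R | t < ψ R} := fun R hR => hR.2
  refine (measure_mono hL).trans (le_trans ?_ (measure_mono hR))
  rcases At.eq_empty_or_nonempty with he | hne
  · rw [he]; simp
  by_cases hbd : BddAbove At
  · set b := sSup At with hb
    obtain ⟨R0, hR0⟩ := hne
    have hb0 : 0 < b := lt_of_lt_of_le hR0.1 (le_csSup hbd hR0)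
    have h1 : {a | h a ∈ At} ⊆ {a | h a ≤ b} := fun a ha => le_csSup hbd ha
    have h2 : Ioo 0 b ⊆ At := by
      intro x hx
      obtain ⟨y, hy, hxy⟩ := exists_lt_of_lt_csSup ⟨R0, hR0⟩ hx.2
      exact hlow y hy x hx.1 hxy.le
    refine (measure_mono h1).trans (le_trans ?_ (measure_mono h2))
    rw [hνIoo b hb0.le]
    have h3 : ∀ n : ℕ, μ {a | h a ≤ b} ≤ ENNReal.ofReal (c * (b + 1 / ((n : ℝ) + 1)) ^ 2) := by
      intro n
      refine (measure_mono ?_).trans (hμ _ (by positivity))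
      intro a ha
      have : (0 : ℝ) < 1 / ((n : ℝ) + 1) := by positivity
      simp only [mem_setOf_eq] at ha ⊢
      linarith
    have h4 : Tendsto (fun n : ℕ => ENNReal.ofReal (c * (b + 1 / ((n : ℝ) + 1)) ^ 2)) atTop
        (𝓝 (ENNReal.ofReal (c * (b + 0) ^ 2))) := by
      apply ENNReal.tendsto_ofReal
      exact ((tendsto_one_div_add_atTop_nhds_zero_nat.const_add b).pow 2).const_mul c
    rw [add_zero] at h4
    exact ge_of_tendsto' h4 h3
  · have h2 : Ioi 0 ⊆ At := by
      intro x hx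
      rw [not_bddAbove_iff] at hbd
      obtain ⟨y, hy, hxy⟩ := hbd x
      exact hlow y hy x hx hxy.le
    have h5 : {a | h a ∈ At} ⊆ ⋃ n : ℕ, {a | h a < (n : ℝ) + 1} := by
      intro a _
      obtain ⟨n, hn⟩ := exists_nat_gt (h a)
      exact mem_iUnion.mpr ⟨n, by simp only [mem_setOf_eq]; linarith⟩
    refine (measure_mono h5).trans ?_
    have hmono : Monotone (fun n : ℕ => {a | h a < (n : ℝ) + 1}) := by
      intro m n hmn a ha
      simp only [mem_setOf_eq] at ha ⊢
      have : (m : ℝ) ≤ n := by exact_mod_cast hmn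
      linarith
    rw [hmono.measure_iUnion]
    refine iSup_le fun n => ?_
    refine (hμ _ (by positivity)).trans ?_
    rw [← hνIoo _ (by positivity)]
    exact measure_mono (fun x hx => h2 hx.1)

end Pool.Agent.Run7.h820
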