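import Pool.Agent.Run7.h820.CV
import Pool.Agent.Run7.h820.Weight

open Complex MeasureTheory Metric Set Filter Topology
open scoped ENNReal Real

set_option autoImplicit false

namespace Pool.Agent.Run7.h820

/-- `exp ∘ F` is areally mean `p`-valent (area form), `F` analytic in the unit disc -/
structure LogArea (p : ℝ) (F : ℂ → ℂ) : Prop where
  diff : DifferentiableOn ℂ F (ball 0 1)
  area : ∀ R : ℝ, 0 < R → ∫⁻ z in ball (0 : ℂ) 1 ∩ {z | Real.exp (F z).re < R},
    ENNReal.ofReal (‖deriv F z‖ ^ 2 * Real.exp (2 * (F z).re)) ≤ ENNReal.ofReal (π * p * R ^ 2)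

lemma LogArea.hasDerivAt {p : ℝ} {F : ℂ → ℂ} (h : LogArea p F) {z : ℂ} (hz : z ∈ ball (0 : ℂ) 1) :
    HasDerivAt F (deriv F z) z :=
  (h.diff.differentiableAt (isOpen_ball.mem_nhds hz)).hasDerivAt

lemma contOn_deriv {F : ℂ → ℂ} (h : DifferentiableOn ℂ F (ball 0 1)) :
    ContinuousOn (deriv F) (ball 0 1) :=
  (h.deriv isOpen_ball).continuousOn

lemma isOpen_lev {F : ℂ → ℂ} (h : DifferentiableOn ℂ F (ball 0 1)) (R : ℝ) :
    IsOpen (ball (0 : ℂ) 1 ∩ {z | Real.exp (F z).re < R}) := by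
  have hc : ContinuousOn (fun z => Real.exp (F z).re) (ball (0 : ℂ) 1) := by
    have := h.continuousOn
    fun_prop
  exact hc.isOpen_inter_preimage isOpen_ball (isOpen_Iio (a := R))

lemma LogArea.weight {p : ℝ} (hp : 0 ≤ p) {F : ℂ → ℂ} (h : LogArea p F)
    (ψ : ℝ → ℝ) (hψm : Measurable ψ) (hψa : AntitoneOn ψ (Ioi 0)) (hψ0 : ∀ R, 0 < R → 0 ≤ ψ R) :
    ∫⁻ z in ball (0 : ℂ) 1, ENNReal.ofReal (ψ (Real.exp (F z).re) *
      (‖deriv F z‖ ^ 2 * Real.exp (2 * (F z).re)))
      ≤ ∫⁻ R in Ioi (0 : ℝ), ENNReal.ofReal (ψ R * (2 * (π * p) * R)) := by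
  classical
  set D : Set ℂ := ball (0 : ℂ) 1 with hD
  set d : ℂ → ℝ≥0∞ := fun z => ENNReal.ofReal (‖deriv F z‖ ^ 2 * Real.exp (2 * (F z).re)) with hd
  have hcF : ContinuousOn F D := h.diff.continuousOn
  have hcF' : ContinuousOn (deriv F) D := contOn_deriv h.diff
  have hdc : ContinuousOn (fun z => ‖deriv F z‖ ^ 2 * Real.exp (2 * (F z).re)) D := by fun_prop
  have hdm : AEMeasurable d (volume.restrict D) :=
    (hdc.aemeasurable measurableSet_ball).ennreal_ofReal
  set H : ℂ → ℝ := D.piecewise (fun z => Real.exp (F z).re) (fun _ => 1) with hH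
  have hHm : Measurable H := by
    apply ContinuousOn.measurable_piecewise _ continuousOn_const measurableSet_ball
    fun_prop
  have hHpos : ∀ x, 0 < H x := by
    intro x
    by_cases hx : x ∈ D
    · rw [hH, piecewise_eq_of_mem _ _ _ hx]; positivity
    · rw [hH, piecewise_eq_of_notMem _ _ _ hx]; norm_num
  have key := weight_lemma ((volume.restrict D).withDensity d) H hHm hHpos (π * p)
    (by positivity) ?_ ψ hψm hψa hψ0
  · refine le_trans (le_of_eq ?_) key
    have hm2 : AEMeasurable (fun x => ENNReal.ofReal (ψ (H x)))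
        ((volume.restrict D).withDensity d) := (hψm.comp hHm).ennreal_ofReal.aemeasurable
    have hm3 : AEMeasurable (fun x => ENNReal.ofReal (ψ (H x)))
        (volume.restrict D) := (hψm.comp hHm).ennreal_ofReal.aemeasurable
    rw [lintegral_withDensity_eq_lintegral_mul₀ hdm hm3]
    refine setLIntegral_congr_fun measurableSet_ball fun z hz => ?_
    simp only [Pi.mul_apply, hd]
    have hHz : H z = Real.exp (F z).re := by
      rw [hH, piecewise_eq_of_mem _ _ _ hz]
    rw [hHz, mul_comm, ← ENNReal.ofReal_mul (by positivity)]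
  · intro R hR
    have hms : MeasurableSet {x | H x < R} := hHm measurableSet_Iio
    rw [withDensity_apply _ hms, Measure.restrict_restrict hms]
    have hset : {x | H x < R} ∩ D = D ∩ {z | Real.exp (F z).re < R} := by
      ext z
      constructor
      · rintro ⟨h1, h2⟩
        refine ⟨h2, ?_⟩
        simp only [hH, mem_ofPred_eq] at h1
        rw [piecewise_eq_of_mem _ _ _ h2] at h1
        exact h1
      · rintro ⟨h1, h2⟩
        refine ⟨?_, h1⟩
        simp only [hH, mem_ofPred_eq]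
        rw [piecewise_eq_of_mem _ _ _ h1]
        exact h2
    rw [hset]
    exact h.area R hR

lemma LogArea.sub_const {p : ℝ} {F : ℂ → ℂ} (h : LogArea p F) (c : ℂ) :
    LogArea p (fun z => F z - c) := by
  refine ⟨h.diff.sub_const c, fun R hR => ?_⟩
  have h1 := h.area (R * Real.exp c.re) (by positivity)
  have hset : {z | Real.exp (F z - c).re < R} = {z | Real.exp (F z).re < R * Real.exp c.re} := by
    ext z
    simp only [mem_ofPred_eq, Complex.sub_re, Real.exp_sub]
    rw [div_lt_iff₀ (Real.exp_pos _)]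
  rw [hset]
  have h2 : ∀ z, ENNReal.ofReal (‖deriv (fun z => F z - c) z‖ ^ 2 * Real.exp (2 * (F z - c).re))
      = ENNReal.ofReal (Real.exp (-(2 * c.re))) *
        ENNReal.ofReal (‖deriv F z‖ ^ 2 * Real.exp (2 * (F z).re)) := by
    intro z
    rw [← ENNReal.ofReal_mul (by positivity), deriv_sub_const]
    congr 1
    have : 2 * (F z - c).re = -(2 * c.re) + 2 * (F z).re := by
      simp only [Complex.sub_re]; ring
    rw [this, Real.exp_add]
    ring
  simp_rw [h2]
  rw [lintegral_const_mul' _ _ ENNReal.ofReal_ne_top]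
  refine (mul_le_mul_right h1 _).trans ?_
  rw [← ENNReal.ofReal_mul (by positivity)]
  apply ENNReal.ofReal_le_ofReal
  apply le_of_eq
  have : Real.exp (-(2 * c.re)) * Real.exp c.re ^ 2 = 1 := by
    rw [← Real.exp_nat_mul, ← Real.exp_add]
    simp
  calc Real.exp (-(2 * c.re)) * (π * p * (R * Real.exp c.re) ^ 2)
      = (Real.exp (-(2 * c.re)) * Real.exp c.re ^ 2) * (π * p * R ^ 2) := by ring
    _ = π * p * R ^ 2 := by rw [this, one_mul]

lemma LogArea.comp {p : ℝ} {F : ℂ → ℂ} (h : LogArea p F) {φ : ℂ → ℂ}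
    (hφ : DifferentiableOn ℂ φ (ball 0 1)) (hmaps : MapsTo φ (ball (0 : ℂ) 1) (ball 0 1))
    (hinj : InjOn φ (ball 0 1)) : LogArea p (fun z => F (φ z)) := by
  refine ⟨h.diff.comp hφ hmaps, fun R hR => ?_⟩
  refine le_trans ?_ (h.area R hR)
  set E : Set ℂ := ball (0 : ℂ) 1 ∩ {z | Real.exp (F (φ z)).re < R} with hE
  have hEo : IsOpen E := isOpen_lev (h.diff.comp hφ hmaps) R
  have h1 := lintegral_holo_image hEo.measurableSet (φ := φ) (φ' := deriv φ)
    (fun z hz => (hφ.differentiableAt (isOpen_ball.mem_nhds hz.1)).hasDerivAt)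
    (hinj.mono inter_subset_left)
    (fun w => ENNReal.ofReal (‖deriv F w‖ ^ 2 * Real.exp (2 * (F w).re)))
  have h2 : ∫⁻ z in E, ENNReal.ofReal (‖deriv (fun z => F (φ z)) z‖ ^ 2 * Real.exp (2 * (F (φ z)).re))
      = ∫⁻ z in E, ENNReal.ofReal (‖deriv φ z‖ ^ 2) *
        ENNReal.ofReal (‖deriv F (φ z)‖ ^ 2 * Real.exp (2 * (F (φ z)).re)) := by
    refine setLIntegral_congr_fun hEo.measurableSet fun z hz => ?_
    have hd : deriv (fun z => F (φ z)) z = deriv F (φ z) * deriv φ z :=
      ((h.hasDerivAt (hmaps hz.1)).comp z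
        (hφ.differentiableAt (isOpen_ball.mem_nhds hz.1)).hasDerivAt).deriv
    rw [hd, ← ENNReal.ofReal_mul (by positivity), norm_mul]
    congr 1
    ring
  rw [h2, ← h1]
  apply lintegral_mono_set
  rintro w ⟨z, hz, rfl⟩
  exact ⟨hmaps hz.1, hz.2⟩

end Pool.Agent.Run7.h820
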