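import Pool.Agent.Run7.h820.Valence
import Pool.Agent.Run7.h820.LogArea

open Complex MeasureTheory Metric Set Filter Topology
open scoped ENNReal Real ComplexConjugate

set_option autoImplicit false

namespace Pool.Agent.Run7.h820

lemma exists_log {f : ℂ → ℂ} (hf : DifferentiableOn ℂ f (ball 0 1)) (h0 : ∀ z ∈ ball (0 : ℂ) 1, f z ≠ 0) :
    ∃ F : ℂ → ℂ, DifferentiableOn ℂ F (ball 0 1) ∧ ∀ z ∈ ball (0 : ℂ) 1, exp (F z) = f z := by
  have hd : DifferentiableOn ℂ (fun z => deriv f z / f z) (ball 0 1) :=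
    (hf.deriv isOpen_ball).div hf h0
  obtain ⟨G, hG⟩ := hd.isExactOn_ball
  have h0mem : (0 : ℂ) ∈ ball (0 : ℂ) 1 := by simp
  refine ⟨fun z => G z - G 0 + Complex.log (f 0), ?_, ?_⟩
  · intro z hz
    exact (((hG z hz).sub_const _).add_const _).differentiableAt.differentiableWithinAt
  · -- the quotient is constant
    set H : ℂ → ℂ := fun z => f z * exp (-(G z)) with hH
    have hHd : ∀ z ∈ ball (0 : ℂ) 1, HasDerivAt H 0 z := by
      intro z hz
      have h1 : HasDerivAt f (deriv f z) z := (hf.differentiableAt (isOpen_ball.mem_nhds hz)).hasDerivAt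
      have h2 : HasDerivAt (fun z => exp (-(G z))) (exp (-(G z)) * -(deriv f z / f z)) z :=
        ((hG z hz).neg).cexp
      refine (h1.mul h2).congr_deriv ?_
      have := h0 z hz
      field_simp
      ring
    have hconst : ∀ z ∈ ball (0 : ℂ) 1, H z = H 0 := by
      intro z hz
      have := (convex_ball (0 : ℂ) 1).norm_image_sub_le_of_norm_hasDerivWithin_le (f := H)
        (f' := fun _ => 0) (C := 0) (fun w hw => (hHd w hw).hasDerivWithinAt) (fun w _ => by simp)
        h0mem hz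
      rw [zero_mul] at this
      have h3 := norm_le_zero_iff.mp this
      exact sub_eq_zero.mp h3
    intro z hz
    have h3 := hconst z hz
    simp only [hH] at h3
    rw [Complex.exp_add, Complex.exp_sub, Complex.exp_log (h0 0 h0mem)]
    rw [Complex.exp_neg, Complex.exp_neg] at h3
    have e1 := Complex.exp_ne_zero (G z)
    have e2 := Complex.exp_ne_zero (G 0)
    field_simp at h3 ⊢
    linear_combination -h3

lemma LogArea.of_meanValent {p : ℝ} {f F : ℂ → ℂ} (hf : DifferentiableOn ℂ f (ball 0 1))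
    (hm : MeanValent p f) (hF : DifferentiableOn ℂ F (ball 0 1))
    (hexp : ∀ z ∈ ball (0 : ℂ) 1, exp (F z) = f z) : LogArea p F := by
  refine ⟨hF, fun R hR => ?_⟩
  have h1 := (area_le_valence hf R).trans (hm R hR)
  have hset : ball (0 : ℂ) 1 ∩ {z | Real.exp (F z).re < R} = ball (0 : ℂ) 1 ∩ {z | ‖f z‖ < R} := by
    ext z
    simp only [mem_inter_iff, mem_ofPred_eq]
    constructor
    · rintro ⟨hz, h2⟩
      exact ⟨hz, by rw [← hexp z hz, Complex.norm_exp]; exact h2⟩
    · rintro ⟨hz, h2⟩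
      exact ⟨hz, by rw [← hexp z hz, Complex.norm_exp] at h2; exact h2⟩
  rw [hset]
  refine le_trans (le_of_eq ?_) h1
  have hms : MeasurableSet (ball (0 : ℂ) 1 ∩ {z | ‖f z‖ < R}) := by
    have := hf.continuousOn.norm.isOpen_inter_preimage isOpen_ball (isOpen_Iio (a := R))
    exact this.measurableSet
  refine setLIntegral_congr_fun hms fun z hz => ?_
  have hd : deriv f z = deriv F z * exp (F z) := by
    have h2 : f =ᶠ[𝓝 z] fun z => exp (F z) := by
      filter_upwards [isOpen_ball.mem_nhds hz.1] with w hw using (hexp w hw).symm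
    rw [h2.deriv_eq]
    have h3 : HasDerivAt F (deriv F z) z := (hF.differentiableAt (isOpen_ball.mem_nhds hz.1)).hasDerivAt
    rw [h3.cexp.deriv]; ring
  congr 1
  rw [hd, norm_mul, Complex.norm_exp, mul_pow, ← Real.exp_nat_mul]
  push_cast
  ring

lemma classS_log {p : ℝ} (hp : 0 ≤ p) (hp1 : p < 1) {f : ℂ → ℂ} (hf : f ∈ classS p) :
    ∃ F : ℂ → ℂ, LogArea p F ∧ (∀ z ∈ ball (0 : ℂ) 1, exp (F z) = f z) ∧ (F 0).re = 0 := by
  have hne := classS_ne_zero hp hp1 hf
  obtain ⟨hd, hm, h0⟩ := (mem_classS_iff hp hp1).mp hf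
  obtain ⟨F, hF, hexp⟩ := exists_log hd hne
  refine ⟨F, LogArea.of_meanValent hd hm hF hexp, hexp, ?_⟩
  have h1 := hexp 0 (by simp)
  rw [← h1, Complex.norm_exp] at h0
  exact Real.exp_eq_one_iff _ |>.mp h0

lemma coeff_congr {f g : ℂ → ℂ} (h : ∀ z ∈ ball (0 : ℂ) 1, f z = g z) (n : ℕ) : coeff f n = coeff g n := by
  unfold coeff
  have : f =ᶠ[𝓝 0] g := by
    filter_upwards [isOpen_ball.mem_nhds (show (0 : ℂ) ∈ ball (0 : ℂ) 1 by simp)] with w hw using h w hw
  rw [this.iteratedDeriv_eq]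

end Pool.Agent.Run7.h820
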