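import Pool.Agent.Run7.h820.Compare2
import Pool.Agent.Run7.h820.LogExist

open Complex MeasureTheory Metric Set Filter Topology
open scoped ENNReal Real ComplexConjugate NNReal

set_option autoImplicit false

namespace Pool.Agent.Run7.h820

lemma coeff_eq_tc (f : ℂ → ℂ) (n : ℕ) : coeff f n = tc f n := by
  rw [coeff, tc, div_eq_inv_mul]

lemma coeff_const_mul (c : ℂ) (f : ℂ → ℂ) (n : ℕ) : coeff (fun z => c * f z) n = c * coeff f n := by
  rw [coeff, coeff, iteratedDeriv_const_mul_field, mul_div_assoc]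

lemma coeff_rot {f : ℂ → ℂ} (hf : DifferentiableOn ℂ f (ball 0 1)) {ζ : ℂ} (hζ : ‖ζ‖ = 1) (n : ℕ) :
    coeff (fun z => f (ζ * z)) n = ζ ^ n * coeff f n := by
  have hs : ∀ z : ℂ, ‖z‖ < 1 → HasSum (fun k => (ζ ^ k * coeff f k) * z ^ k) (f (ζ * z)) := by
    intro z hz
    have h1 : ζ * z ∈ ball (0 : ℂ) 1 := by
      rw [mem_ball_zero_iff, norm_mul, hζ, one_mul]; exact hz
    have h2 := tc_hasSum hf h1
    refine h2.congr_fun ?_
    intro k
    rw [coeff_eq_tc, mul_pow]; ring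
  have hs2 : Summable (fun k : ℕ => (ζ ^ k * coeff f k) * (1 / 2 : ℂ) ^ k) :=
    (hs (1 / 2) (by simp; norm_num)).summable
  obtain ⟨B, hB⟩ := hs2.tendsto_atTop_zero.norm.bddAbove_range
  have h3 := coeff_of_hasSum (G := fun z => f (ζ * z)) (c := fun k => ζ ^ k * coeff f k)
    (ρ := 1 / 2) (by norm_num) (B := B) ?_ (fun z hz => hs z (by linarith)) n
  · rw [coeff, h3]
    have : ((n.factorial : ℕ) : ℂ) ≠ 0 := by exact_mod_cast n.factorial_ne_zero
    rw [mul_div_cancel_left₀ _ this]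
  · intro k
    have h4 := hB (mem_range_self k)
    simp only [norm_mul, norm_pow, norm_div, norm_one, Complex.norm_ofNat] at h4 ⊢
    exact h4

/-- maximum on the circle and maximum principle -/
lemma exists_max {F : ℂ → ℂ} (hF : DifferentiableOn ℂ F (ball 0 1)) {r : ℝ} (hr : 0 < r) (hr1 : r < 1) :
    ∃ ζ : ℂ, ‖ζ‖ = 1 ∧ ∀ z : ℂ, ‖z‖ ≤ r → (F z).re ≤ (F (ζ * r)).re := by
  have hsub : closedBall (0 : ℂ) r ⊆ ball 0 1 := closedBall_subset_ball hr1
  have hc : ContinuousOn (fun z => (F z).re) (sphere (0 : ℂ) r) := by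
    have h1 : ContinuousOn F (sphere (0 : ℂ) r) :=
      hF.continuousOn.mono (sphere_subset_closedBall.trans hsub)
    exact Complex.continuous_re.comp_continuousOn h1
  have hne : (sphere (0 : ℂ) r).Nonempty := ⟨r, by simp [abs_of_pos hr]⟩
  obtain ⟨z0, hz0, hmax⟩ := (isCompact_sphere (0 : ℂ) r).exists_isMaxOn hne hc
  have hz0n : ‖z0‖ = r := by simpa using hz0
  have hrc : (r : ℂ) ≠ 0 := by exact_mod_cast hr.ne'
  refine ⟨z0 / r, ?_, ?_⟩
  · rw [norm_div, hz0n, Complex.norm_real, Real.norm_eq_abs, abs_of_pos hr, div_self hr.ne']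
  · intro z hz
    rw [div_mul_cancel₀ _ hrc]
    have hd : DiffContOnCl ℂ (fun z => exp (F z)) (ball 0 r) := by
      apply DifferentiableOn.diffContOnCl
      rw [closure_ball _ hr.ne']
      exact (hF.mono hsub).cexp
    have h1 := Complex.norm_le_of_forall_mem_frontier_norm_le (U := ball (0 : ℂ) r) isBounded_ball hd
      (C := Real.exp (F z0).re) (z := z) ?_ ?_
    · rw [Complex.norm_exp] at h1
      exact Real.exp_le_exp.mp h1
    · intro w hw
      rw [frontier_ball _ hr.ne'] at hw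
      rw [Complex.norm_exp]
      exact Real.exp_le_exp.mpr (hmax hw)
    · rw [closure_ball _ hr.ne', mem_closedBall_zero_iff]
      exact hz

/-- main step -/
theorem step {p : ℝ} (hp : 1 / 2 ≤ p) (hp1 : p < 1) {η : ℝ} (hη : 0 < η) :
    ∃ n0 : ℕ, 8 ≤ n0 ∧ ∀ n m : ℕ, n0 ≤ n → n ≤ m → ∀ a : ℝ, (∀ g ∈ classS p, ‖coeff g n‖ ≤ a) →
      0 ≤ a → ∀ f ∈ classS p, ‖coeff f m‖ * (m : ℝ) ^ (1 - 2 * p) ≤ a * (n : ℝ) ^ (1 - 2 * p) + η := by
  have hp0 : 0 < p := by linarith
  obtain ⟨C, hC0, hC⟩ := partH hp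
  -- choice of the threshold
  set e0 : ℝ := min 1 ((η / C) ^ 8) with he0
  have he0pos : 0 < e0 := lt_min one_pos (by positivity)
  have he01 : e0 ≤ 1 := min_le_left _ _
  have hCe : C * Real.exp (Real.log e0 / 8) ≤ η := by
    have h1 : Real.exp (Real.log e0 / 8) ≤ η / C := by
      have h2 : Real.exp (Real.log e0 / 8) = e0 ^ (1 / 8 : ℝ) := by
        rw [Real.rpow_def_of_pos he0pos]; congr 1; ring
      rw [h2]
      have h3 : e0 ^ (1 / 8 : ℝ) ≤ ((η / C) ^ 8) ^ (1 / 8 : ℝ) :=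
        Real.rpow_le_rpow he0pos.le (min_le_right _ _) (by norm_num)
      refine h3.trans (le_of_eq ?_)
      rw [← Real.rpow_natCast, ← Real.rpow_mul (by positivity)]
      norm_num
    calc C * Real.exp (Real.log e0 / 8) ≤ C * (η / C) := by gcongr
      _ = η := by field_simp
  obtain ⟨n0, hn08, hcomp⟩ := compare hp hp1.le he0pos he01 hη
  refine ⟨n0, hn08, ?_⟩
  intro n m hn hm a ha ha0 f hf
  obtain ⟨F, hLF, hexp, hF0⟩ := classS_log hp0.le hp1 hf
  obtain ⟨hfd, hfm, hf0⟩ := (mem_classS_iff hp0.le hp1).mp hf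
  have hm1' : 1 ≤ m := by omega
  have hm1 : (1 : ℝ) ≤ m := by exact_mod_cast hm1'
  have hm0 : (0 : ℝ) < m := by linarith
  have hn0' : (0 : ℝ) < n := by
    have : 1 ≤ n := by omega
    exact_mod_cast this
  have hcf : coeff f m = coeff (fun z => exp (F z)) m := coeff_congr (fun z hz => (hexp z hz).symm) m
  set r0 : ℝ := Real.exp (-(1 / m)) with hr0
  have hr0pos : 0 < r0 := Real.exp_pos _
  have hr01 : r0 < 1 := Real.exp_lt_one_iff.mpr (by
    have : 0 < 1 / (m : ℝ) := by positivity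
    linarith)
  obtain ⟨ζ, hζ, hmax⟩ := exists_max hLF.diff hr0pos hr01
  set u : ℝ := (F (ζ * r0)).re with hu
  rcases le_or_gt u (Real.log e0 + 2 * p * Real.log m) with hcase | hcase
  · -- small maximum
    have h1 := hC F hLF hF0 m hm1' u hmax
    rw [← hcf] at h1
    refine h1.trans ?_
    have h2 : C * Real.exp ((u - 2 * p * Real.log m) / 8) ≤ C * Real.exp (Real.log e0 / 8) := by
      gcongr
      linarith
    have h3 : 0 ≤ a * (n : ℝ) ^ (1 - 2 * p) := by positivity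
    linarith
  · -- large maximum
    have hrot := isAuto_rot hζ
    have hζ0 : ζ ≠ 0 := by
      rintro rfl
      simp at hζ
    set F1 : ℂ → ℂ := fun z => F (ζ * z) with hF1
    have hLF1 : LogArea p F1 := hLF.comp hrot.diff hrot.maps
      (fun a _ b _ hab => mul_left_cancel₀ hζ0 hab)
    have hF10 : (F1 0).re = 0 := by simp only [hF1, mul_zero]; exact hF0
    have hbig : Real.log e0 + 2 * p * Real.log m ≤ (F1 (Real.exp (-(1 / m)))).re := hcase.le
    have hmax1 : ∀ θ : ℝ, (F1 (Real.exp (-(1 / m)) * exp (θ * I))).re ≤ (F1 (Real.exp (-(1 / m)))).re := by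
      intro θ
      apply hmax
      rw [norm_mul, norm_mul, hζ, one_mul, Complex.norm_exp_ofReal_mul_I, mul_one, Complex.norm_real,
        Real.norm_eq_abs, abs_of_pos hr0pos]
    have hcmp := hcomp n m hn hm F1 hLF1 hF10 hbig hmax1
    set x : ℝ := ((m : ℝ) - n) / (m + n) with hx
    have hx0 : 0 ≤ x := x_nonneg hm
    have hx1 : x < 1 := by
      have h8 : 8 ≤ n := by omega
      have := x_lt h8 hm (a := -(1 / m)) (by
        rw [neg_le_neg_iff]; gcongr; norm_num)
      linarith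
    have hxn : ‖(x : ℂ)‖ < 1 := by
      rw [Complex.norm_real, Real.norm_eq_abs, abs_of_nonneg hx0]; exact hx1
    have hmob := isAuto_mob hxn
    have hxmem : (x : ℂ) ∈ ball (0 : ℂ) 1 := by simpa using hxn
    -- the renormalised function
    set f1 : ℂ → ℂ := fun z => f (ζ * z) with hf1
    have hf1d : DifferentiableOn ℂ f1 (ball 0 1) := hfd.comp hrot.diff hrot.maps
    have hf1m : MeanValent p f1 := hfm.comp hrot
    have hf1exp : ∀ z ∈ ball (0 : ℂ) 1, f1 z = exp (F1 z) := fun z hz => (hexp _ (hrot.maps hz)).symm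
    set g : ℂ → ℂ := fun z => f1 (mob x z) with hg
    have hgd : DifferentiableOn ℂ g (ball 0 1) := hf1d.comp hmob.diff hmob.maps
    have hgm : MeanValent p g := hf1m.comp hmob
    have hgexp : ∀ z ∈ ball (0 : ℂ) 1, g z = exp (F1 (mob x z)) := fun z hz => hf1exp _ (hmob.maps hz)
    set c : ℂ := (f1 x)⁻¹ with hc
    have hf1x : f1 x = exp (F1 x) := hf1exp _ hxmem
    have hc0 : c ≠ 0 := by
      rw [hc, hf1x]
      exact inv_ne_zero (Complex.exp_ne_zero _)
    have hmem : (fun z => c * g z) ∈ classS p := by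
      rw [mem_classS_iff hp0.le hp1]
      refine ⟨hgd.const_mul c, MeanValent.const_mul hgd hgm hc0, ?_⟩
      have : g 0 = f1 x := by simp only [hg, mob_zero]
      rw [this, hc, inv_mul_cancel₀, norm_one]
      rw [hf1x]; exact Complex.exp_ne_zero _
    have hcg := ha _ hmem
    rw [coeff_const_mul, norm_mul] at hcg
    have hgrowth := hLF1.growth hp hxn
    rw [hF10, sub_zero, Complex.norm_real, Real.norm_eq_abs, abs_of_nonneg hx0] at hgrowth
    have hhyp : hyp x = Real.log (m / n) := by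
      have h0 : (m : ℝ) + n ≠ 0 := by positivity
      have e1 : 1 + x = 2 * m / (m + n) := by rw [hx]; field_simp; ring
      have e2 : 1 - x = 2 * n / (m + n) := by rw [hx]; field_simp; ring
      rw [hyp, e1, e2, div_div_div_cancel_right₀ h0]
      congr 1
      field_simp
    have hf1xn : ‖f1 x‖ ≤ (m / n : ℝ) ^ (2 * p) := by
      rw [hf1x, Complex.norm_exp, Real.rpow_def_of_pos (by positivity)]
      apply Real.exp_le_exp.mpr
      have := (le_abs_self _).trans hgrowth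
      rw [hhyp] at this
      linarith
    have hf1xpos : 0 < ‖f1 x‖ := by rw [hf1x]; exact norm_pos_iff.mpr (Complex.exp_ne_zero _)
    have hcgn : ‖coeff g n‖ ≤ (m / n : ℝ) ^ (2 * p) * a := by
      rw [hc, norm_inv] at hcg
      have h5 : ‖coeff g n‖ ≤ ‖f1 x‖ * a := by
        calc ‖coeff g n‖ = ‖f1 x‖ * (‖f1 x‖⁻¹ * ‖coeff g n‖) := by field_simp
          _ ≤ ‖f1 x‖ * a := by gcongr
      exact h5.trans (by gcongr)
    have hcg2 : coeff (fun z => exp (F1 (mob (x : ℝ) z))) n = coeff g n :=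
      coeff_congr (fun z hz => (hgexp z hz).symm) n
    have hcf1 : coeff (fun z => exp (F1 z)) m = ζ ^ m * coeff f m := by
      rw [← coeff_rot hfd hζ m]
      exact coeff_congr (fun z hz => (hf1exp z hz).symm) m
    rw [hcg2, hcf1] at hcmp
    have h6 : ‖(m : ℂ) * (ζ ^ m * coeff f m)‖ = m * ‖coeff f m‖ := by
      rw [norm_mul, norm_mul, norm_pow, hζ, one_pow, one_mul, Complex.norm_natCast]
    have h7 : m * ‖coeff f m‖ ≤ n * ((m / n : ℝ) ^ (2 * p) * a) + η * (m : ℝ) ^ (2 * p) := by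
      rw [← h6]
      have h8 := norm_sub_norm_le ((m : ℂ) * (ζ ^ m * coeff f m)) ((n : ℂ) * coeff g n)
      rw [norm_sub_rev] at h8
      have h9 : ‖(n : ℂ) * coeff g n‖ ≤ n * ((m / n : ℝ) ^ (2 * p) * a) := by
        rw [norm_mul, Complex.norm_natCast]; gcongr
      linarith
    have h10 : ‖coeff f m‖ * (m : ℝ) ^ (1 - 2 * p) = (m * ‖coeff f m‖) * (m : ℝ) ^ (-(2 * p)) := by
      have : (m : ℝ) ^ (1 - 2 * p) = m * (m : ℝ) ^ (-(2 * p)) := by
        rw [sub_eq_add_neg, Real.rpow_add hm0, Real.rpow_one]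
      rw [this]; ring
    rw [h10]
    calc (m * ‖coeff f m‖) * (m : ℝ) ^ (-(2 * p))
        ≤ (n * ((m / n : ℝ) ^ (2 * p) * a) + η * (m : ℝ) ^ (2 * p)) * (m : ℝ) ^ (-(2 * p)) := by gcongr
      _ = a * (n : ℝ) ^ (1 - 2 * p) + η := by
        rw [Real.div_rpow hm0.le hn0'.le, Real.rpow_neg hm0.le, Real.rpow_sub hn0', Real.rpow_one]
        have e1 : (m : ℝ) ^ (2 * p) ≠ 0 := by positivity
        have e2 : (n : ℝ) ^ (2 * p) ≠ 0 := by positivity
        field_simp

end Pool.Agent.Run7.h820
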