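import Pool.Agent.Run7.h820.Valence

open Complex MeasureTheory Metric Set Filter Topology
open scoped ENNReal Real ComplexConjugate NNReal

set_option autoImplicit false

namespace Pool.Agent.Run7.h820

/-- area of a sector -/
lemma sector_area {p R : ℝ} (hR : 0 < R) :
    volume ({w : ℂ | |Complex.arg w| < π * p} ∩ ball (0 : ℂ) R) ≤ ENNReal.ofReal (π * p * R ^ 2) := by
  have hpi := Real.pi_pos
  have hm : MeasurableSet ({w : ℂ | |Complex.arg w| < π * p} ∩ ball (0 : ℂ) R) :=
    (measurableSet_lt (Complex.measurable_arg.abs) measurable_const).inter measurableSet_ball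
  rw [← lintegral_indicator_one hm, ← Complex.lintegral_comp_polarCoord_symm]
  have h1 : ∫⁻ q in polarCoord.target, ENNReal.ofReal q.1 •
      ({w : ℂ | |Complex.arg w| < π * p} ∩ ball (0 : ℂ) R).indicator 1 (Complex.polarCoord.symm q)
      ≤ ∫⁻ q : ℝ × ℝ, (Ioo (0 : ℝ) R ×ˢ Ioo (-(π * p)) (π * p)).indicator (fun q => ENNReal.ofReal q.1) q := by
    rw [← lintegral_indicator polarCoord.open_target.measurableSet]
    apply lintegral_mono
    intro q
    by_cases hq : q ∈ polarCoord.target
    · rw [indicator_of_mem hq]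
      have hq' : q ∈ Ioi (0 : ℝ) ×ˢ Ioo (-π) π := hq
      have hq1 : 0 < q.1 := hq'.1
      by_cases hw : Complex.polarCoord.symm q ∈ ({w : ℂ | |Complex.arg w| < π * p} ∩ ball (0 : ℂ) R)
      · have harg : Complex.arg (Complex.polarCoord.symm q) = q.2 := by
          rw [Complex.polarCoord_symm_apply]
          push_cast
          exact Complex.arg_mul_cos_add_sin_mul_I hq1 ⟨hq'.2.1, hq'.2.2.le⟩
        have hnorm : ‖Complex.polarCoord.symm q‖ = q.1 := by
          rw [Complex.norm_polarCoord_symm, abs_of_pos hq1]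
        have hmem : q ∈ Ioo (0 : ℝ) R ×ˢ Ioo (-(π * p)) (π * p) := by
          obtain ⟨h2, h3⟩ := hw
          rw [mem_ofPred_eq, harg] at h2
          rw [mem_ball_zero_iff, hnorm] at h3
          exact ⟨⟨hq1, h3⟩, abs_lt.mp h2⟩
        rw [indicator_of_mem hw, indicator_of_mem hmem]
        simp
      · rw [indicator_of_notMem hw]
        simp
    · rw [indicator_of_notMem hq]
      exact bot_le
  refine h1.trans ?_
  rw [lintegral_indicator (measurableSet_Ioo.prod measurableSet_Ioo), Measure.volume_eq_prod,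
    ← Measure.prod_restrict, lintegral_prod_symm _ (by fun_prop)]
  simp only [lintegral_const, Measure.restrict_apply MeasurableSet.univ, univ_inter, Real.volume_Ioo]
  have h2 : ∫⁻ x in Ioo (0 : ℝ) R, ENNReal.ofReal x = ENNReal.ofReal (R ^ 2 / 2) := by
    rw [restrict_Ioo_eq_restrict_Ioc, ← ofReal_integral_eq_lintegral_ofReal]
    · rw [← intervalIntegral.integral_of_le hR.le, integral_id]
      congr 1
      ring
    · have : IntervalIntegrable (fun x : ℝ => x) volume 0 R := (continuous_id).intervalIntegrable _ _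
      exact (intervalIntegrable_iff_integrableOn_Ioc_of_le hR.le).mp this
    · rw [EventuallyLE, ae_restrict_iff' measurableSet_Ioc]
      exact ae_of_all _ fun x hx => hx.1.le
  rw [h2, ← ENNReal.ofReal_mul (by positivity)]
  apply ENNReal.ofReal_le_ofReal
  apply le_of_eq
  ring

/-- the logarithm of the half-plane map -/
noncomputable def lk (z : ℂ) : ℂ := Complex.log ((1 + z) / (1 - z))

lemma one_sub_ne {z : ℂ} (hz : ‖z‖ < 1) : (1 : ℂ) - z ≠ 0 := by
  intro h
  have : z = 1 := by linear_combination -h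
  rw [this, norm_one] at hz
  exact lt_irrefl _ hz

lemma one_add_ne {z : ℂ} (hz : ‖z‖ < 1) : (1 : ℂ) + z ≠ 0 := by
  intro h
  have : z = -1 := by linear_combination h
  rw [this, norm_neg, norm_one] at hz
  exact lt_irrefl _ hz

lemma cay_re_pos {z : ℂ} (hz : ‖z‖ < 1) : 0 < ((1 + z) / (1 - z)).re := by
  have h1 := one_sub_ne hz
  have h2 : 0 < Complex.normSq (1 - z) := Complex.normSq_pos.mpr h1
  have h3 : ((1 + z) / (1 - z)).re = (1 - ‖z‖ ^ 2) / Complex.normSq (1 - z) := by
    rw [Complex.div_re, ← Complex.normSq_eq_norm_sq, Complex.normSq_apply z, ← add_div]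
    congr 1
    simp
    ring
  rw [h3]
  have : 0 < 1 - ‖z‖ ^ 2 := by nlinarith [norm_nonneg z]
  positivity

lemma lk_hasDerivAt {z : ℂ} (hz : ‖z‖ < 1) : HasDerivAt lk (2 / ((1 - z) * (1 + z))) z := by
  have h1 := one_sub_ne hz
  have h2 := one_add_ne hz
  have h3 : (1 + z) / (1 - z) ∈ Complex.slitPlane := Or.inl (cay_re_pos hz)
  have d1 : HasDerivAt (fun z : ℂ => 1 + z) 1 z := (hasDerivAt_id z).const_add 1
  have d2 : HasDerivAt (fun z : ℂ => 1 - z) (-1) z := (hasDerivAt_id z).const_sub 1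
  have d3 := (d1.div d2 h1).clog h3
  refine d3.congr_deriv ?_
  simp only [Pi.div_apply]
  field_simp
  ring

lemma lk_im {z : ℂ} (hz : ‖z‖ < 1) : |(lk z).im| < π / 2 := by
  rw [lk, Complex.log_im]
  exact Complex.abs_arg_lt_pi_div_two_iff.mpr (Or.inl (cay_re_pos hz))

lemma lk_inj {z w : ℂ} (hz : ‖z‖ < 1) (hw : ‖w‖ < 1) (h : lk z = lk w) : z = w := by
  have h1 := one_sub_ne hz
  have h2 := one_sub_ne hw
  have e1 : (1 + z) / (1 - z) ≠ 0 := div_ne_zero (one_add_ne hz) h1
  have e2 : (1 + w) / (1 - w) ≠ 0 := div_ne_zero (one_add_ne hw) h2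
  have h3 : (1 + z) / (1 - z) = (1 + w) / (1 - w) := by
    rw [← Complex.exp_log e1, ← Complex.exp_log e2]
    exact congrArg exp h
  rw [div_eq_div_iff h1 h2] at h3
  linear_combination h3 / 2

/-- the generalised Koebe function -/
noncomputable def kp (p : ℝ) (z : ℂ) : ℂ := exp ((2 * p : ℝ) * lk z)

lemma kp_hasDerivAt (p : ℝ) {z : ℂ} (hz : ‖z‖ < 1) :
    HasDerivAt (kp p) (kp p z * ((2 * p : ℝ) * (2 / ((1 - z) * (1 + z))))) z :=
  ((lk_hasDerivAt hz).const_mul _).cexp

lemma kp_arg_aux {p : ℝ} (hp0 : 0 < p) {z : ℂ} (hz : ‖z‖ < 1) :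
    |(((2 * p : ℝ) : ℂ) * lk z).im| < π * p := by
  have h1 := lk_im hz
  rw [Complex.im_ofReal_mul, abs_mul, abs_of_pos (by positivity : 0 < 2 * p)]
  nlinarith

lemma kp_inj {p : ℝ} (hp0 : 0 < p) (hp1 : p < 1) {z w : ℂ} (hz : ‖z‖ < 1) (hw : ‖w‖ < 1)
    (h : kp p z = kp p w) : z = w := by
  have hpi := Real.pi_pos
  have h1 := kp_arg_aux hp0 hz
  have h2 := kp_arg_aux hp0 hw
  have h3 : ((2 * p : ℝ) : ℂ) * lk z = ((2 * p : ℝ) : ℂ) * lk w := by
    have h4 := abs_lt.mp h1
    have h5 := abs_lt.mp h2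
    have hpp : π * p < π := by nlinarith
    rw [← Complex.log_exp (x := ((2 * p : ℝ) : ℂ) * lk z) (by linarith [h4.1]) (by linarith [h4.2]),
      ← Complex.log_exp (x := ((2 * p : ℝ) : ℂ) * lk w) (by linarith [h5.1]) (by linarith [h5.2])]
    exact congrArg Complex.log h
  have h6 : ((2 * p : ℝ) : ℂ) ≠ 0 := by
    have : (2 * p : ℝ) ≠ 0 := by positivity
    exact_mod_cast this
  exact lk_inj hz hw (mul_left_cancel₀ h6 h3)

lemma kp_valence {p : ℝ} (hp0 : 0 < p) (hp1 : p < 1) (w : ℂ) :
    valence (kp p) w ≤ {w : ℂ | |Complex.arg w| < π * p}.indicator 1 w := by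
  have hpi := Real.pi_pos
  by_cases hw : ∃ z : ball (0 : ℂ) 1, kp p z = w
  · obtain ⟨z, rfl⟩ := hw
    have hz : ‖(z : ℂ)‖ < 1 := by
      have := z.2
      rwa [mem_ball_zero_iff] at this
    have harg : kp p z ∈ {w : ℂ | |Complex.arg w| < π * p} := by
      have h1 := kp_arg_aux hp0 hz
      have h4 := abs_lt.mp h1
      have hpp : π * p < π := by nlinarith
      rw [mem_ofPred_eq]
      have h5 : Complex.arg (kp p z) = (((2 * p : ℝ) : ℂ) * lk z).im := by
        rw [← Complex.log_im, kp, Complex.log_exp (by linarith [h4.1]) (by linarith [h4.2])]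
      rw [h5]
      exact h1
    rw [indicator_of_mem harg]
    unfold valence
    rw [tsum_eq_single z]
    · have han : AnalyticAt ℂ (kp p) (z : ℂ) := by
        have hd : DifferentiableOn ℂ (kp p) (ball 0 1) := fun y hy =>
          (kp_hasDerivAt p (by rwa [mem_ball_zero_iff] at hy)).differentiableAt.differentiableWithinAt
        exact hd.analyticAt (isOpen_ball.mem_nhds z.2)
      have hder : deriv (kp p) (z : ℂ) ≠ 0 := by
        rw [(kp_hasDerivAt p hz).deriv]
        have h6 : ((2 * p : ℝ) : ℂ) ≠ 0 := by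
          have : (2 * p : ℝ) ≠ 0 := by positivity
          exact_mod_cast this
        exact mul_ne_zero (Complex.exp_ne_zero _) (mul_ne_zero h6
          (div_ne_zero (by norm_num) (mul_ne_zero (one_sub_ne hz) (one_add_ne hz))))
      rw [han.analyticOrderAt_sub_eq_one_of_deriv_ne_zero hder]
      simp
    · intro y hy
      have hy1 : ‖(y : ℂ)‖ < 1 := by
        have := y.2
        rwa [mem_ball_zero_iff] at this
      have h7 : analyticOrderAt (fun ζ => kp p ζ - kp p z) (y : ℂ) = 0 := by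
        rw [analyticOrderAt_eq_zero]
        right
        intro h8
        apply hy
        exact Subtype.ext (kp_inj hp0 hp1 hy1 hz (sub_eq_zero.mp h8))
      rw [h7]
      simp
  · have : valence (kp p) w = 0 := by
      unfold valence
      rw [ENNReal.tsum_eq_zero]
      intro y
      have h7 : analyticOrderAt (fun ζ => kp p ζ - w) (y : ℂ) = 0 := by
        rw [analyticOrderAt_eq_zero]
        right
        intro h8
        exact hw ⟨y, sub_eq_zero.mp h8⟩
      rw [h7]
      simp
    rw [this]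
    exact bot_le

lemma kp_mem {p : ℝ} (hp0 : 0 < p) (hp1 : p < 1) : kp p ∈ classS p := by
  rw [mem_classS_iff hp0.le hp1]
  refine ⟨fun y hy => (kp_hasDerivAt p
    (by rwa [mem_ball_zero_iff] at hy)).differentiableAt.differentiableWithinAt, ?_, ?_⟩
  · intro R hR
    have hm : MeasurableSet {w : ℂ | |Complex.arg w| < π * p} :=
      measurableSet_lt (Complex.measurable_arg.abs) measurable_const
    calc ∫⁻ w in ball (0 : ℂ) R, valence (kp p) w
        ≤ ∫⁻ w in ball (0 : ℂ) R, {w : ℂ | |Complex.arg w| < π * p}.indicator 1 w :=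
          lintegral_mono fun w => kp_valence hp0 hp1 w
      _ = volume ({w : ℂ | |Complex.arg w| < π * p} ∩ ball (0 : ℂ) R) := by
          rw [lintegral_indicator_one hm, Measure.restrict_apply hm]
      _ ≤ _ := sector_area hR
  · simp [kp, lk]

lemma kp_real {p x : ℝ} (hx0 : 0 ≤ x) (hx1 : x < 1) : ‖kp p x‖ = ((1 + x) / (1 - x)) ^ (2 * p) := by
  have h1 : (1 + (x : ℂ)) / (1 - x) = (((1 + x) / (1 - x) : ℝ) : ℂ) := by push_cast; rfl
  have h2 : 0 < (1 + x) / (1 - x) := by
    apply div_pos <;> linarith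
  rw [kp, lk, h1, ← Complex.ofReal_log h2.le, ← Complex.ofReal_mul, ← Complex.ofReal_exp,
    Complex.norm_real, Real.norm_eq_abs, abs_of_pos (Real.exp_pos _), Real.rpow_def_of_pos h2]
  congr 1
  ring

end Pool.Agent.Run7.h820
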