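import Pool.Agent.Run7.h820.Star
import Pool.Agent.Run7.h820.Koebe

open Complex MeasureTheory Metric Set Filter Topology
open scoped ENNReal Real ComplexConjugate NNReal

set_option autoImplicit false

namespace Pool.Agent.Run7.h820

/-- generalised binomial coefficient -/
noncomputable def ch (α : ℝ) : ℕ → ℝ
  | 0 => 1
  | n + 1 => (α - n) / (n + 1) * ch α n

lemma choose_eq_ch (α : ℝ) (n : ℕ) : Ring.choose (α : ℂ) n = (ch α n : ℝ) := by
  induction n with
  | zero => simp [ch]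
  | succ n ih =>
    have h1 : Ring.choose (α : ℂ) (n + 1) = ((α : ℂ) - n) / (n + 1) * Ring.choose (α : ℂ) n := by
      rw [Ring.choose_eq_smul, Ring.choose_eq_smul, descPochhammer_succ_right, Polynomial.smeval_mul,
        Polynomial.smeval_sub, Polynomial.smeval_X, Polynomial.smeval_natCast, Nat.factorial_succ]
      have h2 : (n.factorial : ℂ) ≠ 0 := by exact_mod_cast n.factorial_ne_zero
      have h3 : ((n : ℂ) + 1) ≠ 0 := by exact_mod_cast Nat.succ_ne_zero n
      push_cast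
      simp only [smul_eq_mul, pow_one, pow_zero, nsmul_eq_mul, mul_one]
      field_simp
    rw [h1, ih, ch]
    push_cast
    ring

lemma hasSum_one_add_cpow (α : ℝ) {z : ℂ} (hz : ‖z‖ < 1) :
    HasSum (fun k : ℕ => ((ch α k : ℝ) : ℂ) * z ^ k) ((1 + z) ^ (α : ℂ)) := by
  have h1 := (Complex.one_add_cpow_hasFPowerSeriesOnBall_zero (a := (α : ℂ))).hasSum (y := z) (by
    rw [Metric.mem_eball, edist_zero_right, ← ofReal_norm, ENNReal.ofReal_lt_one]
    exact hz)
  rw [zero_add] at h1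
  refine h1.congr_fun ?_
  intro k
  rw [binomialSeries_apply, List.ofFn_const, List.prod_replicate, smul_eq_mul, choose_eq_ch]

/-- coefficients of `(1-z)^{-a}` -/
noncomputable def bb (a : ℝ) (k : ℕ) : ℝ := ch (-a) k * (-1) ^ k

lemma bb_succ (a : ℝ) (k : ℕ) : bb a (k + 1) = (a + k) / (k + 1) * bb a k := by
  rw [bb, bb, ch, pow_succ]
  ring

lemma bb_zero (a : ℝ) : bb a 0 = 1 := by simp [bb, ch]

lemma bb_pos {a : ℝ} (ha : 0 < a) (k : ℕ) : 0 < bb a k := by
  induction k with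
  | zero => rw [bb_zero]; exact one_pos
  | succ n ih => rw [bb_succ]; positivity

lemma bb_mono {a : ℝ} (ha : 1 ≤ a) : Monotone (bb a) := by
  apply monotone_nat_of_le_succ
  intro n
  rw [bb_succ]
  have h1 := bb_pos (by linarith : 0 < a) n
  have h2 : 1 ≤ (a + n) / (n + 1) := by
    rw [one_le_div (by positivity)]; linarith
  nlinarith

lemma hasSum_one_sub_cpow (a : ℝ) {z : ℂ} (hz : ‖z‖ < 1) :
    HasSum (fun k : ℕ => ((bb a k : ℝ) : ℂ) * z ^ k) ((1 - z) ^ (-(a : ℂ))) := by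
  have h1 := hasSum_one_add_cpow (-a) (z := -z) (by rwa [norm_neg])
  rw [← sub_eq_add_neg] at h1
  have h2 : ((-a : ℝ) : ℂ) = -(a : ℂ) := by push_cast; rfl
  rw [h2] at h1
  refine h1.congr_fun ?_
  intro k
  rw [bb, neg_pow]
  push_cast
  ring

lemma bb_prod (a : ℝ) (n : ℕ) : bb a n * n.factorial = ∏ j ∈ Finset.range n, (a + j) := by
  induction n with
  | zero => simp [bb_zero]
  | succ n ih =>
    rw [bb_succ, Finset.prod_range_succ, ← ih, Nat.factorial_succ]
    push_cast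
    have h3 : ((n : ℝ) + 1) ≠ 0 := by positivity
    field_simp

lemma bb_asymp {a : ℝ} (ha : 0 < a) :
    Tendsto (fun n : ℕ => bb a n * (n : ℝ) ^ (1 - a)) atTop (𝓝 (1 / Real.Gamma a)) := by
  have hG : Real.Gamma a ≠ 0 := (Real.Gamma_pos_of_pos ha).ne'
  have h1 := Real.GammaSeq_tendsto_Gamma a
  have h2 : Tendsto (fun n : ℕ => (n : ℝ) / (n + a)) atTop (𝓝 1) := tendsto_natCast_div_add_atTop a
  have h3 := h2.div h1 hG
  refine h3.congr' ?_
  filter_upwards [eventually_ge_atTop 1] with n hn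
  have hn0 : (0 : ℝ) < n := by exact_mod_cast hn
  simp only [Pi.div_apply]
  rw [Real.GammaSeq, Finset.prod_range_succ, ← bb_prod, Real.rpow_sub hn0, Real.rpow_one]
  have hf : (n.factorial : ℝ) ≠ 0 := by exact_mod_cast n.factorial_ne_zero
  have hb := (bb_pos ha n).ne'
  have hna : (n : ℝ) ^ a ≠ 0 := by positivity
  have h5 : (n : ℝ) + a ≠ 0 := by positivity
  have h6 : a + (n : ℝ) ≠ 0 := by positivity
  field_simp
  ring

lemma bb_ratio {a : ℝ} (ha : 0 < a) (j : ℕ) :
    Tendsto (fun n : ℕ => bb a (n - j) / bb a n) atTop (𝓝 1) := by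
  induction j with
  | zero =>
    refine tendsto_const_nhds.congr ?_
    intro n
    rw [Nat.sub_zero, div_self (bb_pos ha n).ne']
  | succ j ih =>
    have h1 : Tendsto (fun n : ℕ => ((n - j : ℕ) : ℝ) / (((n - j : ℕ) : ℝ) + (a - 1))) atTop (𝓝 1) :=
      (tendsto_natCast_div_add_atTop (a - 1)).comp (tendsto_sub_atTop_nat j)
    have h2 := h1.mul ih
    rw [one_mul] at h2
    refine h2.congr' ?_
    filter_upwards [eventually_ge_atTop (j + 1)] with n hn
    obtain ⟨m, rfl⟩ : ∃ m, n = m + (j + 1) := ⟨n - (j + 1), by omega⟩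
    have e1 : m + (j + 1) - j = m + 1 := by omega
    have e2 : m + (j + 1) - (j + 1) = m := by omega
    rw [e1, e2, bb_succ]
    have hb := (bb_pos ha (m + (j + 1))).ne'
    push_cast
    have h3 : (m : ℝ) + 1 + (a - 1) ≠ 0 := by
      have : (m : ℝ) + 1 + (a - 1) = m + a := by ring
      rw [this]; positivity
    have h4 : (m : ℝ) + 1 ≠ 0 := by positivity
    have h5 : (m : ℝ) + 1 + (a - 1) = a + m := by ring
    rw [h5] at h3 ⊢
    field_simp

lemma ch_summable {a : ℝ} (ha1 : 1 ≤ a) (ha2 : a ≤ 2) : Summable (fun j => |ch a j|) := by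
  -- telescoping
  have hrec : ∀ j : ℕ, ((j : ℝ) + 3) * |ch a (j + 3)| = ((j : ℝ) + 2 - a) * |ch a (j + 2)| := by
    intro j
    have h1 : ch a (j + 3) = (a - ((j + 2 : ℕ) : ℝ)) / (((j + 2 : ℕ) : ℝ) + 1) * ch a (j + 2) := by
      rw [ch]
    rw [h1, abs_mul, abs_div]
    push_cast
    have h2 : |a - ((j : ℝ) + 2)| = (j : ℝ) + 2 - a := by
      rw [abs_sub_comm]
      exact abs_of_nonneg (by have : (0 : ℝ) ≤ j := Nat.cast_nonneg j; linarith)
    have h3 : |(j : ℝ) + 2 + 1| = (j : ℝ) + 3 := by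
      rw [abs_of_nonneg (by positivity)]; ring
    rw [h2, h3]
    field_simp
  have hsum : ∀ n : ℕ, ∑ j ∈ Finset.range n, |ch a (j + 2)| ≤ 2 * |ch a 2| - ((n : ℝ) + 2) * |ch a (n + 2)| := by
    intro n
    induction n with
    | zero => simp
    | succ n ih =>
      rw [Finset.sum_range_succ]
      have h1 := hrec n
      have h2 : n + 1 + 2 = n + 3 := by omega
      rw [h2]
      push_cast
      have h3 : ((n : ℝ) + 1 + 2) * |ch a (n + 3)| = ((n : ℝ) + 2 - a) * |ch a (n + 2)| := by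
        rw [← h1]; ring
      rw [h3]
      have h4 := abs_nonneg (ch a (n + 2))
      nlinarith
  rw [← summable_nat_add_iff 2]
  apply summable_of_sum_range_le (c := 2 * |ch a 2|) (fun n => abs_nonneg _)
  intro n
  refine (hsum n).trans ?_
  have : 0 ≤ ((n : ℝ) + 2) * |ch a (n + 2)| := by positivity
  linarith

lemma ch_tsum {a : ℝ} (ha1 : 1 ≤ a) (ha2 : a ≤ 2) : ∑' j, ch a j = 2 ^ a := by
  have hs := ch_summable ha1 ha2
  have h1 : Tendsto (fun x : ℝ => ∑' j, ch a j * x ^ j) (𝓝[<] 1) (𝓝 (∑' j, ch a j)) := by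
    apply tendsto_tsum_of_dominated_convergence hs
    · intro j
      have : Tendsto (fun x : ℝ => ch a j * x ^ j) (𝓝 1) (𝓝 (ch a j * 1 ^ j)) := by
        apply Continuous.tendsto
        fun_prop
      rw [one_pow, mul_one] at this
      exact this.mono_left nhdsWithin_le_nhds
    · have hev : ∀ᶠ x : ℝ in 𝓝[<] 1, 0 < x := by
        apply nhdsWithin_le_nhds
        exact lt_mem_nhds one_pos
      filter_upwards [hev, self_mem_nhdsWithin] with x hx hx1 j
      rw [Real.norm_eq_abs, abs_mul, abs_pow, abs_of_pos hx]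
      have : x ^ j ≤ 1 := pow_le_one₀ hx.le (le_of_lt hx1)
      have h2 := abs_nonneg (ch a j)
      nlinarith
  have h2 : Tendsto (fun x : ℝ => (1 + x) ^ a) (𝓝[<] 1) (𝓝 ((1 + 1) ^ a)) := by
    apply Tendsto.mono_left _ nhdsWithin_le_nhds
    apply ContinuousAt.tendsto (f := fun x : ℝ => (1 + x) ^ a)
    apply ContinuousAt.rpow_const
    · fun_prop
    · left; norm_num
  have h3 : ∀ᶠ x : ℝ in 𝓝[<] 1, ∑' j, ch a j * x ^ j = (1 + x) ^ a := by
    have hev : ∀ᶠ x : ℝ in 𝓝[<] 1, 0 < x := by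
      apply nhdsWithin_le_nhds
      exact lt_mem_nhds one_pos
    filter_upwards [hev, self_mem_nhdsWithin] with x hx hx1
    have hxn : ‖(x : ℂ)‖ < 1 := by
      rw [Complex.norm_real, Real.norm_eq_abs, abs_of_pos hx]; exact hx1
    have h4 := hasSum_one_add_cpow a hxn
    have h5 : (1 + (x : ℂ)) ^ (a : ℂ) = (((1 + x) ^ a : ℝ) : ℂ) := by
      rw [Complex.ofReal_cpow (by linarith)]
      push_cast; rfl
    rw [h5] at h4
    have h6 : HasSum (fun j => ch a j * x ^ j) ((1 + x) ^ a) := by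
      have h7 : (fun k : ℕ => ((ch a k : ℝ) : ℂ) * (x : ℂ) ^ k) = fun k => ((ch a k * x ^ k : ℝ) : ℂ) := by
        funext k; push_cast; rfl
      rw [h7] at h4
      exact Complex.hasSum_ofReal.mp h4
    exact h6.tsum_eq
  have h4 := tendsto_nhds_unique (h2.congr' (h3.mono fun x hx => hx.symm)) h1
  rw [← h4]
  norm_num

end Pool.Agent.Run7.h820
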