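import Pool.Agent.Run7.h820.PertStrip
import Pool.Agent.Run7.h820.Koebe

open Complex MeasureTheory Metric Set Filter Topology
open scoped ENNReal Real ComplexConjugate NNReal

set_option autoImplicit false

namespace Pool.Agent.Run7.h820

/-- area in polar coordinates -/
lemma polar_area {h : ℝ → ℝ} (hh : Measurable h) {R : ℝ} :
    volume ({w : ℂ | |Complex.arg w| ≤ h ‖w‖} ∩ ball (0 : ℂ) R) ≤
      ∫⁻ t in Ioo 0 R, ENNReal.ofReal t * ENNReal.ofReal (2 * h t) := by
  have hm : MeasurableSet ({w : ℂ | |Complex.arg w| ≤ h ‖w‖} ∩ ball (0 : ℂ) R) :=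
    (measurableSet_le (Complex.measurable_arg.abs) (hh.comp measurable_norm)).inter measurableSet_ball
  rw [← lintegral_indicator_one hm, ← Complex.lintegral_comp_polarCoord_symm]
  set E : Set (ℝ × ℝ) := {q | q.1 ∈ Ioo 0 R ∧ |q.2| ≤ h q.1} with hE
  have hEm : MeasurableSet E := by
    apply MeasurableSet.inter
    · exact measurable_fst measurableSet_Ioo
    · exact measurableSet_le (by fun_prop) (hh.comp measurable_fst)
  have h1 : ∫⁻ q in polarCoord.target, ENNReal.ofReal q.1 •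
      ({w : ℂ | |Complex.arg w| ≤ h ‖w‖} ∩ ball (0 : ℂ) R).indicator 1 (Complex.polarCoord.symm q)
      ≤ ∫⁻ q : ℝ × ℝ, E.indicator (fun q => ENNReal.ofReal q.1) q := by
    rw [← lintegral_indicator polarCoord.open_target.measurableSet]
    apply lintegral_mono
    intro q
    by_cases hq : q ∈ polarCoord.target
    · rw [indicator_of_mem hq]
      have hq' : q ∈ Ioi (0 : ℝ) ×ˢ Ioo (-π) π := hq
      have hq1 : 0 < q.1 := hq'.1
      by_cases hw : Complex.polarCoord.symm q ∈ ({w : ℂ | |Complex.arg w| ≤ h ‖w‖} ∩ ball (0 : ℂ) R)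
      · have harg : Complex.arg (Complex.polarCoord.symm q) = q.2 := by
          rw [Complex.polarCoord_symm_apply]
          push_cast
          exact Complex.arg_mul_cos_add_sin_mul_I hq1 ⟨hq'.2.1, hq'.2.2.le⟩
        have hnorm : ‖Complex.polarCoord.symm q‖ = q.1 := by
          rw [Complex.norm_polarCoord_symm, abs_of_pos hq1]
        have hmem : q ∈ E := by
          obtain ⟨h2, h3⟩ := hw
          rw [mem_ofPred_eq, harg, hnorm] at h2
          rw [mem_ball_zero_iff, hnorm] at h3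
          exact ⟨⟨hq1, h3⟩, h2⟩
        rw [indicator_of_mem hw, indicator_of_mem hmem]
        simp
      · rw [indicator_of_notMem hw]
        simp
    · rw [indicator_of_notMem hq]
      exact bot_le
  refine h1.trans ?_
  have hmeas : Measurable (E.indicator (fun q : ℝ × ℝ => ENNReal.ofReal q.1)) :=
    Measurable.indicator (by fun_prop) hEm
  rw [Measure.volume_eq_prod, lintegral_prod _ hmeas.aemeasurable, ← lintegral_indicator measurableSet_Ioo]
  apply lintegral_mono
  intro t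
  by_cases ht : t ∈ Ioo 0 R
  · rw [indicator_of_mem ht]
    have h2 : ∀ θ : ℝ, E.indicator (fun q : ℝ × ℝ => ENNReal.ofReal q.1) (t, θ) =
        (Icc (-h t) (h t)).indicator (fun _ => ENNReal.ofReal t) θ := by
      intro θ
      by_cases hθ : |θ| ≤ h t
      · rw [indicator_of_mem (show (t, θ) ∈ E from ⟨ht, hθ⟩), indicator_of_mem (show θ ∈ Icc (-h t) (h t) from abs_le.mp hθ)]
      · rw [indicator_of_notMem (fun h' => hθ h'.2), indicator_of_notMem (show θ ∉ Icc (-h t) (h t) from fun h' => hθ (abs_le.mpr h'))]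
    simp only [h2]
    rw [lintegral_indicator measurableSet_Icc, lintegral_const, Measure.restrict_apply MeasurableSet.univ,
      univ_inter, Real.volume_Icc]
    gcongr
    linarith
  · rw [indicator_of_notMem ht]
    have h2 : ∀ θ : ℝ, E.indicator (fun q : ℝ × ℝ => ENNReal.ofReal q.1) (t, θ) = 0 := by
      intro θ
      exact indicator_of_notMem (fun h' => ht h'.1) _
    simp only [h2, lintegral_zero, le_refl]

/-- valence of a univalent function -/
lemma valence_le_of_inj {f : ℂ → ℂ} (hd : DifferentiableOn ℂ f (ball 0 1)) (hinj : InjOn f (ball 0 1))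
    (hder : ∀ z ∈ ball (0 : ℂ) 1, deriv f z ≠ 0) {S : Set ℂ} (hS : MapsTo f (ball 0 1) S) (w : ℂ) :
    valence f w ≤ S.indicator 1 w := by
  by_cases hw : ∃ z : ball (0 : ℂ) 1, f z = w
  · obtain ⟨z, rfl⟩ := hw
    rw [indicator_of_mem (hS z.2)]
    unfold valence
    rw [tsum_eq_single z]
    · have han : AnalyticAt ℂ f (z : ℂ) := hd.analyticAt (isOpen_ball.mem_nhds z.2)
      rw [han.analyticOrderAt_sub_eq_one_of_deriv_ne_zero (hder z z.2)]
      simp
    · intro y hy
      have h7 : analyticOrderAt (fun ζ => f ζ - f z) (y : ℂ) = 0 := by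
        rw [analyticOrderAt_eq_zero]
        right
        intro h8
        apply hy
        exact Subtype.ext (hinj y.2 z.2 (sub_eq_zero.mp h8))
      rw [h7]
      simp
  · have : valence f w = 0 := by
      unfold valence
      rw [ENNReal.tsum_eq_zero]
      intro y
      have h7 : analyticOrderAt (fun ζ => f ζ - w) (y : ℂ) = 0 := by
        rw [analyticOrderAt_eq_zero]
        right
        intro h8
        exact hw ⟨y, sub_eq_zero.mp h8⟩
      rw [h7]
      simp
    rw [this]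
    exact bot_le

lemma pγd_cont {s : ℝ} (hs0 : 0 < s) : Continuous (pγd s) := by
  have hQ : Continuous (pQ s) := by unfold pQ; fun_prop
  unfold pγd
  exact Continuous.div (by fun_prop) (by fun_prop) (fun r => pow_ne_zero 2 (pQ_pos hs0 r).ne')

lemma pγ_cont {s : ℝ} (hs0 : 0 < s) : Continuous (pγ s) :=
  continuous_iff_continuousAt.mpr fun r => (pγ_hasDerivAt hs0 r).continuousAt

lemma pv_cont {a s : ℝ} (hs0 : 0 < s) : Continuous (pv a s) := by
  have h1 := pγ_cont hs0
  have h2 := pγd_cont hs0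
  unfold pv
  fun_prop

lemma plam_hasDerivAt (r : ℝ) : HasDerivAt plam ((1 - 3 * r ^ 2) / (1 + r ^ 2) ^ 3) r := by
  have h1 : HasDerivAt (fun r : ℝ => r ^ 2) (2 * r) r := by simpa using hasDerivAt_pow 2 r
  have h2 : HasDerivAt (fun r : ℝ => (1 + r ^ 2) ^ 2) (2 * (1 + r ^ 2) * (2 * r)) r := by
    have := (h1.const_add 1).pow 2
    refine this.congr_deriv ?_
    simp
  have h3 := (hasDerivAt_id r).div h2 (by positivity)
  refine h3.congr_deriv ?_
  simp only [id]
  field_simp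
  ring

lemma plam_cont : Continuous plam :=
  continuous_iff_continuousAt.mpr fun r => (plam_hasDerivAt r).continuousAt

lemma plam_nonneg {r : ℝ} (hr : 0 ≤ r) : 0 ≤ plam r := by unfold plam; positivity

lemma plam_le_one {r : ℝ} (hr : 0 ≤ r) : plam r ≤ 1 := by
  unfold plam
  rw [div_le_one (by positivity)]
  nlinarith [sq_nonneg (r - 1), sq_nonneg r, sq_nonneg (r ^ 2)]

lemma plam_le_gamma {s r : ℝ} (hs0 : 0 < s) (hs1 : s ≤ 1) (hr : 0 ≤ r) : s / 4 * plam r ≤ pγ s r := by
  have hQ := pQ_pos hs0 r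
  have h1 : pQ s r ≤ 8 * (1 + r ^ 2) ^ 2 := by
    unfold pQ
    have h2 : s ^ 2 ≤ 1 := by nlinarith
    have h3 : (s ^ 2 - r ^ 2 + 1) ^ 2 ≤ (2 + r ^ 2) ^ 2 := by
      apply sq_le_sq'
      · nlinarith [sq_nonneg s]
      · nlinarith [sq_nonneg r]
    nlinarith [sq_nonneg r, sq_nonneg (r ^ 2), mul_nonneg (sq_nonneg r) (sub_nonneg.mpr h2)]
  unfold plam pγ
  calc s / 4 * (r / (1 + r ^ 2) ^ 2) = 2 * s * r / (8 * (1 + r ^ 2) ^ 2) := by field_simp; ring
    _ ≤ 2 * s * r / pQ s r := by gcongr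

lemma pγ_nonneg {s r : ℝ} (hs0 : 0 < s) (hr : 0 ≤ r) : 0 ≤ pγ s r := by
  have hQ := pQ_pos hs0 r
  unfold pγ; positivity

lemma pγ_le {s r : ℝ} (hs0 : 0 < s) (hr : 0 ≤ r) : pγ s r ≤ 1 / s ^ 2 + 1 := by
  have hQ := pQ_pos hs0 r
  have h1 : 0 < 1 / s ^ 2 := by positivity
  unfold pγ
  rw [div_le_iff₀ hQ]
  have h2 : (1 / s ^ 2) * (4 * s ^ 2 * r ^ 2) = 4 * r ^ 2 := by field_simp
  have h3 : pQ s r = (s ^ 2 - r ^ 2 + 1) ^ 2 + 4 * s ^ 2 * r ^ 2 := rfl
  have h4 : 0 ≤ (1 / s ^ 2) * (s ^ 2 - r ^ 2 + 1) ^ 2 := by positivity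
  have h5 : (1 / s ^ 2 + 1) * pQ s r = (1 / s ^ 2) * (s ^ 2 - r ^ 2 + 1) ^ 2 + 4 * r ^ 2 + (s ^ 2 - r ^ 2 + 1) ^ 2
    + 4 * s ^ 2 * r ^ 2 := by
    rw [h3, add_mul, mul_add, h2]; ring
  rw [h5]
  nlinarith [sq_nonneg (2 * s * r - 1 / 2), sq_nonneg (s ^ 2 - r ^ 2 + 1 - 1/2), sq_nonneg s, sq_nonneg r,
    sq_nonneg (s^2 - r^2 + 1)]

end Pool.Agent.Run7.h820
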