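import Pool.Agent.Run7.h820.AreaRev
import Pool.Agent.Run7.h820.PertMem

open Complex MeasureTheory Metric Set Filter Topology
open scoped ENNReal Real ComplexConjugate NNReal

set_option autoImplicit false

namespace Pool.Agent.Run7.h820

/-- logarithm of the base function -/
noncomputable def bF (δ τ : ℝ) (z : ℂ) : ℂ := -((1 / 2 + δ : ℝ) : ℂ) * log (1 - z) - (δ : ℂ) * log (1 + τ - z)

/-- the base function -/
noncomputable def bf (δ τ : ℝ) (z : ℂ) : ℂ := exp (bF δ τ z)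

/-- derivative of `bF` -/
noncomputable def bFd (δ τ : ℝ) (z : ℂ) : ℂ := ((1 / 2 + δ : ℝ) : ℂ) / (1 - z) + (δ : ℂ) / (1 + τ - z)

lemma one_sub_re_pos {z : ℂ} (hz : ‖z‖ < 1) : 0 < (1 - z).re := by
  have h1 := (abs_le.mp (Complex.abs_re_le_norm z)).2
  simp only [sub_re, one_re]
  linarith

lemma one_add_sub_re {τ : ℝ} (_hτ : 0 < τ) {z : ℂ} (hz : ‖z‖ < 1) : τ < (1 + τ - z).re := by
  have h1 := (abs_le.mp (Complex.abs_re_le_norm z)).2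
  simp only [sub_re, add_re, one_re, ofReal_re]
  linarith

lemma bF_hasDerivAt {δ τ : ℝ} (hτ : 0 < τ) {z : ℂ} (hz : ‖z‖ < 1) :
    HasDerivAt (bF δ τ) (bFd δ τ z) z := by
  have h1 := one_sub_re_pos hz
  have h2 := one_add_sub_re hτ hz
  have s1 : (1 - z) ∈ slitPlane := Or.inl h1
  have s2 : (1 + τ - z) ∈ slitPlane := Or.inl (hτ.trans h2)
  have n1 : (1 - z) ≠ 0 := slitPlane_ne_zero s1
  have n2 : (1 + (τ : ℂ) - z) ≠ 0 := slitPlane_ne_zero s2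
  have e1 : HasDerivAt (fun z : ℂ => 1 - z) (-1) z := by
    simpa using (hasDerivAt_id z).const_sub 1
  have e2 : HasDerivAt (fun z : ℂ => 1 + (τ : ℂ) - z) (-1) z := by
    simpa using (hasDerivAt_id z).const_sub (1 + (τ : ℂ))
  have e3 := (e1.clog s1).const_mul (-((1 / 2 + δ : ℝ) : ℂ))
  have e4 := (e2.clog s2).const_mul (δ : ℂ)
  refine (e3.sub e4).congr_deriv ?_
  unfold bFd
  field_simp
  ring

lemma bf_hasDerivAt {δ τ : ℝ} (hτ : 0 < τ) {z : ℂ} (hz : ‖z‖ < 1) :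
    HasDerivAt (bf δ τ) (bf δ τ z * bFd δ τ z) z := (bF_hasDerivAt hτ hz).cexp

lemma bF_inj {δ τ : ℝ} (hδ : 0 < δ) (hτ : 0 < τ) {z w : ℂ} (hz : ‖z‖ < 1) (hw : ‖w‖ < 1)
    (h : bF δ τ z = bF δ τ w) : z = w := by
  -- real part of the derivative is positive on the segment
  by_contra hne
  set g : ℝ → ℂ := fun t => bF δ τ (w + t * (z - w)) with hg
  have hseg : ∀ t ∈ Icc (0 : ℝ) 1, ‖w + (t : ℂ) * (z - w)‖ < 1 := by
    intro t ht
    have hc := convex_ball (0 : ℂ) 1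
    have := hc (mem_ball_zero_iff.mpr hw) (mem_ball_zero_iff.mpr hz) (sub_nonneg.mpr ht.2) ht.1 (by ring)
    rw [mem_ball_zero_iff] at this
    have e : w + (t : ℂ) * (z - w) = (1 - t) • w + t • z := by
      rw [real_smul, real_smul, ofReal_sub, ofReal_one]
      ring
    rw [e]
    exact this
  have hd : ∀ t ∈ Icc (0 : ℝ) 1, HasDerivAt (fun t : ℝ => (bF δ τ (w + t * (z - w)) / (z - w)).re)
      (bFd δ τ (w + t * (z - w))).re t := by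
    intro t ht
    have h1 : HasDerivAt (fun t : ℝ => w + (t : ℂ) * (z - w)) (1 * (z - w)) t := by
      have := ((hasDerivAt_id t).ofReal_comp).mul_const (z - w)
      simpa using this.const_add w
    have h2 := (bF_hasDerivAt (δ := δ) hτ (hseg t ht)).comp_of_eq t h1 rfl
    have h3 := h2.div_const (z - w)
    have h4 : HasDerivAt (fun t : ℝ => bF δ τ (w + t * (z - w)) / (z - w)) (bFd δ τ (w + t * (z - w))) t := by
      refine h3.congr_deriv ?_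
      have : z - w ≠ 0 := sub_ne_zero.mpr hne
      field_simp
    exact (Complex.reCLM.hasFDerivAt.comp_hasDerivAt t h4)
  have hpos : ∀ t ∈ Icc (0 : ℝ) 1, 0 < (bFd δ τ (w + t * (z - w))).re := by
    intro t ht
    have hz' := hseg t ht
    have h1 := one_sub_re_pos hz'
    have h2 := one_add_sub_re hτ hz'
    unfold bFd
    rw [add_re, div_eq_mul_inv _ (1 - (w + ↑t * (z - w))), div_eq_mul_inv _ (1 + (τ : ℂ) - (w + ↑t * (z - w))),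
      re_ofReal_mul, re_ofReal_mul, inv_re, inv_re]
    have n1 : 0 < normSq (1 - (w + t * (z - w))) := by
      rw [normSq_pos]; intro h0; rw [h0] at h1; simp at h1
    have n2 : 0 < normSq (1 + (τ : ℂ) - (w + t * (z - w))) := by
      rw [normSq_pos]; intro h0; rw [h0] at h2; simp at h2; linarith
    have h3 : 0 < (1 - (w + t * (z - w))).re / normSq (1 - (w + t * (z - w))) := by positivity
    have h4 : 0 < (1 + (τ : ℂ) - (w + t * (z - w))).re / normSq (1 + (τ : ℂ) - (w + t * (z - w))) :=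
      div_pos (hτ.trans h2) n2
    positivity
  have hmono : StrictMonoOn (fun t : ℝ => (bF δ τ (w + t * (z - w)) / (z - w)).re) (Icc 0 1) := by
    apply strictMonoOn_of_deriv_pos (convex_Icc 0 1)
    · intro t ht
      exact (hd t ht).continuousAt.continuousWithinAt
    · intro t ht
      rw [interior_Icc] at ht
      rw [(hd t (Ioo_subset_Icc_self ht)).deriv]
      exact hpos t (Ioo_subset_Icc_self ht)
  have := hmono (show (0 : ℝ) ∈ Icc (0 : ℝ) 1 by simp) (show (1 : ℝ) ∈ Icc (0 : ℝ) 1 by simp) one_pos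
  simp only [ofReal_zero, zero_mul, add_zero, ofReal_one, one_mul, add_sub_cancel] at this
  rw [h] at this
  exact lt_irrefl _ this

lemma bF_re {δ τ : ℝ} (z : ℂ) : (bF δ τ z).re =
    -(1 / 2 + δ) * Real.log ‖1 - z‖ - δ * Real.log ‖1 + τ - z‖ := by
  unfold bF
  rw [sub_re, neg_mul, neg_re, re_ofReal_mul, re_ofReal_mul, log_re, log_re]
  ring

lemma bF_im {δ τ : ℝ} (z : ℂ) : (bF δ τ z).im =
    -(1 / 2 + δ) * arg (1 - z) - δ * arg (1 + τ - z) := by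
  unfold bF
  rw [sub_im, neg_mul, neg_im, im_ofReal_mul, im_ofReal_mul, log_im, log_im]
  ring

lemma norm_one_sub_pos {z : ℂ} (hz : ‖z‖ < 1) : 0 < ‖1 - z‖ := by
  rw [norm_pos_iff]
  intro h0
  have := one_sub_re_pos hz
  rw [h0] at this
  simp at this

lemma norm_shift_ge {τ : ℝ} (hτ : 0 < τ) {z : ℂ} (hz : ‖z‖ < 1) :
    max ‖1 - z‖ τ ≤ ‖1 + τ - z‖ := by
  have h1 := one_sub_re_pos hz
  apply max_le
  · have h2 : ‖1 - z‖ ^ 2 ≤ ‖1 + (τ : ℂ) - z‖ ^ 2 := by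
      rw [← Complex.normSq_eq_norm_sq, ← Complex.normSq_eq_norm_sq, normSq_apply, normSq_apply]
      simp only [sub_re, one_re, sub_im, one_im, add_re, ofReal_re, add_im, ofReal_im] at *
      nlinarith
    exact (pow_le_pow_iff_left₀ (norm_nonneg _) (norm_nonneg _) (by norm_num)).mp h2
  · have h2 := one_add_sub_re hτ hz
    exact h2.le.trans ((le_abs_self _).trans (abs_re_le_norm _))

lemma norm_shift_le {τ : ℝ} (hτ : 0 < τ) (z : ℂ) :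
    ‖1 + τ - z‖ ≤ 2 * max ‖1 - z‖ τ := by
  have h1 : 1 + (τ : ℂ) - z = (1 - z) + τ := by ring
  rw [h1]
  refine (norm_add_le _ _).trans ?_
  rw [norm_real, Real.norm_eq_abs, abs_of_pos hτ]
  have := le_max_left ‖1 - z‖ τ
  have := le_max_right ‖1 - z‖ τ
  linarith

/-- the size of the base function -/
noncomputable def bb0 (δ τ d : ℝ) : ℝ := d ^ (-(1 / 2 + δ)) * (max d τ) ^ (-δ)

lemma bf_norm {δ τ : ℝ} (hτ : 0 < τ) {z : ℂ} (hz : ‖z‖ < 1) :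
    ‖bf δ τ z‖ = ‖1 - z‖ ^ (-(1 / 2 + δ)) * ‖1 + τ - z‖ ^ (-δ) := by
  have hd := norm_one_sub_pos hz
  have h2 : 0 < ‖1 + (τ : ℂ) - z‖ := hτ.trans_le ((le_max_right _ _).trans (norm_shift_ge hτ hz))
  unfold bf
  rw [norm_exp, bF_re, Real.rpow_def_of_pos hd, Real.rpow_def_of_pos h2, ← Real.exp_add]
  congr 1
  ring

lemma bf_le {δ τ : ℝ} (hδ : 0 < δ) (hτ : 0 < τ) {z : ℂ} (hz : ‖z‖ < 1) :
    ‖bf δ τ z‖ ≤ bb0 δ τ ‖1 - z‖ := by
  have hd := norm_one_sub_pos hz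
  rw [bf_norm hτ hz]
  unfold bb0
  have hmax : 0 < max ‖1 - z‖ τ := lt_max_of_lt_right hτ
  gcongr ?_ * ?_
  exact Real.rpow_le_rpow_of_nonpos hmax (norm_shift_ge hτ hz) (by linarith)

lemma bf_ge {δ τ : ℝ} (hδ : 0 < δ) (hδ4 : δ < 1 / 4) (hτ : 0 < τ) {z : ℂ} (hz : ‖z‖ < 1) :
    bb0 δ τ ‖1 - z‖ ≤ 2 * ‖bf δ τ z‖ := by
  have hd := norm_one_sub_pos hz
  rw [bf_norm hτ hz]
  unfold bb0
  have hmax : 0 < max ‖1 - z‖ τ := lt_max_of_lt_right hτ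
  have h2 : 0 < ‖1 + (τ : ℂ) - z‖ := hτ.trans_le ((le_max_right _ _).trans (norm_shift_ge hτ hz))
  have h3 : (2 * max ‖1 - z‖ τ) ^ (-δ) ≤ ‖1 + (τ : ℂ) - z‖ ^ (-δ) :=
    Real.rpow_le_rpow_of_nonpos h2 (norm_shift_le hτ z) (by linarith)
  rw [Real.mul_rpow (by norm_num) hmax.le] at h3
  have h4 : (1 : ℝ) / 2 ≤ 2 ^ (-δ) := by
    have : (2 : ℝ) ^ (-1 : ℝ) ≤ 2 ^ (-δ) := Real.rpow_le_rpow_of_exponent_le (by norm_num) (by linarith)
    rw [Real.rpow_neg_one] at this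
    linarith
  have h5 : 0 < max ‖1 - z‖ τ ^ (-δ) := Real.rpow_pos_of_pos hmax _
  have h6 : 0 < ‖1 - z‖ ^ (-(1 / 2 + δ)) := Real.rpow_pos_of_pos hd _
  nlinarith [mul_le_mul_of_nonneg_left h3 h6.le, mul_le_mul_of_nonneg_right h4 (mul_pos h5 h6).le]

lemma bf_le_rpow {δ τ : ℝ} (hδ : 0 < δ) (hτ : 0 < τ) {z : ℂ} (hz : ‖z‖ < 1) :
    ‖bf δ τ z‖ ≤ ‖1 - z‖ ^ (-(1 / 2 + 2 * δ)) := by
  have hd := norm_one_sub_pos hz
  refine (bf_le hδ hτ hz).trans ?_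
  unfold bb0
  have h1 : (max ‖1 - z‖ τ) ^ (-δ) ≤ ‖1 - z‖ ^ (-δ) :=
    Real.rpow_le_rpow_of_nonpos hd (le_max_left _ _) (by linarith)
  calc ‖1 - z‖ ^ (-(1 / 2 + δ)) * max ‖1 - z‖ τ ^ (-δ) ≤ ‖1 - z‖ ^ (-(1 / 2 + δ)) * ‖1 - z‖ ^ (-δ) := by
        gcongr
    _ = ‖1 - z‖ ^ (-(1 / 2 + 2 * δ)) := by
        rw [← Real.rpow_add hd]; congr 1; ring

lemma bFd_norm {δ τ : ℝ} (hδ : 0 < δ) (hδ4 : δ < 1 / 4) (hτ : 0 < τ) {z : ℂ} (hz : ‖z‖ < 1) :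
    ‖bFd δ τ z‖ ≤ 1 / ‖1 - z‖ := by
  have hd := norm_one_sub_pos hz
  have h2 : ‖1 - z‖ ≤ ‖1 + (τ : ℂ) - z‖ := (le_max_left _ _).trans (norm_shift_ge hτ hz)
  unfold bFd
  refine (norm_add_le _ _).trans ?_
  rw [norm_div, norm_div, norm_real, norm_real, Real.norm_eq_abs, Real.norm_eq_abs,
    abs_of_pos (by linarith), abs_of_pos hδ]
  calc (1 / 2 + δ) / ‖1 - z‖ + δ / ‖1 + (τ : ℂ) - z‖ ≤ (1 / 2 + δ) / ‖1 - z‖ + δ / ‖1 - z‖ := by gcongr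
    _ = (1 / 2 + 2 * δ) / ‖1 - z‖ := by ring
    _ ≤ 1 / ‖1 - z‖ := by gcongr; linarith

lemma arg_bound {τ : ℝ} (hτ : 0 < τ) {z : ℂ} (hz : ‖z‖ < 1) :
    |arg (1 + τ - z)| ≤ π / 2 - (1 / 2) * min 1 (τ / ‖1 - z‖) := by
  have hd := norm_one_sub_pos hz
  have h2 := one_add_sub_re hτ hz
  set v : ℂ := 1 + τ - z with hv
  have hv0 : 0 < ‖v‖ := by
    rw [norm_pos_iff]; intro h0; rw [h0] at h2; simp at h2; linarith
  have habs : |arg v| < π / 2 := abs_arg_lt_pi_div_two_iff.mpr (Or.inl (hτ.trans h2))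
  have hcos : Real.cos |arg v| = v.re / ‖v‖ := by
    rw [Real.cos_abs, Complex.cos_arg]
    exact norm_pos_iff.mp hv0
  have h3 : Real.cos |arg v| ≤ π / 2 - |arg v| := by
    rw [← Real.sin_pi_div_two_sub]
    exact Real.sin_le (by linarith)
  have h4 : (1 / 2) * min 1 (τ / ‖1 - z‖) ≤ v.re / ‖v‖ := by
    have h5 := norm_shift_le hτ z
    rw [le_div_iff₀ hv0]
    have hmax : 0 < max ‖1 - z‖ τ := lt_max_of_lt_right hτ
    have h6 : min 1 (τ / ‖1 - z‖) * max ‖1 - z‖ τ ≤ τ := by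
      rcases le_total ‖1 - z‖ τ with h | h
      · rw [max_eq_right h]
        calc min 1 (τ / ‖1 - z‖) * τ ≤ 1 * τ := by gcongr; exact min_le_left _ _
          _ = τ := one_mul _
      · rw [max_eq_left h]
        calc min 1 (τ / ‖1 - z‖) * ‖1 - z‖ ≤ τ / ‖1 - z‖ * ‖1 - z‖ := by gcongr; exact min_le_right _ _
          _ = τ := by field_simp
    have h7 : 0 ≤ min 1 (τ / ‖1 - z‖) := by positivity
    nlinarith [mul_le_mul_of_nonneg_left h5 h7]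
  linarith

lemma bF_im_bound {δ τ : ℝ} (hδ : 0 < δ) (hτ : 0 < τ) {z : ℂ} (hz : ‖z‖ < 1) :
    |(bF δ τ z).im| ≤ π * (1 / 4 + δ) - δ / 2 * min 1 (τ / ‖1 - z‖) := by
  have h1 := arg_bound hτ hz
  have h2 : |arg (1 - z)| ≤ π / 2 := (abs_arg_lt_pi_div_two_iff.mpr (Or.inl (one_sub_re_pos hz))).le
  rw [bF_im]
  have h3 : |-(1 / 2 + δ) * arg (1 - z) - δ * arg (1 + τ - z)| ≤
      (1 / 2 + δ) * |arg (1 - z)| + δ * |arg (1 + τ - z)| := by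
    refine (abs_sub _ _).trans ?_
    rw [abs_mul, abs_mul, abs_neg, abs_of_pos hδ, abs_of_pos (by linarith : 0 < 1 / 2 + δ)]
  have h4 : (1 / 2 + δ) * |arg (1 - z)| ≤ (1 / 2 + δ) * (π / 2) := by gcongr
  have h5 : δ * |arg (1 + τ - z)| ≤ δ * (π / 2 - (1 / 2) * min 1 (τ / ‖1 - z‖)) := by gcongr
  linarith

/-- the gain function -/
noncomputable def bmu (δ τ ρ : ℝ) : ℝ := min 1 (τ * ρ ^ (1 / (1 / 2 + 2 * δ)))

lemma bmu_mono {δ τ : ℝ} (hδ : 0 < δ) (hτ : 0 < τ) {a b : ℝ} (ha : 0 ≤ a) (hab : a ≤ b) :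
    bmu δ τ a ≤ bmu δ τ b := by
  unfold bmu
  gcongr

lemma bmu_nonneg {δ τ : ℝ} (hτ : 0 < τ) {a : ℝ} (ha : 0 ≤ a) : 0 ≤ bmu δ τ a := by
  unfold bmu; positivity

lemma bmu_le_one (δ τ a : ℝ) : bmu δ τ a ≤ 1 := min_le_left _ _

lemma bmu_double {δ τ : ℝ} (hδ : 0 < δ) (hτ : 0 < τ) {a : ℝ} (ha : 0 ≤ a) :
    bmu δ τ (2 * a) ≤ 4 * bmu δ τ a := by
  unfold bmu
  have h1 : (2 * a) ^ (1 / (1 / 2 + 2 * δ)) ≤ 4 * a ^ (1 / (1 / 2 + 2 * δ)) := by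
    rw [Real.mul_rpow (by norm_num) ha]
    have h2 : (2 : ℝ) ^ (1 / (1 / 2 + 2 * δ)) ≤ 4 := by
      calc (2 : ℝ) ^ (1 / (1 / 2 + 2 * δ)) ≤ 2 ^ (2 : ℝ) := by
            apply Real.rpow_le_rpow_of_exponent_le (by norm_num)
            rw [div_le_iff₀ (by linarith)]
            linarith
        _ = 4 := by norm_num
    gcongr
  have h3 : τ * (2 * a) ^ (1 / (1 / 2 + 2 * δ)) ≤ 4 * (τ * a ^ (1 / (1 / 2 + 2 * δ))) := by
    calc τ * (2 * a) ^ (1 / (1 / 2 + 2 * δ)) ≤ τ * (4 * a ^ (1 / (1 / 2 + 2 * δ))) := by gcongr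
      _ = _ := by ring
  rw [mul_min_of_nonneg _ _ (by norm_num : (0 : ℝ) ≤ 4)]
  exact min_le_min (by norm_num) h3

lemma bmu_le_min {δ τ : ℝ} (hδ : 0 < δ) (hτ : 0 < τ) {z : ℂ} (hz : ‖z‖ < 1) :
    bmu δ τ ‖bf δ τ z‖ ≤ min 1 (τ / ‖1 - z‖) := by
  have hd := norm_one_sub_pos hz
  unfold bmu
  apply min_le_min le_rfl
  have h1 := bf_le_rpow hδ hτ hz
  have h2 : ‖bf δ τ z‖ ^ (1 / (1 / 2 + 2 * δ)) ≤ (‖1 - z‖ ^ (-(1 / 2 + 2 * δ))) ^ (1 / (1 / 2 + 2 * δ)) := by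
    gcongr
  rw [← Real.rpow_mul hd.le] at h2
  have h3 : -(1 / 2 + 2 * δ) * (1 / (1 / 2 + 2 * δ)) = -1 := by
    have : 1 / 2 + 2 * δ ≠ 0 := by linarith
    field_simp
  rw [h3, Real.rpow_neg_one] at h2
  calc τ * ‖bf δ τ z‖ ^ (1 / (1 / 2 + 2 * δ)) ≤ τ * ‖1 - z‖⁻¹ := by gcongr
    _ = τ / ‖1 - z‖ := by rw [div_eq_mul_inv]

lemma min_le_bmu {δ τ : ℝ} (hδ : 0 < δ) (hδ4 : δ < 1 / 4) (hτ : 0 < τ) {z : ℂ} (hz : ‖z‖ < 1) :
    min 1 (τ / ‖1 - z‖) ≤ 4 * bmu δ τ ‖bf δ τ z‖ := by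
  have hd := norm_one_sub_pos hz
  have h0 := bf_ge hδ hδ4 hτ hz
  set d := ‖1 - z‖ with hdd
  have h1 : (max d τ) ^ (-(1 / 2 + 2 * δ)) ≤ bb0 δ τ d := by
    unfold bb0
    have hmax : 0 < max d τ := lt_max_of_lt_right hτ
    have h2 : -(1 / 2 + 2 * δ) = -(1 / 2 + δ) + -δ := by ring
    rw [h2, Real.rpow_add hmax]
    gcongr ?_ * _
    exact Real.rpow_le_rpow_of_nonpos hd (le_max_left _ _) (by linarith)
  have h2 : (max d τ) ^ (-(1 / 2 + 2 * δ)) ≤ 2 * ‖bf δ τ z‖ := h1.trans h0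
  have hmax : 0 < max d τ := lt_max_of_lt_right hτ
  have h3 : ((max d τ) ^ (-(1 / 2 + 2 * δ))) ^ (1 / (1 / 2 + 2 * δ)) ≤ (2 * ‖bf δ τ z‖) ^ (1 / (1 / 2 + 2 * δ)) := by
    gcongr
  rw [← Real.rpow_mul hmax.le] at h3
  have h4 : -(1 / 2 + 2 * δ) * (1 / (1 / 2 + 2 * δ)) = -1 := by
    have : 1 / 2 + 2 * δ ≠ 0 := by linarith
    field_simp
  rw [h4, Real.rpow_neg_one] at h3
  have h5 : min 1 (τ / d) ≤ bmu δ τ (2 * ‖bf δ τ z‖) := by
    unfold bmu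
    apply le_min (min_le_left _ _)
    refine le_trans ?_ (mul_le_mul_of_nonneg_left h3 hτ.le)
    rw [← div_eq_mul_inv]
    rcases le_total d τ with h | h
    · rw [max_eq_right h, div_self hτ.ne']
      exact min_le_left _ _
    · rw [max_eq_left h]
      exact min_le_right _ _
  exact h5.trans (bmu_double hδ hτ (norm_nonneg _))

lemma bf_arg {δ τ : ℝ} (hδ : 0 < δ) (hδ4 : δ < 1 / 4) (hτ : 0 < τ) {z : ℂ} (hz : ‖z‖ < 1) :
    arg (bf δ τ z) = (bF δ τ z).im := by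
  have h1 := bF_im_bound hδ hτ hz
  have hpi := Real.pi_pos
  have h2 : 0 ≤ δ / 2 * min 1 (τ / ‖1 - z‖) := by positivity
  have h3 : |(bF δ τ z).im| < π := by nlinarith
  rw [abs_lt] at h3
  unfold bf
  rw [arg_exp]
  exact toIocMod_eq_self _ |>.mpr ⟨h3.1, by linarith [h3.2]⟩

end Pool.Agent.Run7.h820
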