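import Pool.Agent.Run7.h820.Blow1

open Complex MeasureTheory Metric Set Filter Topology
open scoped ENNReal Real ComplexConjugate NNReal

set_option autoImplicit false

namespace Pool.Agent.Run7.h820

lemma bmu_scale {δ τ : ℝ} (hδ : 0 < δ) (hτ : 0 < τ) {t R : ℝ} (ht : 0 < t) (htR : t ≤ R) :
    bmu δ τ R * (t / R) ^ 2 ≤ bmu δ τ t := by
  have hR : 0 < R := ht.trans_le htR
  have h1 : t / R ≤ 1 := (div_le_one hR).mpr htR
  have h0 : 0 < t / R := by positivity
  have h2 : (t / R) ^ 2 ≤ 1 := pow_le_one₀ h0.le h1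
  unfold bmu
  apply le_min
  · calc min 1 (τ * R ^ (1 / (1 / 2 + 2 * δ))) * (t / R) ^ 2 ≤ 1 * 1 := by
          gcongr
          exact min_le_left _ _
      _ = 1 := by norm_num
  · have h3 : (t / R) ^ 2 ≤ (t / R) ^ (1 / (1 / 2 + 2 * δ)) := by
      rw [← Real.rpow_natCast]
      apply Real.rpow_le_rpow_of_exponent_ge h0 h1
      rw [div_le_iff₀ (by linarith)]
      push_cast
      linarith
    calc min 1 (τ * R ^ (1 / (1 / 2 + 2 * δ))) * (t / R) ^ 2
        ≤ (τ * R ^ (1 / (1 / 2 + 2 * δ))) * (t / R) ^ (1 / (1 / 2 + 2 * δ)) := by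
          gcongr
          exact min_le_right _ _
      _ = τ * (R ^ (1 / (1 / 2 + 2 * δ)) * (t / R) ^ (1 / (1 / 2 + 2 * δ))) := by ring
      _ = τ * t ^ (1 / (1 / 2 + 2 * δ)) := by
          rw [← Real.mul_rpow hR.le h0.le]
          congr 3
          field_simp

lemma bmu_measurable (δ τ : ℝ) : Measurable (bmu δ τ) := by
  unfold bmu
  fun_prop

lemma bf_diff {δ τ : ℝ} (hτ : 0 < τ) : DifferentiableOn ℂ (bf δ τ) (ball 0 1) := fun _ hz =>
  (bf_hasDerivAt hτ (mem_ball_zero_iff.mp hz)).differentiableAt.differentiableWithinAt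

lemma bFd_ne {δ τ : ℝ} (hδ : 0 < δ) (hτ : 0 < τ) {z : ℂ} (hz : ‖z‖ < 1) : bFd δ τ z ≠ 0 := by
  have h1 := one_sub_re_pos hz
  have h2 := one_add_sub_re hτ hz
  intro h0
  have h3 : 0 < (bFd δ τ z).re := by
    unfold bFd
    rw [add_re, div_eq_mul_inv _ (1 - z), div_eq_mul_inv _ (1 + (τ : ℂ) - z),
      re_ofReal_mul, re_ofReal_mul, inv_re, inv_re]
    have n1 : 0 < normSq (1 - z) := by
      rw [normSq_pos]; intro h0; rw [h0] at h1; simp at h1
    have n2 : 0 < normSq (1 + (τ : ℂ) - z) := by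
      rw [normSq_pos]; intro h0; rw [h0] at h2; simp at h2; linarith
    have h3 : 0 < (1 - z).re / normSq (1 - z) := by positivity
    have h4 : 0 < (1 + (τ : ℂ) - z).re / normSq (1 + (τ : ℂ) - z) := div_pos (hτ.trans h2) n2
    positivity
  rw [h0] at h3
  simp at h3

lemma bf_injOn {δ τ : ℝ} (hδ : 0 < δ) (hδ4 : δ < 1 / 4) (hτ : 0 < τ) : InjOn (bf δ τ) (ball 0 1) := by
  intro z hz w hw h
  rw [mem_ball_zero_iff] at hz hw
  apply bF_inj hδ hτ hz hw
  have h1 := bf_arg hδ hδ4 hτ hz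
  have h2 := bf_arg hδ hδ4 hτ hw
  have h3 : (bF δ τ z).im = (bF δ τ w).im := by rw [← h1, ← h2, h]
  have h4 : (bF δ τ z).re = (bF δ τ w).re := by
    have : ‖bf δ τ z‖ = ‖bf δ τ w‖ := by rw [h]
    unfold bf at this
    rw [norm_exp, norm_exp] at this
    exact Real.exp_injective this
  exact Complex.ext h4 h3

lemma bf_area {δ τ : ℝ} (hδ : 0 < δ) (hδ4 : δ < 1 / 4) (hτ : 0 < τ) {R : ℝ} (hR : 0 < R) :
    ∫⁻ z in ball (0 : ℂ) 1 ∩ {z | ‖bf δ τ z‖ < R}, ENNReal.ofReal (‖deriv (bf δ τ) z‖ ^ 2) ≤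
      ENNReal.ofReal (π * (1 / 4 + δ) * R ^ 2 - δ / 4 * bmu δ τ R * R ^ 2) := by
  have hpi := Real.pi_gt_three
  set h : ℝ → ℝ := fun t => π * (1 / 4 + δ) - δ / 2 * bmu δ τ t with hh
  have hmeas : Measurable h := (((bmu_measurable δ τ).const_mul (δ / 2))).const_sub _
  set S : Set ℂ := {w : ℂ | |Complex.arg w| ≤ h ‖w‖} with hS
  have hSm : MeasurableSet S :=
    measurableSet_le (Complex.measurable_arg.abs) (hmeas.comp measurable_norm)
  have hmaps : MapsTo (bf δ τ) (ball 0 1) S := by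
    intro z hz
    rw [mem_ball_zero_iff] at hz
    rw [hS, mem_ofPred_eq, bf_arg hδ hδ4 hτ hz]
    refine (bF_im_bound hδ hτ hz).trans ?_
    simp only [hh]
    have := bmu_le_min hδ hτ hz
    gcongr
  have hder : ∀ z ∈ ball (0 : ℂ) 1, deriv (bf δ τ) z ≠ 0 := by
    intro z hz
    rw [mem_ball_zero_iff] at hz
    rw [(bf_hasDerivAt hτ hz).deriv]
    exact mul_ne_zero (exp_ne_zero _) (bFd_ne hδ hτ hz)
  refine (area_le_valence (bf_diff hτ) R).trans ?_
  refine (lintegral_mono (fun w => valence_le_of_inj (bf_diff hτ) (bf_injOn hδ hδ4 hτ) hder hmaps w)).trans ?_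
  rw [lintegral_indicator_one hSm, Measure.restrict_apply hSm]
  refine (polar_area hmeas).trans ?_
  set m := bmu δ τ R with hm
  have hm0 : 0 ≤ m := bmu_nonneg hτ hR.le
  have hm1 : m ≤ 1 := bmu_le_one _ _ _
  set φ : ℝ → ℝ := fun t => t * (2 * (π * (1 / 4 + δ)) - δ * m * (t / R) ^ 2) with hφ
  have hle : ∀ t ∈ Ioo (0 : ℝ) R, ENNReal.ofReal t * ENNReal.ofReal (2 * h t) ≤ ENNReal.ofReal (φ t) := by
    intro t ht
    rw [← ENNReal.ofReal_mul ht.1.le]
    apply ENNReal.ofReal_le_ofReal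
    simp only [hφ, hh]
    have h1 := bmu_scale hδ hτ ht.1 ht.2.le
    rw [← hm] at h1
    have h2 := ht.1
    gcongr
    nlinarith
  refine (setLIntegral_mono' measurableSet_Ioo hle).trans ?_
  have hφc : Continuous φ := by
    simp only [hφ]
    fun_prop
  have hφ0 : ∀ t ∈ Ioo (0 : ℝ) R, 0 ≤ φ t := by
    intro t ht
    simp only [hφ]
    have h1 : (t / R) ^ 2 ≤ 1 := pow_le_one₀ (by have := ht.1; positivity) ((div_le_one hR).mpr ht.2.le)
    have h2 : δ * m * (t / R) ^ 2 ≤ 1 / 4 * 1 * 1 := by gcongr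
    have h3 : 0 < π * (1 / 4 + δ) := by positivity
    have h4 : 3 * (1 / 4) ≤ π * (1 / 4 + δ) := by nlinarith
    exact mul_nonneg ht.1.le (by linarith)
  have hint : IntegrableOn φ (Ioo 0 R) := (hφc.integrableOn_Icc).mono_set Ioo_subset_Icc_self
  rw [← ofReal_integral_eq_lintegral_ofReal hint
    ((ae_restrict_iff' measurableSet_Ioo).mpr (ae_of_all _ hφ0))]
  apply ENNReal.ofReal_le_ofReal
  rw [← integral_Ioc_eq_integral_Ioo, ← intervalIntegral.integral_of_le hR.le]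
  have hprim : ∀ t ∈ uIcc (0 : ℝ) R, HasDerivAt
      (fun t => π * (1 / 4 + δ) * t ^ 2 - δ * m * t ^ 4 / (4 * R ^ 2)) (φ t) t := by
    intro t _
    have h1 := (hasDerivAt_pow 2 t).const_mul (π * (1 / 4 + δ))
    have h2 := ((hasDerivAt_pow 4 t).const_mul (δ * m)).div_const (4 * R ^ 2)
    refine (h1.sub h2).congr_deriv ?_
    simp only [hφ]
    field_simp
    ring
  rw [intervalIntegral.integral_eq_sub_of_hasDerivAt hprim (hφc.intervalIntegrable _ _)]
  apply le_of_eq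
  field_simp
  ring

end Pool.Agent.Run7.h820
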