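import Pool.Agent.Run7.h820.Blow2

open Complex MeasureTheory Metric Set Filter Topology
open scoped ENNReal Real ComplexConjugate NNReal

set_option autoImplicit false

namespace Pool.Agent.Run7.h820

/-- one term -/
noncomputable def bT (δ a d : ℝ) : ℝ := a ^ (2 * δ - 1) * (min a (2 / d)) ^ 2

/-- the majorant of the perturbation -/
noncomputable def bS (δ : ℝ) (k K : ℕ) (d : ℝ) : ℝ := ∑ i ∈ Finset.range (K + 1), bT δ (2 ^ (k + i)) d

lemma min_sq_le {a b s : ℝ} (ha : 0 < a) (hb : 0 < b) (hs0 : 0 ≤ s) (hs2 : s ≤ 2) :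
    (min a b) ^ 2 ≤ a ^ (2 - s) * b ^ s := by
  have hm : 0 < min a b := lt_min ha hb
  calc (min a b) ^ 2 = (min a b) ^ (2 - s) * (min a b) ^ s := by
        rw [← Real.rpow_add hm, ← Real.rpow_natCast]; congr 1; push_cast; ring
    _ ≤ a ^ (2 - s) * b ^ s := by
        apply mul_le_mul
        · exact Real.rpow_le_rpow hm.le (min_le_left _ _) (by linarith)
        · exact Real.rpow_le_rpow hm.le (min_le_right _ _) hs0
        · positivity
        · positivity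

lemma bT_le_gen {δ s a d : ℝ} (ha : 0 < a) (hd : 0 < d) (hs0 : 0 ≤ s) (hs2 : s ≤ 2) :
    bT δ a d ≤ 4 * (a ^ (1 + 2 * δ - s) * d ^ (-s)) := by
  unfold bT
  have h1 := min_sq_le ha (show 0 < 2 / d by positivity) hs0 hs2
  have h2 : (2 : ℝ) ^ s ≤ 4 := by
    calc (2 : ℝ) ^ s ≤ 2 ^ (2 : ℝ) := Real.rpow_le_rpow_of_exponent_le (by norm_num) hs2
      _ = 4 := by norm_num
  calc a ^ (2 * δ - 1) * (min a (2 / d)) ^ 2 ≤ a ^ (2 * δ - 1) * (a ^ (2 - s) * (2 / d) ^ s) := by gcongr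
    _ = 2 ^ s * (a ^ (1 + 2 * δ - s) * d ^ (-s)) := by
        rw [Real.div_rpow (by norm_num) hd.le, Real.rpow_neg hd.le]
        have : 1 + 2 * δ - s = (2 * δ - 1) + (2 - s) := by ring
        rw [this, Real.rpow_add ha]
        ring
    _ ≤ 4 * (a ^ (1 + 2 * δ - s) * d ^ (-s)) := by gcongr

lemma bb0_small {δ τ d : ℝ} (h : d ≤ τ) : bb0 δ τ d = d ^ (-(1 / 2 + δ)) * τ ^ (-δ) := by
  unfold bb0
  rw [max_eq_right h]

lemma bb0_big {δ τ d : ℝ} (hτ : 0 < τ) (h : τ ≤ d) : bb0 δ τ d = d ^ (-(1 / 2 + 2 * δ)) := by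
  have hd : 0 < d := hτ.trans_le h
  unfold bb0
  rw [max_eq_left h, ← Real.rpow_add hd]
  congr 1
  ring

lemma bb0_pos {δ τ d : ℝ} (hτ : 0 < τ) (hd : 0 < d) : 0 < bb0 δ τ d := by
  unfold bb0
  have : 0 < max d τ := lt_max_of_lt_left hd
  positivity

lemma bT_one {δ τ a d : ℝ} (hδ : 0 < δ) (hδ4 : δ < 1 / 4) (ha : 0 < a) (hd : 0 < d) (hτ : 0 < τ)
    (haτ : (a * τ) ^ δ ≤ 2) (hdτ : d ≤ τ) : bT δ a d ≤ 8 * bb0 δ τ d * √a := by
  have h1 := bT_le_gen (δ := δ) (s := 1 / 2 + δ) ha hd (by linarith) (by linarith)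
  refine h1.trans ?_
  rw [bb0_small hdτ]
  have h2 : a ^ (1 + 2 * δ - (1 / 2 + δ)) = a ^ δ * √a := by
    rw [Real.sqrt_eq_rpow, ← Real.rpow_add ha]; congr 1; ring
  have h3 : a ^ δ ≤ 2 * τ ^ (-δ) := by
    rw [Real.mul_rpow ha.le hτ.le] at haτ
    rw [Real.rpow_neg hτ.le, ← div_eq_mul_inv, le_div_iff₀ (by positivity)]
    exact haτ
  rw [h2]
  calc 4 * (a ^ δ * √a * d ^ (-(1 / 2 + δ))) ≤ 4 * ((2 * τ ^ (-δ)) * √a * d ^ (-(1 / 2 + δ))) := by gcongr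
    _ = 8 * (d ^ (-(1 / 2 + δ)) * τ ^ (-δ)) * √a := by ring

lemma bT_two {δ τ a d : ℝ} (hδ : 0 < δ) (hδ4 : δ < 1 / 4) (ha : 0 < a) (hd : 0 < d) (hτ : 0 < τ)
    (haτ : (a * τ) ^ δ ≤ 2) (haτ1 : 1 ≤ a * τ) : bT δ a d ≤ 8 * bb0 δ τ d / (√a * d) := by
  have hsa : 0 < √a := Real.sqrt_pos.mpr ha
  rcases le_total d τ with hdτ | hdτ
  · have h1 := bT_le_gen (δ := δ) (s := 3 / 2 + δ) ha hd (by linarith) (by linarith)
    refine h1.trans ?_
    rw [bb0_small hdτ]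
    have h2 : a ^ (1 + 2 * δ - (3 / 2 + δ)) = a ^ δ / √a := by
      rw [Real.sqrt_eq_rpow, ← Real.rpow_sub ha]; congr 1; ring
    have h2' : d ^ (-(3 / 2 + δ)) = d ^ (-(1 / 2 + δ)) / d := by
      rw [eq_div_iff hd.ne']
      nth_rw 2 [← Real.rpow_one d]
      rw [← Real.rpow_add hd]; congr 1; ring
    have h3 : a ^ δ ≤ 2 * τ ^ (-δ) := by
      rw [Real.mul_rpow ha.le hτ.le] at haτ
      rw [Real.rpow_neg hτ.le, ← div_eq_mul_inv, le_div_iff₀ (by positivity)]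
      exact haτ
    rw [h2, h2']
    calc 4 * (a ^ δ / √a * (d ^ (-(1 / 2 + δ)) / d)) ≤ 4 * ((2 * τ ^ (-δ)) / √a * (d ^ (-(1 / 2 + δ)) / d)) := by
          gcongr
      _ = 8 * (d ^ (-(1 / 2 + δ)) * τ ^ (-δ)) / (√a * d) := by field_simp; ring
  · have h1 := bT_le_gen (δ := δ) (s := 2) ha hd (by linarith) (by linarith)
    refine h1.trans ?_
    rw [bb0_big hτ hdτ]
    have had : 1 ≤ a * d := haτ1.trans (by gcongr)
    have h2 : (a * d) ^ (2 * δ - 1) ≤ (a * d) ^ (-(1 / 2 : ℝ)) :=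
      Real.rpow_le_rpow_of_exponent_le had (by linarith)
    rw [Real.mul_rpow ha.le hd.le, Real.mul_rpow ha.le hd.le] at h2
    have h3 : a ^ (1 + 2 * δ - 2) = a ^ (2 * δ - 1) := by congr 1; ring
    have h4 : d ^ (-(2 : ℝ)) = d ^ (2 * δ - 1) * d ^ (-(1 / 2 + 2 * δ)) * d ^ (-(1 / 2 : ℝ)) := by
      rw [← Real.rpow_add hd, ← Real.rpow_add hd]; congr 1; ring
    have h5 : a ^ (-(1 / 2 : ℝ)) = 1 / √a := by
      rw [Real.sqrt_eq_rpow, Real.rpow_neg ha.le]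
      exact (one_div _).symm
    have h6 : d ^ (-(1 / 2 : ℝ)) * d ^ (-(1 / 2 : ℝ)) = 1 / d := by
      rw [← Real.rpow_add hd]
      norm_num
      rw [Real.rpow_neg_one]
    have hp1 : 0 < d ^ (-(1 / 2 + 2 * δ)) := by positivity
    have hp2 : 0 < d ^ (-(1 / 2 : ℝ)) := by positivity
    rw [h3, h4]
    calc 4 * (a ^ (2 * δ - 1) * (d ^ (2 * δ - 1) * d ^ (-(1 / 2 + 2 * δ)) * d ^ (-(1 / 2 : ℝ))))
        = 4 * ((a ^ (2 * δ - 1) * d ^ (2 * δ - 1)) * (d ^ (-(1 / 2 + 2 * δ)) * d ^ (-(1 / 2 : ℝ)))) := by ring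
      _ ≤ 4 * ((a ^ (-(1 / 2 : ℝ)) * d ^ (-(1 / 2 : ℝ))) * (d ^ (-(1 / 2 + 2 * δ)) * d ^ (-(1 / 2 : ℝ)))) := by
          gcongr
      _ = 4 * (a ^ (-(1 / 2 : ℝ)) * d ^ (-(1 / 2 + 2 * δ)) * (d ^ (-(1 / 2 : ℝ)) * d ^ (-(1 / 2 : ℝ)))) := by ring
      _ = 4 * (d ^ (-(1 / 2 + 2 * δ)) / (√a * d)) := by rw [h5, h6]; field_simp
      _ ≤ 8 * d ^ (-(1 / 2 + 2 * δ)) / (√a * d) := by
          rw [mul_div_assoc]
          gcongr
          norm_num

lemma sqrt_two_pow (k : ℕ) : √((2 : ℝ) ^ k) = √2 ^ k := by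
  rw [Real.sqrt_eq_iff_mul_self_eq (by positivity) (by positivity), ← mul_pow,
    Real.mul_self_sqrt (by norm_num)]

lemma sqrt_two_bounds : 1.41 < √(2 : ℝ) ∧ √(2 : ℝ) < 1.42 := by
  constructor
  · rw [Real.lt_sqrt (by norm_num)]; norm_num
  · rw [Real.sqrt_lt' (by norm_num)]; norm_num

lemma sum_up (k K : ℕ) : ∑ i ∈ Finset.range (K + 1), √((2 : ℝ) ^ (k + i)) ≤ 7 / 2 * √((2 : ℝ) ^ (k + K)) := by
  obtain ⟨h1, h2⟩ := sqrt_two_bounds
  induction K with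
  | zero =>
    simp only [zero_add, Finset.range_one, Finset.sum_singleton, add_zero]
    have := Real.sqrt_nonneg ((2 : ℝ) ^ k)
    linarith
  | succ K ih =>
    rw [Finset.sum_range_succ]
    have h3 : √((2 : ℝ) ^ (k + (K + 1))) = √2 * √((2 : ℝ) ^ (k + K)) := by
      rw [sqrt_two_pow, sqrt_two_pow, ← add_assoc, pow_succ]; ring
    rw [h3]
    have h4 := Real.sqrt_nonneg ((2 : ℝ) ^ (k + K))
    nlinarith

lemma sum_down (k K : ℕ) : ∑ i ∈ Finset.range (K + 1), 1 / √((2 : ℝ) ^ (k + i)) ≤ 7 / 2 * (1 / √((2 : ℝ) ^ k)) := by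
  obtain ⟨h1, h2⟩ := sqrt_two_bounds
  have h5 : 0 < √((2 : ℝ) ^ k) := by positivity
  have key : ∀ m : ℕ, ∑ i ∈ Finset.range m, 1 / √((2 : ℝ) ^ (k + i)) ≤
      7 / 2 * (1 / √((2 : ℝ) ^ k)) * (1 - (1 / √2) ^ m) := by
    intro m
    induction m with
    | zero => simp
    | succ m ih =>
      rw [Finset.sum_range_succ]
      have h3 : 1 / √((2 : ℝ) ^ (k + m)) = (1 / √((2 : ℝ) ^ k)) * (1 / √2) ^ m := by
        rw [sqrt_two_pow, sqrt_two_pow, pow_add, one_div_pow]; field_simp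
      rw [h3]
      have h4 : 0 < (1 / √2 : ℝ) ^ m := by positivity
      have h6 : 0 < 1 / √((2 : ℝ) ^ k) := by positivity
      have h7 : 1 / √(2 : ℝ) ≤ 5 / 7 := by
        rw [div_le_div_iff₀ (by positivity) (by norm_num)]
        linarith
      have h8 : 0 < (1 / √((2 : ℝ) ^ k)) * (1 / √2 : ℝ) ^ m := by positivity
      calc _ ≤ 7 / 2 * (1 / √((2 : ℝ) ^ k)) * (1 - (1 / √2) ^ m) + (1 / √((2 : ℝ) ^ k)) * (1 / √2) ^ m := by
            gcongr
        _ ≤ 7 / 2 * (1 / √((2 : ℝ) ^ k)) * (1 - (1 / √2) ^ (m + 1)) := by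
            rw [pow_succ]
            nlinarith
  refine (key (K + 1)).trans ?_
  have h4 : 0 < (1 / √2 : ℝ) ^ (K + 1) := by positivity
  have h6 : 0 < 1 / √((2 : ℝ) ^ k) := by positivity
  nlinarith

lemma psi_step {s : ℝ} (hs : 0 < s) : min s (1 / s) ≤ 12 * (√2 * s / (1 + √2 * s) - s / (1 + s)) := by
  obtain ⟨h1, h2⟩ := sqrt_two_bounds
  set q : ℝ := √2 with hq
  have e1 : q * s / (1 + q * s) - s / (1 + s) = (q - 1) * s / ((1 + q * s) * (1 + s)) := by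
    field_simp
    ring
  rw [e1]
  rcases le_total s 1 with h | h
  · refine (min_le_left _ _).trans ?_
    rw [← mul_div_assoc, le_div_iff₀ (by positivity)]
    have h3 : (1 + q * s) * (1 + s) ≤ (1 + 1.42) * 2 := by
      gcongr
      · nlinarith
      · linarith
    nlinarith
  · refine (min_le_right _ _).trans ?_
    rw [← mul_div_assoc, div_le_div_iff₀ hs (by positivity)]
    have h3 : (1 + q * s) * (1 + s) ≤ ((1 + 1.42) * s) * (2 * s) := by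
      gcongr
      · nlinarith
      · linarith
    have h4 : 0 ≤ (q - 1.41) * (s * s) := mul_nonneg (by linarith) (by positivity)
    nlinarith

lemma sum_mid (k K : ℕ) {d : ℝ} (hd : 0 < d) :
    ∑ i ∈ Finset.range (K + 1), min (√((2 : ℝ) ^ (k + i))) (1 / (√((2 : ℝ) ^ (k + i)) * d)) ≤ 12 / √d := by
  have hsd : 0 < √d := Real.sqrt_pos.mpr hd
  set s : ℕ → ℝ := fun i => √((2 : ℝ) ^ (k + i)) * √d with hs
  have hspos : ∀ i, 0 < s i := fun i => by simp only [hs]; positivity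
  have hstep : ∀ i, s (i + 1) = √2 * s i := by
    intro i
    simp only [hs]
    rw [sqrt_two_pow, sqrt_two_pow, ← add_assoc, pow_succ]; ring
  have h1 : ∀ i, min (√((2 : ℝ) ^ (k + i))) (1 / (√((2 : ℝ) ^ (k + i)) * d)) = min (s i) (1 / s i) / √d := by
    intro i
    rw [← min_div_div_right hsd.le]
    congr 1
    · simp only [hs]; field_simp
    · simp only [hs]
      have : √d * √d = d := Real.mul_self_sqrt hd.le
      field_simp
      nlinarith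
  simp_rw [h1]
  rw [← Finset.sum_div]
  gcongr
  calc ∑ i ∈ Finset.range (K + 1), min (s i) (1 / s i) ≤
        ∑ i ∈ Finset.range (K + 1), 12 * (s (i + 1) / (1 + s (i + 1)) - s i / (1 + s i)) := by
        apply Finset.sum_le_sum
        intro i _
        rw [hstep i]
        exact psi_step (hspos i)
    _ = 12 * (s (K + 1) / (1 + s (K + 1)) - s 0 / (1 + s 0)) := by
        rw [← Finset.mul_sum, Finset.sum_range_sub (fun i => s i / (1 + s i))]
    _ ≤ 12 := by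
        have h2 : s (K + 1) / (1 + s (K + 1)) ≤ 1 := by
          rw [div_le_one (by linarith [hspos (K + 1)])]; linarith
        have h3 : 0 ≤ s 0 / (1 + s 0) := by have := hspos 0; positivity
        linarith

lemma pow_delta {δ : ℝ} (hδ : 0 < δ) {k K i : ℕ} (hK : δ * K ≤ 1) (hi : i ≤ K) :
    ((2 : ℝ) ^ (k + i) * (1 / 2 ^ k)) ^ δ ≤ 2 := by
  have h1 : (2 : ℝ) ^ (k + i) * (1 / 2 ^ k) = 2 ^ i := by rw [pow_add]; field_simp
  rw [h1, ← Real.rpow_natCast, ← Real.rpow_mul (by norm_num)]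
  calc (2 : ℝ) ^ ((i : ℝ) * δ) ≤ 2 ^ (1 : ℝ) := by
        apply Real.rpow_le_rpow_of_exponent_le (by norm_num)
        have : (i : ℝ) ≤ K := by exact_mod_cast hi
        nlinarith
    _ = 2 := by norm_num

lemma bS_nonneg (δ : ℝ) (k K : ℕ) (d : ℝ) : 0 ≤ bS δ k K d := by
  unfold bS bT
  positivity

lemma bS_one {δ : ℝ} (hδ : 0 < δ) (hδ4 : δ < 1 / 4) {k K : ℕ} (hK : δ * K ≤ 1) {d : ℝ} (hd : 0 < d)
    (hdτ : d ≤ 1 / 2 ^ k) : bS δ k K d ≤ 28 * √(2 ^ (k + K)) * bb0 δ (1 / 2 ^ k) d := by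
  unfold bS
  have hb := bb0_pos (δ := δ) (τ := 1 / 2 ^ k) (by positivity) hd
  calc ∑ i ∈ Finset.range (K + 1), bT δ (2 ^ (k + i)) d
      ≤ ∑ i ∈ Finset.range (K + 1), 8 * bb0 δ (1 / 2 ^ k) d * √(2 ^ (k + i)) := by
        apply Finset.sum_le_sum
        intro i hi
        exact bT_one hδ hδ4 (by positivity) hd (by positivity)
          (pow_delta hδ hK (by simpa [Nat.lt_succ_iff] using hi)) hdτ
    _ = 8 * bb0 δ (1 / 2 ^ k) d * ∑ i ∈ Finset.range (K + 1), √(2 ^ (k + i)) := by rw [Finset.mul_sum]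
    _ ≤ 8 * bb0 δ (1 / 2 ^ k) d * (7 / 2 * √(2 ^ (k + K))) := by
        gcongr
        exact sum_up k K
    _ = _ := by ring

lemma bS_two {δ : ℝ} (hδ : 0 < δ) (hδ4 : δ < 1 / 4) {k K : ℕ} (hK : δ * K ≤ 1) {d : ℝ} (hd : 0 < d)
    (hdτ : d ≤ 1 / 2 ^ k) : bS δ k K d ≤ 96 / √d * bb0 δ (1 / 2 ^ k) d := by
  unfold bS
  have hb := bb0_pos (δ := δ) (τ := 1 / 2 ^ k) (by positivity) hd
  calc ∑ i ∈ Finset.range (K + 1), bT δ (2 ^ (k + i)) d
      ≤ ∑ i ∈ Finset.range (K + 1), 8 * bb0 δ (1 / 2 ^ k) d *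
          min (√((2 : ℝ) ^ (k + i))) (1 / (√((2 : ℝ) ^ (k + i)) * d)) := by
        apply Finset.sum_le_sum
        intro i hi
        have hi' : i ≤ K := by simpa [Nat.lt_succ_iff] using hi
        rw [mul_min_of_nonneg _ _ (by positivity)]
        apply le_min
        · exact bT_one hδ hδ4 (by positivity) hd (by positivity) (pow_delta hδ hK hi') hdτ
        · rw [mul_one_div]
          apply bT_two hδ hδ4 (by positivity) hd (by positivity) (pow_delta hδ hK hi')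
          rw [pow_add]
          have : (1 : ℝ) ≤ 2 ^ i := one_le_pow₀ (by norm_num)
          field_simp
          exact this
    _ = 8 * bb0 δ (1 / 2 ^ k) d * ∑ i ∈ Finset.range (K + 1),
          min (√((2 : ℝ) ^ (k + i))) (1 / (√((2 : ℝ) ^ (k + i)) * d)) := by rw [Finset.mul_sum]
    _ ≤ 8 * bb0 δ (1 / 2 ^ k) d * (12 / √d) := by
        gcongr
        exact sum_mid k K hd
    _ = _ := by ring

lemma bS_three {δ : ℝ} (hδ : 0 < δ) (hδ4 : δ < 1 / 4) {k K : ℕ} (hK : δ * K ≤ 1) {d : ℝ} (hd : 0 < d) :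
    bS δ k K d ≤ 28 * √(1 / 2 ^ k) / d * bb0 δ (1 / 2 ^ k) d := by
  unfold bS
  have hb := bb0_pos (δ := δ) (τ := 1 / 2 ^ k) (by positivity) hd
  calc ∑ i ∈ Finset.range (K + 1), bT δ (2 ^ (k + i)) d
      ≤ ∑ i ∈ Finset.range (K + 1), 8 * bb0 δ (1 / 2 ^ k) d / d * (1 / √((2 : ℝ) ^ (k + i))) := by
        apply Finset.sum_le_sum
        intro i hi
        have hi' : i ≤ K := by simpa [Nat.lt_succ_iff] using hi
        have h1 : bT δ (2 ^ (k + i)) d ≤ 8 * bb0 δ (1 / 2 ^ k) d / (√(2 ^ (k + i)) * d) := by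
          apply bT_two hδ hδ4 (by positivity) hd (by positivity) (pow_delta hδ hK hi')
          rw [pow_add]
          have : (1 : ℝ) ≤ 2 ^ i := one_le_pow₀ (by norm_num)
          field_simp
          exact this
        refine h1.trans (le_of_eq ?_)
        field_simp
    _ = 8 * bb0 δ (1 / 2 ^ k) d / d * ∑ i ∈ Finset.range (K + 1), 1 / √((2 : ℝ) ^ (k + i)) := by
        rw [Finset.mul_sum]
    _ ≤ 8 * bb0 δ (1 / 2 ^ k) d / d * (7 / 2 * (1 / √((2 : ℝ) ^ k))) := by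
        gcongr
        exact sum_down k K
    _ = _ := by
        rw [Real.sqrt_div (by norm_num), Real.sqrt_one]
        ring

end Pool.Agent.Run7.h820
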