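import Pool.Agent.Run7.h820.Blow3

open Complex MeasureTheory Metric Set Filter Topology
open scoped ENNReal Real ComplexConjugate NNReal

set_option autoImplicit false

namespace Pool.Agent.Run7.h820

lemma q_one {δ : ℝ} (hδ : 0 < δ) (hδ4 : δ < 1 / 4) {k K : ℕ} (hK : δ * K ≤ 1) {d n : ℝ} (hd : 0 < d)
    (hn : 2 ^ (k + K) ≤ n * δ) :
    √(δ / n) * bS δ k K d ≤ 96 * δ * min 1 ((1 / 2 ^ k) / d) * bb0 δ (1 / 2 ^ k) d := by
  have hM : (0 : ℝ) < 2 ^ (k + K) := by positivity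
  have hn0 : 0 < n := pos_of_mul_pos_left (hM.trans_le hn) hδ.le
  have hb := bb0_pos (δ := δ) (τ := 1 / 2 ^ k) (by positivity) hd
  rcases le_total d (1 / 2 ^ k) with h | h
  · have h1 := bS_one hδ hδ4 hK hd h
    have h2 : min 1 ((1 / 2 ^ k) / d) = 1 := min_eq_left ((one_le_div hd).mpr h)
    rw [h2]
    have h3 : √(δ / n) * √(2 ^ (k + K)) ≤ δ := by
      rw [← Real.sqrt_mul (by positivity)]
      rw [Real.sqrt_le_left hδ.le]
      rw [div_mul_eq_mul_div, div_le_iff₀ hn0]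
      nlinarith
    calc √(δ / n) * bS δ k K d ≤ √(δ / n) * (28 * √(2 ^ (k + K)) * bb0 δ (1 / 2 ^ k) d) := by gcongr
      _ = 28 * (√(δ / n) * √(2 ^ (k + K))) * bb0 δ (1 / 2 ^ k) d := by ring
      _ ≤ 28 * δ * bb0 δ (1 / 2 ^ k) d := by gcongr
      _ ≤ 96 * δ * 1 * bb0 δ (1 / 2 ^ k) d := by
        have : 0 < δ * bb0 δ (1 / 2 ^ k) d := by positivity
        nlinarith
  · have h1 := bS_three hδ hδ4 hK hd (k := k)
    have h2 : min 1 ((1 / 2 ^ k) / d) = (1 / 2 ^ k) / d := min_eq_right ((div_le_one hd).mpr h)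
    rw [h2]
    set τ : ℝ := 1 / 2 ^ k with hτ
    have hτ0 : 0 < τ := by positivity
    have h4 : 1 ≤ n * δ * τ := by
      have h5 : (2 : ℝ) ^ k ≤ 2 ^ (k + K) := pow_le_pow_right₀ (by norm_num) (by omega)
      rw [hτ, mul_one_div, one_le_div (by positivity)]
      exact h5.trans hn
    have h3 : √(δ / n) * √τ ≤ δ * τ := by
      rw [← Real.sqrt_mul (by positivity)]
      rw [Real.sqrt_le_left (by positivity)]
      rw [div_mul_eq_mul_div, div_le_iff₀ hn0]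
      have : 0 < δ * τ := by positivity
      nlinarith
    calc √(δ / n) * bS δ k K d ≤ √(δ / n) * (28 * √τ / d * bb0 δ τ d) := by gcongr
      _ = 28 * (√(δ / n) * √τ) / d * bb0 δ τ d := by ring
      _ ≤ 28 * (δ * τ) / d * bb0 δ τ d := by gcongr
      _ ≤ 96 * δ * (τ / d) * bb0 δ τ d := by
        have : 0 < δ * (τ / d) * bb0 δ τ d := by positivity
        have e : 28 * (δ * τ) / d * bb0 δ τ d = 28 * (δ * (τ / d) * bb0 δ τ d) := by ring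
        rw [e]
        nlinarith

lemma q_two {δ : ℝ} (hδ : 0 < δ) (hδ4 : δ < 1 / 4) {k K : ℕ} (hK : δ * K ≤ 1) {d : ℝ} (hd : 0 < d) :
    d * bS δ k K d ^ 2 ≤ 9216 * min 1 ((1 / 2 ^ k) / d) * bb0 δ (1 / 2 ^ k) d ^ 2 := by
  have hb := bb0_pos (δ := δ) (τ := 1 / 2 ^ k) (by positivity) hd
  have hS := bS_nonneg δ k K d
  rcases le_total d (1 / 2 ^ k) with h | h
  · have h1 := bS_two hδ hδ4 hK hd h
    have h2 : min 1 ((1 / 2 ^ k) / d) = 1 := min_eq_left ((one_le_div hd).mpr h)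
    rw [h2]
    calc d * bS δ k K d ^ 2 ≤ d * (96 / √d * bb0 δ (1 / 2 ^ k) d) ^ 2 := by gcongr
      _ = 9216 * 1 * bb0 δ (1 / 2 ^ k) d ^ 2 := by
        rw [mul_pow, div_pow, Real.sq_sqrt hd.le]
        field_simp
        norm_num
  · have h1 := bS_three hδ hδ4 hK hd (k := k)
    have h2 : min 1 ((1 / 2 ^ k) / d) = (1 / 2 ^ k) / d := min_eq_right ((div_le_one hd).mpr h)
    rw [h2]
    set τ : ℝ := 1 / 2 ^ k with hτ
    have hτ0 : 0 < τ := by positivity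
    calc d * bS δ k K d ^ 2 ≤ d * (28 * √τ / d * bb0 δ τ d) ^ 2 := by gcongr
      _ = 784 * (τ / d * bb0 δ τ d ^ 2) := by
        rw [mul_pow, div_pow, mul_pow, Real.sq_sqrt hτ0.le]
        field_simp
        norm_num
      _ ≤ 9216 * (τ / d) * bb0 δ τ d ^ 2 := by
        have : 0 < τ / d * bb0 δ τ d ^ 2 := by positivity
        nlinarith

/-- geometric sum -/
noncomputable def gm (m : ℕ) (z : ℂ) : ℂ := ∑ j ∈ Finset.range m, z ^ j

/-- its derivative -/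
noncomputable def gmd (m : ℕ) (z : ℂ) : ℂ := ∑ j ∈ Finset.range m, (j : ℂ) * z ^ (j - 1)

lemma gm_hasDerivAt (m : ℕ) (z : ℂ) : HasDerivAt (gm m) (gmd m z) z := by
  unfold gm gmd
  exact HasDerivAt.fun_sum fun j _ => hasDerivAt_pow j z

lemma gm_le_nat (m : ℕ) {z : ℂ} (hz : ‖z‖ < 1) : ‖gm m z‖ ≤ m := by
  unfold gm
  refine (norm_sum_le _ _).trans ?_
  calc ∑ j ∈ Finset.range m, ‖z ^ j‖ ≤ ∑ j ∈ Finset.range m, (1 : ℝ) := by
        apply Finset.sum_le_sum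
        intro j _
        rw [norm_pow]
        exact pow_le_one₀ (norm_nonneg _) hz.le
    _ = m := by simp

lemma gm_bound (m : ℕ) {z : ℂ} (hz : ‖z‖ < 1) : ‖gm m z‖ ≤ min (m : ℝ) (2 / ‖1 - z‖) := by
  have hd := norm_one_sub_pos hz
  apply le_min (gm_le_nat m hz)
  rw [le_div_iff₀ hd]
  have h1 : gm m z * (z - 1) = z ^ m - 1 := by unfold gm; exact geom_sum_mul z m
  have h2 : ‖1 - z‖ = ‖z - 1‖ := norm_sub_rev _ _
  rw [h2, ← norm_mul, h1]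
  refine (norm_sub_le _ _).trans ?_
  rw [norm_pow, norm_one]
  have := pow_le_one₀ (norm_nonneg z) hz.le (n := m)
  linarith

lemma gmd_bound (m : ℕ) {z : ℂ} (hz : ‖z‖ < 1) : ‖gmd m z‖ ≤ m * min (m : ℝ) (2 / ‖1 - z‖) := by
  have hd := norm_one_sub_pos hz
  rw [mul_min_of_nonneg _ _ (Nat.cast_nonneg m)]
  apply le_min
  · unfold gmd
    refine (norm_sum_le _ _).trans ?_
    calc ∑ j ∈ Finset.range m, ‖(j : ℂ) * z ^ (j - 1)‖ ≤ ∑ j ∈ Finset.range m, (m : ℝ) := by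
          apply Finset.sum_le_sum
          intro j hj
          rw [norm_mul, norm_pow, Complex.norm_natCast]
          have h1 : (j : ℝ) ≤ m := by exact_mod_cast (Finset.mem_range.mp hj).le
          calc (j : ℝ) * ‖z‖ ^ (j - 1) ≤ m * 1 := by
                gcongr
                exact pow_le_one₀ (norm_nonneg _) hz.le
            _ = m := mul_one _
      _ = m * m := by simp
  · have h1 : ∀ w : ℂ, gm m w * (w - 1) = w ^ m - 1 := fun w => by unfold gm; exact geom_sum_mul w m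
    have h2 : HasDerivAt (fun w => gm m w * (w - 1)) (gmd m z * (z - 1) + gm m z * 1) z :=
      (gm_hasDerivAt m z).mul ((hasDerivAt_id z).sub_const 1)
    have h3 : HasDerivAt (fun w : ℂ => w ^ m - 1) (m * z ^ (m - 1)) z := (hasDerivAt_pow m z).sub_const 1
    have h4 : gmd m z * (z - 1) + gm m z * 1 = m * z ^ (m - 1) := by
      apply h2.unique
      have : (fun w => gm m w * (w - 1)) = fun w : ℂ => w ^ m - 1 := funext h1
      rw [this]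
      exact h3
    have h5 : gmd m z * (z - 1) = m * z ^ (m - 1) - gm m z := by linear_combination h4
    rw [← mul_div_assoc, le_div_iff₀ hd, norm_sub_rev, ← norm_mul, h5]
    refine (norm_sub_le _ _).trans ?_
    rw [norm_mul, norm_pow, Complex.norm_natCast]
    have h6 := gm_le_nat m hz
    have h7 : (m : ℝ) * ‖z‖ ^ (m - 1) ≤ m * 1 := by
      gcongr
      exact pow_le_one₀ (norm_nonneg _) hz.le
    linarith

/-- the perturbation -/
noncomputable def bh (ε δ : ℝ) (n k K : ℕ) (z : ℂ) : ℂ :=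
  (ε : ℂ) * ∑ i ∈ Finset.range (K + 1),
    ((((2 : ℝ) ^ (k + i)) ^ (2 * δ - 1) : ℝ) : ℂ) * (z ^ (n + 1 - 2 ^ (k + i)) * gm (2 ^ (k + i)) z ^ 2)

/-- its derivative -/
noncomputable def bhd (ε δ : ℝ) (n k K : ℕ) (z : ℂ) : ℂ :=
  (ε : ℂ) * ∑ i ∈ Finset.range (K + 1),
    ((((2 : ℝ) ^ (k + i)) ^ (2 * δ - 1) : ℝ) : ℂ) *
      (((n + 1 - 2 ^ (k + i) : ℕ) : ℂ) * z ^ (n + 1 - 2 ^ (k + i) - 1) * gm (2 ^ (k + i)) z ^ 2 +
        z ^ (n + 1 - 2 ^ (k + i)) * (2 * gm (2 ^ (k + i)) z * gmd (2 ^ (k + i)) z))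

lemma bh_hasDerivAt (ε δ : ℝ) (n k K : ℕ) (z : ℂ) :
    HasDerivAt (bh ε δ n k K) (bhd ε δ n k K z) z := by
  unfold bh bhd
  apply HasDerivAt.const_mul
  apply HasDerivAt.fun_sum
  intro i _
  apply HasDerivAt.const_mul
  refine ((hasDerivAt_pow _ z).mul ((gm_hasDerivAt (2 ^ (k + i)) z).pow 2)).congr_deriv ?_
  simp

lemma bh_bound {ε δ : ℝ} (hε : 0 ≤ ε) {n k K : ℕ} {z : ℂ} (hz : ‖z‖ < 1) :
    ‖bh ε δ n k K z‖ ≤ ε * bS δ k K ‖1 - z‖ := by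
  unfold bh bS bT
  rw [norm_mul, norm_real, Real.norm_eq_abs, abs_of_nonneg hε]
  gcongr
  refine (norm_sum_le _ _).trans ?_
  apply Finset.sum_le_sum
  intro i _
  rw [norm_mul, norm_mul, norm_pow, norm_pow, norm_real, Real.norm_eq_abs, abs_of_pos (by positivity)]
  have h1 := gm_bound (2 ^ (k + i)) hz
  push_cast at h1
  have h2 : ‖z‖ ^ (n + 1 - 2 ^ (k + i)) ≤ 1 := pow_le_one₀ (norm_nonneg _) hz.le
  gcongr
  calc ‖z‖ ^ (n + 1 - 2 ^ (k + i)) * ‖gm (2 ^ (k + i)) z‖ ^ 2 ≤ 1 * min ((2 : ℝ) ^ (k + i)) (2 / ‖1 - z‖) ^ 2 := by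
        gcongr
    _ = _ := one_mul _

lemma bhd_bound {ε δ : ℝ} (hε : 0 ≤ ε) {n k K N : ℕ} (hN1 : 1 ≤ N) (hN : N + 2 ^ (k + K) ≤ n) {z : ℂ} (hz : ‖z‖ < 1) :
    ‖bhd ε δ n k K z‖ ≤ 2 * n * ‖z‖ ^ N * (ε * bS δ k K ‖1 - z‖) := by
  have hd := norm_one_sub_pos hz
  unfold bhd bS bT
  rw [norm_mul, norm_real, Real.norm_eq_abs, abs_of_nonneg hε]
  have e : 2 * (n : ℝ) * ‖z‖ ^ N * (ε * ∑ i ∈ Finset.range (K + 1), ((2 : ℝ) ^ (k + i)) ^ (2 * δ - 1) *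
      min (2 ^ (k + i)) (2 / ‖1 - z‖) ^ 2) = ε * ∑ i ∈ Finset.range (K + 1), ((2 : ℝ) ^ (k + i)) ^ (2 * δ - 1) *
      (2 * n * ‖z‖ ^ N * min (2 ^ (k + i)) (2 / ‖1 - z‖) ^ 2) := by
    rw [Finset.mul_sum, Finset.mul_sum, Finset.mul_sum]
    apply Finset.sum_congr rfl
    intro i _
    ring
  rw [e]
  gcongr
  refine (norm_sum_le _ _).trans ?_
  apply Finset.sum_le_sum
  intro i hi
  have hi' : i ≤ K := by simpa [Nat.lt_succ_iff] using hi
  have hm1 : 2 ^ (k + i) ≤ 2 ^ (k + K) := Nat.pow_le_pow_right (by norm_num) (by omega)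
  set m : ℕ := 2 ^ (k + i) with hm
  have hmpos : 1 ≤ m := Nat.one_le_two_pow
  have hmr : ((2 : ℝ) ^ (k + i)) = (m : ℝ) := by rw [hm]; push_cast; rfl
  rw [hmr, norm_mul, norm_real, Real.norm_eq_abs, abs_of_pos (by positivity)]
  gcongr
  have h1 := gm_bound m hz
  have h2 := gmd_bound m hz
  set b : ℝ := min (m : ℝ) (2 / ‖1 - z‖) with hb
  have hb0 : 0 ≤ b := (norm_nonneg _).trans h1
  have hz1 : ‖z‖ ^ (n + 1 - m - 1) ≤ ‖z‖ ^ N := pow_le_pow_of_le_one (norm_nonneg _) hz.le (by omega)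
  have hz2 : ‖z‖ ^ (n + 1 - m) ≤ ‖z‖ ^ N := pow_le_pow_of_le_one (norm_nonneg _) hz.le (by omega)
  have hc : ((n + 1 - m : ℕ) : ℝ) = n + 1 - m := by
    rw [Nat.cast_sub (by omega)]; push_cast; ring
  calc ‖((n + 1 - m : ℕ) : ℂ) * z ^ (n + 1 - m - 1) * gm m z ^ 2 + z ^ (n + 1 - m) * (2 * gm m z * gmd m z)‖
      ≤ ‖((n + 1 - m : ℕ) : ℂ) * z ^ (n + 1 - m - 1) * gm m z ^ 2‖ + ‖z ^ (n + 1 - m) * (2 * gm m z * gmd m z)‖ :=
        norm_add_le _ _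
    _ = ((n + 1 - m : ℕ) : ℝ) * ‖z‖ ^ (n + 1 - m - 1) * ‖gm m z‖ ^ 2 +
        ‖z‖ ^ (n + 1 - m) * (2 * ‖gm m z‖ * ‖gmd m z‖) := by
        simp only [norm_mul, norm_pow, Complex.norm_natCast, Complex.norm_ofNat]
    _ ≤ ((n + 1 - m : ℕ) : ℝ) * ‖z‖ ^ N * b ^ 2 + ‖z‖ ^ N * (2 * b * (m * b)) := by gcongr
    _ = ‖z‖ ^ N * b ^ 2 * (n + 1 + m) := by rw [hc]; ring
    _ ≤ ‖z‖ ^ N * b ^ 2 * (2 * n) := by
        have h3 : (m : ℝ) + 1 ≤ n := by
          have h : m + 1 ≤ n := by omega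
          exact_mod_cast h
        gcongr
        linarith
    _ = 2 * n * ‖z‖ ^ N * b ^ 2 := by ring

end Pool.Agent.Run7.h820
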