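import Pool.Agent.Run7.h820.Blow4

open Complex MeasureTheory Metric Set Filter Topology
open scoped ENNReal Real ComplexConjugate NNReal

set_option autoImplicit false

namespace Pool.Agent.Run7.h820

lemma dist_ray {r θ : ℝ} (hr : 0 ≤ r) (hθ : |θ| ≤ π) :
    |θ| / π ≤ ‖1 - (r : ℂ) * (Real.cos θ + Real.sin θ * I)‖ := by
  have hpi := Real.pi_pos
  have h1 : ‖1 - (r : ℂ) * (Real.cos θ + Real.sin θ * I)‖ ^ 2 = 1 - 2 * r * Real.cos θ + r ^ 2 := by
    rw [← Complex.normSq_eq_norm_sq, normSq_apply]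
    simp only [sub_re, one_re, mul_re, ofReal_re, add_re, I_re, mul_zero, ofReal_im, I_im, mul_one,
      sub_self, add_zero, zero_mul, sub_zero, sub_im, one_im, mul_im, add_im, zero_add]
    nlinarith [Real.sin_sq_add_cos_sq θ]
  have h2 : (|θ| / π) ^ 2 ≤ ‖1 - (r : ℂ) * (Real.cos θ + Real.sin θ * I)‖ ^ 2 := by
    rw [h1]
    rcases le_total |θ| (π / 2) with h | h
    · have h3 : 2 / π * |θ| ≤ |Real.sin θ| := Real.mul_abs_le_abs_sin h
      have h4 : |θ| / π ≤ |Real.sin θ| := by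
        refine le_trans ?_ h3
        have : 0 ≤ |θ| / π := by positivity
        calc |θ| / π ≤ 2 * (|θ| / π) := by linarith
          _ = _ := by ring
      have h5 : (|θ| / π) ^ 2 ≤ Real.sin θ ^ 2 := by
        rw [← sq_abs (Real.sin θ)]
        gcongr
      nlinarith [Real.sin_sq_add_cos_sq θ, sq_nonneg (r - Real.cos θ)]
    · have h3 : Real.cos θ ≤ 0 := by
        rw [← Real.cos_abs]
        exact Real.cos_nonpos_of_pi_div_two_le_of_le h (by linarith)
      have h4 : (|θ| / π) ^ 2 ≤ 1 := pow_le_one₀ (by positivity) ((div_le_one hpi).mpr hθ)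
      nlinarith [sq_nonneg r, mul_nonneg hr (neg_nonneg.mpr h3)]
  exact (pow_le_pow_iff_left₀ (by positivity) (norm_nonneg _) (by norm_num)).mp h2

/-- the angular majorant -/
noncomputable def angm (d0 t : ℝ) : ℝ := ((d0 + t / π) / 2) ^ (-(3 / 2 : ℝ))

lemma angm_integral {d0 : ℝ} (hd0 : 0 < d0) :
    ∫ t in (0 : ℝ)..π, angm d0 t ≤ 6 * π * d0 ^ (-(1 / 2 : ℝ)) := by
  have hpi := Real.pi_pos
  have hpos : ∀ t ∈ uIcc (0 : ℝ) π, 0 < (d0 + t / π) / 2 := by
    intro t ht
    rw [uIcc_of_le hpi.le] at ht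
    have := ht.1
    positivity
  have hprim : ∀ t ∈ uIcc (0 : ℝ) π, HasDerivAt
      (fun t => -(4 * π) * ((d0 + t / π) / 2) ^ (-(1 / 2 : ℝ))) (angm d0 t) t := by
    intro t ht
    have h0 := hpos t ht
    have h1 : HasDerivAt (fun t : ℝ => (d0 + t / π) / 2) (1 / π / 2) t :=
      (((hasDerivAt_id t).div_const π).const_add d0).div_const 2
    have h2 := (h1.rpow_const (p := -(1 / 2 : ℝ)) (Or.inl h0.ne')).const_mul (-(4 * π))
    refine h2.congr_deriv ?_
    unfold angm
    have e : (-(1 / 2 : ℝ)) - 1 = -(3 / 2) := by norm_num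
    rw [e]
    field_simp
    norm_num
  have hcont : ContinuousOn (angm d0) (uIcc 0 π) := by
    intro t ht
    unfold angm
    apply ContinuousAt.continuousWithinAt
    apply ContinuousAt.rpow_const (by fun_prop)
    left
    exact (hpos t ht).ne'
  rw [intervalIntegral.integral_eq_sub_of_hasDerivAt hprim hcont.intervalIntegrable]
  have h3 : 0 ≤ ((d0 + π / π) / 2) ^ (-(1 / 2 : ℝ)) := by positivity
  have h4 : ((d0 + 0 / π) / 2) ^ (-(1 / 2 : ℝ)) ≤ 3 / 2 * d0 ^ (-(1 / 2 : ℝ)) := by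
    rw [zero_div, add_zero, Real.div_rpow hd0.le (by norm_num)]
    have h5 : (2 : ℝ) ^ (-(1 / 2 : ℝ)) = 1 / √2 := by
      rw [Real.sqrt_eq_rpow, Real.rpow_neg (by norm_num)]
      exact (one_div _).symm
    rw [h5, div_div_eq_mul_div, div_one, mul_comm]
    have := sqrt_two_bounds.2
    gcongr
    linarith
  nlinarith

lemma angm_lint {d0 : ℝ} (hd0 : 0 < d0) :
    ∫⁻ t in Ioo (-π) π, ENNReal.ofReal (angm d0 |t|) ≤ ENNReal.ofReal (12 * π * d0 ^ (-(1 / 2 : ℝ))) := by
  have hpi := Real.pi_pos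
  have hcont : Continuous (fun t => angm d0 |t|) := by
    unfold angm
    apply Continuous.rpow_const (by fun_prop)
    intro t
    left
    have := abs_nonneg t
    positivity
  have hnn : ∀ t, 0 ≤ angm d0 |t| := by
    intro t
    unfold angm
    have := abs_nonneg t
    positivity
  have h1 : ∫⁻ t in Ioo (-π) π, ENNReal.ofReal (angm d0 |t|) ≤ ∫⁻ t in Ioc (-π) π, ENNReal.ofReal (angm d0 |t|) :=
    lintegral_mono_set Ioo_subset_Ioc_self
  refine h1.trans ?_
  rw [← ofReal_integral_eq_lintegral_ofReal (hcont.integrableOn_Ioc) (ae_of_all _ hnn),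
    ← intervalIntegral.integral_of_le (by linarith)]
  apply ENNReal.ofReal_le_ofReal
  rw [← intervalIntegral.integral_add_adjacent_intervals (b := 0) (hcont.intervalIntegrable _ _)
    (hcont.intervalIntegrable _ _)]
  have h2 : ∫ t in (-π)..0, angm d0 |t| = ∫ t in (0 : ℝ)..π, angm d0 |t| := by
    have := intervalIntegral.integral_comp_neg (a := 0) (b := π) (fun t => angm d0 |t|)
    simp only [abs_neg, neg_zero] at this
    exact this.symm
  have h3 : ∫ t in (0 : ℝ)..π, angm d0 |t| = ∫ t in (0 : ℝ)..π, angm d0 t := by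
    apply intervalIntegral.integral_congr
    intro t ht
    rw [uIcc_of_le hpi.le] at ht
    simp only [abs_of_nonneg ht.1]
  rw [h2, h3]
  have := angm_integral hd0
  linarith

lemma rad_lint (N : ℕ) : ∫⁻ r in Ioo (0 : ℝ) 1, ENNReal.ofReal (r * r ^ N) ≤ ENNReal.ofReal (1 / (N + 2)) := by
  have h1 : ∫⁻ t in Ioo (0 : ℝ) 1, ENNReal.ofReal (t * t ^ N) ≤ ∫⁻ t in Ioc (0 : ℝ) 1, ENNReal.ofReal (t * t ^ N) :=
    lintegral_mono_set Ioo_subset_Ioc_self
  refine h1.trans ?_
  have hcont : Continuous (fun t : ℝ => t * t ^ N) := by fun_prop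
  rw [← ofReal_integral_eq_lintegral_ofReal (hcont.integrableOn_Ioc)
    ((ae_restrict_iff' measurableSet_Ioc).mpr (ae_of_all _ fun t ht => by have := ht.1; positivity)),
    ← intervalIntegral.integral_of_le (by norm_num)]
  apply ENNReal.ofReal_le_ofReal
  have h2 : ∫ t in (0 : ℝ)..1, t * t ^ N = ∫ t in (0 : ℝ)..1, t ^ (N + 1) := by
    apply intervalIntegral.integral_congr
    intro t _
    simp only
    ring
  rw [h2, integral_pow]
  apply le_of_eq
  simp
  ring

lemma disc_lint {d0 : ℝ} (hd0 : 0 < d0) (N : ℕ) :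
    ∫⁻ z in ball (0 : ℂ) 1 ∩ {z | d0 ≤ ‖1 - z‖}, ENNReal.ofReal (‖z‖ ^ N * ‖1 - z‖ ^ (-(3 / 2 : ℝ))) ≤
      ENNReal.ofReal (12 * π / (N + 2) * d0 ^ (-(1 / 2 : ℝ))) := by
  have hpi := Real.pi_pos
  have hSm : MeasurableSet (ball (0 : ℂ) 1 ∩ {z | d0 ≤ ‖1 - z‖}) :=
    measurableSet_ball.inter (measurableSet_le (by fun_prop) (by fun_prop))
  rw [← lintegral_indicator hSm, ← Complex.lintegral_comp_polarCoord_symm]
  set Q : Set (ℝ × ℝ) := Ioo (0 : ℝ) 1 ×ˢ Ioo (-π) π with hQ
  have hQm : MeasurableSet Q := measurableSet_Ioo.prod measurableSet_Ioo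
  have h1 : ∫⁻ q in polarCoord.target, ENNReal.ofReal q.1 •
      (ball (0 : ℂ) 1 ∩ {z | d0 ≤ ‖1 - z‖}).indicator
        (fun z => ENNReal.ofReal (‖z‖ ^ N * ‖1 - z‖ ^ (-(3 / 2 : ℝ)))) (Complex.polarCoord.symm q)
      ≤ ∫⁻ q in Q, ENNReal.ofReal (q.1 * q.1 ^ N) * ENNReal.ofReal (angm d0 |q.2|) := by
    rw [← lintegral_indicator polarCoord.open_target.measurableSet, ← lintegral_indicator hQm]
    apply lintegral_mono
    intro q
    by_cases hq : q ∈ polarCoord.target
    swap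
    · rw [indicator_of_notMem hq]; exact bot_le
    rw [indicator_of_mem hq]
    have hq' : q ∈ Ioi (0 : ℝ) ×ˢ Ioo (-π) π := hq
    have hq1 : 0 < q.1 := hq'.1
    by_cases hw : Complex.polarCoord.symm q ∈ (ball (0 : ℂ) 1 ∩ {z | d0 ≤ ‖1 - z‖})
    swap
    · rw [indicator_of_notMem hw]; simp
    rw [indicator_of_mem hw]
    have hnorm : ‖Complex.polarCoord.symm q‖ = q.1 := by
      rw [Complex.norm_polarCoord_symm, abs_of_pos hq1]
    have hmem : q ∈ Q := by
      have h3 := hw.1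
      rw [mem_ball_zero_iff, hnorm] at h3
      exact ⟨⟨hq1, h3⟩, hq'.2⟩
    rw [indicator_of_mem hmem, hnorm, smul_eq_mul, ← ENNReal.ofReal_mul hq1.le,
      ← ENNReal.ofReal_mul (by positivity)]
    apply ENNReal.ofReal_le_ofReal
    rw [← mul_assoc]
    gcongr
    have habs : |q.2| ≤ π := abs_le.mpr ⟨hq'.2.1.le, hq'.2.2.le⟩
    have h4 : |q.2| / π ≤ ‖1 - Complex.polarCoord.symm q‖ := by
      rw [Complex.polarCoord_symm_apply]
      exact dist_ray hq1.le habs
    have h5 : d0 ≤ ‖1 - Complex.polarCoord.symm q‖ := hw.2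
    unfold angm
    apply Real.rpow_le_rpow_of_nonpos
    · have := abs_nonneg q.2
      positivity
    · linarith
    · norm_num
  refine h1.trans ?_
  have hcont : Continuous (fun t => angm d0 |t|) := by
    unfold angm
    apply Continuous.rpow_const (by fun_prop)
    intro t
    left
    have := abs_nonneg t
    positivity
  rw [hQ, Measure.volume_eq_prod, ← Measure.prod_restrict]
  have hprod := lintegral_prod_mul (μ := volume.restrict (Ioo (0 : ℝ) 1)) (ν := volume.restrict (Ioo (-π) π))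
    (f := fun r : ℝ => ENNReal.ofReal (r * r ^ N)) (g := fun t : ℝ => ENNReal.ofReal (angm d0 |t|))
    (by fun_prop) (hcont.measurable.ennreal_ofReal.aemeasurable)
  rw [hprod]
  refine (mul_le_mul' (rad_lint N) (angm_lint hd0)).trans ?_
  rw [← ENNReal.ofReal_mul (by positivity)]
  apply ENNReal.ofReal_le_ofReal
  apply le_of_eq
  ring

end Pool.Agent.Run7.h820
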