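import Pool.Agent.Run7.h820.Blow5

open Complex MeasureTheory Metric Set Filter Topology
open scoped ENNReal Real ComplexConjugate NNReal

set_option autoImplicit false

namespace Pool.Agent.Run7.h820

lemma bb0_antitone {δ τ a b : ℝ} (hδ : 0 < δ) (ha : 0 < a) (hab : a ≤ b) :
    bb0 δ τ b * √b ≤ bb0 δ τ a * √a := by
  have hb : 0 < b := ha.trans_le hab
  have key : ∀ x : ℝ, 0 < x → bb0 δ τ x * √x = x ^ (-δ) * (max x τ) ^ (-δ) := by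
    intro x hx
    unfold bb0
    rw [Real.sqrt_eq_rpow, mul_right_comm, ← Real.rpow_add hx]
    congr 2
    ring
  rw [key a ha, key b hb]
  have h1 : b ^ (-δ) ≤ a ^ (-δ) := Real.rpow_le_rpow_of_nonpos ha hab (by linarith)
  have h2 : (max b τ) ^ (-δ) ≤ (max a τ) ^ (-δ) :=
    Real.rpow_le_rpow_of_nonpos (lt_max_of_lt_left ha) (max_le_max hab le_rfl) (by linarith)
  have : 0 < max b τ := lt_max_of_lt_left hb
  gcongr

lemma bb0_anti {δ τ a b : ℝ} (hδ : 0 < δ) (ha : 0 < a) (hab : a ≤ b) :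
    bb0 δ τ b ≤ bb0 δ τ a := by
  unfold bb0
  have hb : 0 < b := ha.trans_le hab
  have h1 : b ^ (-(1 / 2 + δ)) ≤ a ^ (-(1 / 2 + δ)) := Real.rpow_le_rpow_of_nonpos ha hab (by linarith)
  have h2 : (max b τ) ^ (-δ) ≤ (max a τ) ^ (-δ) :=
    Real.rpow_le_rpow_of_nonpos (lt_max_of_lt_left ha) (max_le_max hab le_rfl) (by linarith)
  have : 0 < max b τ := lt_max_of_lt_left hb
  gcongr

lemma bb0_exists {δ τ : ℝ} (hδ : 0 < δ) (hτ : 0 < τ) {T : ℝ} (hT : 0 < T) :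
    ∃ d0, 0 < d0 ∧ bb0 δ τ d0 = T := by
  set a2 := max τ (T ^ (-(1 / (1 / 2 + 2 * δ)))) with ha2
  set a1 := min τ ((T * τ ^ δ) ^ (-(1 / (1 / 2 + δ)))) with ha1
  have h1pos : 0 < a1 := lt_min hτ (by positivity)
  have h12 : a1 ≤ a2 := (min_le_left _ _).trans (le_max_left _ _)
  have hb2 : bb0 δ τ a2 ≤ T := by
    rw [bb0_big hτ (le_max_left _ _)]
    have h3 : T ^ (-(1 / (1 / 2 + 2 * δ))) ≤ a2 := le_max_right _ _
    calc a2 ^ (-(1 / 2 + 2 * δ)) ≤ (T ^ (-(1 / (1 / 2 + 2 * δ)))) ^ (-(1 / 2 + 2 * δ)) :=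
          Real.rpow_le_rpow_of_nonpos (by positivity) h3 (by linarith)
      _ = T := by
          rw [← Real.rpow_mul hT.le]
          have : -(1 / (1 / 2 + 2 * δ)) * -(1 / 2 + 2 * δ) = 1 := by
            have : 1 / 2 + 2 * δ ≠ 0 := by linarith
            field_simp
          rw [this, Real.rpow_one]
  have hb1 : T ≤ bb0 δ τ a1 := by
    rw [bb0_small (min_le_left _ _)]
    have h3 : a1 ≤ (T * τ ^ δ) ^ (-(1 / (1 / 2 + δ))) := min_le_right _ _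
    have h4 : T * τ ^ δ ≤ a1 ^ (-(1 / 2 + δ)) := by
      calc T * τ ^ δ = ((T * τ ^ δ) ^ (-(1 / (1 / 2 + δ)))) ^ (-(1 / 2 + δ)) := by
            rw [← Real.rpow_mul (by positivity)]
            have : -(1 / (1 / 2 + δ)) * -(1 / 2 + δ) = 1 := by
              have : 1 / 2 + δ ≠ 0 := by linarith
              field_simp
            rw [this, Real.rpow_one]
        _ ≤ a1 ^ (-(1 / 2 + δ)) := Real.rpow_le_rpow_of_nonpos h1pos h3 (by linarith)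
    have h5 : τ ^ δ * τ ^ (-δ) = 1 := by
      rw [← Real.rpow_add hτ]; simp
    calc T = (T * τ ^ δ) * τ ^ (-δ) := by rw [mul_assoc, h5, mul_one]
      _ ≤ a1 ^ (-(1 / 2 + δ)) * τ ^ (-δ) := by gcongr
  have hcont : ContinuousOn (bb0 δ τ) (Icc a1 a2) := by
    intro x hx
    have hx0 : 0 < x := h1pos.trans_le hx.1
    apply ContinuousAt.continuousWithinAt
    unfold bb0
    apply ContinuousAt.mul
    · exact ContinuousAt.rpow_const continuousAt_id (Or.inl hx0.ne')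
    · apply ContinuousAt.rpow_const (by fun_prop)
      left
      have : 0 < max x τ := lt_max_of_lt_left hx0
      exact this.ne'
  obtain ⟨d0, hd0, he⟩ := intermediate_value_Icc' h12 hcont ⟨hb2, hb1⟩
  exact ⟨d0, h1pos.trans_le hd0.1, he⟩

/-- the constant -/
noncomputable def cc3 : ℝ := 1 / 10 ^ 7

/-- the constant -/
noncomputable def ce0 : ℝ := 1 / 10 ^ 10

section
variable {δ : ℝ} {k K n N : ℕ}

/-- the amplitude -/
noncomputable def ceps (δ : ℝ) (n : ℕ) : ℝ := ce0 * √(δ / n)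

lemma P_one (hδ : 0 < δ) (hδ4 : δ < 1 / 4) (hK : δ * K ≤ 1) (hn : 2 ^ (k + K) ≤ n * δ) {z : ℂ} (hz : ‖z‖ < 1) :
    ceps δ n * bS δ k K ‖1 - z‖ ≤ cc3 * δ * bmu δ (1 / 2 ^ k) ‖bf δ (1 / 2 ^ k) z‖ * ‖bf δ (1 / 2 ^ k) z‖ := by
  have hτ : (0 : ℝ) < 1 / 2 ^ k := by positivity
  have hd := norm_one_sub_pos hz
  have h1 := q_one hδ hδ4 hK hd hn
  have h2 := min_le_bmu hδ hδ4 hτ hz
  have h3 := bf_ge hδ hδ4 hτ hz
  set μ := bmu δ (1 / 2 ^ k) ‖bf δ (1 / 2 ^ k) z‖ with hμ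
  set b := bb0 δ (1 / 2 ^ k) ‖1 - z‖ with hb
  set f := ‖bf δ (1 / 2 ^ k) z‖ with hf
  have hb0 : 0 < b := bb0_pos hτ hd
  have hm0 : 0 ≤ min 1 ((1 / 2 ^ k) / ‖1 - z‖) := by positivity
  have hμ0 : 0 ≤ μ := bmu_nonneg hτ (norm_nonneg _)
  have hf0 : 0 ≤ f := norm_nonneg _
  unfold ceps ce0 cc3
  calc 1 / 10 ^ 10 * √(δ / n) * bS δ k K ‖1 - z‖ = 1 / 10 ^ 10 * (√(δ / n) * bS δ k K ‖1 - z‖) := by ring
    _ ≤ 1 / 10 ^ 10 * (96 * δ * (4 * μ) * (2 * f)) :=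
        mul_le_mul_of_nonneg_left (h1.trans (by gcongr)) (by positivity)
    _ = (768 / 10 ^ 10) * (δ * μ * f) := by ring
    _ ≤ (1 / 10 ^ 7) * (δ * μ * f) := mul_le_mul_of_nonneg_right (by norm_num) (by positivity)
    _ = _ := by ring

lemma P_two (hδ : 0 < δ) (hδ4 : δ < 1 / 4) (hK : δ * K ≤ 1) (hn0 : 0 < n) {z : ℂ} (hz : ‖z‖ < 1) :
    n * ‖1 - z‖ * (ceps δ n * bS δ k K ‖1 - z‖) ^ 2 ≤
      cc3 * δ * bmu δ (1 / 2 ^ k) ‖bf δ (1 / 2 ^ k) z‖ * ‖bf δ (1 / 2 ^ k) z‖ ^ 2 := by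
  have hτ : (0 : ℝ) < 1 / 2 ^ k := by positivity
  have hd := norm_one_sub_pos hz
  have h1 := q_two hδ hδ4 hK hd (k := k)
  have h2 := min_le_bmu hδ hδ4 hτ hz
  have h3 := bf_ge hδ hδ4 hτ hz
  set μ := bmu δ (1 / 2 ^ k) ‖bf δ (1 / 2 ^ k) z‖ with hμ
  set b := bb0 δ (1 / 2 ^ k) ‖1 - z‖ with hb
  set f := ‖bf δ (1 / 2 ^ k) z‖ with hf
  have hb0 : 0 < b := bb0_pos hτ hd
  have hm0 : 0 ≤ min 1 ((1 / 2 ^ k) / ‖1 - z‖) := by positivity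
  have hμ0 : 0 ≤ μ := bmu_nonneg hτ (norm_nonneg _)
  have hf0 : 0 ≤ f := norm_nonneg _
  have hnr : (0 : ℝ) < n := by exact_mod_cast hn0
  unfold ceps ce0 cc3
  calc n * ‖1 - z‖ * (1 / 10 ^ 10 * √(δ / n) * bS δ k K ‖1 - z‖) ^ 2
      = (1 / 10 ^ 20) * (n * (√(δ / n)) ^ 2) * (‖1 - z‖ * bS δ k K ‖1 - z‖ ^ 2) := by ring
    _ = (1 / 10 ^ 20) * δ * (‖1 - z‖ * bS δ k K ‖1 - z‖ ^ 2) := by
        rw [Real.sq_sqrt (by positivity)]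
        field_simp
    _ ≤ (1 / 10 ^ 20) * δ * (9216 * (4 * μ) * (2 * f) ^ 2) :=
        mul_le_mul_of_nonneg_left (h1.trans (by gcongr)) (by positivity)
    _ = (9216 * 16 / 10 ^ 20) * (δ * μ * f ^ 2) := by ring
    _ ≤ (1 / 10 ^ 7) * (δ * μ * f ^ 2) := mul_le_mul_of_nonneg_right (by norm_num) (by positivity)
    _ = _ := by ring

/-- the function -/
noncomputable def Bf (δ : ℝ) (n k K : ℕ) (s : ℝ) (z : ℂ) : ℂ := bf δ (1 / 2 ^ k) z + (s : ℂ) * bh (ceps δ n) δ n k K z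

lemma Bf_hasDerivAt (s : ℝ) {z : ℂ} (hz : ‖z‖ < 1) :
    HasDerivAt (Bf δ n k K s) (bf δ (1 / 2 ^ k) z * bFd δ (1 / 2 ^ k) z + (s : ℂ) * bhd (ceps δ n) δ n k K z) z := by
  unfold Bf
  have h1 := bf_hasDerivAt (δ := δ) (τ := 1 / 2 ^ k) (by positivity) hz
  exact h1.add ((bh_hasDerivAt (ceps δ n) δ n k K z).const_mul (s : ℂ))

lemma ceps_nonneg : 0 ≤ ceps δ n := by unfold ceps ce0; positivity

/-- pointwise bound of the derivative -/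
lemma Bf_deriv_bound (hδ : 0 < δ) (hδ4 : δ < 1 / 4) (hK : δ * K ≤ 1) (hn : 2 ^ (k + K) ≤ n * δ)
    (hN1 : 1 ≤ N) (hN : N + 2 ^ (k + K) ≤ n) {s : ℝ} (hs : |s| = 1) {z : ℂ} (hz : ‖z‖ < 1) :
    ‖deriv (Bf δ n k K s) z‖ ^ 2 ≤ ‖deriv (bf δ (1 / 2 ^ k)) z‖ ^ 2 +
      8 * cc3 * δ * bmu δ (1 / 2 ^ k) ‖bf δ (1 / 2 ^ k) z‖ * ‖bf δ (1 / 2 ^ k) z‖ ^ 2 * (n * ‖z‖ ^ N / ‖1 - z‖) := by
  have hτ : (0 : ℝ) < 1 / 2 ^ k := by positivity
  have hd := norm_one_sub_pos hz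
  rw [(Bf_hasDerivAt s hz).deriv, (bf_hasDerivAt hτ hz).deriv]
  have h1 := bhd_bound (ε := ceps δ n) (δ := δ) ceps_nonneg hN1 hN hz
  have hn0 : 0 < n := lt_of_lt_of_le (by omega : 0 < N) ((Nat.le_add_right _ _).trans hN)
  have h2 := P_one hδ hδ4 hK hn hz
  have h3 := P_two hδ hδ4 hK hn0 hz (k := k)
  have h4 := bFd_norm hδ hδ4 hτ hz
  set μ := bmu δ (1 / 2 ^ k) ‖bf δ (1 / 2 ^ k) z‖ with hμ
  set S := ceps δ n * bS δ k K ‖1 - z‖ with hS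
  have hS0 : 0 ≤ S := mul_nonneg ceps_nonneg (bS_nonneg _ _ _ _)
  have hμ0 : 0 ≤ μ := bmu_nonneg hτ (norm_nonneg _)
  have hnr : (0 : ℝ) < n := by exact_mod_cast hn0
  have hc3 : 0 < cc3 := by unfold cc3; positivity
  set f := ‖bf δ (1 / 2 ^ k) z‖ with hf
  have hf0 : 0 ≤ f := norm_nonneg _
  set A := ‖bf δ (1 / 2 ^ k) z * bFd δ (1 / 2 ^ k) z‖ with hA
  have hAle : A ≤ f / ‖1 - z‖ := by
    rw [hA, norm_mul]
    calc ‖bf δ (1 / 2 ^ k) z‖ * ‖bFd δ (1 / 2 ^ k) z‖ ≤ f * (1 / ‖1 - z‖) := by gcongr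
      _ = f / ‖1 - z‖ := by ring
  have hB : ‖(s : ℂ) * bhd (ceps δ n) δ n k K z‖ ≤ 2 * n * ‖z‖ ^ N * S := by
    rw [norm_mul, norm_real, Real.norm_eq_abs, hs, one_mul]
    exact h1
  set Bn := ‖(s : ℂ) * bhd (ceps δ n) δ n k K z‖ with hBn
  have hBn0 : 0 ≤ Bn := norm_nonneg _
  have hA0 : 0 ≤ A := norm_nonneg _
  have hzN : ‖z‖ ^ N ≤ 1 := pow_le_one₀ (norm_nonneg _) hz.le
  have hzN0 : 0 ≤ ‖z‖ ^ N := by positivity
  have hcross : 2 * A * Bn ≤ 4 * (cc3 * δ * μ * f ^ 2 * (n * ‖z‖ ^ N / ‖1 - z‖)) := by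
    calc 2 * A * Bn ≤ 2 * (f / ‖1 - z‖) * (2 * n * ‖z‖ ^ N * (cc3 * δ * μ * f)) := by
          gcongr
          refine hB.trans ?_
          gcongr
      _ = _ := by ring
  have hsq : Bn ^ 2 ≤ 4 * (cc3 * δ * μ * f ^ 2 * (n * ‖z‖ ^ N / ‖1 - z‖)) := by
    calc Bn ^ 2 ≤ (2 * n * ‖z‖ ^ N * S) ^ 2 := by gcongr
      _ = 4 * ((n * ‖1 - z‖ * S ^ 2) * (n * ‖z‖ ^ N / ‖1 - z‖) * ‖z‖ ^ N) := by
          field_simp
          ring
      _ ≤ 4 * ((cc3 * δ * μ * f ^ 2) * (n * ‖z‖ ^ N / ‖1 - z‖) * 1) := by gcongr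
      _ = _ := by ring
  have hadd : ‖bf δ (1 / 2 ^ k) z * bFd δ (1 / 2 ^ k) z + (s : ℂ) * bhd (ceps δ n) δ n k K z‖ ≤ A + Bn :=
    norm_add_le _ _
  calc ‖bf δ (1 / 2 ^ k) z * bFd δ (1 / 2 ^ k) z + (s : ℂ) * bhd (ceps δ n) δ n k K z‖ ^ 2 ≤ (A + Bn) ^ 2 := by
        gcongr
    _ = A ^ 2 + 2 * A * Bn + Bn ^ 2 := by ring
    _ ≤ A ^ 2 + 8 * cc3 * δ * μ * f ^ 2 * (n * ‖z‖ ^ N / ‖1 - z‖) := by linarith

lemma Bf_meanValent (hδ : 0 < δ) (hδ4 : δ < 1 / 4) (hK : δ * K ≤ 1) (hn : 2 ^ (k + K) ≤ n * δ)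
    (hN1 : 1 ≤ N) (hN : N + 2 ^ (k + K) ≤ n) (hN2 : n ≤ 4 * N) {s : ℝ} (hs : |s| = 1) :
    MeanValent (1 / 4 + δ) (Bf δ n k K s) := by
  intro R hR
  have hτ : (0 : ℝ) < 1 / 2 ^ k := by positivity
  set τ : ℝ := 1 / 2 ^ k with hτd
  have hpi := Real.pi_gt_three
  have hpi4 := Real.pi_lt_four
  have hc3 : 0 < cc3 := by unfold cc3; positivity
  have hc3' : cc3 = 1 / 10 ^ 7 := rfl
  have hd : DifferentiableOn ℂ (Bf δ n k K s) (ball 0 1) := fun z hz =>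
    (Bf_hasDerivAt s (mem_ball_zero_iff.mp hz)).differentiableAt.differentiableWithinAt
  refine (valence_le_area hd R).trans ?_
  set μ := bmu δ τ R with hμ
  have hμ0 : 0 ≤ μ := bmu_nonneg hτ hR.le
  have hμ1 : μ ≤ 1 := bmu_le_one _ _ _
  set x := 8 * cc3 * δ * μ with hx
  have hx0 : 0 ≤ x := by positivity
  have hx1 : x ≤ 1 := by
    have : x ≤ 8 * cc3 * (1 / 4) * 1 := by rw [hx]; gcongr
    rw [hc3'] at this
    linarith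
  set R' := R * (1 + x) with hR'
  have hR'pos : 0 < R' := by positivity
  have hRR' : R ≤ R' := by rw [hR']; nlinarith
  have hR'2 : R' ≤ 2 * R := by rw [hR']; nlinarith
  -- set inclusion
  have hsub : (ball (0 : ℂ) 1 ∩ {z | ‖Bf δ n k K s z‖ < R}) ⊆ (ball (0 : ℂ) 1 ∩ {z | ‖bf δ τ z‖ < R'}) := by
    rintro z ⟨hz, hzR⟩
    refine ⟨hz, ?_⟩
    rw [mem_ofPred_eq] at hzR ⊢
    rw [mem_ball_zero_iff] at hz
    have h1 := bh_bound (ε := ceps δ n) (δ := δ) ceps_nonneg hz (n := n) (k := k) (K := K)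
    have h2 := P_one hδ hδ4 hK hn hz
    rw [← hτd] at h2
    have h3 : ‖bf δ τ z‖ ≤ ‖Bf δ n k K s z‖ + ‖bh (ceps δ n) δ n k K z‖ := by
      have e : bf δ τ z = Bf δ n k K s z - (s : ℂ) * bh (ceps δ n) δ n k K z := by
        unfold Bf
        rw [hτd]
        push_cast
        ring
      rw [e]
      refine (norm_sub_le _ _).trans ?_
      rw [norm_mul (s : ℂ), norm_real, Real.norm_eq_abs, hs, one_mul]
    set f := ‖bf δ τ z‖ with hf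
    have hf0 : 0 ≤ f := norm_nonneg _
    have h4 : ‖bh (ceps δ n) δ n k K z‖ ≤ cc3 * δ * bmu δ τ f * f := h1.trans h2
    have h5 : cc3 * δ * bmu δ τ f * f ≤ f / 2 := by
      have h6 : cc3 * δ * bmu δ τ f ≤ 1 / 10 ^ 7 * (1 / 4) * 1 := by
        rw [hc3']
        have := bmu_le_one δ τ f
        have := bmu_nonneg (δ := δ) hτ hf0
        gcongr
      nlinarith
    have h6 : f ≤ 2 * R := by linarith
    have h7 : bmu δ τ f ≤ 4 * μ := (bmu_mono hδ hτ hf0 h6).trans (bmu_double hδ hτ hR.le)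
    have h8 : cc3 * δ * bmu δ τ f * f ≤ cc3 * δ * (4 * μ) * (2 * R) := by gcongr
    calc f ≤ ‖Bf δ n k K s z‖ + cc3 * δ * (4 * μ) * (2 * R) := by linarith
      _ < R + cc3 * δ * (4 * μ) * (2 * R) := by linarith
      _ = R' := by rw [hR', hx]; ring
  refine (lintegral_mono_set hsub).trans ?_
  set T : Set ℂ := ball (0 : ℂ) 1 ∩ {z | ‖bf δ τ z‖ < R'} with hT
  have hTo : IsOpen T := by
    have := (bf_diff (δ := δ) hτ).continuousOn.norm.isOpen_inter_preimage isOpen_ball (isOpen_Iio (a := R'))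
    exact this
  obtain ⟨d0, hd0, hbd0⟩ := bb0_exists hδ hτ (T := 2 * R') (by positivity)
  set μ' := bmu δ τ R' with hμ'
  have hμ'0 : 0 ≤ μ' := bmu_nonneg hτ hR'pos.le
  set C1 : ℝ := 16 * cc3 * δ * μ' * R' ^ 2 * √d0 * n with hC1
  have hC10 : 0 ≤ C1 := by positivity
  have hfd : ∀ z ∈ T, d0 ≤ ‖1 - z‖ ∧ ‖bf δ τ z‖ / ‖1 - z‖ ≤ 2 * R' * √d0 * ‖1 - z‖ ^ (-(3 / 2 : ℝ)) := by
    rintro z ⟨hz, hzR⟩
    rw [mem_ball_zero_iff] at hz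
    rw [mem_ofPred_eq] at hzR
    have hdz := norm_one_sub_pos hz
    have h1 := bf_ge hδ hδ4 hτ hz
    have h2 : bb0 δ τ ‖1 - z‖ < bb0 δ τ d0 := by rw [hbd0]; linarith
    have h3 : d0 ≤ ‖1 - z‖ := by
      by_contra hcon
      push Not at hcon
      exact absurd (bb0_anti (τ := τ) hδ hdz hcon.le) (not_le.mpr h2)
    refine ⟨h3, ?_⟩
    have h4 := bb0_antitone (τ := τ) hδ hd0 h3
    rw [hbd0] at h4
    have h5 := (bf_le hδ hτ hz)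
    have hsd : 0 < √‖1 - z‖ := Real.sqrt_pos.mpr hdz
    have h6 : bb0 δ τ ‖1 - z‖ ≤ 2 * R' * √d0 / √‖1 - z‖ := by
      rw [le_div_iff₀ hsd]; exact h4
    have h7 : ‖1 - z‖ ^ (-(3 / 2 : ℝ)) = 1 / √‖1 - z‖ / ‖1 - z‖ := by
      rw [Real.sqrt_eq_rpow, div_div, eq_div_iff (by positivity), ← mul_assoc,
        ← Real.rpow_add hdz]
      nth_rw 2 [← Real.rpow_one ‖1 - z‖]
      rw [← Real.rpow_add hdz]
      norm_num
    rw [h7]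
    calc ‖bf δ τ z‖ / ‖1 - z‖ ≤ (2 * R' * √d0 / √‖1 - z‖) / ‖1 - z‖ := by
          gcongr
          exact h5.trans h6
      _ = _ := by ring
  have hpt : ∀ z ∈ T, ENNReal.ofReal (‖deriv (Bf δ n k K s) z‖ ^ 2) ≤
      ENNReal.ofReal (‖deriv (bf δ τ) z‖ ^ 2) +
        ENNReal.ofReal C1 * ENNReal.ofReal (‖z‖ ^ N * ‖1 - z‖ ^ (-(3 / 2 : ℝ))) := by
    intro z hz
    obtain ⟨h1, h2⟩ := hfd z hz
    obtain ⟨hz1, hzR⟩ := hz
    rw [mem_ball_zero_iff] at hz1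
    rw [mem_ofPred_eq] at hzR
    have h3 := Bf_deriv_bound hδ hδ4 hK hn hN1 hN hs hz1
    rw [← hτd] at h3
    rw [← ENNReal.ofReal_mul hC10, ← ENNReal.ofReal_add (by positivity) (by positivity)]
    apply ENNReal.ofReal_le_ofReal
    refine h3.trans (add_le_add le_rfl ?_)
    set f := ‖bf δ τ z‖ with hf
    have hf0 : 0 ≤ f := norm_nonneg _
    have h4 : bmu δ τ f ≤ μ' := bmu_mono hδ hτ hf0 hzR.le
    have h40 : 0 ≤ bmu δ τ f := bmu_nonneg hτ hf0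
    calc 8 * cc3 * δ * bmu δ τ f * f ^ 2 * (n * ‖z‖ ^ N / ‖1 - z‖)
        = 8 * cc3 * δ * bmu δ τ f * f * (n * ‖z‖ ^ N) * (f / ‖1 - z‖) := by ring
      _ ≤ 8 * cc3 * δ * μ' * R' * (n * ‖z‖ ^ N) * (2 * R' * √d0 * ‖1 - z‖ ^ (-(3 / 2 : ℝ))) := by
          have hdz := norm_one_sub_pos hz1
          gcongr
      _ = C1 * (‖z‖ ^ N * ‖1 - z‖ ^ (-(3 / 2 : ℝ))) := by rw [hC1]; ring
  refine (setLIntegral_mono' hTo.measurableSet hpt).trans ?_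
  rw [lintegral_add_left ((measurable_deriv _).norm.pow_const 2).ennreal_ofReal,
    lintegral_const_mul' _ _ ENNReal.ofReal_ne_top]
  have hsub2 : T ⊆ ball (0 : ℂ) 1 ∩ {z | d0 ≤ ‖1 - z‖} := fun z hz => ⟨hz.1, (hfd z hz).1⟩
  have h9 := (lintegral_mono_set (f := fun z : ℂ => ENNReal.ofReal (‖z‖ ^ N * ‖1 - z‖ ^ (-(3 / 2 : ℝ)))) hsub2).trans
    (disc_lint hd0 N)
  refine (add_le_add (bf_area hδ hδ4 hτ hR'pos) (mul_le_mul_right h9 _)).trans ?_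
  rw [← ENNReal.ofReal_mul hC10]
  have hareaNN : 0 ≤ π * (1 / 4 + δ) * R' ^ 2 - δ / 4 * bmu δ τ R' * R' ^ 2 := by
    have h1 : δ / 4 * bmu δ τ R' ≤ (1 / 4) / 4 * 1 := by
      have := bmu_le_one δ τ R'
      gcongr
    have h2 : 3 * (1 / 4) ≤ π * (1 / 4 + δ) := by nlinarith
    have h3 : 0 < R' ^ 2 := by positivity
    nlinarith
  rw [← ENNReal.ofReal_add hareaNN (by positivity)]
  apply ENNReal.ofReal_le_ofReal
  have hsecond : C1 * (12 * π / (N + 2) * d0 ^ (-(1 / 2 : ℝ))) ≤ 4000 * cc3 * δ * μ' * R' ^ 2 := by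
    have h1 : √d0 * d0 ^ (-(1 / 2 : ℝ)) = 1 := by
      rw [Real.sqrt_eq_rpow, ← Real.rpow_add hd0]; norm_num
    have hNr : (n : ℝ) ≤ 4 * N := by exact_mod_cast hN2
    have h2 : (n : ℝ) / (N + 2) ≤ 4 := by
      rw [div_le_iff₀ (by positivity)]
      linarith
    calc C1 * (12 * π / (N + 2) * d0 ^ (-(1 / 2 : ℝ)))
        = 192 * π * cc3 * δ * μ' * R' ^ 2 * (n / (N + 2)) * (√d0 * d0 ^ (-(1 / 2 : ℝ))) := by
          rw [hC1]; ring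
      _ = 192 * π * cc3 * δ * μ' * R' ^ 2 * (n / (N + 2)) := by rw [h1, mul_one]
      _ ≤ 192 * 4 * cc3 * δ * μ' * R' ^ 2 * 4 := by gcongr
      _ ≤ 4000 * cc3 * δ * μ' * R' ^ 2 := by
          have : 0 ≤ cc3 * δ * μ' * R' ^ 2 := by positivity
          nlinarith
  have hmm : μ ≤ μ' := bmu_mono hδ hτ hR.le hRR'
  have hR'sq : R' ^ 2 ≤ R ^ 2 * (1 + 3 * x) := by
    rw [hR', mul_pow]
    gcongr
    nlinarith
  have hRsq : R ^ 2 ≤ R' ^ 2 := by gcongr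
  -- final
  have hkey : π * (1 / 4 + δ) * (R ^ 2 * (3 * x)) ≤ δ / 5 * μ * R ^ 2 := by
    have h1 : π * (1 / 4 + δ) ≤ 4 * (1 / 2) := by
      have : 1 / 4 + δ ≤ 1 / 2 := by linarith
      gcongr
    calc π * (1 / 4 + δ) * (R ^ 2 * (3 * x)) ≤ 4 * (1 / 2) * (R ^ 2 * (3 * x)) := by gcongr
      _ = (48 * cc3) * (δ * μ * R ^ 2) := by rw [hx]; ring
      _ ≤ (1 / 5) * (δ * μ * R ^ 2) := by
          gcongr
          rw [hc3']; norm_num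
      _ = _ := by ring
  have h10 : 4000 * cc3 * δ * μ' * R' ^ 2 ≤ (1 / 20) * (δ * μ' * R' ^ 2) := by
    have : 0 ≤ δ * μ' * R' ^ 2 := by positivity
    have e : 4000 * cc3 * δ * μ' * R' ^ 2 = (4000 * cc3) * (δ * μ' * R' ^ 2) := by ring
    rw [e]
    gcongr
    rw [hc3']; norm_num
  have h11 : δ / 5 * μ * R ^ 2 ≤ δ / 5 * μ' * R' ^ 2 := by gcongr
  calc π * (1 / 4 + δ) * R' ^ 2 - δ / 4 * bmu δ τ R' * R' ^ 2 + C1 * (12 * π / (N + 2) * d0 ^ (-(1 / 2 : ℝ)))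
      ≤ π * (1 / 4 + δ) * R' ^ 2 - δ / 4 * μ' * R' ^ 2 + (1 / 20) * (δ * μ' * R' ^ 2) := by
        have := hsecond.trans h10
        linarith
    _ = π * (1 / 4 + δ) * R' ^ 2 - δ / 5 * μ' * R' ^ 2 := by ring
    _ ≤ π * (1 / 4 + δ) * (R ^ 2 * (1 + 3 * x)) - δ / 5 * μ' * R' ^ 2 := by gcongr
    _ = π * (1 / 4 + δ) * R ^ 2 + π * (1 / 4 + δ) * (R ^ 2 * (3 * x)) - δ / 5 * μ' * R' ^ 2 := by ring
    _ ≤ π * (1 / 4 + δ) * R ^ 2 := by linarith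

end

end Pool.Agent.Run7.h820
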