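import Mathlib

open Complex MeasureTheory Metric Set Filter Topology
open scoped ENNReal Real ComplexConjugate

set_option autoImplicit false

namespace Pool.Agent.Run7.h820

/-- disc automorphism moving `0` to `a` -/
noncomputable def mob (a z : ℂ) : ℂ := (z + a) / (1 + conj a * z)

lemma mob_denom_ne {a z : ℂ} (ha : ‖a‖ < 1) (hz : ‖z‖ ≤ 1) : 1 + conj a * z ≠ 0 := by
  intro h
  have h1 : conj a * z = -1 := by linear_combination h
  have h2 : ‖a‖ * ‖z‖ = 1 := by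
    have := congrArg norm h1
    simpa using this
  nlinarith [norm_nonneg a, norm_nonneg z]

lemma mob_zero (a : ℂ) : mob a 0 = a := by simp [mob]

lemma mob_norm_sq (a z : ℂ) :
    ‖1 + conj a * z‖ ^ 2 - ‖z + a‖ ^ 2 = (1 - ‖a‖ ^ 2) * (1 - ‖z‖ ^ 2) := by
  simp only [← Complex.normSq_eq_norm_sq, Complex.normSq_apply]
  simp
  ring

lemma mob_mem {a z : ℂ} (ha : ‖a‖ < 1) (hz : ‖z‖ < 1) : ‖mob a z‖ < 1 := by
  have h := mob_norm_sq a z
  have h0 : 0 < ‖1 + conj a * z‖ := norm_pos_iff.mpr (mob_denom_ne ha hz.le)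
  rw [mob, norm_div, div_lt_one h0]
  have h1 : 0 < (1 - ‖a‖ ^ 2) * (1 - ‖z‖ ^ 2) := by
    apply mul_pos
    · nlinarith [norm_nonneg a]
    · nlinarith [norm_nonneg z]
  have h2 : ‖z + a‖ ^ 2 < ‖1 + conj a * z‖ ^ 2 := by linarith
  exact lt_of_pow_lt_pow_left₀ 2 h0.le h2

lemma mob_mapsTo {a : ℂ} (ha : ‖a‖ < 1) : MapsTo (mob a) (ball (0 : ℂ) 1) (ball 0 1) := by
  intro z hz
  rw [mem_ball_zero_iff] at hz ⊢
  exact mob_mem ha hz

lemma mob_inv {a z : ℂ} (ha : ‖a‖ < 1) (hz : ‖z‖ < 1) : mob (-a) (mob a z) = z := by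
  have h0 := mob_denom_ne ha hz.le
  have h1 : (1 : ℂ) - conj a * a ≠ 0 := by
    intro h
    have h2 : conj a * a = 1 := by linear_combination -h
    rw [Complex.conj_mul'] at h2
    have h3 : ‖a‖ ^ 2 = 1 := by exact_mod_cast h2
    nlinarith [norm_nonneg a]
  unfold mob
  rw [map_neg]
  generalize conj a = c at h0 h1 ⊢
  have h2 : 1 + -c * ((z + a) / (1 + c * z)) = (1 - c * a) / (1 + c * z) := by
    rw [eq_div_iff h0, add_mul, mul_assoc, div_mul_cancel₀ _ h0]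
    ring
  have h3 : (z + a) / (1 + c * z) + -a = z * (1 - c * a) / (1 + c * z) := by
    rw [eq_div_iff h0, add_mul, div_mul_cancel₀ _ h0]
    ring
  rw [h2, h3, div_div_div_cancel_right₀ h0, mul_div_cancel_right₀ _ h1]

lemma mob_injOn {a : ℂ} (ha : ‖a‖ < 1) : InjOn (mob a) (ball (0 : ℂ) 1) := by
  intro z hz w hw h
  rw [mem_ball_zero_iff] at hz hw
  rw [← mob_inv ha hz, ← mob_inv ha hw, h]

lemma mob_hasDerivAt {a z : ℂ} (ha : ‖a‖ < 1) (hz : ‖z‖ ≤ 1) :
    HasDerivAt (mob a) ((1 - ‖a‖ ^ 2 : ℝ) / (1 + conj a * z) ^ 2) z := by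
  have h0 := mob_denom_ne ha hz
  have h1 : HasDerivAt (fun z : ℂ => z + a) 1 z := (hasDerivAt_id z).add_const a
  have h2 : HasDerivAt (fun z : ℂ => 1 + conj a * z) (conj a) z := by
    simpa using ((hasDerivAt_id z).const_mul (conj a)).const_add 1
  refine (h1.div h2 h0).congr_deriv ?_
  congr 1
  have := Complex.conj_mul' a
  push_cast
  rw [← this]
  ring

lemma mob_diff {a : ℂ} (ha : ‖a‖ < 1) : DifferentiableOn ℂ (mob a) (ball 0 1) := by
  intro z hz
  rw [mem_ball_zero_iff] at hz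
  exact (mob_hasDerivAt ha hz.le).differentiableAt.differentiableWithinAt

end Pool.Agent.Run7.h820
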