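import Pool.Agent.Run7.h820.Area
import Pool.Agent.Run7.h820.Moebius

open Complex MeasureTheory Metric Set Filter Topology
open scoped ENNReal Real ComplexConjugate

set_option autoImplicit false

namespace Pool.Agent.Run7.h820

/-- analytic automorphism of the disc -/
structure IsAuto (φ ψ : ℂ → ℂ) : Prop where
  diff : DifferentiableOn ℂ φ (ball 0 1)
  der : ∀ z ∈ ball (0 : ℂ) 1, deriv φ z ≠ 0
  maps : MapsTo φ (ball (0 : ℂ) 1) (ball 0 1)
  maps' : MapsTo ψ (ball (0 : ℂ) 1) (ball 0 1)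
  left : ∀ z ∈ ball (0 : ℂ) 1, ψ (φ z) = z
  right : ∀ z ∈ ball (0 : ℂ) 1, φ (ψ z) = z

lemma valence_comp {φ ψ : ℂ → ℂ} (h : IsAuto φ ψ) (f : ℂ → ℂ) (w : ℂ) :
    valence (fun z => f (φ z)) w = valence f w := by
  let e : ball (0 : ℂ) 1 ≃ ball (0 : ℂ) 1 :=
    { toFun := fun z => ⟨φ z, h.maps z.2⟩
      invFun := fun z => ⟨ψ z, h.maps' z.2⟩
      left_inv := fun z => Subtype.ext (h.left z z.2)
      right_inv := fun z => Subtype.ext (h.right z z.2) }
  unfold valence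
  rw [← e.tsum_eq (fun z : ball (0 : ℂ) 1 =>
    ((analyticOrderAt (fun ζ => f ζ - w) (z : ℂ) : ℕ∞) : ℝ≥0∞))]
  refine tsum_congr fun z => ?_
  congr 1
  have han : AnalyticAt ℂ φ (z : ℂ) := h.diff.analyticAt (isOpen_ball.mem_nhds z.2)
  have := analyticOrderAt_comp_of_deriv_ne_zero (f := fun ζ => f ζ - w) han (h.der z z.2)
  exact this

lemma valence_const_mul {f : ℂ → ℂ} (hf : DifferentiableOn ℂ f (ball 0 1)) {c : ℂ} (hc : c ≠ 0)
    (w : ℂ) : valence (fun z => c * f z) (c * w) = valence f w := by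
  unfold valence
  refine tsum_congr fun z => ?_
  congr 1
  have h1 : (fun ζ => c * f ζ - c * w) = (fun _ : ℂ => c) * fun ζ => f ζ - w := by
    funext ζ
    simp only [Pi.mul_apply]
    ring
  have han : AnalyticAt ℂ (fun ζ => f ζ - w) (z : ℂ) :=
    (hf.analyticAt (isOpen_ball.mem_nhds z.2)).sub analyticAt_const
  rw [h1, analyticOrderAt_mul analyticAt_const han]
  have h2 : analyticOrderAt (fun _ : ℂ => c) (z : ℂ) = 0 := by
    rw [analyticOrderAt_eq_zero]
    exact Or.inr hc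
  rw [h2, zero_add]

lemma MeanValent.comp {p : ℝ} {f : ℂ → ℂ} (hf : MeanValent p f) {φ ψ : ℂ → ℂ} (h : IsAuto φ ψ) :
    MeanValent p (fun z => f (φ z)) := by
  intro R hR
  simp_rw [valence_comp h f]
  exact hf R hR

lemma MeanValent.const_mul {p : ℝ} {f : ℂ → ℂ} (hfd : DifferentiableOn ℂ f (ball 0 1))
    (hf : MeanValent p f) {c : ℂ} (hc : c ≠ 0) : MeanValent p (fun z => c * f z) := by
  intro R hR
  have hcn : 0 < ‖c‖ := norm_pos_iff.mpr hc
  have h1 := lintegral_holo_image (E := ball (0 : ℂ) (R / ‖c‖)) measurableSet_ball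
    (φ := fun z => c * z) (φ' := fun _ => c)
    (fun z _ => by simpa using (hasDerivAt_id z).const_mul c)
    (fun a _ b _ hab => mul_left_cancel₀ hc hab) (fun w => valence (fun z => c * f z) w)
  have himg : (fun z => c * z) '' ball (0 : ℂ) (R / ‖c‖) = ball 0 R := by
    ext w
    simp only [mem_image, mem_ball_zero_iff]
    constructor
    · rintro ⟨z, hz, rfl⟩
      rw [lt_div_iff₀ hcn] at hz
      rw [norm_mul, mul_comm]; exact hz
    · intro hw
      refine ⟨w / c, ?_, by field_simp⟩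
      rw [norm_div]
      gcongr
  rw [himg] at h1
  rw [h1]
  simp_rw [valence_const_mul hfd hc]
  rw [lintegral_const_mul' _ _ ENNReal.ofReal_ne_top]
  refine (mul_le_mul_right (hf (R / ‖c‖) (by positivity)) _).trans ?_
  rw [← ENNReal.ofReal_mul (by positivity)]
  apply ENNReal.ofReal_le_ofReal
  apply le_of_eq
  field_simp

lemma coeff_zero (f : ℂ → ℂ) : coeff f 0 = f 0 := by simp [coeff]

lemma mem_classS_iff {p : ℝ} (hp : 0 ≤ p) (hp1 : p < 1) {f : ℂ → ℂ} :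
    f ∈ classS p ↔ DifferentiableOn ℂ f (ball 0 1) ∧ MeanValent p f ∧ ‖f 0‖ = 1 := by
  have hset : {x : ℝ | ∃ ν : ℕ, (ν : ℝ) ≤ p ∧ x = ‖coeff f ν‖} = {‖f 0‖} := by
    ext x
    simp only [mem_ofPred_eq, mem_singleton_iff]
    constructor
    · rintro ⟨ν, hν, rfl⟩
      have : ν = 0 := by
        by_contra h
        have h1 : 1 ≤ ν := Nat.one_le_iff_ne_zero.mpr h
        have h2 : (1 : ℝ) ≤ ν := by exact_mod_cast h1
        linarith
      rw [this, coeff_zero]
    · rintro rfl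
      exact ⟨0, by simpa using hp, by rw [coeff_zero]⟩
  unfold classS
  simp only [mem_ofPred_eq]
  rw [hset]
  constructor
  · rintro ⟨h1, h2, h3⟩
    refine ⟨h1, h2, ?_⟩
    have := h3.1
    exact (mem_singleton_iff.mp this).symm
  · rintro ⟨h1, h2, h3⟩
    refine ⟨h1, h2, ?_⟩
    rw [h3]
    exact isGreatest_singleton

lemma isAuto_mob {a : ℂ} (ha : ‖a‖ < 1) : IsAuto (mob a) (mob (-a)) := by
  have ha' : ‖-a‖ < 1 := by rwa [norm_neg]
  refine ⟨mob_diff ha, ?_, mob_mapsTo ha, mob_mapsTo ha', ?_, ?_⟩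
  · intro z hz
    rw [mem_ball_zero_iff] at hz
    rw [(mob_hasDerivAt ha hz.le).deriv]
    apply div_ne_zero
    · have : (0 : ℝ) < 1 - ‖a‖ ^ 2 := by nlinarith [norm_nonneg a]
      exact_mod_cast this.ne'
    · exact pow_ne_zero _ (mob_denom_ne ha hz.le)
  · intro z hz
    rw [mem_ball_zero_iff] at hz
    exact mob_inv ha hz
  · intro z hz
    rw [mem_ball_zero_iff] at hz
    have := mob_inv ha' hz
    rwa [neg_neg] at this

lemma isAuto_rot {ζ : ℂ} (hζ : ‖ζ‖ = 1) : IsAuto (fun z => ζ * z) (fun z => ζ⁻¹ * z) := by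
  have h0 : ζ ≠ 0 := by
    rintro rfl
    simp at hζ
  refine ⟨by fun_prop, ?_, ?_, ?_, ?_, ?_⟩
  · intro z _
    have : HasDerivAt (fun z : ℂ => ζ * z) (ζ * 1) z := (hasDerivAt_id z).const_mul ζ
    rw [this.deriv, mul_one]
    exact h0
  · intro z hz
    rw [mem_ball_zero_iff] at hz ⊢
    rwa [norm_mul, hζ, one_mul]
  · intro z hz
    rw [mem_ball_zero_iff] at hz ⊢
    rwa [norm_mul, norm_inv, hζ, inv_one, one_mul]
  · intro z _
    field_simp
  · intro z _
    field_simp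

/-- nonvanishing when `p < 1` -/
lemma classS_ne_zero {p : ℝ} (hp : 0 ≤ p) (hp1 : p < 1) {f : ℂ → ℂ} (hf : f ∈ classS p) :
    ∀ z ∈ ball (0 : ℂ) 1, f z ≠ 0 := by
  intro z0 hz0 hfz0
  rw [mem_classS_iff hp hp1] at hf
  obtain ⟨hd, hm, h0⟩ := hf
  have han : AnalyticAt ℂ f z0 := hd.analyticAt (isOpen_ball.mem_nhds hz0)
  have hpi := Real.pi_pos
  rcases han.eventually_constant_or_nhds_le_map_nhds with hc | hop
  · have hon : AnalyticOnNhd ℂ f (ball 0 1) := hd.analyticOnNhd isOpen_ball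
    have heq : EqOn f (fun _ => f z0) (ball 0 1) :=
      hon.eqOn_of_preconnected_of_eventuallyEq analyticOnNhd_const
        (convex_ball (0 : ℂ) 1).isPreconnected hz0 hc
    have := heq (show (0 : ℂ) ∈ ball (0 : ℂ) 1 by simp)
    simp only [hfz0] at this
    rw [this] at h0
    simp at h0
  · rw [hfz0] at hop
    have himg : f '' ball 0 1 ∈ 𝓝 (0 : ℂ) := hop (image_mem_map (isOpen_ball.mem_nhds hz0))
    obtain ⟨ε, hε, hsub⟩ := Metric.mem_nhds_iff.mp himg
    have h1 : ∀ w ∈ ball (0 : ℂ) ε, 1 ≤ valence f w := by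
      intro w hw
      obtain ⟨z, hz, rfl⟩ := hsub hw
      have h5 : analyticOrderAt (fun ζ => f ζ - f z) z ≠ 0 := by
        rw [analyticOrderAt_ne_zero]
        exact ⟨(hd.analyticAt (isOpen_ball.mem_nhds hz)).sub analyticAt_const, by simp⟩
      have h6 : (1 : ℕ∞) ≤ analyticOrderAt (fun ζ => f ζ - f z) z :=
        ENat.one_le_iff_ne_zero.mpr h5
      calc (1 : ℝ≥0∞) = ((1 : ℕ∞) : ℝ≥0∞) := by simp
        _ ≤ ((analyticOrderAt (fun ζ => f ζ - f z) ((⟨z, hz⟩ : ball (0 : ℂ) 1) : ℂ) : ℕ∞) : ℝ≥0∞) :=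
            ENat.toENNReal_le.mpr h6
        _ ≤ valence f (f z) := ENNReal.le_tsum (f := fun z' : ball (0 : ℂ) 1 =>
            ((analyticOrderAt (fun ζ => f ζ - f z) (z' : ℂ) : ℕ∞) : ℝ≥0∞)) ⟨z, hz⟩
    have h2 : ∫⁻ _ in ball (0 : ℂ) ε, (1 : ℝ≥0∞) ≤ ENNReal.ofReal (π * p * ε ^ 2) :=
      (setLIntegral_mono' measurableSet_ball h1).trans (hm ε hε)
    rw [setLIntegral_one, Complex.volume_ball] at h2
    have h3 : ENNReal.ofReal ε ^ 2 * (NNReal.pi : ℝ≥0∞) = ENNReal.ofReal (π * ε ^ 2) := by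
      rw [ENNReal.ofReal_mul hpi.le, ENNReal.ofReal_pow hε.le, mul_comm]
      congr 1
      rw [← NNReal.coe_real_pi, ENNReal.ofReal_coe_nnreal]
    rw [h3, ENNReal.ofReal_le_ofReal_iff (by positivity)] at h2
    have : 0 < π * ε ^ 2 := by positivity
    nlinarith

end Pool.Agent.Run7.h820
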