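import Pool.Agent.Run7.h820.Blow6
import Pool.Agent.Run7.h820.Valence

open Complex MeasureTheory Metric Set Filter Topology
open scoped ENNReal Real ComplexConjugate NNReal

set_option autoImplicit false

namespace Pool.Agent.Run7.h820

lemma iteratedDeriv_polynomial (n : ℕ) (P : Polynomial ℂ) :
    iteratedDeriv n (fun z => P.eval z) = fun z => (Polynomial.derivative^[n] P).eval z := by
  induction n generalizing P with
  | zero => simp
  | succ n ih =>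
    rw [iteratedDeriv_succ']
    have : deriv (fun z => P.eval z) = fun z => (Polynomial.derivative P).eval z := by
      funext z
      exact P.deriv
    rw [this, ih, Function.iterate_succ_apply]

lemma coeff_polynomial (P : Polynomial ℂ) (n : ℕ) : coeff (fun z => P.eval z) n = P.coeff n := by
  unfold coeff
  rw [iteratedDeriv_polynomial]
  simp only
  rw [← Polynomial.coeff_zero_eq_eval_zero, Polynomial.coeff_iterate_derivative, zero_add,
    Nat.descFactorial_self, nsmul_eq_mul]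
  have : ((n.factorial : ℕ) : ℂ) ≠ 0 := by exact_mod_cast n.factorial_ne_zero
  field_simp

/-- the geometric polynomial -/
noncomputable def gmP (m : ℕ) : Polynomial ℂ := ∑ j ∈ Finset.range m, Polynomial.X ^ j

lemma gmP_eval (m : ℕ) (z : ℂ) : (gmP m).eval z = gm m z := by
  unfold gmP gm
  rw [Polynomial.eval_finsetSum]
  simp

lemma gmP_coeff (m j : ℕ) : (gmP m).coeff j = if j < m then 1 else 0 := by
  unfold gmP
  rw [Polynomial.finsetSum_coeff]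
  simp only [Polynomial.coeff_X_pow]
  rw [Finset.sum_ite_eq]
  simp

lemma gmP_sq_coeff {m : ℕ} (hm : 1 ≤ m) : ((gmP m) ^ 2).coeff (m - 1) = m := by
  rw [pow_two, Polynomial.coeff_mul]
  have h1 : ∀ x ∈ (Finset.HasAntidiagonal.antidiagonal (m - 1) : Finset (ℕ × ℕ)), (gmP m).coeff x.1 * (gmP m).coeff x.2 = 1 := by
    intro x hx
    rw [Finset.HasAntidiagonal.mem_antidiagonal] at hx
    rw [gmP_coeff, gmP_coeff, if_pos (by omega), if_pos (by omega), one_mul]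
  rw [Finset.sum_congr rfl h1]
  simp only [Finset.sum_const, Finset.Nat.card_antidiagonal, nsmul_eq_mul, mul_one]
  congr 1
  omega

/-- polynomial of the perturbation -/
noncomputable def bhP (ε δ : ℝ) (n k K : ℕ) : Polynomial ℂ :=
  Polynomial.C (ε : ℂ) * ∑ i ∈ Finset.range (K + 1),
    Polynomial.C ((((2 : ℝ) ^ (k + i)) ^ (2 * δ - 1) : ℝ) : ℂ) *
      (Polynomial.X ^ (n + 1 - 2 ^ (k + i)) * gmP (2 ^ (k + i)) ^ 2)

lemma bhP_eval (ε δ : ℝ) (n k K : ℕ) (z : ℂ) : (bhP ε δ n k K).eval z = bh ε δ n k K z := by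
  unfold bhP bh
  simp only [Polynomial.eval_mul, Polynomial.eval_C, Polynomial.eval_finsetSum, Polynomial.eval_pow,
    Polynomial.eval_X, gmP_eval]

lemma bhP_coeff {ε δ : ℝ} {n k K : ℕ} (hn : 2 ^ (k + K) ≤ n) :
    (bhP ε δ n k K).coeff n = ((ε * ∑ i ∈ Finset.range (K + 1), ((2 : ℝ) ^ (k + i)) ^ (2 * δ) : ℝ) : ℂ) := by
  unfold bhP
  rw [Polynomial.coeff_C_mul, Polynomial.finsetSum_coeff, ofReal_mul, ofReal_sum]
  congr 1
  apply Finset.sum_congr rfl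
  intro i hi
  have hi' : i ≤ K := by simpa [Nat.lt_succ_iff] using hi
  have hm1 : 2 ^ (k + i) ≤ 2 ^ (k + K) := Nat.pow_le_pow_right (by norm_num) (by omega)
  have hmpos : 1 ≤ 2 ^ (k + i) := Nat.one_le_two_pow
  have hmr : ((2 : ℝ) ^ (k + i)) = ((2 ^ (k + i) : ℕ) : ℝ) := by push_cast; rfl
  rw [Polynomial.coeff_C_mul, hmr]
  set m : ℕ := 2 ^ (k + i) with hm
  have e : n = (m - 1) + (n + 1 - m) := by omega
  have h1 : (Polynomial.X ^ (n + 1 - m) * gmP m ^ 2).coeff n = (m : ℂ) := by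
    have h0 := Polynomial.coeff_X_pow_mul (gmP m ^ 2) (n + 1 - m) (m - 1)
    rw [← e, gmP_sq_coeff hmpos] at h0
    exact h0
  rw [h1]
  have hmpos' : (0 : ℝ) < m := by exact_mod_cast hmpos
  have h2 : (m : ℝ) ^ (2 * δ) = (m : ℝ) ^ (2 * δ - 1) * m := by
    nth_rw 3 [← Real.rpow_one (m : ℝ)]
    rw [← Real.rpow_add hmpos']
    congr 1
    ring
  rw [h2]
  push_cast
  ring

lemma bh_eq_poly (ε δ : ℝ) (n k K : ℕ) : bh ε δ n k K = fun z => (bhP ε δ n k K).eval z :=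
  funext fun z => (bhP_eval ε δ n k K z).symm

lemma coeff_Bf {δ : ℝ} {n k K : ℕ} (s : ℝ) (m : ℕ) :
    coeff (Bf δ n k K s) m = coeff (bf δ (1 / 2 ^ k)) m + s * coeff (bh (ceps δ n) δ n k K) m := by
  unfold coeff
  have h0 : (0 : ℂ) ∈ ball (0 : ℂ) 1 := by simp
  have h1 : ContDiffAt ℂ m (bf δ (1 / 2 ^ k)) 0 :=
    ((bf_diff (δ := δ) (τ := 1 / 2 ^ k) (by positivity)).analyticAt (isOpen_ball.mem_nhds h0)).contDiffAt
  have h2 : ContDiffAt ℂ m (bh (ceps δ n) δ n k K) 0 := by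
    rw [bh_eq_poly]
    exact (Differentiable.contDiff (Polynomial.differentiable _)).contDiffAt
  have h3 : Bf δ n k K s = bf δ (1 / 2 ^ k) + fun z => (s : ℂ) * bh (ceps δ n) δ n k K z := rfl
  rw [h3, iteratedDeriv_add h1 (contDiffAt_const.mul h2), iteratedDeriv_const_mul_field]
  ring

lemma Bf_zero {δ : ℝ} {n k K : ℕ} (hn : 2 ^ (k + K) ≤ n) (s : ℝ) :
    Bf δ n k K s 0 = bf δ (1 / 2 ^ k) 0 := by
  unfold Bf bh
  have : ∑ i ∈ Finset.range (K + 1),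
    ((((2 : ℝ) ^ (k + i)) ^ (2 * δ - 1) : ℝ) : ℂ) * ((0 : ℂ) ^ (n + 1 - 2 ^ (k + i)) * gm (2 ^ (k + i)) 0 ^ 2) = 0 := by
    apply Finset.sum_eq_zero
    intro i hi
    have hi' : i ≤ K := by simpa [Nat.lt_succ_iff] using hi
    have hm1 : 2 ^ (k + i) ≤ 2 ^ (k + K) := Nat.pow_le_pow_right (by norm_num) (by omega)
    rw [zero_pow (by omega)]
    ring
  rw [this]
  ring

lemma norm_bf_zero {δ : ℝ} (hδ : 0 < δ) {τ : ℝ} (hτ : 0 < τ) : 0 < ‖bf δ τ 0‖ ∧ ‖bf δ τ 0‖ ≤ 1 := by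
  constructor
  · exact norm_pos_iff.mpr (exp_ne_zero _)
  · have := bf_le_rpow hδ hτ (z := 0) (by simp)
    simpa using this

lemma A_ge {δ : ℝ} (hδ : 0 < δ) (hδ4 : δ < 1 / 4) {n k K N : ℕ} (hK : δ * K ≤ 1)
    (hn : (2 : ℝ) ^ (k + K) ≤ n * δ) (hN1 : 1 ≤ N) (hN : N + 2 ^ (k + K) ≤ n) (hN2 : n ≤ 4 * N) :
    ENNReal.ofReal (ceps δ n * ∑ i ∈ Finset.range (K + 1), ((2 : ℝ) ^ (k + i)) ^ (2 * δ)) ≤ A (1 / 4 + δ) n := by
  have hn' : 2 ^ (k + K) ≤ n := (Nat.le_add_left _ _).trans hN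
  set c : ℝ := ceps δ n * ∑ i ∈ Finset.range (K + 1), ((2 : ℝ) ^ (k + i)) ^ (2 * δ) with hc
  have hc0 : 0 ≤ c := mul_nonneg ceps_nonneg (by positivity)
  have hcb : coeff (bh (ceps δ n) δ n k K) n = (c : ℂ) := by
    rw [bh_eq_poly, coeff_polynomial, bhP_coeff hn']
  obtain ⟨s, hs, hsc⟩ : ∃ s : ℝ, |s| = 1 ∧ c ≤ ‖coeff (Bf δ n k K s) n‖ := by
    by_contra hcon
    push Not at hcon
    have h1 := hcon 1 (by simp)
    have h2 := hcon (-1) (by simp)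
    rw [coeff_Bf, hcb] at h1 h2
    have h3 : 2 * c = ‖(coeff (bf δ (1 / 2 ^ k)) n + ((1 : ℝ) : ℂ) * c) -
        (coeff (bf δ (1 / 2 ^ k)) n + ((-1 : ℝ) : ℂ) * c)‖ := by
      have : (coeff (bf δ (1 / 2 ^ k)) n + ((1 : ℝ) : ℂ) * c) -
        (coeff (bf δ (1 / 2 ^ k)) n + ((-1 : ℝ) : ℂ) * c) = ((2 * c : ℝ) : ℂ) := by push_cast; ring
      rw [this, norm_real, Real.norm_eq_abs, abs_of_nonneg (by positivity)]
    have h4 := norm_sub_le (coeff (bf δ (1 / 2 ^ k)) n + ((1 : ℝ) : ℂ) * c)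
        (coeff (bf δ (1 / 2 ^ k)) n + ((-1 : ℝ) : ℂ) * c)
    linarith
  set f := Bf δ n k K s with hf
  have hfd : DifferentiableOn ℂ f (ball 0 1) := fun z hz =>
    (Bf_hasDerivAt s (mem_ball_zero_iff.mp hz)).differentiableAt.differentiableWithinAt
  have hfm : MeanValent (1 / 4 + δ) f := Bf_meanValent hδ hδ4 hK hn hN1 hN hN2 hs
  have hf0 : f 0 = bf δ (1 / 2 ^ k) 0 := Bf_zero hn' s
  obtain ⟨hb1, hb2⟩ := norm_bf_zero hδ (τ := 1 / 2 ^ k) (by positivity)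
  rw [← hf0] at hb1 hb2
  have hf0ne : f 0 ≠ 0 := norm_pos_iff.mp hb1
  have hmem : (fun z => (f 0)⁻¹ * f z) ∈ classS (1 / 4 + δ) := by
    rw [mem_classS_iff (by linarith) (by linarith)]
    refine ⟨hfd.const_mul _, hfm.const_mul hfd (inv_ne_zero hf0ne), ?_⟩
    rw [inv_mul_cancel₀ hf0ne, norm_one]
  have hco : ‖coeff (fun z => (f 0)⁻¹ * f z) n‖ = ‖f 0‖⁻¹ * ‖coeff f n‖ := by
    unfold coeff
    rw [iteratedDeriv_const_mul_field, mul_div_assoc, norm_mul, norm_inv]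
  have h5 : c ≤ ‖coeff (fun z => (f 0)⁻¹ * f z) n‖ := by
    rw [hco]
    have : 1 ≤ ‖f 0‖⁻¹ := (one_le_inv₀ hb1).mpr hb2
    have h6 := norm_nonneg (coeff f n)
    nlinarith
  calc ENNReal.ofReal c ≤ ENNReal.ofReal ‖coeff (fun z => (f 0)⁻¹ * f z) n‖ := ENNReal.ofReal_le_ofReal h5
    _ = ‖coeff (fun z => (f 0)⁻¹ * f z) n‖ₑ := ofReal_norm _
    _ ≤ A (1 / 4 + δ) n := by
        unfold A
        exact le_iSup₂_of_le (fun z => (f 0)⁻¹ * f z) hmem le_rfl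

lemma delta_pow {δ : ℝ} (hδ : 0 < δ) : 1 / 8 ≤ δ ^ (2 * δ) := by
  rw [Real.rpow_def_of_pos hδ]
  have h1 : Real.log (1 / δ) ≤ 1 / δ := (Real.log_le_sub_one_of_pos (by positivity)).trans (by linarith)
  rw [Real.log_div one_ne_zero hδ.ne', Real.log_one, zero_sub] at h1
  have h2 : -2 ≤ Real.log δ * (2 * δ) := by
    have h3 : -Real.log δ * δ ≤ 1 / δ * δ := by gcongr
    rw [one_div, inv_mul_cancel₀ hδ.ne'] at h3
    linarith
  calc (1 : ℝ) / 8 ≤ Real.exp (-2) := by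
        rw [Real.exp_neg, one_div]
        apply inv_anti₀ (Real.exp_pos _)
        have h4 := Real.exp_one_lt_d9
        have h5 : Real.exp 2 = Real.exp 1 * Real.exp 1 := by rw [← Real.exp_add]; norm_num
        rw [h5]
        have h6 := Real.exp_pos 1
        nlinarith
    _ ≤ Real.exp (Real.log δ * (2 * δ)) := Real.exp_le_exp.mpr h2

lemma value_ge {δ : ℝ} (hδ : 0 < δ) (hδ4 : δ < 1 / 4) {n k K : ℕ} (hK : δ * K ≤ 1) (hK1 : 1 / δ ≤ K + 1)
    (hn : (n : ℝ) * δ < 2 ^ (k + K + 1)) (hn0 : 0 < n) :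
    ce0 / 48 / √δ ≤ (ceps δ n * ∑ i ∈ Finset.range (K + 1), ((2 : ℝ) ^ (k + i)) ^ (2 * δ)) *
      (n : ℝ) ^ (1 - 2 * (1 / 4 + δ)) := by
  have hnr : (0 : ℝ) < n := by exact_mod_cast hn0
  have he0 : 0 < ce0 := by unfold ce0; positivity
  have h1 : ((K : ℝ) + 1) * ((2 : ℝ) ^ k) ^ (2 * δ) ≤ ∑ i ∈ Finset.range (K + 1), ((2 : ℝ) ^ (k + i)) ^ (2 * δ) := by
    have : ∑ i ∈ Finset.range (K + 1), ((2 : ℝ) ^ k) ^ (2 * δ) ≤
        ∑ i ∈ Finset.range (K + 1), ((2 : ℝ) ^ (k + i)) ^ (2 * δ) := by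
      apply Finset.sum_le_sum
      intro i _
      apply Real.rpow_le_rpow (by positivity) _ (by linarith)
      exact pow_le_pow_right₀ (by norm_num) (by omega)
    simpa using this
  have h2 : (1 / δ) * ((2 : ℝ) ^ k) ^ (2 * δ) ≤ ∑ i ∈ Finset.range (K + 1), ((2 : ℝ) ^ (k + i)) ^ (2 * δ) := by
    refine le_trans ?_ h1
    gcongr
  have h3 : (n : ℝ) ^ (1 - 2 * (1 / 4 + δ)) = √n * ((n : ℝ) ^ (2 * δ))⁻¹ := by
    rw [Real.sqrt_eq_rpow, ← Real.rpow_neg hnr.le, ← Real.rpow_add hnr]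
    congr 1
    ring
  have h4 : 1 / 48 ≤ ((2 : ℝ) ^ k) ^ (2 * δ) * ((n : ℝ) ^ (2 * δ))⁻¹ := by
    have h5 : δ / 2 ^ (K + 1) ≤ 2 ^ k / n := by
      rw [div_le_div_iff₀ (by positivity) hnr, ← pow_add]
      have : k + (K + 1) = k + K + 1 := by ring
      rw [this, mul_comm]
      exact hn.le
    have h6 : (δ / 2 ^ (K + 1)) ^ (2 * δ) ≤ (2 ^ k / n) ^ (2 * δ) := by gcongr
    rw [Real.div_rpow (by positivity) hnr.le] at h6
    rw [← div_eq_mul_inv]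
    refine le_trans ?_ h6
    rw [Real.div_rpow hδ.le (by positivity)]
    have h7 : ((2 : ℝ) ^ (K + 1)) ^ (2 * δ) ≤ 6 := by
      rw [← Real.rpow_natCast, ← Real.rpow_mul (by norm_num)]
      calc (2 : ℝ) ^ (((K + 1 : ℕ) : ℝ) * (2 * δ)) ≤ 2 ^ (5 / 2 : ℝ) := by
            apply Real.rpow_le_rpow_of_exponent_le (by norm_num)
            push_cast
            nlinarith
        _ ≤ 6 := by
            have e : (2 : ℝ) ^ (5 / 2 : ℝ) = 4 * √2 := by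
              rw [Real.sqrt_eq_rpow]
              have : (5 / 2 : ℝ) = 2 + 1 / 2 := by norm_num
              rw [this, Real.rpow_add (by norm_num)]
              norm_num
            rw [e]
            have := sqrt_two_bounds.2
            linarith
    have h8 := delta_pow hδ
    rw [le_div_iff₀ (by positivity)]
    nlinarith
  have h9 : ceps δ n * √n = ce0 * √δ := by
    unfold ceps
    rw [mul_assoc, ← Real.sqrt_mul (by positivity)]
    congr 2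
    field_simp
  have h10 : √δ * (1 / δ) = 1 / √δ := by
    have := Real.mul_self_sqrt hδ.le
    have h11 : 0 < √δ := Real.sqrt_pos.mpr hδ
    rw [mul_one_div, div_eq_div_iff hδ.ne' h11.ne']
    linarith
  rw [h3]
  have h12 : 0 < √δ := Real.sqrt_pos.mpr hδ
  calc ce0 / 48 / √δ = ce0 * (1 / √δ) * (1 / 48) := by ring
    _ ≤ ce0 * (1 / √δ) * (((2 : ℝ) ^ k) ^ (2 * δ) * ((n : ℝ) ^ (2 * δ))⁻¹) := by gcongr
    _ = (ce0 * √δ) * ((1 / δ) * ((2 : ℝ) ^ k) ^ (2 * δ)) * ((n : ℝ) ^ (2 * δ))⁻¹ := by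
        rw [← h10]; ring
    _ = (ceps δ n * √n) * ((1 / δ) * ((2 : ℝ) ^ k) ^ (2 * δ)) * ((n : ℝ) ^ (2 * δ))⁻¹ := by rw [h9]
    _ = ceps δ n * ((1 / δ) * ((2 : ℝ) ^ k) ^ (2 * δ)) * (√n * ((n : ℝ) ^ (2 * δ))⁻¹) := by ring
    _ ≤ _ := by
        have := ceps_nonneg (δ := δ) (n := n)
        gcongr

theorem blow_up {p : ℝ} (hp : 1 / 4 < p) (hp2 : p < 1 / 2) :
    ENNReal.ofReal (ce0 / 24 / √(4 * p - 1)) ≤
      liminf (fun n : ℕ => A p n * ENNReal.ofReal ((n : ℝ) ^ (1 - 2 * p))) atTop := by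
  set δ := p - 1 / 4 with hδd
  have hδ : 0 < δ := by linarith
  have hδ4 : δ < 1 / 4 := by linarith
  have hp' : p = 1 / 4 + δ := by rw [hδd]; ring
  set K : ℕ := ⌊1 / δ⌋₊ with hKd
  have hK : δ * K ≤ 1 := by
    have := Nat.floor_le (show 0 ≤ 1 / δ by positivity)
    calc δ * K ≤ δ * (1 / δ) := by gcongr
      _ = 1 := by field_simp
  have hK1 : 1 / δ ≤ K + 1 := (Nat.lt_floor_add_one _).le
  have hval : ce0 / 24 / √(4 * p - 1) = ce0 / 48 / √δ := by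
    have : 4 * p - 1 = 2 ^ 2 * δ := by rw [hp']; ring
    rw [this, Real.sqrt_mul (by norm_num), Real.sqrt_sq (by norm_num)]
    ring
  rw [hval]
  apply le_liminf_of_le
  · isBoundedDefault
  filter_upwards [eventually_ge_atTop (max 4 ⌈2 ^ K / δ⌉₊)] with n hn
  have hn4 : 4 ≤ n := (le_max_left _ _).trans hn
  have hnK : (2 : ℝ) ^ K / δ ≤ n := (Nat.le_ceil _).trans (by exact_mod_cast (le_max_right _ _).trans hn)
  have hnK' : (2 : ℝ) ^ K ≤ n * δ := by rwa [div_le_iff₀ hδ] at hnK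
  have hnr : (0 : ℝ) < n := by exact_mod_cast (by omega : 0 < n)
  set q : ℕ := ⌊(n : ℝ) * δ⌋₊ with hq
  have hqK : 2 ^ K ≤ q := Nat.le_floor (by exact_mod_cast hnK')
  have hq0 : q ≠ 0 := by
    have : 0 < 2 ^ K := by positivity
    omega
  set j := Nat.log 2 q with hj
  have hjK : K ≤ j := (Nat.le_log_iff_pow_le (by norm_num) hq0).mpr hqK
  obtain ⟨k, hk⟩ : ∃ k, j = k + K := ⟨j - K, by omega⟩
  have h1 : 2 ^ (k + K) ≤ q := by rw [← hk]; exact Nat.pow_log_le_self 2 hq0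
  have h2 : q < 2 ^ (k + K + 1) := by rw [← hk]; exact Nat.lt_pow_succ_log_self (by norm_num) q
  have h1' : (2 : ℝ) ^ (k + K) ≤ n * δ := by
    have : ((2 ^ (k + K) : ℕ) : ℝ) ≤ q := by exact_mod_cast h1
    have h3 : (q : ℝ) ≤ n * δ := Nat.floor_le (by positivity)
    push_cast at this
    linarith
  have h2' : (n : ℝ) * δ < 2 ^ (k + K + 1) := by
    have h3 : (n : ℝ) * δ < q + 1 := Nat.lt_floor_add_one _
    have : ((q + 1 : ℕ) : ℝ) ≤ ((2 ^ (k + K + 1) : ℕ) : ℝ) := by exact_mod_cast h2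
    push_cast at this
    linarith
  have h4 : 4 * 2 ^ (k + K) ≤ n := by
    have : (4 : ℝ) * 2 ^ (k + K) ≤ n := by nlinarith
    exact_mod_cast this
  have hA := A_ge hδ hδ4 (N := n / 2) hK h1' (by omega) (by omega) (by omega)
  have hv := value_ge hδ hδ4 hK hK1 h2' (by omega)
  rw [hp']
  calc ENNReal.ofReal (ce0 / 48 / √δ) ≤ ENNReal.ofReal ((ceps δ n * ∑ i ∈ Finset.range (K + 1),
        ((2 : ℝ) ^ (k + i)) ^ (2 * δ)) * (n : ℝ) ^ (1 - 2 * (1 / 4 + δ))) := ENNReal.ofReal_le_ofReal hv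
    _ = ENNReal.ofReal (ceps δ n * ∑ i ∈ Finset.range (K + 1), ((2 : ℝ) ^ (k + i)) ^ (2 * δ)) *
        ENNReal.ofReal ((n : ℝ) ^ (1 - 2 * (1 / 4 + δ))) := ENNReal.ofReal_mul
          (mul_nonneg ceps_nonneg (Finset.sum_nonneg fun i _ => Real.rpow_nonneg (pow_nonneg zero_le_two _) _))
    _ ≤ _ := mul_le_mul' hA le_rfl

end Pool.Agent.Run7.h820
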