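import Pool.Agent.Run7.h820.PartH

open Complex MeasureTheory Metric Set Filter Topology
open scoped ENNReal Real ComplexConjugate NNReal

set_option autoImplicit false

namespace Pool.Agent.Run7.h820

lemma coeff_of_hasSum {G : ℂ → ℂ} {c : ℕ → ℂ} {ρ : ℝ} (hρ : 0 < ρ) {B : ℝ}
    (hc : ∀ k, ‖c k‖ * ρ ^ k ≤ B) (hs : ∀ z : ℂ, ‖z‖ < ρ → HasSum (fun k => c k * z ^ k) (G z))
    (k : ℕ) : iteratedDeriv k G 0 = (k.factorial : ℂ) * c k := by
  have hp : HasFPowerSeriesOnBall G (FormalMultilinearSeries.ofScalars ℂ c) 0 (ENNReal.ofReal ρ) := by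
    refine ⟨?_, by simpa using hρ, ?_⟩
    · have h1 := (FormalMultilinearSeries.ofScalars ℂ c).le_radius_of_bound B (r := ρ.toNNReal) (by
        intro n
        rw [FormalMultilinearSeries.ofScalars_norm, Real.coe_toNNReal _ hρ.le]
        exact hc n)
      exact h1
    · intro y hy
      have hy' : ‖y‖ < ρ := by
        rw [Metric.mem_eball, edist_zero_right, ← ofReal_norm, ENNReal.ofReal_lt_ofReal_iff hρ] at hy
        exact hy
      rw [FormalMultilinearSeries.ofScalars_apply_eq', zero_add]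
      simpa using hs y hy'
  have h2 := hp.factorial_smul 1 k
  rw [iteratedFDeriv_apply_eq_iteratedDeriv_mul_prod, Finset.prod_const_one, one_smul] at h2
  rw [← h2, FormalMultilinearSeries.ofScalars_apply_eq]
  simp

lemma circle_geom {h κ : ℂ → ℂ} {r : ℝ} (hr : 0 < r) (hh : ContinuousOn h (sphere 0 r))
    (hκ : ContinuousOn κ (sphere 0 r)) {Kb Bh : ℝ} (hKb : ∀ w ∈ sphere (0 : ℂ) r, ‖κ w‖ ≤ Kb)
    (hBh : ∀ w ∈ sphere (0 : ℂ) r, ‖h w‖ ≤ Bh) {z : ℂ} (hz : ‖z‖ * Kb ≤ 1 / 2) :
    HasSum (fun k : ℕ => (∮ w in C(0, r), h w * κ w ^ (k + 1)) * z ^ k)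
      (∮ w in C(0, r), h w * (κ w / (1 - z * κ w))) := by
  have e1 : ∀ k : ℕ, (∮ w in C(0, r), h w * κ w ^ (k + 1)) * z ^ k =
      ∮ w in C(0, r), z ^ k * (h w * κ w ^ (k + 1)) := by
    intro k
    rw [circleIntegral.integral_const_mul, mul_comm]
  simp_rw [e1]
  have hmem : ∀ θ : ℝ, circleMap 0 r θ ∈ sphere (0 : ℂ) r := fun θ => circleMap_mem_sphere 0 hr.le θ
  have hcm : Continuous (circleMap 0 r) := continuous_circleMap 0 r
  have hhc : Continuous (fun θ => h (circleMap 0 r θ)) := hh.comp_continuous hcm hmem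
  have hκc : Continuous (fun θ => κ (circleMap 0 r θ)) := hκ.comp_continuous hcm hmem
  have hBh0 : 0 ≤ Bh := (norm_nonneg _).trans (hBh _ (hmem 0))
  have hKb0 : 0 ≤ Kb := (norm_nonneg _).trans (hKb _ (hmem 0))
  unfold circleIntegral
  refine intervalIntegral.hasSum_integral_of_dominated_convergence
    (fun n _ => r * Bh * Kb * (1 / 2) ^ n) (fun n => ?_) (fun n => ?_) ?_ ?_ ?_
  · simp only [deriv_circleMap]
    apply Continuous.aestronglyMeasurable
    exact (hcm.mul continuous_const).smul (continuous_const.mul (hhc.mul (hκc.pow _)))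
  · refine Eventually.of_forall fun θ _ => ?_
    simp only [deriv_circleMap, smul_eq_mul, norm_mul, norm_pow, Complex.norm_I, mul_one]
    have h1 : ‖circleMap 0 r θ‖ = r := by simpa using hmem θ
    rw [h1]
    have h2 := hBh _ (hmem θ)
    have h3 := hKb _ (hmem θ)
    have h4 : ‖z‖ ^ n * ‖κ (circleMap 0 r θ)‖ ^ n ≤ (1 / 2) ^ n := by
      rw [← mul_pow]
      apply pow_le_pow_left₀ (by positivity)
      exact le_trans (by gcongr) hz
    calc r * (‖z‖ ^ n * (‖h (circleMap 0 r θ)‖ * ‖κ (circleMap 0 r θ)‖ ^ (n + 1)))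
        = r * ‖h (circleMap 0 r θ)‖ * ‖κ (circleMap 0 r θ)‖ *
          (‖z‖ ^ n * ‖κ (circleMap 0 r θ)‖ ^ n) := by rw [pow_succ]; ring
      _ ≤ r * Bh * Kb * (1 / 2) ^ n := by gcongr
  · refine Eventually.of_forall fun θ _ => ?_
    exact (summable_geometric_of_lt_one (by norm_num) (by norm_num)).mul_left _
  · exact intervalIntegrable_const
  · refine Eventually.of_forall fun θ _ => HasSum.const_smul _ ?_
    have h3 := hKb _ (hmem θ)
    have h4 : ‖z * κ (circleMap 0 r θ)‖ < 1 := by
      rw [norm_mul]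
      have : ‖z‖ * ‖κ (circleMap 0 r θ)‖ ≤ ‖z‖ * Kb := by gcongr
      linarith
    have h5 := (hasSum_geometric_of_norm_lt_one h4).mul_left (h (circleMap 0 r θ) * κ (circleMap 0 r θ))
    have e : (fun k : ℕ => z ^ k * (h (circleMap 0 r θ) * κ (circleMap 0 r θ) ^ (k + 1))) =
        fun k => h (circleMap 0 r θ) * κ (circleMap 0 r θ) * (z * κ (circleMap 0 r θ)) ^ k := by
      funext k
      rw [mul_pow, pow_succ]; ring
    have e2 : h (circleMap 0 r θ) * κ (circleMap 0 r θ) * (1 - z * κ (circleMap 0 r θ))⁻¹ =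
        h (circleMap 0 r θ) * (κ (circleMap 0 r θ) / (1 - z * κ (circleMap 0 r θ))) := by
      rw [div_eq_mul_inv]; ring
    rw [e2] at h5
    simp only
    rw [e]
    exact h5

/-- coefficients of `f ∘ mob x` as integrals of `f'` -/
theorem star {f : ℂ → ℂ} (hf : DifferentiableOn ℂ f (ball 0 1)) {x r : ℝ} (hx0 : 0 ≤ x) (hxr : x < r)
    (hr1 : r < 1) {n : ℕ} (hn : 1 ≤ n) :
    (n : ℂ) * coeff (fun z => f (mob x z)) n
      = (2 * π * I : ℂ)⁻¹ * ∮ w in C(0, r), ((1 - x * w) / (w - x)) ^ n * deriv f w := by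
  have hr : 0 < r := lt_of_le_of_lt hx0 hxr
  have hpi : (2 * π * I : ℂ) ≠ 0 := Complex.two_pi_I_ne_zero
  obtain ⟨n, rfl⟩ : ∃ k, n = k + 1 := ⟨n - 1, by omega⟩
  set κ : ℂ → ℂ := fun w => (1 - x * w) / (w - x) with hκ
  have hsub : closedBall (0 : ℂ) r ⊆ ball 0 1 := closedBall_subset_ball hr1
  have hdf : DifferentiableOn ℂ (deriv f) (closedBall 0 r) := (hf.deriv isOpen_ball).mono hsub
  have hxn : ‖(x : ℂ)‖ < 1 := by
    rw [Complex.norm_real, Real.norm_eq_abs, abs_of_nonneg hx0]; linarith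
  have hwx : ∀ w ∈ sphere (0 : ℂ) r, w - x ≠ 0 := by
    intro w hw h
    rw [mem_sphere_zero_iff_norm] at hw
    have : w = x := by linear_combination h
    rw [this, Complex.norm_real, Real.norm_eq_abs, abs_of_nonneg hx0] at hw
    linarith
  have hhc : ContinuousOn (deriv f) (sphere 0 r) := hdf.continuousOn.mono sphere_subset_closedBall
  have hκc : ContinuousOn κ (sphere 0 r) := by
    apply ContinuousOn.div (by fun_prop) (by fun_prop) hwx
  obtain ⟨Bh, hBh⟩ := (isCompact_sphere (0 : ℂ) r).exists_bound_of_continuousOn hhc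
  obtain ⟨Kb', hKb'⟩ := (isCompact_sphere (0 : ℂ) r).exists_bound_of_continuousOn hκc
  set Kb := max Kb' 1 with hKbdef
  have hKb : ∀ w ∈ sphere (0 : ℂ) r, ‖κ w‖ ≤ Kb := fun w hw => (hKb' w hw).trans (le_max_left _ _)
  have hKb1 : 1 ≤ Kb := le_max_right _ _
  -- small disc
  have hcont : ContinuousAt (mob x) 0 := (mob_hasDerivAt hxn (by simp)).continuousAt
  have hev : ∀ᶠ z in 𝓝 (0 : ℂ), ‖mob x z‖ < r := by
    apply hcont.norm.eventually_lt continuousAt_const
    rw [mob_zero, Complex.norm_real, Real.norm_eq_abs, abs_of_nonneg hx0]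
    exact hxr
  obtain ⟨ρ1, hρ1, hρ1'⟩ := Metric.eventually_nhds_iff_ball.mp hev
  set ρ := min ρ1 (1 / (2 * Kb)) with hρ
  have hρ0 : 0 < ρ := lt_min hρ1 (by positivity)
  have hρK : ρ * Kb ≤ 1 / 2 := by
    calc ρ * Kb ≤ 1 / (2 * Kb) * Kb := by gcongr; exact min_le_right _ _
      _ = 1 / 2 := by field_simp
  have hρ1'' : ρ ≤ 1 / 2 := by nlinarith
  set c : ℕ → ℂ := fun k => (2 * π * I : ℂ)⁻¹ * ∮ w in C(0, r), deriv f w * κ w ^ (k + 1) with hc
  have hBh0 : 0 ≤ Bh := (norm_nonneg _).trans (hBh _ (circleMap_mem_sphere (0 : ℂ) hr.le 0))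
  have hcb : ∀ k, ‖c k‖ * ρ ^ k ≤ r * Bh * Kb := by
    intro k
    have h1 : ‖(2 * π * I : ℂ)⁻¹ • ∮ w in C(0, r), deriv f w * κ w ^ (k + 1)‖ ≤ r * (Bh * Kb ^ (k + 1)) := by
      apply circleIntegral.norm_two_pi_i_inv_smul_integral_le_of_norm_le_const hr.le
      intro w hw
      rw [norm_mul, norm_pow]
      gcongr
      · exact hBh w hw
      · exact hKb w hw
    rw [smul_eq_mul] at h1
    have h2 : ρ ^ k * Kb ^ k ≤ 1 := by
      rw [← mul_pow]
      exact pow_le_one₀ (by positivity) (by linarith)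
    calc ‖c k‖ * ρ ^ k ≤ r * (Bh * Kb ^ (k + 1)) * ρ ^ k := by gcongr
      _ = r * Bh * Kb * (ρ ^ k * Kb ^ k) := by rw [pow_succ]; ring
      _ ≤ r * Bh * Kb * 1 := by gcongr
      _ = _ := by ring
  have hsum : ∀ z : ℂ, ‖z‖ < ρ → HasSum (fun k => c k * z ^ k) (deriv (fun z => f (mob x z)) z) := by
    intro z hz
    have hz1 : ‖z‖ < 1 := by linarith
    have hzr : ‖mob x z‖ < r := hρ1' z (by
      rw [mem_ball_zero_iff]; exact lt_of_lt_of_le hz (min_le_left _ _))
    have h1 := (circle_geom hr hhc hκc hKb hBh (z := z) (by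
      refine le_trans ?_ hρK
      gcongr)).mul_left (2 * π * I : ℂ)⁻¹
    have hmz : mob x z ∈ ball (0 : ℂ) 1 := mob_mapsTo hxn (by simpa using hz1)
    have hden : (1 : ℂ) + x * z ≠ 0 := by
      have := mob_denom_ne hxn hz1.le
      rwa [Complex.conj_ofReal] at this
    have hder : deriv (fun z => f (mob x z)) z = deriv f (mob x z) * ((1 - x ^ 2) / (1 + x * z) ^ 2) := by
      have h2 := mob_hasDerivAt hxn hz1.le
      have h3 : HasDerivAt f (deriv f (mob x z)) (mob x z) :=
        (hf.differentiableAt (isOpen_ball.mem_nhds hmz)).hasDerivAt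
      have h4 := h3.comp z h2
      have h5 := h4.deriv
      rw [Complex.conj_ofReal, Complex.norm_real, Real.norm_eq_abs, sq_abs] at h5
      push_cast at h5
      exact h5
    have hkey : (2 * π * I : ℂ)⁻¹ * ∮ w in C(0, r), deriv f w * (κ w / (1 - z * κ w)) =
        deriv (fun z => f (mob x z)) z := by
      have hcauchy := hdf.circleIntegral_sub_inv_smul (w := mob x z) (by simpa using hzr)
      have hzero : ∮ w in C(0, r), deriv f w = 0 :=
        (hdf.mono closure_ball_subset_closedBall).diffContOnCl.circleIntegral_eq_zero hr.le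
      have hc5 : ContinuousOn (fun w => (w - mob x z)⁻¹) (sphere 0 r) := by
        apply ContinuousOn.inv₀ (by fun_prop)
        intro w hw h
        rw [mem_sphere_zero_iff_norm] at hw
        have : w = mob x z := by linear_combination h
        rw [this] at hw
        linarith
      have hint1 : CircleIntegrable (fun w => ((1 - (x : ℂ) ^ 2) / (1 + x * z) ^ 2) *
          ((w - mob x z)⁻¹ • deriv f w)) 0 r := by
        apply ContinuousOn.circleIntegrable hr.le
        simp only [smul_eq_mul]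
        exact continuousOn_const.mul (hc5.mul hhc)
      have hint2 : CircleIntegrable (fun w => ((x : ℂ) / (1 + x * z)) * deriv f w) 0 r := by
        apply ContinuousOn.circleIntegrable hr.le
        exact continuousOn_const.mul hhc
      have hpt : ∀ w ∈ sphere (0 : ℂ) r, deriv f w * (κ w / (1 - z * κ w)) =
          ((1 - x ^ 2) / (1 + x * z) ^ 2) * ((w - mob x z)⁻¹ • deriv f w) - (x / (1 + x * z)) * deriv f w := by
        intro w hw
        have hwx' := hwx w hw
        have hwm : w - mob x z ≠ 0 := by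
          intro h
          rw [mem_sphere_zero_iff_norm] at hw
          have : w = mob x z := by linear_combination h
          rw [this] at hw
          linarith
        have e1 : w - mob x z = ((w - x) - z * (1 - x * w)) / (1 + x * z) := by
          rw [mob, Complex.conj_ofReal, eq_div_iff hden, sub_mul, div_mul_cancel₀ _ hden]
          ring
        have e2 : (w - x) - z * (1 - x * w) ≠ 0 := by
          intro h
          rw [e1, h, zero_div] at hwm
          exact hwm rfl
        have e3 : 1 - z * κ w = ((w - x) - z * (1 - x * w)) / (w - x) := by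
          simp only [hκ]
          rw [eq_div_iff hwx', sub_mul, one_mul, mul_assoc, div_mul_cancel₀ _ hwx']
        rw [e3, e1, smul_eq_mul]
        simp only [hκ]
        rw [div_div_div_cancel_right₀ hwx', inv_div]
        have e4 : (1 - (x : ℂ) * w) / ((w - x) - z * (1 - x * w)) =
            (1 - x ^ 2) / (1 + x * z) ^ 2 * ((1 + x * z) / ((w - x) - z * (1 - x * w))) - x / (1 + x * z) := by
          have e5 : (1 - (x : ℂ) ^ 2) / (1 + x * z) ^ 2 * ((1 + x * z) / ((w - x) - z * (1 - x * w))) =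
              (1 - (x : ℂ) ^ 2) / ((1 + x * z) * ((w - x) - z * (1 - x * w))) := by
            field_simp
          rw [e5, div_sub_div _ _ (mul_ne_zero hden e2) hden, div_eq_div_iff e2
            (mul_ne_zero (mul_ne_zero hden e2) hden)]
          ring
        rw [e4]
        ring
      rw [circleIntegral.integral_congr hr.le hpt, circleIntegral.integral_sub hint1 hint2,
        circleIntegral.integral_const_mul, circleIntegral.integral_const_mul, hzero, hcauchy, hder,
        smul_eq_mul]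
      field_simp
      ring
    rw [← hkey]
    have e : (fun k : ℕ => c k * z ^ k) = fun k => (2 * π * I : ℂ)⁻¹ *
        ((∮ w in C(0, r), deriv f w * κ w ^ (k + 1)) * z ^ k) := by
      funext k
      simp only [hc]
      ring
    rw [e]
    exact h1
  have hfin := coeff_of_hasSum hρ0 hcb hsum n
  rw [coeff, iteratedDeriv_succ', hfin, Nat.factorial_succ]
  simp only [hc]
  have hnf : ((n.factorial : ℕ) : ℂ) ≠ 0 := by exact_mod_cast n.factorial_ne_zero
  have hn1 : ((n : ℂ) + 1) ≠ 0 := by exact_mod_cast Nat.succ_ne_zero n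
  push_cast
  have hcomm : (∮ w in C(0, r), deriv f w * κ w ^ (n + 1)) = ∮ w in C(0, r), κ w ^ (n + 1) * deriv f w := by
    congr 1
    funext w
    ring
  rw [hcomm]
  simp only [hκ]
  field_simp

end Pool.Agent.Run7.h820
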