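import Pool.Agent.Run7.h820.Kernel
import Pool.Agent.Run7.h820.Star

open Complex MeasureTheory Metric Set Filter Topology
open scoped ENNReal Real ComplexConjugate NNReal

set_option autoImplicit false

namespace Pool.Agent.Run7.h820

lemma int_tail {m : ℝ} (hm : 0 < m) :
    ∫ y in (0 : ℝ)..π, (1 + m * y) ^ (-(5 / 4) : ℝ) ≤ 4 / m := by
  have hpi := Real.pi_pos
  have hder : ∀ y ∈ uIcc (0 : ℝ) π, HasDerivAt (fun y : ℝ => -(4 / m) * (1 + m * y) ^ (-(1 / 4) : ℝ))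
      ((1 + m * y) ^ (-(5 / 4) : ℝ)) y := by
    intro y hy
    rw [uIcc_of_le hpi.le] at hy
    have hpos : 0 < 1 + m * y := by nlinarith [hy.1]
    have h1 : HasDerivAt (fun y : ℝ => 1 + m * y) m y := by
      simpa using ((hasDerivAt_id y).const_mul m).const_add 1
    have h2 := (h1.rpow_const (p := (-(1 / 4) : ℝ)) (Or.inl hpos.ne')).const_mul (-(4 / m))
    refine h2.congr_deriv ?_
    have : (-(1 / 4) - 1 : ℝ) = -(5 / 4) := by norm_num
    rw [this]
    field_simp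
  have hint : IntervalIntegrable (fun y : ℝ => (1 + m * y) ^ (-(5 / 4) : ℝ)) volume 0 π := by
    apply ContinuousOn.intervalIntegrable
    rw [uIcc_of_le hpi.le]
    intro y hy
    have hpos : 0 < 1 + m * y := by nlinarith [hy.1]
    apply ContinuousAt.continuousWithinAt
    have hc : ContinuousAt (fun y : ℝ => 1 + m * y) y := by fun_prop
    exact hc.rpow_const (Or.inl hpos.ne')
  rw [intervalIntegral.integral_eq_sub_of_hasDerivAt hder hint]
  have h3 : 0 ≤ (1 + m * π) ^ (-(1 / 4) : ℝ) := by positivity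
  have h4 : 0 < 4 / m := by positivity
  simp only [mul_zero, add_zero, Real.one_rpow, mul_one]
  nlinarith

lemma periodic_int_le {H : ℝ → ℝ} (hH : Continuous H) (hper : Function.Periodic H (2 * π))
    {D m : ℝ} (hm : 0 < m) (hD : 0 ≤ D)
    (hb : ∀ y : ℝ, |y| ≤ π → H y ≤ D * (1 + m * |y|) ^ (-(5 / 4) : ℝ)) :
    ∫ y in (0 : ℝ)..(2 * π), H y ≤ 8 * D / m := by
  have hpi := Real.pi_pos
  have h1 := hper.intervalIntegral_add_eq 0 (-π)
  rw [zero_add] at h1
  have h2 : -π + 2 * π = π := by ring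
  rw [h2] at h1
  rw [h1, ← intervalIntegral.integral_add_adjacent_intervals (hH.intervalIntegrable (-π) 0)
    (hH.intervalIntegrable 0 π)]
  have h3 : ∫ y in (-π)..(0 : ℝ), H y = ∫ y in (0 : ℝ)..π, H (-y) := by
    rw [intervalIntegral.integral_comp_neg (fun y => H y)]
    simp
  rw [h3]
  have hint : IntervalIntegrable (fun y : ℝ => D * (1 + m * y) ^ (-(5 / 4) : ℝ)) volume 0 π := by
    apply ContinuousOn.intervalIntegrable
    rw [uIcc_of_le hpi.le]
    intro y hy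
    have hpos : 0 < 1 + m * y := by nlinarith [hy.1]
    apply ContinuousAt.continuousWithinAt
    have hc : ContinuousAt (fun y : ℝ => 1 + m * y) y := by fun_prop
    exact continuousAt_const.mul (hc.rpow_const (Or.inl hpos.ne'))
  have h4 : ∫ y in (0 : ℝ)..π, H y ≤ ∫ y in (0 : ℝ)..π, D * (1 + m * y) ^ (-(5 / 4) : ℝ) := by
    apply intervalIntegral.integral_mono_on hpi.le (hH.intervalIntegrable 0 π) hint
    intro y hy
    have := hb y (by rw [abs_of_nonneg hy.1]; exact hy.2)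
    rwa [abs_of_nonneg hy.1] at this
  have h5 : ∫ y in (0 : ℝ)..π, H (-y) ≤ ∫ y in (0 : ℝ)..π, D * (1 + m * y) ^ (-(5 / 4) : ℝ) := by
    apply intervalIntegral.integral_mono_on hpi.le
      ((hH.comp continuous_neg).intervalIntegrable 0 π) hint
    intro y hy
    have := hb (-y) (by rw [abs_neg, abs_of_nonneg hy.1]; exact hy.2)
    rwa [abs_neg, abs_of_nonneg hy.1] at this
  rw [intervalIntegral.integral_const_mul] at h4 h5
  have h6 : D * ∫ y in (0 : ℝ)..π, (1 + m * y) ^ (-(5 / 4) : ℝ) ≤ D * (4 / m) :=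
    mul_le_mul_of_nonneg_left (int_tail hm) hD
  calc _ ≤ D * (4 / m) + D * (4 / m) := by linarith
    _ = 8 * D / m := by ring

/-- pointwise estimate for the integrand -/
lemma v_bound {v B : ℝ} (hB : 1 ≤ B) (hv : B ≤ v) :
    v ^ (-(3 / 2) : ℝ) ≤ (4 * B ^ (-(1 / 4) : ℝ)) * (1 + v) ^ (-(5 / 4) : ℝ) := by
  have hv0 : 0 < v := by linarith
  have hB0 : 0 < B := by linarith
  have h1 : v ^ (-(1 / 4) : ℝ) ≤ B ^ (-(1 / 4) : ℝ) :=
    Real.rpow_le_rpow_of_nonpos hB0 hv (by norm_num)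
  have h2 : (2 * v) ^ (-(5 / 4) : ℝ) ≤ (1 + v) ^ (-(5 / 4) : ℝ) :=
    Real.rpow_le_rpow_of_nonpos (by linarith) (by linarith) (by norm_num)
  rw [Real.mul_rpow (by norm_num) hv0.le] at h2
  have h3 : (1 / 4 : ℝ) ≤ 2 ^ (-(5 / 4) : ℝ) := by
    have : (1 / 4 : ℝ) = 2 ^ (-2 : ℝ) := by
      rw [Real.rpow_neg (by norm_num)]
      norm_num
    rw [this]
    apply Real.rpow_le_rpow_of_exponent_le (by norm_num) (by norm_num)
  have h4 : v ^ (-(3 / 2) : ℝ) = v ^ (-(1 / 4) : ℝ) * v ^ (-(5 / 4) : ℝ) := by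
    rw [← Real.rpow_add hv0]; norm_num
  have h5 : 0 < v ^ (-(5 / 4) : ℝ) := by positivity
  have h6 : 0 < B ^ (-(1 / 4) : ℝ) := by positivity
  have h7 : v ^ (-(5 / 4) : ℝ) ≤ 4 * (1 + v) ^ (-(5 / 4) : ℝ) := by nlinarith
  rw [h4]
  calc v ^ (-(1 / 4) : ℝ) * v ^ (-(5 / 4) : ℝ) ≤ B ^ (-(1 / 4) : ℝ) * (4 * (1 + v) ^ (-(5 / 4) : ℝ)) := by
        gcongr
    _ = _ := by ring

section
variable {p : ℝ} (hp : 1 / 2 ≤ p) (hp1 : p ≤ 1) {F : ℂ → ℂ} (h : LogArea p F)
include hp h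

lemma E0_near (h0 : (F 0).re = 0) {m : ℝ} (hm : 1 ≤ m) {x : ℝ} (hx : x ≤ -(1 / m)) (θ : ℝ) :
    E0 (F (exp (x + θ * I))).re ≤ 4 ^ (7 / 2 * p) * m ^ (7 / 2 * p) := by
  have hm0 : 0 < m := by linarith
  have h1 : ‖exp ((x : ℂ) + θ * I)‖ ≤ 1 - 1 / m / 2 := by
    apply exp_sub_le_exp_neg (by positivity) (by rw [div_le_one hm0]; exact hm)
    rw [Complex.norm_exp]
    simpa using hx
  have h2 := h.exp_le hp h0 (δ := 1 / m / 2) (by positivity) h1
  have h3 : 2 / (1 / m / 2) = 4 * m := by field_simp; norm_num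
  rw [h3] at h2
  have h4 := Real.rpow_le_rpow (Real.exp_pos _).le h2 (by norm_num : (0 : ℝ) ≤ 7 / 4)
  rw [← Real.exp_mul, ← Real.rpow_mul (by positivity)] at h4
  rw [E0, mul_comm (7 / 4 : ℝ)]
  refine h4.trans (le_of_eq ?_)
  rw [← Real.mul_rpow (by norm_num) hm0.le]
  congr 1
  ring

include hp1

lemma E0_far {m : ℝ} (hm : 1 ≤ m) {x : ℝ} (hx0 : -(2 / m) ≤ x) (hx : x ≤ -(1 / m)) {θ C2 : ℝ}
    (hθ : 1 ≤ m * |θ|)
    (h2 : (F (Real.exp (-(1 / m)) * exp (θ * I))).re ≤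
        C2 - 2 * p * Real.log |θ| + Real.log (m * |θ|) / 8) :
    E0 (F (exp (x + θ * I))).re ≤ Real.exp (7 / 4 * (8 + C2)) *
      (m ^ (7 / 2 * p) * (m * |θ|) ^ (-(3 / 2) : ℝ)) := by
  have hm0 : 0 < m := by linarith
  have hθ0 : 0 < |θ| := by
    by_contra hcon
    have : |θ| = 0 := le_antisymm (not_lt.mp hcon) (abs_nonneg _)
    rw [this, mul_zero] at hθ
    linarith
  have hb1 : ‖exp ((x : ℂ) + θ * I)‖ ≤ 1 - 1 / m / 2 := by
    apply exp_sub_le_exp_neg (by positivity) (by rw [div_le_one hm0]; exact hm)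
    rw [Complex.norm_exp]
    simpa using hx
  have hb2 : ‖(Real.exp (-(1 / m)) : ℂ) * exp (θ * I)‖ ≤ 1 - 1 / m / 2 := by
    apply exp_sub_le_exp_neg (by positivity) (by rw [div_le_one hm0]; exact hm)
    rw [norm_mul, Complex.norm_exp_ofReal_mul_I, Complex.norm_real, Real.norm_eq_abs,
      abs_of_pos (Real.exp_pos _), mul_one]
  have hl := h.lip hp (δ := 1 / m / 2) (by positivity) hb2 hb1
  have hd : ‖exp ((x : ℂ) + θ * I) - (Real.exp (-(1 / m)) : ℂ) * exp (θ * I)‖ ≤ 1 / m := by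
    rw [Complex.exp_add, ← sub_mul, norm_mul, Complex.norm_exp_ofReal_mul_I, mul_one,
      ← Complex.ofReal_exp, ← Complex.ofReal_sub, Complex.norm_real, Real.norm_eq_abs]
    have e1 : Real.exp x ≤ Real.exp (-(1 / m)) := Real.exp_le_exp.mpr hx
    rw [abs_of_nonpos (by linarith)]
    have e2 : Real.exp x = Real.exp (-(1 / m)) * Real.exp (x + 1 / m) := by
      rw [← Real.exp_add]; congr 1; ring
    have e3 := Real.add_one_le_exp (x + 1 / m)
    have e4 : Real.exp (-(1 / m)) ≤ 1 := Real.exp_le_one_iff.mpr (by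
      have : 0 < 1 / m := by positivity
      linarith)
    have e5 := Real.exp_pos (-(1 / m))
    have e6 : 2 / m = 1 / m + 1 / m := by ring
    nlinarith
  have hl2 : ‖F (exp (x + θ * I)) - F (Real.exp (-(1 / m)) * exp (θ * I))‖ ≤ 8 := by
    refine hl.trans ?_
    calc 4 * p / (1 / m / 2) * ‖exp ((x : ℂ) + θ * I) - (Real.exp (-(1 / m)) : ℂ) * exp (θ * I)‖
        ≤ 4 * p / (1 / m / 2) * (1 / m) := by
          have : 0 ≤ p := by linarith
          gcongr
      _ = 8 * p := by field_simp; norm_num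
      _ ≤ 8 := by linarith
  have hre := (le_abs_self _).trans ((Complex.abs_re_le_norm _).trans hl2)
  rw [Complex.sub_re] at hre
  have hlog : Real.log |θ| = Real.log (m * |θ|) - Real.log m := by
    rw [Real.log_mul hm0.ne' hθ0.ne']; ring
  have hlognn : 0 ≤ Real.log (m * |θ|) := Real.log_nonneg hθ
  rw [E0, Real.rpow_def_of_pos hm0, Real.rpow_def_of_pos (by positivity), ← Real.exp_add,
    ← Real.exp_add]
  apply Real.exp_le_exp.mpr
  rw [hlog] at h2
  have h5 : (7 / 4) * ((2 * p - 1 / 8) * Real.log (m * |θ|)) ≥ 3 / 2 * Real.log (m * |θ|) := by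
    have : 3 / 2 ≤ 7 / 4 * (2 * p - 1 / 8) := by linarith
    nlinarith
  nlinarith

end

lemma Ker_comp_cont {n m : ℕ} (hn : 8 ≤ n) (hm : n ≤ m) {x : ℝ} (hx : -(2 / (m : ℝ)) ≤ x) (y : ℝ) :
    ContinuousAt (fun q : ℝ × ℝ => Ker n m (exp (q.1 + q.2 * I))) (x, y) := by
  have h1 : ContinuousAt (fun q : ℝ × ℝ => exp ((q.1 : ℂ) + q.2 * I)) (x, y) := by fun_prop
  have h2 : ContinuousAt (Ker n m) (exp ((x : ℂ) + y * I)) := by
    apply Ker_cont hn hm
    rw [Complex.norm_exp]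
    simpa using hx
  exact h2.comp (f := fun q : ℝ × ℝ => exp ((q.1 : ℂ) + q.2 * I)) h1

end Pool.Agent.Run7.h820
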