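import Pool.Agent.Run7.h820.Compare

open Complex MeasureTheory Metric Set Filter Topology
open scoped ENNReal Real ComplexConjugate NNReal

set_option autoImplicit false

namespace Pool.Agent.Run7.h820

/-- comparison of the `m`-th coefficient of `f` with the `n`-th one of a renormalisation -/
theorem compare {p : ℝ} (hp : 1 / 2 ≤ p) (hp1 : p ≤ 1) {e0 : ℝ} (he0 : 0 < e0) (he1 : e0 ≤ 1)
    {η : ℝ} (hη : 0 < η) :
    ∃ n0 : ℕ, 8 ≤ n0 ∧ ∀ n m : ℕ, n0 ≤ n → n ≤ m → ∀ F : ℂ → ℂ, LogArea p F → (F 0).re = 0 →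
      Real.log e0 + 2 * p * Real.log m ≤ (F (Real.exp (-(1 / m)))).re →
      (∀ θ : ℝ, (F (Real.exp (-(1 / m)) * exp (θ * I))).re ≤ (F (Real.exp (-(1 / m)))).re) →
      ‖(n : ℂ) * coeff (fun z => exp (F (mob (((m : ℝ) - n) / (m + n) : ℝ) z))) n
        - m * coeff (fun z => exp (F z)) m‖ ≤ η * (m : ℝ) ^ (2 * p) := by
  have hpi := Real.pi_pos
  have hp0 : 0 < p := by linarith
  obtain ⟨C2, hC2, htp⟩ := two_point hp hp1 he0 he1
  set CK : ℝ := Real.exp 4 + Real.exp 2 with hCK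
  have hCK0 : 0 < CK := by positivity
  set C3 : ℝ := Real.exp (7 / 4 * (8 + C2)) with hC3
  have hC30 : 0 < C3 := Real.exp_pos _
  set δ : ℝ := η ^ 2 / (64 * p * 4 ^ (p / 2)) with hδ
  have hδ0 : 0 < δ := by positivity
  set T : ℝ := 4 * C3 * CK ^ 2 / δ with hT
  have hT0 : 0 < T := by positivity
  set B : ℝ := max C2 (T ^ 4) with hB
  have hB1 : 1 ≤ B := hC2.trans (le_max_left _ _)
  have hBC : C2 ≤ B := le_max_left _ _
  have hB0 : 0 < B := by linarith
  have hBT : B ^ (-(1 / 4) : ℝ) ≤ T⁻¹ := by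
    have h1 : B ^ (-(1 / 4) : ℝ) ≤ (T ^ 4) ^ (-(1 / 4) : ℝ) :=
      Real.rpow_le_rpow_of_nonpos (by positivity) (le_max_right _ _) (by norm_num)
    have h2 : (T ^ 4) ^ (-(1 / 4) : ℝ) = T⁻¹ := by
      rw [← Real.rpow_natCast, ← Real.rpow_mul hT0.le, ← Real.rpow_neg_one]
      congr 1
      norm_num
    rwa [h2] at h1
  have hBδ : 4 * C3 * CK ^ 2 * B ^ (-(1 / 4) : ℝ) ≤ δ := by
    calc 4 * C3 * CK ^ 2 * B ^ (-(1 / 4) : ℝ) ≤ 4 * C3 * CK ^ 2 * T⁻¹ := by gcongr
      _ = δ := by rw [hT]; field_simp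
  set ω : ℝ := Real.sqrt (δ / (4 ^ (7 / 2 * p) * (1 + B) ^ (5 / 4 : ℝ))) with hω
  have hω0 : 0 < ω := Real.sqrt_pos.mpr (by positivity)
  have hω2 : ω ^ 2 = δ / (4 ^ (7 / 2 * p) * (1 + B) ^ (5 / 4 : ℝ)) := Real.sq_sqrt (by positivity)
  obtain ⟨n0, hn01, hK⟩ := Ker_small (B := B + 2) (by linarith) hω0
  refine ⟨max n0 8, le_max_right _ _, ?_⟩
  intro n m hn hm F h h0 hbig hmax
  have hn8 : 8 ≤ n := (le_max_right _ _).trans hn
  have hnn0 : n0 ≤ n := (le_max_left _ _).trans hn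
  have hm8 : 8 ≤ m := hn8.trans hm
  have hm1 : (1 : ℝ) ≤ m := by exact_mod_cast (by omega : 1 ≤ m)
  have hm0 : (0 : ℝ) < m := by linarith
  set x0 : ℝ := -(2 / m) with hx0
  set x1 : ℝ := -(1 / m) with hx1
  have hx : x0 ≤ x1 := by
    rw [hx0, hx1, neg_le_neg_iff]; gcongr; norm_num
  have hx1neg : x1 < 0 := by
    rw [hx1]; have : 0 < 1 / (m : ℝ) := by positivity
    linarith
  have hlen : x1 - x0 = 1 / m := by rw [hx0, hx1]; ring
  -- pointwise bound
  have hpt : ∀ x ∈ Icc x0 x1, ∀ y : ℝ, |y| ≤ π →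
      E0 (F (exp (x + y * I))).re * ‖Ker n m (exp (x + y * I))‖ ^ 2 ≤
        ((m : ℝ) ^ (7 / 2 * p) * δ) * (1 + m * |y|) ^ (-(5 / 4) : ℝ) := by
    intro x hx' y hy
    rcases le_or_gt (m * |y|) B with hcase | hcase
    · have h1 := E0_near hp h h0 hm1 hx'.2 y
      have h2 : ‖(x : ℂ) + y * I‖ ≤ (B + 2) / m := by
        refine (norm_add_le _ _).trans ?_
        rw [norm_mul, Complex.norm_I, mul_one, Complex.norm_real, Complex.norm_real,
          Real.norm_eq_abs, Real.norm_eq_abs]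
        have e1 : |x| ≤ 2 / m := by
          rw [abs_of_nonpos (by linarith [hx'.2])]
          have := hx'.1
          rw [hx0] at this
          linarith
        have e2 : |y| ≤ B / m := by
          rw [le_div_iff₀ hm0]; linarith
        calc |x| + |y| ≤ 2 / m + B / m := add_le_add e1 e2
          _ = (B + 2) / m := by ring
      have h3 := hK n m hnn0 hm _ h2
      have h4 : ‖Ker n m (exp (x + y * I))‖ ^ 2 ≤ ω ^ 2 := by gcongr
      have h5 : (1 + B) ^ (-(5 / 4) : ℝ) ≤ (1 + m * |y|) ^ (-(5 / 4) : ℝ) :=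
        Real.rpow_le_rpow_of_nonpos (by positivity) (by linarith) (by norm_num)
      have h6 : 4 ^ (7 / 2 * p) * ω ^ 2 = δ * (1 + B) ^ (-(5 / 4) : ℝ) := by
        rw [hω2, Real.rpow_neg (by positivity)]
        have : (4 : ℝ) ^ (7 / 2 * p) ≠ 0 := by positivity
        field_simp
      calc E0 (F (exp (x + y * I))).re * ‖Ker n m (exp (x + y * I))‖ ^ 2
          ≤ (4 ^ (7 / 2 * p) * (m : ℝ) ^ (7 / 2 * p)) * ω ^ 2 := by gcongr
        _ = (m : ℝ) ^ (7 / 2 * p) * (4 ^ (7 / 2 * p) * ω ^ 2) := by ring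
        _ = (m : ℝ) ^ (7 / 2 * p) * δ * (1 + B) ^ (-(5 / 4) : ℝ) := by rw [h6]; ring
        _ ≤ _ := by gcongr
    · have hv1 : 1 ≤ m * |y| := by linarith
      have h1 := htp F h h0 m hm1 hbig y hy (by linarith) (hmax y)
      have h2 := E0_far hp hp1 h hm1 hx'.1 hx'.2 hv1 h1
      have h3 : ‖Ker n m (exp (x + y * I))‖ ≤ CK := by
        apply Ker_bound hn8 hm
        · rw [Complex.norm_exp]
          apply Real.exp_le_exp.mpr
          simpa using hx'.1
        · rw [Complex.norm_exp]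
          apply Real.exp_lt_one_iff.mpr
          simpa using lt_of_le_of_lt hx'.2 hx1neg
      have h4 : ‖Ker n m (exp (x + y * I))‖ ^ 2 ≤ CK ^ 2 := by gcongr
      have h5 := v_bound hB1 hcase.le
      have h6 : 0 ≤ (1 + m * |y|) ^ (-(5 / 4) : ℝ) := by positivity
      calc E0 (F (exp (x + y * I))).re * ‖Ker n m (exp (x + y * I))‖ ^ 2
          ≤ (C3 * ((m : ℝ) ^ (7 / 2 * p) * (m * |y|) ^ (-(3 / 2) : ℝ))) * CK ^ 2 := by gcongr
        _ ≤ (C3 * ((m : ℝ) ^ (7 / 2 * p) * ((4 * B ^ (-(1 / 4) : ℝ)) *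
            (1 + m * |y|) ^ (-(5 / 4) : ℝ)))) * CK ^ 2 := by gcongr
        _ = (m : ℝ) ^ (7 / 2 * p) * (4 * C3 * CK ^ 2 * B ^ (-(1 / 4) : ℝ)) *
            (1 + m * |y|) ^ (-(5 / 4) : ℝ) := by ring
        _ ≤ _ := by gcongr
  -- circle integrals
  have hcirc : ∀ x ∈ Icc x0 x1, ∫ y in (0 : ℝ)..(2 * π),
      E0 (F (exp (x + y * I))).re * ‖Ker n m (exp (x + y * I))‖ ^ 2 ≤
        8 * ((m : ℝ) ^ (7 / 2 * p) * δ) / m := by
    intro x hx'
    have hxneg : x < 0 := lt_of_le_of_lt hx'.2 hx1neg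
    apply periodic_int_le _ _ hm0 (by positivity) (hpt x hx')
    · apply continuous_iff_continuousAt.mpr
      intro y
      have hre : ((x : ℂ) + y * I).re < 0 := by simpa using hxneg
      have h2 : ContinuousAt (fun y : ℝ => F (exp (x + y * I))) y :=
        (continuousAt_Fexp h.diff hre).comp (f := fun y : ℝ => ((x : ℂ) + y * I)) (by fun_prop)
      have h3 : ContinuousAt (fun y : ℝ => Ker n m (exp (x + y * I))) y :=
        (Ker_comp_cont hn8 hm hx'.1 y).comp (f := fun y : ℝ => (x, y)) (by fun_prop)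
      exact (E0_cont.continuousAt.comp (Complex.continuous_re.continuousAt.comp h2)).mul (h3.norm.pow 2)
    · intro y
      have e1 : exp ((x : ℂ) + ((y + 2 * π : ℝ) : ℂ) * I) = exp (x + y * I) := by
        push_cast
        have : (x : ℂ) + (y + 2 * π) * I = (x + y * I) + 2 * π * I := by ring
        rw [this, Complex.exp_add, Complex.exp_two_pi_mul_I, mul_one]
      simp only [e1]
  have hFc : ContinuousOn (fun q : ℝ × ℝ => (F (exp (q.1 + q.2 * I))).re) (Icc x0 x1 ×ˢ Icc 0 (2 * π)) := by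
    intro q hq
    have hre : ((q.1 : ℂ) + q.2 * I).re < 0 := by
      simpa using lt_of_le_of_lt hq.1.2 hx1neg
    have h2 : ContinuousAt (fun q : ℝ × ℝ => F (exp (q.1 + q.2 * I))) q :=
      (continuousAt_Fexp h.diff hre).comp (f := fun q : ℝ × ℝ => ((q.1 : ℂ) + q.2 * I)) (by fun_prop)
    exact (Complex.continuous_re.continuousAt.comp h2).continuousWithinAt
  have hkc : ContinuousOn (fun q : ℝ × ℝ => ‖Ker n m (exp (q.1 + q.2 * I))‖)
      (Icc x0 x1 ×ˢ Icc 0 (2 * π)) := by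
    intro q hq
    exact (Ker_comp_cont hn8 hm hq.1.1 q.2).norm.continuousWithinAt
  set N : ℝ := 8 * ((m : ℝ) ^ (7 / 2 * p) * δ) / m * (1 / m) with hN
  have hN0 : 0 < N := by positivity
  have hkN : ∫ x in x0..x1, ∫ y in (0 : ℝ)..(2 * π),
      E0 (F (exp (x + y * I))).re * ‖Ker n m (exp (x + y * I))‖ ^ 2 ≤ N := by
    have hc2 : ContinuousOn (fun q : ℝ × ℝ => E0 (F (exp (q.1 + q.2 * I))).re *
        ‖Ker n m (exp (q.1 + q.2 * I))‖ ^ 2) (Icc x0 x1 ×ˢ Icc 0 (2 * π)) :=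
      (E0_cont.comp_continuousOn hFc).mul (hkc.pow 2)
    have h2 := intervalIntegral.integral_mono_on hx
      (rect_inner_integrable (h := fun x y => E0 (F (exp (x + y * I))).re *
        ‖Ker n m (exp (x + y * I))‖ ^ 2) hx (by positivity) hc2) intervalIntegrable_const hcirc
    rw [intervalIntegral.integral_const, smul_eq_mul, hlen] at h2
    refine h2.trans (le_of_eq ?_)
    rw [hN]; ring
  -- the difference as an integral
  set xx : ℝ := ((m : ℝ) - n) / (m + n) with hxx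
  set W : ℂ := (n : ℂ) * coeff (fun z => exp (F (mob (xx : ℝ) z))) n
        - m * coeff (fun z => exp (F z)) m with hW
  have hV : ∀ x ∈ Icc x0 x1, 2 * π * ‖W‖ ≤
      ∫ y in (0 : ℝ)..(2 * π), ‖G1 F (x + y * I)‖ * Real.exp (F (exp (x + y * I))).re *
        ‖Ker n m (exp (x + y * I))‖ := by
    intro x hx'
    have hxneg : x < 0 := lt_of_le_of_lt hx'.2 hx1neg
    have hfd : DifferentiableOn ℂ (fun z => exp (F z)) (ball 0 1) := h.diff.cexp
    have hr1 : Real.exp x < 1 := Real.exp_lt_one_iff.mpr hxneg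
    have hxlt : xx < Real.exp x := x_lt hn8 hm hx'.1
    have hxx0 : 0 ≤ xx := x_nonneg hm
    have e1 := star hfd hxx0 hxlt hr1 (n := n) (by omega)
    have e2 := coeff_formula hfd (Real.exp_pos x) hr1 (m := m) (by omega)
    have hsph : ∀ w ∈ sphere (0 : ℂ) (Real.exp x), w ∈ ball (0 : ℂ) 1 ∧ w ≠ 0 ∧ w - xx ≠ 0 := by
      intro w hw
      rw [mem_sphere_zero_iff_norm] at hw
      refine ⟨by rw [mem_ball_zero_iff, hw]; exact hr1, ?_, ?_⟩
      · rw [← norm_pos_iff, hw]; exact Real.exp_pos _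
      · intro h
        have : w = xx := by linear_combination h
        rw [this, Complex.norm_real, Real.norm_eq_abs, abs_of_nonneg hxx0] at hw
        linarith
    have hdc : ContinuousOn (deriv (fun z => exp (F z))) (sphere 0 (Real.exp x)) :=
      (hfd.deriv isOpen_ball).continuousOn.mono (fun w hw => (hsph w hw).1)
    have i1 : CircleIntegrable (fun w => ((1 - xx * w) / (w - xx)) ^ n * deriv (fun z => exp (F z)) w)
        0 (Real.exp x) := by
      apply ContinuousOn.circleIntegrable (Real.exp_pos x).le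
      apply ContinuousOn.mul _ hdc
      apply ContinuousOn.pow
      exact ContinuousOn.div (by fun_prop) (by fun_prop) (fun w hw => (hsph w hw).2.2)
    have i2 : CircleIntegrable (fun w => (1 / w ^ m) * deriv (fun z => exp (F z)) w)
        0 (Real.exp x) := by
      apply ContinuousOn.circleIntegrable (Real.exp_pos x).le
      apply ContinuousOn.mul _ hdc
      exact ContinuousOn.div (by fun_prop) (by fun_prop) (fun w hw => pow_ne_zero _ (hsph w hw).2.1)
    have e3 : W = (2 * π * I : ℂ)⁻¹ * ∮ w in C(0, Real.exp x), Ker n m w * (deriv F w * exp (F w)) := by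
      rw [hW, e1, e2, ← mul_sub, ← circleIntegral.integral_sub i1 i2,
        ← circle_deriv_congr h.diff (Ker n m) (Real.exp_pos x).le hr1]
      congr 2
      funext w
      rw [Ker, sub_mul]
    rw [e3]
    exact circ_bound (Ker n m) x
  have hM0 : (0 : ℝ) < (4 * m) ^ (2 * p) := by positivity
  have hFM : ∀ z : ℂ, ‖z‖ ≤ Real.exp (-(1 / (m : ℝ))) → Real.exp (F z).re ≤ (4 * m) ^ (2 * p) := by
    intro z hz
    have h1 := h.exp_le hp h0 (δ := 1 / m / 2) (by positivity)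
      (exp_sub_le_exp_neg (by positivity) (by rw [div_le_one hm0]; exact hm1) hz)
    have h2 : 2 / (1 / (m : ℝ) / 2) = 4 * m := by field_simp; norm_num
    rwa [h2] at h1
  have hmas := h.master hp hm1 hM0 hFM (k := fun x y => ‖Ker n m (exp (x + y * I))‖) hkc hN0 hkN hV
  have h1 : (32 * π * p * ((4 * m) ^ (2 * p) : ℝ) ^ (1 / 4 : ℝ)) * N ≤ (2 * π * η * (m : ℝ) ^ (2 * p - 1)) ^ 2 := by
    have e1 : ((4 * m) ^ (2 * p) : ℝ) ^ (1 / 4 : ℝ) = 4 ^ (p / 2) * (m : ℝ) ^ (p / 2) := by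
      rw [← Real.rpow_mul (by positivity), ← Real.mul_rpow (by norm_num) hm0.le]
      congr 1
      ring
    have e2 : (m : ℝ) ^ (p / 2) * (m : ℝ) ^ (7 / 2 * p) / m * (1 / m) = ((m : ℝ) ^ (2 * p - 1)) ^ 2 := by
      rw [← Real.rpow_add hm0, ← Real.rpow_natCast, ← Real.rpow_mul hm0.le]
      have : p / 2 + 7 / 2 * p = (2 * p - 1) * (2 : ℕ) + 1 + 1 := by push_cast; ring
      rw [this, Real.rpow_add hm0, Real.rpow_add hm0, Real.rpow_one]
      field_simp
    have e3 : (32 * π * p * ((4 * m) ^ (2 * p) : ℝ) ^ (1 / 4 : ℝ)) * N =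
        4 * π * η ^ 2 * ((m : ℝ) ^ (p / 2) * (m : ℝ) ^ (7 / 2 * p) / m * (1 / m)) := by
      rw [e1, hN, hδ]
      field_simp
      ring
    rw [e3, e2]
    have e4 : (2 * π * η * (m : ℝ) ^ (2 * p - 1)) ^ 2 = 4 * π ^ 2 * η ^ 2 * ((m : ℝ) ^ (2 * p - 1)) ^ 2 := by
      ring
    rw [e4]
    have h3 : (1 : ℝ) ≤ π := by linarith [Real.pi_gt_three]
    have h4 : π ≤ π ^ 2 := by nlinarith
    gcongr
  have h2 : Real.sqrt ((32 * π * p * ((4 * m) ^ (2 * p) : ℝ) ^ (1 / 4 : ℝ)) * N) ≤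
      2 * π * η * (m : ℝ) ^ (2 * p - 1) := by
    rw [Real.sqrt_le_left (by positivity)]
    exact h1
  have h3 : 2 * π * ‖W‖ ≤ 2 * π * (η * (m : ℝ) ^ (2 * p)) := by
    calc 2 * π * ‖W‖ ≤ m * Real.sqrt ((32 * π * p * ((4 * m) ^ (2 * p) : ℝ) ^ (1 / 4 : ℝ)) * N) := hmas
      _ ≤ m * (2 * π * η * (m : ℝ) ^ (2 * p - 1)) := by gcongr
      _ = 2 * π * (η * (m : ℝ) ^ (2 * p)) := by
        have : (m : ℝ) ^ (2 * p) = (m : ℝ) ^ (2 * p - 1) * m := by
          have e : 2 * p = (2 * p - 1) + 1 := by ring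
          conv_lhs => rw [e]
          rw [Real.rpow_add hm0, Real.rpow_one]
        rw [this]; ring
  exact le_of_mul_le_mul_left h3 (by positivity)

end Pool.Agent.Run7.h820
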