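import Mathlib

open Complex MeasureTheory Metric Set Filter Topology
open scoped ENNReal Real

set_option autoImplicit false

namespace Pool.Agent.Run7.h820

/-- `valence f w`: the number of solutions `z` in the open unit disc of `f z = w`, counted with
multiplicity (an extended nonnegative number). -/
noncomputable def valence (f : ℂ → ℂ) (w : ℂ) : ℝ≥0∞ :=
  ∑' z : ball (0 : ℂ) 1, ((analyticOrderAt (fun ζ => f ζ - w) (z : ℂ) : ℕ∞) : ℝ≥0∞)

/-- `f` is (areally) mean `p`-valent in the unit disc. -/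
def MeanValent (p : ℝ) (f : ℂ → ℂ) : Prop :=
  ∀ R : ℝ, 0 < R → ∫⁻ w in ball (0 : ℂ) R, valence f w ≤ ENNReal.ofReal (π * p * R ^ 2)

/-- the `n`-th Taylor coefficient of `f` at `0` -/
noncomputable def coeff (f : ℂ → ℂ) (n : ℕ) : ℂ := iteratedDeriv n f 0 / (n.factorial : ℂ)

/-- The class `S(p)`. -/
def classS (p : ℝ) : Set (ℂ → ℂ) :=
  {f | DifferentiableOn ℂ f (ball 0 1) ∧ MeanValent p f ∧
    IsGreatest {x : ℝ | ∃ ν : ℕ, (ν : ℝ) ≤ p ∧ x = ‖coeff f ν‖} 1}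

/-- `A_n^{(p)}` -/
noncomputable def A (p : ℝ) (n : ℕ) : ℝ≥0∞ := ⨆ f ∈ classS p, ‖coeff f n‖ₑ

end Pool.Agent.Run7.h820
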