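import Pool.Agent.Run7.h820.Green

open Complex MeasureTheory Metric Set Filter Topology
open scoped ENNReal Real

set_option autoImplicit false

namespace Pool.Agent.Run7.h820

lemma exp_injOn_rect {a b c d : ℝ} (h : d - c ≤ 2 * π) : InjOn exp (Ioo a b ×ℂ Ioo c d) := by
  intro z hz w hw hzw
  rw [Complex.exp_eq_exp_iff_exists_int] at hzw
  obtain ⟨n, hn⟩ := hzw
  have him : z.im = w.im + n * (2 * π) := by
    have := congrArg Complex.im hn
    simpa using this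
  have h1 := hz.2
  have h2 := hw.2
  simp only [mem_preimage, mem_Ioo] at h1 h2
  have hpi := Real.pi_pos
  have hn0 : n = 0 := by
    have h3 : (n : ℝ) * (2 * π) < 1 * (2 * π) := by linarith
    have h4 : (-1 : ℝ) * (2 * π) < n * (2 * π) := by linarith
    have h5 : (n : ℝ) < 1 := lt_of_mul_lt_mul_right h3 (by positivity)
    have h6 : (-1 : ℝ) < n := lt_of_mul_lt_mul_right h4 (by positivity)
    have h7 : n < 1 := by exact_mod_cast h5
    have h8 : -1 < n := by exact_mod_cast h6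
    omega
  rw [hn, hn0]
  simp

/-- log-polar coordinates -/
lemma logpolar_le {a b c d : ℝ} (h : d - c ≤ 2 * π) (k : ℂ → ℝ≥0∞)
    (hk : AEMeasurable (fun ξ => ENNReal.ofReal (‖exp ξ‖ ^ 2) * k (exp ξ))
      (volume.restrict (Ioo a b ×ℂ Ioo c d))) :
    ∫⁻ y in Ioo c d, ∫⁻ x in Ioo a b, ENNReal.ofReal (‖exp (x + y * I)‖ ^ 2) * k (exp (x + y * I))
      ≤ ∫⁻ z in ball (0 : ℂ) (Real.exp b), k z := by
  rw [← lintegral_rect a b c d _ hk]
  have hmeas : MeasurableSet (Ioo a b ×ℂ Ioo c d) :=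
    (isOpen_Ioo.reProdIm isOpen_Ioo).measurableSet
  rw [← lintegral_holo_image hmeas (fun z _ => Complex.hasDerivAt_exp z) (exp_injOn_rect h) k]
  apply lintegral_mono_set
  rintro w ⟨z, hz, rfl⟩
  rw [mem_ball_zero_iff, Complex.norm_exp]
  exact Real.exp_lt_exp.mpr hz.1.2

/-- circular integral -/
noncomputable def Jint (F : ℂ → ℂ) (Φ : ℝ → ℝ) (x : ℝ) : ℝ :=
  ∫ y in (0 : ℝ)..(2 * π), Φ (F (exp (x + y * I))).re

noncomputable def qint (F : ℂ → ℂ) (Φ1 : ℝ → ℝ) (x : ℝ) : ℝ :=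
  ∫ y in (0 : ℝ)..(2 * π), Φ1 (F (exp (x + y * I))).re * (G1 F (x + y * I)).re

section
variable {F : ℂ → ℂ} (hF : DifferentiableOn ℂ F (ball 0 1))
include hF

lemma contOn_comb {Φ1 : ℝ → ℝ} (hc1 : Continuous Φ1) {x0 x1 c d : ℝ} (hx1 : x1 < 0) :
    ContinuousOn (fun p : ℝ × ℝ => Φ1 (F (exp (p.1 + p.2 * I))).re * (G1 F (p.1 + p.2 * I)).re)
      (Icc x0 x1 ×ˢ Icc c d) := by
  intro p hp
  have hre : ((p.1 : ℂ) + p.2 * I).re < 0 := by
    simpa using lt_of_le_of_lt hp.1.2 hx1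
  have h1 : ContinuousAt (fun p : ℝ × ℝ => ((p.1 : ℂ) + p.2 * I)) p := by fun_prop
  have h2 : ContinuousAt (fun p : ℝ × ℝ => F (exp (p.1 + p.2 * I))) p :=
    (continuousAt_Fexp hF hre).comp (f := fun p : ℝ × ℝ => ((p.1 : ℂ) + p.2 * I)) h1
  have h3 : ContinuousAt (fun p : ℝ × ℝ => G1 F (p.1 + p.2 * I)) p :=
    (continuousAt_G1 hF hre).comp (f := fun p : ℝ × ℝ => ((p.1 : ℂ) + p.2 * I)) h1
  have h4 : ContinuousAt (fun p : ℝ × ℝ => Φ1 (F (exp (p.1 + p.2 * I))).re) p :=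
    hc1.continuousAt.comp (Complex.continuous_re.continuousAt.comp h2)
  exact (h4.mul (Complex.continuous_re.continuousAt.comp h3)).continuousWithinAt

lemma contOn_comb2 {Φ2 : ℝ → ℝ} (hc2 : Continuous Φ2) {x0 x1 c d : ℝ} (hx1 : x1 < 0) :
    ContinuousOn (fun p : ℝ × ℝ => Φ2 (F (exp (p.1 + p.2 * I))).re * ‖G1 F (p.1 + p.2 * I)‖ ^ 2)
      (Icc x0 x1 ×ˢ Icc c d) := by
  intro p hp
  have hre : ((p.1 : ℂ) + p.2 * I).re < 0 := by
    simpa using lt_of_le_of_lt hp.1.2 hx1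
  have h1 : ContinuousAt (fun p : ℝ × ℝ => ((p.1 : ℂ) + p.2 * I)) p := by fun_prop
  have h2 : ContinuousAt (fun p : ℝ × ℝ => F (exp (p.1 + p.2 * I))) p :=
    (continuousAt_Fexp hF hre).comp (f := fun p : ℝ × ℝ => ((p.1 : ℂ) + p.2 * I)) h1
  have h3 : ContinuousAt (fun p : ℝ × ℝ => G1 F (p.1 + p.2 * I)) p :=
    (continuousAt_G1 hF hre).comp (f := fun p : ℝ × ℝ => ((p.1 : ℂ) + p.2 * I)) h1
  have h4 : ContinuousAt (fun p : ℝ × ℝ => Φ2 (F (exp (p.1 + p.2 * I))).re) p :=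
    hc2.continuousAt.comp (Complex.continuous_re.continuousAt.comp h2)
  exact (h4.mul (h3.norm.pow 2)).continuousWithinAt

lemma J_diff {Φ Φ1 : ℝ → ℝ} (h1 : ∀ v, HasDerivAt Φ (Φ1 v) v) (hc1 : Continuous Φ1)
    {x0 x1 : ℝ} (hx : x0 ≤ x1) (hx1 : x1 < 0) :
    Jint F Φ x1 - Jint F Φ x0 = ∫ x in x0..x1, qint F Φ1 x := by
  have hpi := Real.pi_pos
  unfold Jint qint
  rw [rect_swap hx (by positivity) (contOn_comb hF hc1 hx1)]
  have hcΦ : Continuous Φ := continuous_iff_continuousAt.mpr fun v => (h1 v).continuousAt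
  have hint : ∀ x : ℝ, x < 0 → IntervalIntegrable (fun y : ℝ => Φ (F (exp (x + y * I))).re)
      volume 0 (2 * π) := by
    intro x hx
    apply ContinuousOn.intervalIntegrable
    intro y _
    have hx' : ((x : ℂ) + y * I).re < 0 := by simpa using hx
    have h2 : ContinuousAt (fun y : ℝ => F (exp (x + y * I))) y :=
      (continuousAt_Fexp hF hx').comp (f := fun y : ℝ => ((x : ℂ) + y * I)) (by fun_prop)
    exact (hcΦ.continuousAt.comp (Complex.continuous_re.continuousAt.comp h2)).continuousWithinAt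
  rw [← intervalIntegral.integral_sub (hint x1 hx1) (hint x0 (lt_of_le_of_lt hx hx1))]
  apply intervalIntegral.integral_congr
  intro y _
  simp only
  symm
  have hd : ∀ x ∈ uIcc x0 x1, HasDerivAt (fun x : ℝ => Φ (F (exp (x + y * I))).re)
      (Φ1 (F (exp (x + y * I))).re * (G1 F (x + y * I)).re) x := by
    intro x hx'
    rw [uIcc_of_le hx] at hx'
    have hx'' : ((x : ℂ) + y * I).re < 0 := by simpa using lt_of_le_of_lt hx'.2 hx1
    have h3 : HasDerivAt (fun t : ℝ => ((t : ℂ) + y * I)) 1 x :=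
      (Complex.ofRealCLM.hasDerivAt (x := x)).add_const _
    have h4 := (hasDerivAt_Fexp hF hx'').comp_of_eq (𝕜 := ℝ) x h3 rfl
    have h5 : HasDerivAt (fun t : ℝ => (F (exp (t + y * I))).re) (G1 F (x + y * I)).re x := by
      have h7 := Complex.reCLM.hasFDerivAt.comp_hasDerivAt x h4
      exact h7.congr_deriv (by simp)
    exact (h1 (F (exp (x + y * I))).re).comp x h5
  rw [intervalIntegral.integral_eq_sub_of_hasDerivAt hd]
  apply ContinuousOn.intervalIntegrable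
  rw [uIcc_of_le hx]
  have hc := contOn_comb hF hc1 (x0 := x0) (c := y) (d := y) hx1
  exact hc.comp (f := fun x : ℝ => (x, y)) (by fun_prop) (fun x hx => ⟨hx, by simp⟩)

lemma q_diff_le {Φ1 Φ2 : ℝ → ℝ} (h2 : ∀ v, HasDerivAt Φ1 (Φ2 v) v) (hc2 : Continuous Φ2)
    (hpos : ∀ v, 0 ≤ Φ2 v) {S : ℝ} (hS : 0 ≤ S) {x0 x1 b : ℝ} (hx : x0 ≤ x1) (hx1 : x1 < 0)
    (hb : x1 ≤ b)
    (hint : ∫⁻ z in ball (0 : ℂ) (Real.exp b), ENNReal.ofReal (Φ2 (F z).re * ‖deriv F z‖ ^ 2)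
      ≤ ENNReal.ofReal S) :
    qint F Φ1 x1 - qint F Φ1 x0 ≤ S := by
  have hpi := Real.pi_pos
  unfold qint
  rw [green_id hF h2 hc2 hx hx1]
  rw [← ENNReal.ofReal_le_ofReal_iff hS]
  rw [rect_lintegral hx (by positivity) (contOn_comb2 hF hc2 hx1)
    (fun x _ y _ => mul_nonneg (hpos _) (by positivity))]
  refine le_trans ?_ hint
  refine le_trans ?_ (lintegral_mono_set (ball_subset_ball (Real.exp_le_exp.mpr hb)))
  refine le_trans (le_of_eq ?_) (logpolar_le (a := x0) (b := x1) (c := 0) (d := 2 * π) (by simp)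
    (fun z => ENNReal.ofReal (Φ2 (F z).re * ‖deriv F z‖ ^ 2)) ?_)
  · refine lintegral_congr fun y => lintegral_congr fun x => ?_
    rw [← ENNReal.ofReal_mul (by positivity)]
    congr 1
    simp only [G1, norm_mul]
    ring
  · have hm : MeasurableSet (Ioo x0 x1 ×ℂ Ioo 0 (2 * π)) :=
      (isOpen_Ioo.reProdIm isOpen_Ioo).measurableSet
    have hcc : ContinuousOn (fun ξ => ‖exp ξ‖ ^ 2 * (Φ2 (F (exp ξ)).re * ‖deriv F (exp ξ)‖ ^ 2))
        (Ioo x0 x1 ×ℂ Ioo 0 (2 * π)) := by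
      intro ξ hξ
      have hξ' : ξ.re < 0 := lt_trans hξ.1.2 hx1
      have h3 := continuousAt_Fexp hF hξ'
      have h4 : ContinuousAt (fun ξ => deriv F (exp ξ)) ξ :=
        ((hF.deriv isOpen_ball).differentiableAt
          (isOpen_ball.mem_nhds (exp_mem_ball hξ'))).continuousAt.comp (Complex.continuous_exp.continuousAt)
      have h5 : ContinuousAt (fun ξ => Φ2 (F (exp ξ)).re) ξ :=
        hc2.continuousAt.comp (Complex.continuous_re.continuousAt.comp h3)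
      exact ((Complex.continuous_exp.continuousAt.norm.pow 2).mul
        (h5.mul (h4.norm.pow 2))).continuousWithinAt
    have hae : AEMeasurable (fun ξ => ENNReal.ofReal
        (‖exp ξ‖ ^ 2 * (Φ2 (F (exp ξ)).re * ‖deriv F (exp ξ)‖ ^ 2)))
        (volume.restrict (Ioo x0 x1 ×ℂ Ioo 0 (2 * π))) := (hcc.aemeasurable hm).ennreal_ofReal
    refine hae.congr (ae_of_all _ fun ξ => ?_)
    simp only
    rw [ENNReal.ofReal_mul (by positivity)]

lemma q_tendsto {Φ1 : ℝ → ℝ} (hc1 : Continuous Φ1) :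
    Tendsto (fun x => qint F Φ1 x) atBot (𝓝 0) := by
  have hpi := Real.pi_pos
  -- bound on the ball of radius e^{-1}
  have hsub : closedBall (0 : ℂ) (Real.exp (-1)) ⊆ ball 0 1 := by
    apply closedBall_subset_ball
    exact Real.exp_lt_one_iff.mpr (by norm_num)
  have hcc : ContinuousOn (fun z => |Φ1 (F z).re| * ‖deriv F z‖) (closedBall (0 : ℂ) (Real.exp (-1))) := by
    have h1 : ContinuousOn F (closedBall (0 : ℂ) (Real.exp (-1))) := hF.continuousOn.mono hsub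
    have h2 : ContinuousOn (deriv F) (closedBall (0 : ℂ) (Real.exp (-1))) :=
      (hF.deriv isOpen_ball).continuousOn.mono hsub
    fun_prop
  obtain ⟨C, hC⟩ := (isCompact_closedBall (0 : ℂ) (Real.exp (-1))).bddAbove_image hcc
  have hC' : ∀ z ∈ closedBall (0 : ℂ) (Real.exp (-1)), |Φ1 (F z).re| * ‖deriv F z‖ ≤ C := fun z hz =>
    hC (mem_image_of_mem _ hz)
  have hbound : ∀ x : ℝ, x ≤ -1 → ‖qint F Φ1 x‖ ≤ C * Real.exp x * |2 * π - 0| := by
    intro x hx
    apply intervalIntegral.norm_integral_le_of_norm_le_const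
    intro y _
    have hn : ‖exp ((x : ℂ) + y * I)‖ = Real.exp x := by
      rw [Complex.norm_exp]; simp
    have hz : exp ((x : ℂ) + y * I) ∈ closedBall (0 : ℂ) (Real.exp (-1)) := by
      rw [mem_closedBall_zero_iff, hn]
      exact Real.exp_le_exp.mpr hx
    calc ‖Φ1 (F (exp (x + y * I))).re * (G1 F (x + y * I)).re‖
        = |Φ1 (F (exp (x + y * I))).re| * |(G1 F (x + y * I)).re| := by
          rw [Real.norm_eq_abs, abs_mul]
      _ ≤ |Φ1 (F (exp (x + y * I))).re| * ‖G1 F (x + y * I)‖ := by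
          gcongr
          exact Complex.abs_re_le_norm _
      _ = (|Φ1 (F (exp (x + y * I))).re| * ‖deriv F (exp (x + y * I))‖) * Real.exp x := by
          rw [G1, norm_mul, hn]; ring
      _ ≤ C * Real.exp x := by
          gcongr
          exact hC' _ hz
  have hlim : Tendsto (fun x : ℝ => C * Real.exp x * |2 * π - 0|) atBot (𝓝 0) := by
    have := (Real.tendsto_exp_atBot.const_mul C).mul_const |2 * π - 0|
    simpa using this
  refine squeeze_zero_norm' ?_ hlim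
  filter_upwards [eventually_le_atBot (-1 : ℝ)] with x hx using hbound x hx

lemma q_le {Φ1 Φ2 : ℝ → ℝ} (h2 : ∀ v, HasDerivAt Φ1 (Φ2 v) v) (hc2 : Continuous Φ2)
    (hpos : ∀ v, 0 ≤ Φ2 v) {S : ℝ} (hS : 0 ≤ S) {x b : ℝ} (hx : x < 0) (hb : x ≤ b)
    (hint : ∫⁻ z in ball (0 : ℂ) (Real.exp b), ENNReal.ofReal (Φ2 (F z).re * ‖deriv F z‖ ^ 2)
      ≤ ENNReal.ofReal S) :
    qint F Φ1 x ≤ S := by
  have hc1 : Continuous Φ1 := continuous_iff_continuousAt.mpr fun v => (h2 v).continuousAt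
  have h3 : Tendsto (fun x0 => qint F Φ1 x - qint F Φ1 x0) atBot (𝓝 (qint F Φ1 x - 0)) :=
    (q_tendsto hF hc1).const_sub _
  rw [sub_zero] at h3
  apply le_of_tendsto h3
  filter_upwards [eventually_le_atBot x] with x0 hx0
  exact q_diff_le hF h2 hc2 hpos hS hx0 hx hb hint

/-- the growth of circular means is controlled by the weighted area -/
lemma J_le {Φ Φ1 Φ2 : ℝ → ℝ} (h1 : ∀ v, HasDerivAt Φ (Φ1 v) v)
    (h2 : ∀ v, HasDerivAt Φ1 (Φ2 v) v) (hc2 : Continuous Φ2)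
    (hpos : ∀ v, 0 ≤ Φ2 v) {S : ℝ} (hS : 0 ≤ S) {x0 x1 b : ℝ} (hx : x0 ≤ x1) (hx1 : x1 < 0)
    (hb : x1 ≤ b)
    (hint : ∫⁻ z in ball (0 : ℂ) (Real.exp b), ENNReal.ofReal (Φ2 (F z).re * ‖deriv F z‖ ^ 2)
      ≤ ENNReal.ofReal S) :
    Jint F Φ x1 - Jint F Φ x0 ≤ S * (x1 - x0) := by
  have hc1 : Continuous Φ1 := continuous_iff_continuousAt.mpr fun v => (h2 v).continuousAt
  have hpi := Real.pi_pos
  rw [J_diff hF h1 hc1 hx hx1]
  have h3 : ∫ x in x0..x1, qint F Φ1 x ≤ ∫ x in x0..x1, S := by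
    apply intervalIntegral.integral_mono_on hx
    · exact rect_inner_integrable hx (by positivity) (contOn_comb hF hc1 hx1)
    · exact intervalIntegrable_const
    · intro x hx'
      exact q_le hF h2 hc2 hpos hS (lt_of_le_of_lt hx'.2 hx1) (hx'.2.trans hb) hint
  rw [intervalIntegral.integral_const, smul_eq_mul] at h3
  linarith [mul_comm (x1 - x0) S]

/-- monotonicity of circular means of convex functions -/
lemma J_mono {Φ Φ1 Φ2 : ℝ → ℝ} (h1 : ∀ v, HasDerivAt Φ (Φ1 v) v)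
    (h2 : ∀ v, HasDerivAt Φ1 (Φ2 v) v) (hc2 : Continuous Φ2)
    (hpos : ∀ v, 0 ≤ Φ2 v) {x0 x1 : ℝ} (hx : x0 ≤ x1) (hx1 : x1 < 0) :
    Jint F Φ x0 ≤ Jint F Φ x1 := by
  have hc1 : Continuous Φ1 := continuous_iff_continuousAt.mpr fun v => (h2 v).continuousAt
  have hpi := Real.pi_pos
  have hq : ∀ x : ℝ, x < 0 → 0 ≤ qint F Φ1 x := by
    intro x hx
    have h3 : Tendsto (fun x0 => qint F Φ1 x - qint F Φ1 x0) atBot (𝓝 (qint F Φ1 x - 0)) :=
      (q_tendsto hF hc1).const_sub _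
    rw [sub_zero] at h3
    apply ge_of_tendsto h3
    filter_upwards [eventually_le_atBot x] with x0 hx0
    unfold qint
    rw [green_id hF h2 hc2 hx0 hx]
    apply intervalIntegral.integral_nonneg hx0
    intro u _
    apply intervalIntegral.integral_nonneg (by positivity)
    intro v _
    exact mul_nonneg (hpos _) (by positivity)
  have h4 := J_diff hF h1 hc1 hx hx1
  have h5 : 0 ≤ ∫ x in x0..x1, qint F Φ1 x := by
    apply intervalIntegral.integral_nonneg hx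
    intro x hx'
    exact hq x (lt_of_le_of_lt hx'.2 hx1)
  linarith

end

end Pool.Agent.Run7.h820
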