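import Pool.Agent.Run7.h820.Parseval
import Pool.Agent.Run7.h820.Approx
import Pool.Agent.Run7.h820.Green2

open Complex MeasureTheory Metric Set Filter Topology
open scoped ENNReal Real

set_option autoImplicit false

namespace Pool.Agent.Run7.h820

noncomputable def Ph (v : ℝ) : ℝ := Real.log (1 + Real.exp (2 * v))
noncomputable def Ph1 (v : ℝ) : ℝ := 2 * Real.exp (2 * v) / (1 + Real.exp (2 * v))
noncomputable def Ph2 (v : ℝ) : ℝ := 4 * Real.exp (2 * v) / (1 + Real.exp (2 * v)) ^ 2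

lemma hasDerivAt_e2 (v : ℝ) : HasDerivAt (fun v : ℝ => Real.exp (2 * v)) (2 * Real.exp (2 * v)) v := by
  have := ((hasDerivAt_id v).const_mul 2).exp
  refine this.congr_deriv ?_
  simp only [id_eq, mul_one]
  ring

lemma hasDerivAt_Ph (v : ℝ) : HasDerivAt Ph (Ph1 v) v := by
  have h : 1 + Real.exp (2 * v) ≠ 0 := by positivity
  have := ((hasDerivAt_e2 v).const_add 1).log h
  exact this

lemma hasDerivAt_Ph1 (v : ℝ) : HasDerivAt Ph1 (Ph2 v) v := by
  have h : 1 + Real.exp (2 * v) ≠ 0 := by positivity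
  have := ((hasDerivAt_e2 v).const_mul 2).div ((hasDerivAt_e2 v).const_add 1) h
  refine this.congr_deriv ?_
  unfold Ph2
  congr 1
  ring

lemma continuous_Ph2 : Continuous Ph2 := by
  unfold Ph2
  apply Continuous.div (by fun_prop) (by fun_prop)
  intro x
  positivity

lemma Ph2_nonneg (v : ℝ) : 0 ≤ Ph2 v := by unfold Ph2; positivity

lemma Jint_eq (F : ℂ → ℂ) (Φ : ℝ → ℝ) (x : ℝ) :
    Jint F Φ x = 2 * π * Real.circleAverage (fun z => Φ (F z).re) 0 (Real.exp x) := by
  have hpi := Real.pi_pos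
  unfold Jint Real.circleAverage
  rw [smul_eq_mul, ← mul_assoc, mul_inv_cancel₀ (by positivity), one_mul]
  apply intervalIntegral.integral_congr
  intro y _
  simp only [circleMap, zero_add]
  rw [Complex.exp_add, Complex.ofReal_exp]

section
variable {F : ℂ → ℂ} (hF : DifferentiableOn ℂ F (ball 0 1))
include hF

lemma sphere_contOn {r : ℝ} (hr : r < 1) : ContinuousOn F (sphere 0 r) :=
  hF.continuousOn.mono (fun z hz => by
    rw [mem_sphere_zero_iff_norm] at hz
    rw [mem_ball_zero_iff]; linarith)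

/-- the key estimate with the approximate outer function -/
lemma duf_eps (hF0 : (F 0).re = 0) {t r : ℝ} (ht : 0 < t) (htr : t < r) (hr1 : r < 1)
    {ε : ℝ} (hε : 0 < ε) :
    (Real.exp (-Real.circleAverage (fun z => Ph (F z).re) 0 r) * (2 + r ^ 2 * ‖deriv F 0‖ ^ 2 / 2)
      ≤ Real.exp (2 * ε)) ∧
    (1 + Real.circleAverage (fun z => Ph (F z).re) 0 t - Real.circleAverage (fun z => Ph (F z).re) 0 r
      - ε ≤ 2 * Real.exp (-Real.circleAverage (fun z => Ph (F z).re) 0 r + ε) * (1 - t ^ 2 / r ^ 2)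
        + t ^ 2 / r ^ 2 * Real.exp ε) := by
  have hr : 0 < r := ht.trans htr
  have hPhc : Continuous Ph := continuous_iff_continuousAt.mpr fun v => (hasDerivAt_Ph v).continuousAt
  set u : ℂ → ℝ := fun z => Ph (F z).re with hu
  have huc : ∀ s : ℝ, s < 1 → ContinuousOn u (sphere 0 s) := fun s hs =>
    hPhc.comp_continuousOn (Complex.continuous_re.comp_continuousOn (sphere_contOn hF hs))
  obtain ⟨P, hPd, hP⟩ := circle_approx hr u (huc r hr1) hε
  have habs : ∀ s : ℝ, 0 < s → |s| = s := fun s hs => abs_of_pos hs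
  set mt := Real.circleAverage u 0 t with hmt
  set mr := Real.circleAverage u 0 r with hmr
  set H1 : ℂ → ℂ := fun z => exp (F z - P z / 2) with hH1
  set H2 : ℂ → ℂ := fun z => exp (-P z / 2) with hH2
  have hH1d : DifferentiableOn ℂ H1 (ball 0 1) :=
    (hF.sub (hPd.differentiableOn.div_const 2)).cexp
  have hH2d : DifferentiableOn ℂ H2 (ball 0 1) :=
    (hPd.neg.differentiableOn.div_const 2).cexp
  have hsum : ∀ z, ‖H1 z‖ ^ 2 + ‖H2 z‖ ^ 2 = Real.exp (u z - (P z).re) := by
    intro z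
    simp only [hH1, hH2, hu, Ph, Complex.norm_exp]
    rw [Real.exp_sub (Real.log _), Real.exp_log (by positivity), ← Real.exp_nat_mul,
      ← Real.exp_nat_mul]
    have e1 : ((2 : ℕ) : ℝ) * (F z - P z / 2).re = 2 * (F z).re - (P z).re := by
      simp; ring
    have e2 : ((2 : ℕ) : ℝ) * (-P z / 2).re = - (P z).re := by
      simp
      ring
    rw [e1, e2, Real.exp_sub, Real.exp_neg]
    field_simp
    ring
  have hPc : Continuous P := hPd.continuous
  have hci : ∀ {k : ℂ → ℝ} {s : ℝ}, 0 < s → ContinuousOn k (sphere 0 s) → CircleIntegrable k 0 s := by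
    intro k s hs hk
    apply ContinuousOn.circleIntegrable'
    rwa [habs s hs]
  have hnc : ∀ {H : ℂ → ℂ}, DifferentiableOn ℂ H (ball 0 1) → ∀ s : ℝ, 0 < s → s < 1 →
      CircleIntegrable (fun z => ‖H z‖ ^ 2) 0 s := by
    intro H hH s hs hs1
    exact hci hs ((sphere_contOn hH hs1).norm.pow 2)
  -- circle averages
  have havP : ∀ s : ℝ, Real.circleAverage (fun z => (P z).re) 0 s = (P 0).re := fun s =>
    avg_re P s hPc.continuousOn hPd.diffContOnCl
  have hNr : Real.circleAverage (fun z => ‖H1 z‖ ^ 2) 0 r + Real.circleAverage (fun z => ‖H2 z‖ ^ 2) 0 r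
      ≤ Real.exp ε := by
    have h1 := Real.circleAverage_fun_add (hnc hH1d r hr hr1) (hnc hH2d r hr hr1)
    rw [← h1]
    apply Real.circleAverage_mono_on_of_le_circle
    · exact (hnc hH1d r hr hr1).add (hnc hH2d r hr hr1)
    · intro z hz
      rw [habs r hr] at hz
      rw [hsum z]
      apply Real.exp_le_exp.mpr
      exact (le_abs_self _).trans (hP z hz)
  have hNt : 1 + mt - (P 0).re ≤ Real.circleAverage (fun z => ‖H1 z‖ ^ 2) 0 t
      + Real.circleAverage (fun z => ‖H2 z‖ ^ 2) 0 t := by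
    have ht1 : t < 1 := htr.trans hr1
    have h1 := Real.circleAverage_fun_add (hnc hH1d t ht ht1) (hnc hH2d t ht ht1)
    rw [← h1]
    have hiu : CircleIntegrable u 0 t := hci ht (huc t ht1)
    have hiP : CircleIntegrable (fun z => (P z).re) 0 t :=
      hci ht (Complex.continuous_re.comp hPc).continuousOn
    have hi1 : CircleIntegrable (fun _ : ℂ => (1 : ℝ)) 0 t := hci ht continuousOn_const
    have hi1u : CircleIntegrable (fun z => 1 + u z) 0 t := hi1.add hiu
    have h2 : 1 + mt - (P 0).re = Real.circleAverage (fun z => (1 + u z) - (P z).re) 0 t := by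
      rw [Real.circleAverage_fun_sub hi1u hiP, Real.circleAverage_fun_add hi1 hiu,
        Real.circleAverage_const, havP]
    rw [h2]
    apply Real.circleAverage_mono
    · exact (hi1.add hiu).sub hiP
    · exact (hnc hH1d t ht ht1).add (hnc hH2d t ht ht1)
    · intro z _
      rw [hsum z]
      have := Real.add_one_le_exp (u z - (P z).re)
      linarith
  have hP0a : (P 0).re ≤ mr + ε := by
    rw [← havP r]
    have hiu : CircleIntegrable u 0 r := hci hr (huc r hr1)
    have hi1 : CircleIntegrable (fun _ : ℂ => ε) 0 r := hci hr continuousOn_const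
    have h2 : mr + ε = Real.circleAverage (fun z => u z + ε) 0 r := by
      rw [Real.circleAverage_fun_add hiu hi1, Real.circleAverage_const]
    rw [h2]
    apply Real.circleAverage_mono
    · exact hci hr (Complex.continuous_re.comp hPc).continuousOn
    · exact hiu.add hi1
    · intro z hz
      rw [habs r hr] at hz
      have := abs_le.mp (hP z hz)
      linarith [this.1]
  have hP0b : mr - ε ≤ (P 0).re := by
    rw [← havP r]
    have hiu : CircleIntegrable u 0 r := hci hr (huc r hr1)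
    have hi1 : CircleIntegrable (fun _ : ℂ => ε) 0 r := hci hr continuousOn_const
    have h2 : mr - ε = Real.circleAverage (fun z => u z - ε) 0 r := by
      rw [Real.circleAverage_fun_sub hiu hi1, Real.circleAverage_const]
    rw [h2]
    apply Real.circleAverage_mono
    · exact hiu.sub hi1
    · exact hci hr (Complex.continuous_re.comp hPc).continuousOn
    · intro z hz
      rw [habs r hr] at hz
      have := abs_le.mp (hP z hz)
      linarith [this.2]
  set b := Real.exp (-(P 0).re) with hb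
  have hH10 : ‖H1 0‖ ^ 2 = b := by
    simp only [hH1, Complex.norm_exp, hb]
    rw [← Real.exp_nat_mul]
    congr 1
    simp [hF0]
    ring
  have hH20 : ‖H2 0‖ ^ 2 = b := by
    simp only [hH2, Complex.norm_exp, hb]
    rw [← Real.exp_nat_mul]
    congr 1
    simp
    ring
  have hd1 : deriv H1 0 = H1 0 * (deriv F 0 - deriv P 0 / 2) := by
    have h1 : HasDerivAt F (deriv F 0) 0 :=
      (hF.differentiableAt (isOpen_ball.mem_nhds (mem_ball_self one_pos))).hasDerivAt
    have h2 : HasDerivAt P (deriv P 0) 0 := (hPd 0).hasDerivAt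
    exact (h1.sub (h2.div_const 2)).cexp.deriv
  have hd2 : deriv H2 0 = H2 0 * (-(deriv P 0) / 2) := by
    have h2 : HasDerivAt P (deriv P 0) 0 := (hPd 0).hasDerivAt
    exact (h2.neg.div_const 2).cexp.deriv
  constructor
  · have h1 := parseval_lower hH1d hr.le hr1
    have h2 := parseval_lower hH2d hr.le hr1
    rw [hd1, norm_mul, mul_pow, hH10] at h1
    rw [hd2, norm_mul, mul_pow, hH20] at h2
    have h3 : ‖deriv F 0‖ ≤ ‖deriv F 0 - deriv P 0 / 2‖ + ‖-(deriv P 0) / 2‖ := by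
      calc ‖deriv F 0‖ = ‖(deriv F 0 - deriv P 0 / 2) - (-(deriv P 0) / 2)‖ := by
            congr 1; ring
        _ ≤ _ := norm_sub_le _ _
    have h4 : ‖deriv F 0‖ ^ 2 / 2 ≤ ‖deriv F 0 - deriv P 0 / 2‖ ^ 2 + ‖-(deriv P 0) / 2‖ ^ 2 := by
      nlinarith [norm_nonneg (deriv F 0), norm_nonneg (deriv F 0 - deriv P 0 / 2),
        norm_nonneg (-(deriv P 0) / 2), sq_nonneg (‖deriv F 0 - deriv P 0 / 2‖ - ‖-(deriv P 0) / 2‖)]
    have hb0 : 0 < b := Real.exp_pos _
    have h5 : b * (2 + r ^ 2 * ‖deriv F 0‖ ^ 2 / 2) ≤ Real.exp ε := by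
      have h6 : r ^ 2 * (b * (‖deriv F 0‖ ^ 2 / 2)) ≤ r ^ 2 * (b *
          (‖deriv F 0 - deriv P 0 / 2‖ ^ 2 + ‖-(deriv P 0) / 2‖ ^ 2)) := by gcongr
      nlinarith
    have h7 : Real.exp (-mr) ≤ b * Real.exp ε := by
      rw [hb, ← Real.exp_add]
      apply Real.exp_le_exp.mpr
      linarith
    calc Real.exp (-mr) * (2 + r ^ 2 * ‖deriv F 0‖ ^ 2 / 2)
        ≤ (b * Real.exp ε) * (2 + r ^ 2 * ‖deriv F 0‖ ^ 2 / 2) := by gcongr
      _ = (b * (2 + r ^ 2 * ‖deriv F 0‖ ^ 2 / 2)) * Real.exp ε := by ring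
      _ ≤ Real.exp ε * Real.exp ε := by gcongr
      _ = Real.exp (2 * ε) := by rw [← Real.exp_add]; congr 1; ring
  · have h1 := parseval_ratio hH1d ht.le htr.le hr hr1
    have h2 := parseval_ratio hH2d ht.le htr.le hr hr1
    rw [hH10] at h1
    rw [hH20] at h2
    have hτ : t ^ 2 / r ^ 2 ≤ 1 := by
      rw [div_le_one (by positivity)]
      nlinarith
    have hτ0 : 0 ≤ t ^ 2 / r ^ 2 := by positivity
    have hb2 : b ≤ Real.exp (-mr + ε) := by
      rw [hb]
      apply Real.exp_le_exp.mpr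
      linarith
    have h3 : t ^ 2 / r ^ 2 * (Real.circleAverage (fun z => ‖H1 z‖ ^ 2) 0 r
        + Real.circleAverage (fun z => ‖H2 z‖ ^ 2) 0 r) ≤ t ^ 2 / r ^ 2 * Real.exp ε := by
      gcongr
    have h4 : b * (1 - t ^ 2 / r ^ 2) ≤ Real.exp (-mr + ε) * (1 - t ^ 2 / r ^ 2) := by
      have : 0 ≤ 1 - t ^ 2 / r ^ 2 := by linarith
      gcongr
    nlinarith

/-- **Dufresnoy's lemma** in the nonvanishing normalised case. -/
theorem dufresnoy (hF0 : (F 0).re = 0)
    (hA : ∫⁻ z in ball (0 : ℂ) 1, ENNReal.ofReal (Ph2 (F z).re * ‖deriv F z‖ ^ 2)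
      ≤ ENNReal.ofReal (2 * π)) :
    ‖deriv F 0‖ ≤ 2 := by
  have hpi := Real.pi_pos
  -- step for fixed r
  have key : ∀ r : ℝ, 0 < r → r < 1 → r * ‖deriv F 0‖ ≤ 2 := by
    intro r hr hr1
    set mr := Real.circleAverage (fun z => Ph (F z).re) 0 r with hmr
    have hB : Real.exp (-mr) * (2 + r ^ 2 * ‖deriv F 0‖ ^ 2 / 2) ≤ 1 := by
      have h1 : Tendsto (fun ε : ℝ => Real.exp (2 * ε)) (𝓝[>] 0) (𝓝 1) := by
        have : Tendsto (fun ε : ℝ => Real.exp (2 * ε)) (𝓝 0) (𝓝 (Real.exp (2 * 0))) := by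
          apply Continuous.tendsto
          fun_prop
        rw [mul_zero, Real.exp_zero] at this
        exact this.mono_left nhdsWithin_le_nhds
      apply ge_of_tendsto h1
      filter_upwards [self_mem_nhdsWithin] with ε hε
      exact (duf_eps hF hF0 (t := r / 2) (by positivity) (by linarith) hr1 hε).1
    have hA1 : ∀ t : ℝ, 0 < t → t < r →
        1 + Real.circleAverage (fun z => Ph (F z).re) 0 t - mr
          ≤ 2 * Real.exp (-mr) * (1 - t ^ 2 / r ^ 2) + t ^ 2 / r ^ 2 := by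
      intro t ht htr
      set mt := Real.circleAverage (fun z => Ph (F z).re) 0 t with hmt
      have h1 : Tendsto (fun ε : ℝ => 2 * Real.exp (-mr + ε) * (1 - t ^ 2 / r ^ 2)
        + t ^ 2 / r ^ 2 * Real.exp ε + ε) (𝓝[>] 0) (𝓝 (2 * Real.exp (-mr) * (1 - t ^ 2 / r ^ 2)
          + t ^ 2 / r ^ 2)) := by
        have h2 : Tendsto (fun ε : ℝ => 2 * Real.exp (-mr + ε) * (1 - t ^ 2 / r ^ 2)
          + t ^ 2 / r ^ 2 * Real.exp ε + ε) (𝓝 0) (𝓝 (2 * Real.exp (-mr + 0) * (1 - t ^ 2 / r ^ 2)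
            + t ^ 2 / r ^ 2 * Real.exp 0 + 0)) := by
          apply Continuous.tendsto
          fun_prop
        simp only [add_zero, Real.exp_zero, mul_one] at h2
        exact h2.mono_left nhdsWithin_le_nhds
      apply ge_of_tendsto h1
      filter_upwards [self_mem_nhdsWithin] with ε hε
      have := (duf_eps hF hF0 ht htr hr1 hε).2
      linarith
    -- growth of the mean
    have hgrow : ∀ t : ℝ, 0 < t → t < r →
        mr - Real.circleAverage (fun z => Ph (F z).re) 0 t ≤ Real.log (r / t) := by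
      intro t ht htr
      have h1 := J_le hF hasDerivAt_Ph hasDerivAt_Ph1 continuous_Ph2 Ph2_nonneg
        (S := 2 * π) (by positivity) (x0 := Real.log t) (x1 := Real.log r) (b := 0)
        (Real.log_le_log ht htr.le) (Real.log_neg hr hr1) (Real.log_neg hr hr1).le
        (by rw [Real.exp_zero]; exact hA)
      rw [Jint_eq, Jint_eq, Real.exp_log hr, Real.exp_log ht] at h1
      rw [Real.log_div hr.ne' ht.ne']
      have h2 : 2 * π * (mr - Real.circleAverage (fun z => Ph (F z).re) 0 t)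
          ≤ 2 * π * (Real.log r - Real.log t) := by
        rw [mul_sub]; exact h1
      exact le_of_mul_le_mul_left h2 (by positivity)
    set β := 2 * Real.exp (-mr) with hβ
    have hβ1 : ∀ τ : ℝ, 0 < τ → τ < 1 → (1 - β) * (1 + τ) ≤ 1 / τ := by
      intro τ hτ hτ1
      have h1 := hA1 (τ * r) (by positivity) (by nlinarith)
      have h2 := hgrow (τ * r) (by positivity) (by nlinarith)
      have h3 : r / (τ * r) = 1 / τ := by field_simp
      have h4 : (τ * r) ^ 2 / r ^ 2 = τ ^ 2 := by field_simp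
      rw [h3] at h2
      rw [h4] at h1
      have h5 : Real.log (1 / τ) ≤ 1 / τ - 1 := Real.log_le_sub_one_of_pos (by positivity)
      have h6 : (1 - β) * (1 - τ ^ 2) ≤ 1 / τ - 1 := by
        nlinarith
      have h7 : (1 - τ) * ((1 - β) * (1 + τ)) ≤ (1 - τ) * (1 / τ) := by
        calc (1 - τ) * ((1 - β) * (1 + τ)) = (1 - β) * (1 - τ ^ 2) := by ring
          _ ≤ 1 / τ - 1 := h6
          _ = (1 - τ) * (1 / τ) := by field_simp
      exact le_of_mul_le_mul_left h7 (by linarith)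
    have hβ2 : (1 - β) * (1 + 1) ≤ 1 / 1 := by
      have h1 : Tendsto (fun τ : ℝ => (1 - β) * (1 + τ)) (𝓝[<] 1) (𝓝 ((1 - β) * (1 + 1))) := by
        have : Tendsto (fun τ : ℝ => (1 - β) * (1 + τ)) (𝓝 1) (𝓝 ((1 - β) * (1 + 1))) := by
          apply Continuous.tendsto
          fun_prop
        exact this.mono_left nhdsWithin_le_nhds
      have h2 : Tendsto (fun τ : ℝ => 1 / τ) (𝓝[<] 1) (𝓝 (1 / 1)) := by
        have : ContinuousAt (fun τ : ℝ => 1 / τ) 1 := by
          apply ContinuousAt.div continuousAt_const continuousAt_id one_ne_zero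
        exact this.tendsto.mono_left nhdsWithin_le_nhds
      refine le_of_tendsto_of_tendsto h1 h2 ?_
      have : Ioo (0 : ℝ) 1 ∈ 𝓝[<] (1 : ℝ) := Ioo_mem_nhdsLT (by norm_num)
      filter_upwards [this] with τ hτ using hβ1 τ hτ.1 hτ.2
    have hβ3 : 1 / 2 ≤ β := by linarith
    have h8 : β * (1 + r ^ 2 * ‖deriv F 0‖ ^ 2 / 4) ≤ 1 := by
      calc β * (1 + r ^ 2 * ‖deriv F 0‖ ^ 2 / 4)
          = Real.exp (-mr) * (2 + r ^ 2 * ‖deriv F 0‖ ^ 2 / 2) := by rw [hβ]; ring
        _ ≤ 1 := hB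
    have h9 : 0 ≤ r ^ 2 * ‖deriv F 0‖ ^ 2 / 4 := by positivity
    have h10 : (r * ‖deriv F 0‖) ^ 2 ≤ 2 ^ 2 := by nlinarith
    exact (abs_le_of_sq_le_sq' h10 (by norm_num)).2
  have h1 : Tendsto (fun r : ℝ => r * ‖deriv F 0‖) (𝓝[<] 1) (𝓝 (1 * ‖deriv F 0‖)) := by
    have : Tendsto (fun r : ℝ => r * ‖deriv F 0‖) (𝓝 1) (𝓝 (1 * ‖deriv F 0‖)) := by
      apply Continuous.tendsto
      fun_prop
    exact this.mono_left nhdsWithin_le_nhds
  rw [one_mul] at h1
  apply le_of_tendsto h1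
  have : Ioo (0 : ℝ) 1 ∈ 𝓝[<] (1 : ℝ) := Ioo_mem_nhdsLT (by norm_num)
  filter_upwards [this] with r hr using key r hr.1 hr.2

end

end Pool.Agent.Run7.h820
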