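import Pool.Agent.Run7.h820.Growth2

open Complex MeasureTheory Metric Set Filter Topology
open scoped ENNReal Real ComplexConjugate

set_option autoImplicit false

namespace Pool.Agent.Run7.h820

noncomputable def psiB (β M R : ℝ) : ℝ := R ^ (β - 2) / (1 + (R / M) ^ β) ^ 2

lemma psiB_meas (β M : ℝ) : Measurable (psiB β M) := by
  unfold psiB
  fun_prop

lemma psiB_nonneg {β M R : ℝ} (hM : 0 < M) (hR : 0 < R) : 0 ≤ psiB β M R := by
  unfold psiB
  positivity

lemma psiB_anti {β M : ℝ} (hβ : 0 < β) (hβ2 : β ≤ 2) (hM : 0 < M) : AntitoneOn (psiB β M) (Ioi 0) := by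
  intro a ha b hb hab
  have ha' : (0 : ℝ) < a := ha
  have hb' : (0 : ℝ) < b := hb
  have h1 : b ^ (β - 2) ≤ a ^ (β - 2) :=
    Real.rpow_le_rpow_of_nonpos ha' hab (by linarith)
  have h2 : (a / M) ^ β ≤ (b / M) ^ β := Real.rpow_le_rpow (by positivity) (by gcongr) hβ.le
  have h3 : 0 ≤ (a / M) ^ β := by positivity
  unfold psiB
  apply div_le_div₀ (by positivity) h1 (by positivity)
  gcongr

lemma psiB_int {p β M : ℝ} (hβ : 0 < β) (hM : 0 < M) (hp : 0 ≤ p) :
    ∫⁻ R in Ioi (0 : ℝ), ENNReal.ofReal (psiB β M R * (2 * (π * p) * R))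
      = ENNReal.ofReal (2 * π * p * M ^ β / β) := by
  have hpi := Real.pi_pos
  have h1 := lint_Ioi_eq (g := fun R => - (2 * π * p * M ^ β / β) / (1 + (R / M) ^ β))
    (g' := fun R => psiB β M R * (2 * (π * p) * R)) (l := 0) ?_ ?_ ?_ ?_
  · rw [h1]
    congr 1
    rw [zero_div, Real.zero_rpow hβ.ne']
    ring
  · apply ContinuousAt.continuousWithinAt
    have h2 : ContinuousAt (fun R : ℝ => (R / M) ^ β) 0 :=
      ContinuousAt.rpow_const (by fun_prop) (Or.inr hβ.le)
    have h3 : ContinuousAt (fun R : ℝ => 1 + (R / M) ^ β) 0 := continuousAt_const.add h2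
    apply ContinuousAt.div continuousAt_const h3
    rw [zero_div, Real.zero_rpow hβ.ne']
    norm_num
  · intro R hR
    have hR' : (0 : ℝ) < R := hR
    have hRM : 0 < R / M := by positivity
    have h2 : HasDerivAt (fun R : ℝ => (R / M) ^ β) (1 / M * β * (R / M) ^ (β - 1)) R :=
      ((hasDerivAt_id R).div_const M).rpow_const (Or.inl hRM.ne')
    have h3 : (1 + (R / M) ^ β) ≠ 0 := by positivity
    have h4 := (h2.const_add 1).inv h3
    have h5 := h4.const_mul (-(2 * π * p * M ^ β / β))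
    have h7 : (fun y : ℝ => -(2 * π * p * M ^ β / β) * ((fun R : ℝ => 1 + (R / M) ^ β)⁻¹) y) =
      fun R => - (2 * π * p * M ^ β / β) / (1 + (R / M) ^ β) := by
      funext R; rw [Pi.inv_apply, ← div_eq_mul_inv]
    rw [h7] at h5
    refine h5.congr_deriv ?_
    unfold psiB
    have h8 : M ^ β * (R / M) ^ (β - 1) / M = R ^ (β - 2) * R := by
      rw [Real.div_rpow hR'.le hM.le, Real.rpow_sub hM, Real.rpow_sub hR', Real.rpow_sub hR',
        Real.rpow_one, Real.rpow_one]
      have : R ^ (2 : ℝ) = R ^ 2 := by norm_cast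
      rw [this]
      have := (Real.rpow_pos_of_pos hM β).ne'
      field_simp
    have h9 : R ^ (β - 2) * R * M = M ^ β * (R / M) ^ (β - 1) := by
      rw [← h8]; field_simp
    field_simp
    linear_combination (-p) * h9
  · intro R hR
    have := psiB_nonneg (β := β) hM hR
    have hR' : (0 : ℝ) < R := hR
    positivity
  · have h2 : Tendsto (fun R : ℝ => 1 + (R / M) ^ β) atTop atTop :=
      tendsto_atTop_add_const_left _ _ ((tendsto_rpow_atTop hβ).comp
        (tendsto_id.atTop_div_const hM))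
    exact h2.const_div_atTop _

/-- power-weighted energy on a set where `exp (re F) ≤ M` -/
lemma LogArea.energy {p : ℝ} (hp : 0 ≤ p) {F : ℂ → ℂ} (h : LogArea p F) {β M : ℝ} (hβ : 0 < β)
    (hβ2 : β ≤ 2) (hM : 0 < M) {S : Set ℂ} (hS : S ⊆ ball 0 1) (hSm : MeasurableSet S)
    (hSM : ∀ z ∈ S, Real.exp (F z).re ≤ M) :
    ∫⁻ z in S, ENNReal.ofReal (Real.exp (β * (F z).re) * ‖deriv F z‖ ^ 2)
      ≤ ENNReal.ofReal (8 * π * p * M ^ β / β) := by
  have hpi := Real.pi_pos
  have hw := h.weight hp (psiB β M) (psiB_meas β M) (psiB_anti hβ hβ2 hM)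
    (fun R hR => psiB_nonneg hM hR)
  rw [psiB_int hβ hM hp] at hw
  have h1 : ∫⁻ z in S, ENNReal.ofReal (Real.exp (β * (F z).re) * ‖deriv F z‖ ^ 2)
      ≤ ∫⁻ z in S, ENNReal.ofReal 4 * ENNReal.ofReal (psiB β M (Real.exp (F z).re) *
        (‖deriv F z‖ ^ 2 * Real.exp (2 * (F z).re))) := by
    refine setLIntegral_mono' hSm fun z hz => ?_
    rw [← ENNReal.ofReal_mul (by norm_num)]
    apply ENNReal.ofReal_le_ofReal
    set u := (F z).re with hu
    have h2 : Real.exp u / M ≤ 1 := by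
      rw [div_le_one hM]; exact hSM z hz
    have h3 : (Real.exp u / M) ^ β ≤ 1 := Real.rpow_le_one (by positivity) h2 hβ.le
    have h4 : 0 ≤ (Real.exp u / M) ^ β := by positivity
    have h5 : Real.exp u ^ (β - 2) * Real.exp (2 * u) = Real.exp (β * u) := by
      rw [← Real.exp_mul, ← Real.exp_add]
      congr 1
      ring
    have h6 : (1 + (Real.exp u / M) ^ β) ^ 2 ≤ 4 := by nlinarith
    have h7 : 4 * (psiB β M (Real.exp u) * (‖deriv F z‖ ^ 2 * Real.exp (2 * u)))
        = (4 / (1 + (Real.exp u / M) ^ β) ^ 2) * (Real.exp (β * u) * ‖deriv F z‖ ^ 2) := by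
      rw [← h5]
      unfold psiB
      ring
    rw [h7]
    have h8 : 1 ≤ 4 / (1 + (Real.exp u / M) ^ β) ^ 2 := by
      rw [le_div_iff₀ (by positivity)]; linarith
    have h9 : 0 ≤ Real.exp (β * u) * ‖deriv F z‖ ^ 2 := by positivity
    nlinarith
  refine h1.trans ?_
  rw [lintegral_const_mul' _ _ ENNReal.ofReal_ne_top]
  have h2 := (lintegral_mono_set (μ := volume) (f := fun z => ENNReal.ofReal (psiB β M (Real.exp (F z).re) *
        (‖deriv F z‖ ^ 2 * Real.exp (2 * (F z).re)))) hS).trans hw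
  refine (mul_le_mul_right h2 _).trans ?_
  rw [← ENNReal.ofReal_mul (by norm_num)]
  apply ENNReal.ofReal_le_ofReal
  apply le_of_eq
  ring

end Pool.Agent.Run7.h820
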