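import Pool.Agent.Run7.h820.Limit
import Pool.Agent.Run7.h820.Koebe

open Complex MeasureTheory Metric Set Filter Topology
open scoped ENNReal Real ComplexConjugate NNReal

set_option autoImplicit false

namespace Pool.Agent.Run7.h820

lemma rpow_le_one_add {t a : ℝ} (ht : 0 ≤ t) (ha0 : 0 ≤ a) (ha1 : a ≤ 1) : t ^ a ≤ 1 + t := by
  rcases le_total t 1 with h | h
  · have := Real.rpow_le_one ht h ha0
    linarith
  · have h1 : t ^ a ≤ t ^ (1 : ℝ) := Real.rpow_le_rpow_of_exponent_le h ha1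
    rw [Real.rpow_one] at h1
    linarith

theorem limit_pos {p : ℝ} (hp : 1 / 2 ≤ p) (hp1 : p < 1) {L : ℝ≥0∞}
    (hL : Tendsto (fun n : ℕ => A p n * ENNReal.ofReal ((n : ℝ) ^ (1 - 2 * p))) atTop (𝓝 L)) :
    L ≠ 0 := by
  rintro rfl
  have hp0 : 0 < p := by linarith
  have hkm := kp_mem hp0 hp1
  have hev : ∀ᶠ n : ℕ in atTop, A p n * ENNReal.ofReal ((n : ℝ) ^ (1 - 2 * p)) < ENNReal.ofReal (1 / 4) :=
    hL.eventually_lt_const (by simp)
  obtain ⟨n0, hn0⟩ := eventually_atTop.mp hev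
  set N0 := max n0 1 with hN0
  -- coefficients of the Koebe function are small for large `n`
  have hc : ∀ n : ℕ, N0 ≤ n → ‖coeff (kp p) n‖ ≤ 1 / 4 * (n : ℝ) ^ (2 * p - 1) := by
    intro n hn
    have hn1 : 1 ≤ n := (le_max_right _ _).trans hn
    have hnp : (0 : ℝ) < n := by exact_mod_cast hn1
    have h1 := (hn0 n ((le_max_left _ _).trans hn)).le
    have h2 := le_A_toReal hp hp1 hkm n
    have h3 : A p n = ENNReal.ofReal (A p n).toReal := (ENNReal.ofReal_toReal (A_ne_top hp hp1 n)).symm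
    rw [h3, ← ENNReal.ofReal_mul ENNReal.toReal_nonneg, ENNReal.ofReal_le_ofReal_iff (by norm_num)] at h1
    have h4 : ‖coeff (kp p) n‖ * (n : ℝ) ^ (1 - 2 * p) ≤ 1 / 4 :=
      le_trans (by gcongr) h1
    have h5 : (n : ℝ) ^ (1 - 2 * p) * (n : ℝ) ^ (2 * p - 1) = 1 := by
      rw [← Real.rpow_add hnp]; ring_nf; exact Real.rpow_zero _
    calc ‖coeff (kp p) n‖ = ‖coeff (kp p) n‖ * (n : ℝ) ^ (1 - 2 * p) * (n : ℝ) ^ (2 * p - 1) := by
          rw [mul_assoc, h5, mul_one]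
      _ ≤ 1 / 4 * (n : ℝ) ^ (2 * p - 1) := by gcongr
  set C0 : ℝ := ∑ n ∈ Finset.range N0, ‖coeff (kp p) n‖ with hC0
  have hC00 : 0 ≤ C0 := Finset.sum_nonneg fun _ _ => norm_nonneg _
  -- the key inequality
  have key : ∀ N : ℕ, 1 ≤ N → (N : ℝ) ^ (2 * p) ≤ C0 + 1 / 2 * (N : ℝ) ^ (2 * p) := by
    intro N hN
    have hNp : (0 : ℝ) < N := by exact_mod_cast hN
    have hN1 : (1 : ℝ) ≤ N := by exact_mod_cast hN
    set x : ℝ := 1 - 1 / N with hx
    have hx0 : 0 ≤ x := by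
      rw [hx, sub_nonneg, div_le_one hNp]; exact hN1
    have hx1 : x < 1 := by
      rw [hx]; have : 0 < 1 / (N : ℝ) := by positivity
      linarith
    have h1x : 1 - x = 1 / N := by rw [hx]; ring
    have hxm : (x : ℂ) ∈ ball (0 : ℂ) 1 := by
      rw [mem_ball_zero_iff, Complex.norm_real, Real.norm_eq_abs, abs_of_nonneg hx0]; exact hx1
    have hkd : DifferentiableOn ℂ (kp p) (ball 0 1) := ((mem_classS_iff hp0.le hp1).mp hkm).1
    have hs := tc_hasSum hkd hxm
    -- the majorant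
    set c : ℕ → ℝ := fun n => if n < N0 then ‖coeff (kp p) n‖ else 0 with hcdef
    have hcs : HasSum c C0 := by
      have h1 : HasSum c (∑ n ∈ Finset.range N0, c n) := by
        apply hasSum_sum_of_ne_finset_zero
        intro n hn
        rw [Finset.mem_range] at hn
        simp [hcdef, hn]
      have h2 : ∑ n ∈ Finset.range N0, c n = C0 := by
        rw [hC0]
        apply Finset.sum_congr rfl
        intro n hn
        rw [Finset.mem_range] at hn
        simp [hcdef, hn]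
      rwa [h2] at h1
    have hg1 : HasSum (fun n : ℕ => x ^ n) (1 - x)⁻¹ := hasSum_geometric_of_lt_one hx0 hx1
    have hg2 : HasSum (fun n : ℕ => (n : ℝ) * x ^ n) (x / (1 - x) ^ 2) :=
      hasSum_coe_mul_geometric_of_norm_lt_one (by rw [Real.norm_eq_abs, abs_of_nonneg hx0]; exact hx1)
    have hg3 := ((hg1.add (hg2.mul_left (1 / (N : ℝ)))).mul_left (1 / 4 * (N : ℝ) ^ (2 * p - 1)))
    have hg := hcs.add hg3
    have hbd : ∀ n : ℕ, ‖tc (kp p) n * (x : ℂ) ^ n‖ ≤ c n + 1 / 4 * (N : ℝ) ^ (2 * p - 1) *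
        (x ^ n + 1 / (N : ℝ) * (n * x ^ n)) := by
      intro n
      rw [norm_mul, norm_pow, Complex.norm_real, Real.norm_eq_abs, abs_of_nonneg hx0, ← coeff_eq_tc]
      have hxn : x ^ n ≤ 1 := pow_le_one₀ hx0 hx1.le
      have hxn0 : 0 ≤ x ^ n := by positivity
      rcases lt_or_ge n N0 with h | h
      · have h1 : c n = ‖coeff (kp p) n‖ := by simp [hcdef, h]
        rw [h1]
        have h2 : ‖coeff (kp p) n‖ * x ^ n ≤ ‖coeff (kp p) n‖ := by
          have := norm_nonneg (coeff (kp p) n)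
          nlinarith
        have h3 : 0 ≤ 1 / 4 * (N : ℝ) ^ (2 * p - 1) * (x ^ n + 1 / (N : ℝ) * (n * x ^ n)) := by
          positivity
        linarith
      · have h1 : c n = 0 := by simp [hcdef, not_lt.mpr h]
        rw [h1, zero_add]
        have h2 := hc n h
        have h3 : (n : ℝ) ^ (2 * p - 1) ≤ (N : ℝ) ^ (2 * p - 1) * (1 + n / N) := by
          have h4 := rpow_le_one_add (t := (n : ℝ) / N) (a := 2 * p - 1) (by positivity)
            (by linarith) (by linarith)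
          rw [Real.div_rpow (by positivity) hNp.le] at h4
          have h5 : 0 < (N : ℝ) ^ (2 * p - 1) := by positivity
          rw [div_le_iff₀ h5] at h4
          linarith
        calc ‖coeff (kp p) n‖ * x ^ n ≤ (1 / 4 * (n : ℝ) ^ (2 * p - 1)) * x ^ n := by gcongr
          _ ≤ (1 / 4 * ((N : ℝ) ^ (2 * p - 1) * (1 + n / N))) * x ^ n := by gcongr
          _ = _ := by ring
    have hfin := tsum_of_norm_bounded hg hbd
    rw [hs.tsum_eq, kp_real hx0 hx1] at hfin
    have h6 : (N : ℝ) ^ (2 * p) ≤ ((1 + x) / (1 - x)) ^ (2 * p) := by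
      apply Real.rpow_le_rpow hNp.le _ (by linarith)
      rw [h1x]
      have : (1 + x) / (1 / (N : ℝ)) = (1 + x) * N := by field_simp
      rw [this]
      nlinarith
    have h7 : C0 + 1 / 4 * (N : ℝ) ^ (2 * p - 1) * ((1 - x)⁻¹ + 1 / (N : ℝ) * (x / (1 - x) ^ 2))
        ≤ C0 + 1 / 2 * (N : ℝ) ^ (2 * p) := by
      have h8 : (1 - x)⁻¹ + 1 / (N : ℝ) * (x / (1 - x) ^ 2) ≤ 2 * N := by
        rw [h1x]
        have e1 : (1 / (N : ℝ))⁻¹ = N := by simp
        have e2 : 1 / (N : ℝ) * (x / (1 / N) ^ 2) = x * N := by field_simp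
        rw [e1, e2]
        nlinarith
      have h9 : (N : ℝ) ^ (2 * p) = (N : ℝ) ^ (2 * p - 1) * N := by
        have e : 2 * p = (2 * p - 1) + 1 := by ring
        conv_lhs => rw [e]
        rw [Real.rpow_add hNp, Real.rpow_one]
      rw [h9]
      have h10 : 0 < (N : ℝ) ^ (2 * p - 1) := by positivity
      calc _ ≤ C0 + 1 / 4 * (N : ℝ) ^ (2 * p - 1) * (2 * N) := by gcongr
        _ = _ := by ring
    linarith
  obtain ⟨N, hN⟩ := exists_nat_gt (2 * C0 + 1)
  have hN1 : 1 ≤ N := by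
    have : (1 : ℝ) < N := by linarith
    exact_mod_cast this.le
  have h1 := key N hN1
  have h2 : (N : ℝ) ≤ (N : ℝ) ^ (2 * p) := by
    have hN1' : (1 : ℝ) ≤ N := by exact_mod_cast hN1
    have := Real.rpow_le_rpow_of_exponent_le hN1' (by linarith : (1 : ℝ) ≤ 2 * p)
    rwa [Real.rpow_one] at this
  linarith

theorem main {p : ℝ} (hp : 1 / 2 ≤ p) (hp1 : p < 1) :
    ∃ K : ℝ, 0 < K ∧
      Tendsto (fun n : ℕ => A p n * ENNReal.ofReal ((n : ℝ) ^ (1 - 2 * p))) atTop
        (𝓝 (ENNReal.ofReal K)) := by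
  obtain ⟨L, hLt, hL⟩ := limit_exists hp hp1
  have hL0 := limit_pos hp hp1 hL
  exact ⟨L.toReal, ENNReal.toReal_pos hL0 hLt, by rwa [ENNReal.ofReal_toReal hLt]⟩

end Pool.Agent.Run7.h820
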