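import Pool.Agent.Run7.h820.Rect

open Complex MeasureTheory Metric Set Filter Topology
open scoped ENNReal Real

set_option autoImplicit false

namespace Pool.Agent.Run7.h820

/-- logarithmic derivative form `d/dξ F (exp ξ)` -/
noncomputable def G1 (F : ℂ → ℂ) (ξ : ℂ) : ℂ := deriv F (exp ξ) * exp ξ

lemma exp_mem_ball {ξ : ℂ} (h : ξ.re < 0) : exp ξ ∈ ball (0 : ℂ) 1 := by
  rw [mem_ball_zero_iff, Complex.norm_exp]
  exact Real.exp_lt_one_iff.mpr h

section
variable {F : ℂ → ℂ} (hF : DifferentiableOn ℂ F (ball 0 1))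
include hF

lemma hasDerivAt_Fexp {ξ : ℂ} (h : ξ.re < 0) : HasDerivAt (fun ξ => F (exp ξ)) (G1 F ξ) ξ := by
  have h1 : HasDerivAt F (deriv F (exp ξ)) (exp ξ) :=
    (hF.differentiableAt (isOpen_ball.mem_nhds (exp_mem_ball h))).hasDerivAt
  exact h1.comp ξ (Complex.hasDerivAt_exp ξ)

lemma hasDerivAt_G1 {ξ : ℂ} (h : ξ.re < 0) :
    HasDerivAt (G1 F) (deriv (deriv F) (exp ξ) * exp ξ * exp ξ + deriv F (exp ξ) * exp ξ) ξ := by
  have h1 : HasDerivAt (deriv F) (deriv (deriv F) (exp ξ)) (exp ξ) :=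
    ((hF.deriv isOpen_ball).differentiableAt (isOpen_ball.mem_nhds (exp_mem_ball h))).hasDerivAt
  exact (h1.comp ξ (Complex.hasDerivAt_exp ξ)).mul (Complex.hasDerivAt_exp ξ)

lemma continuousAt_G1 {ξ : ℂ} (h : ξ.re < 0) : ContinuousAt (G1 F) ξ :=
  (hasDerivAt_G1 hF h).continuousAt

lemma continuousAt_Fexp {ξ : ℂ} (h : ξ.re < 0) : ContinuousAt (fun ξ => F (exp ξ)) ξ :=
  (hasDerivAt_Fexp hF h).continuousAt

/-- the basic Green type identity -/
lemma green_id {Φ1 Φ2 : ℝ → ℝ} (h2 : ∀ v, HasDerivAt Φ1 (Φ2 v) v) (hc2 : Continuous Φ2)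
    {x0 x1 : ℝ} (hx : x0 ≤ x1) (hx1 : x1 < 0) :
    (∫ y in (0 : ℝ)..(2 * π), Φ1 (F (exp (x1 + y * I))).re * (G1 F (x1 + y * I)).re)
      - (∫ y in (0 : ℝ)..(2 * π), Φ1 (F (exp (x0 + y * I))).re * (G1 F (x0 + y * I)).re)
      = ∫ x in x0..x1, ∫ y in (0 : ℝ)..(2 * π),
          Φ2 (F (exp (x + y * I))).re * ‖G1 F (x + y * I)‖ ^ 2 := by
  have hc1 : Continuous Φ1 := continuous_iff_continuousAt.mpr fun v => (h2 v).continuousAt
  set Q : ℂ → ℂ := fun ξ => (Φ1 (F (exp ξ)).re) • G1 F ξ with hQ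
  set Q' : ℂ → ℂ →L[ℝ] ℂ := fun ξ =>
    (Φ1 (F (exp ξ)).re) • ((ContinuousLinearMap.toSpanSingleton ℂ
      (deriv (deriv F) (exp ξ) * exp ξ * exp ξ + deriv F (exp ξ) * exp ξ)).restrictScalars ℝ : ℂ →L[ℝ] ℂ)
    + ((Φ2 (F (exp ξ)).re) • (Complex.reCLM.comp
        ((ContinuousLinearMap.toSpanSingleton ℂ (G1 F ξ)).restrictScalars ℝ : ℂ →L[ℝ] ℂ))).smulRight
          (G1 F ξ) with hQ'
  have hd : ∀ ξ : ℂ, ξ.re < 0 → HasFDerivAt Q (Q' ξ) ξ := by
    intro ξ hξ
    have ha : HasFDerivAt (fun ξ => F (exp ξ))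
        ((ContinuousLinearMap.toSpanSingleton ℂ (G1 F ξ)).restrictScalars ℝ : ℂ →L[ℝ] ℂ) ξ :=
      (hasDerivAt_Fexp hF hξ).hasFDerivAt.restrictScalars ℝ
    have hb : HasFDerivAt (fun ξ => (F (exp ξ)).re) (Complex.reCLM.comp
        ((ContinuousLinearMap.toSpanSingleton ℂ (G1 F ξ)).restrictScalars ℝ : ℂ →L[ℝ] ℂ)) ξ :=
      Complex.reCLM.hasFDerivAt.comp ξ ha
    have hc : HasFDerivAt (fun ξ => Φ1 (F (exp ξ)).re) ((Φ2 (F (exp ξ)).re) • (Complex.reCLM.comp
        ((ContinuousLinearMap.toSpanSingleton ℂ (G1 F ξ)).restrictScalars ℝ : ℂ →L[ℝ] ℂ))) ξ :=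
      (h2 _).comp_hasFDerivAt ξ hb
    have he : HasFDerivAt (G1 F) ((ContinuousLinearMap.toSpanSingleton ℂ
      (deriv (deriv F) (exp ξ) * exp ξ * exp ξ + deriv F (exp ξ) * exp ξ)).restrictScalars ℝ : ℂ →L[ℝ] ℂ) ξ :=
      (hasDerivAt_G1 hF hξ).hasFDerivAt.restrictScalars ℝ
    exact hc.smul he
  have hval : ∀ ξ : ℂ, I • Q' ξ 1 - Q' ξ I = I * ((Φ2 (F (exp ξ)).re * ‖G1 F ξ‖ ^ 2 : ℝ) : ℂ) := by
    intro ξ
    simp only [hQ', _root_.add_apply, _root_.smul_apply,
      ContinuousLinearMap.coe_restrictScalars', ContinuousLinearMap.toSpanSingleton_apply,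
      ContinuousLinearMap.smulRight_apply, ContinuousLinearMap.comp_apply, Complex.reCLM_apply,
      smul_eq_mul, one_mul]
    rw [← Complex.normSq_eq_norm_sq, Complex.normSq_apply]
    apply Complex.ext <;> simp <;> ring
  have hre : ∀ ξ : ℂ, ξ.re ∈ uIcc x0 x1 → ξ.re < 0 := by
    intro ξ hξ
    rw [uIcc_of_le hx] at hξ
    exact lt_of_le_of_lt hξ.2 hx1
  have hcont : ∀ ξ : ℂ, ξ.re < 0 → ContinuousAt
      (fun ξ => I * ((Φ2 (F (exp ξ)).re * ‖G1 F ξ‖ ^ 2 : ℝ) : ℂ)) ξ := by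
    intro ξ hξ
    have h3 := continuousAt_Fexp hF hξ
    have h4 := continuousAt_G1 hF hξ
    have h5 : ContinuousAt (fun ξ => Φ2 (F (exp ξ)).re) ξ :=
      hc2.continuousAt.comp (Complex.continuous_re.continuousAt.comp h3)
    exact continuousAt_const.mul (Complex.continuous_ofReal.continuousAt.comp (h5.mul (h4.norm.pow 2)))
  have key := Complex.integral_boundary_rect_of_hasFDerivAt_real_off_countable Q Q'
    (x0 + (0 : ℝ) * I) (x1 + (2 * π : ℝ) * I) ∅ countable_empty ?_ ?_ ?_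
  · simp only [Complex.add_re, Complex.ofReal_re, Complex.mul_re, Complex.I_re, mul_zero,
      Complex.ofReal_im, Complex.I_im, mul_one, sub_self, add_zero, Complex.add_im,
      Complex.mul_im, zero_add, zero_mul] at key
    have hper : ∀ x : ℝ, Q (x + ((2 * π : ℝ) : ℂ) * I) = Q (x + ((0 : ℝ) : ℂ) * I) := by
      intro x
      have : exp ((x : ℂ) + ((2 * π : ℝ) : ℂ) * I) = exp ((x : ℂ) + ((0 : ℝ) : ℂ) * I) := by
        rw [Complex.exp_add, Complex.exp_add]
        congr 1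
        push_cast
        rw [Complex.exp_two_pi_mul_I, zero_mul, Complex.exp_zero]
      simp only [hQ, G1, this]
    simp only [hper, sub_self, zero_add] at key
    have hr : ∀ x y : ℝ, I • Q' (x + y * I) 1 - Q' (x + y * I) I =
        I * ((Φ2 (F (exp (x + y * I))).re * ‖G1 F (x + y * I)‖ ^ 2 : ℝ) : ℂ) := fun x y => hval _
    simp only [hr, intervalIntegral.integral_const_mul, intervalIntegral.integral_ofReal] at key
    simp only [smul_eq_mul] at key
    rw [← mul_sub] at key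
    have key2 := mul_left_cancel₀ Complex.I_ne_zero key
    have key3 := congrArg Complex.re key2
    rw [Complex.sub_re, Complex.ofReal_re] at key3
    rw [← key3]
    have hci : ∀ x : ℝ, x < 0 → IntervalIntegrable (fun y : ℝ => Q (x + y * I)) volume 0 (2 * π) := by
      intro x hx
      apply ContinuousOn.intervalIntegrable
      intro y _
      apply ContinuousAt.continuousWithinAt
      have hx' : ((x : ℂ) + y * I).re < 0 := by simpa using hx
      have h6 : ContinuousAt Q ((x : ℂ) + y * I) := (hd _ hx').continuousAt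
      exact h6.comp (f := fun y : ℝ => (x : ℂ) + y * I) (by fun_prop)
    have hre2 : ∀ x : ℝ, x < 0 → (∫ y in (0 : ℝ)..(2 * π), Q (x + y * I)).re
        = ∫ y in (0 : ℝ)..(2 * π), Φ1 (F (exp (x + y * I))).re * (G1 F (x + y * I)).re := by
      intro x hx
      have := Complex.reCLM.intervalIntegral_comp_comm (hci x hx)
      rw [Complex.reCLM_apply] at this
      rw [← this]
      apply intervalIntegral.integral_congr
      intro y _
      simp [hQ]
    rw [hre2 x1 hx1, hre2 x0 (lt_of_le_of_lt hx hx1)]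
  · intro ξ hξ
    have hξ' : ξ.re < 0 := by
      apply hre ξ
      simpa using hξ.1
    exact (hd ξ hξ').continuousAt.continuousWithinAt
  · intro ξ hξ
    have hξ' : ξ.re < 0 := by
      have := hξ.1.1
      simp only [mem_preimage, Complex.add_re, Complex.ofReal_re, Complex.mul_re, Complex.I_re,
        mul_zero, Complex.ofReal_im, Complex.I_im, mul_one, sub_self, add_zero] at this
      rw [max_eq_right hx] at this
      exact this.2.trans hx1
    exact hd ξ hξ'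
  · have heq : (fun z => I • Q' z 1 - Q' z I) =
      (fun ξ => I * ((Φ2 (F (exp ξ)).re * ‖G1 F ξ‖ ^ 2 : ℝ) : ℂ)) := by
      funext ξ; exact hval ξ
    rw [heq]
    refine ContinuousOn.integrableOn_compact (isCompact_uIcc.reProdIm isCompact_uIcc) ?_
    intro ξ hξ
    have hξ' : ξ.re < 0 := by
      apply hre ξ
      simpa using hξ.1
    exact (hcont ξ hξ').continuousWithinAt

end

end Pool.Agent.Run7.h820
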