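import Pool.Agent.Run7.h820.LogArea
import Pool.Agent.Run7.h820.Moebius
import Pool.Agent.Run7.h820.Dufresnoy

open Complex MeasureTheory Metric Set Filter Topology
open scoped ENNReal Real ComplexConjugate

set_option autoImplicit false

namespace Pool.Agent.Run7.h820

lemma lint_Ioi_eq {g g' : ℝ → ℝ} {l : ℝ} (hcont : ContinuousWithinAt g (Ici 0) 0)
    (hderiv : ∀ x ∈ Ioi (0 : ℝ), HasDerivAt g (g' x) x) (hpos : ∀ x ∈ Ioi (0 : ℝ), 0 ≤ g' x)
    (hlim : Tendsto g atTop (𝓝 l)) :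
    ∫⁻ x in Ioi (0 : ℝ), ENNReal.ofReal (g' x) = ENNReal.ofReal (l - g 0) := by
  rw [← integral_Ioi_of_hasDerivAt_of_nonneg hcont hderiv hpos hlim]
  rw [ofReal_integral_eq_lintegral_ofReal
    (integrableOn_Ioi_deriv_of_nonneg hcont hderiv hpos hlim)]
  exact (ae_restrict_iff' measurableSet_Ioi).mpr (ae_of_all _ hpos)

/-- the weight for the distortion estimate at the centre -/
noncomputable def psiG (p R : ℝ) : ℝ := (1 / p ^ 2) * R ^ (1 / p - 2) / (1 + R ^ (1 / p)) ^ 2

lemma psiG_meas (p : ℝ) : Measurable (psiG p) := by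
  unfold psiG
  fun_prop

lemma psiG_anti {p : ℝ} (hp : 1 / 2 ≤ p) : AntitoneOn (psiG p) (Ioi 0) := by
  intro a ha b hb hab
  have ha' : (0 : ℝ) < a := ha
  have hb' : (0 : ℝ) < b := hb
  have hp0 : 0 < p := by linarith
  have h1 : b ^ (1 / p - 2) ≤ a ^ (1 / p - 2) := by
    apply Real.rpow_le_rpow_of_nonpos ha' hab
    have : 1 / p ≤ 2 := by
      rw [div_le_iff₀ hp0]; linarith
    linarith
  have h2 : a ^ (1 / p) ≤ b ^ (1 / p) := Real.rpow_le_rpow ha'.le hab (by positivity)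
  have h3 : 0 ≤ a ^ (1 / p) := Real.rpow_nonneg ha'.le _
  unfold psiG
  apply div_le_div₀
  · positivity
  · exact mul_le_mul_of_nonneg_left h1 (by positivity)
  · positivity
  · gcongr

lemma psiG_nonneg (p R : ℝ) (hR : 0 < R) : 0 ≤ psiG p R := by
  unfold psiG
  positivity

lemma psiG_int {p : ℝ} (hp : 0 < p) :
    ∫⁻ R in Ioi (0 : ℝ), ENNReal.ofReal (psiG p R * (2 * (π * p) * R)) = ENNReal.ofReal (2 * π) := by
  have hpi := Real.pi_pos
  have h1 := lint_Ioi_eq (g := fun R => - (2 * π) / (1 + R ^ (1 / p)))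
    (g' := fun R => psiG p R * (2 * (π * p) * R)) (l := 0) ?_ ?_ ?_ ?_
  · rw [h1]
    congr 1
    rw [Real.zero_rpow (by positivity)]
    ring
  · apply ContinuousAt.continuousWithinAt
    have h2 : ContinuousAt (fun R : ℝ => R ^ (1 / p)) 0 :=
      Real.continuousAt_rpow_const _ _ (Or.inr (by positivity))
    have h3 : ContinuousAt (fun R : ℝ => 1 + R ^ (1 / p)) 0 := continuousAt_const.add h2
    apply ContinuousAt.div continuousAt_const h3
    rw [Real.zero_rpow (by positivity)]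
    norm_num
  · intro R hR
    have hR' : (0 : ℝ) < R := hR
    have h2 : HasDerivAt (fun R : ℝ => R ^ (1 / p)) ((1 / p) * R ^ (1 / p - 1)) R :=
      Real.hasDerivAt_rpow_const (Or.inl hR'.ne')
    have h3 : (1 + R ^ (1 / p)) ≠ 0 := by positivity
    have h4 := (h2.const_add 1).inv h3
    have h5 := h4.const_mul (-(2 * π))
    have h7 : (fun y : ℝ => -(2 * π) * ((fun R : ℝ => 1 + R ^ (1 / p))⁻¹) y) =
      fun R => - (2 * π) / (1 + R ^ (1 / p)) := by
      funext R; rw [Pi.inv_apply, ← div_eq_mul_inv]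
    rw [h7] at h5
    refine h5.congr_deriv ?_
    unfold psiG
    have h8 : R ^ (1 / p - 2) * R = R ^ (1 / p - 1) := by
      have : R ^ (1 / p - 1) = R ^ (1 / p - 2 + 1) := by ring_nf
      rw [this, Real.rpow_add hR', Real.rpow_one]
    rw [← h8]
    field_simp
  · intro R hR
    have := psiG_nonneg p R hR
    have hR' : (0 : ℝ) < R := hR
    positivity
  · have h2 : Tendsto (fun R : ℝ => 1 + R ^ (1 / p)) atTop atTop :=
      tendsto_atTop_add_const_left _ _ (tendsto_rpow_atTop (by positivity))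
    exact h2.const_div_atTop _

/-- sharp distortion at the centre -/
lemma LogArea.deriv_zero_le {p : ℝ} (hp : 1 / 2 ≤ p) {F : ℂ → ℂ} (h : LogArea p F) :
    ‖deriv F 0‖ ≤ 4 * p := by
  have hp0 : 0 < p := by linarith
  set H : ℂ → ℂ := fun z => F z - F 0 with hH
  have hLH : LogArea p H := h.sub_const (F 0)
  set G : ℂ → ℂ := fun z => H z / (2 * p : ℝ) with hG
  have hG0 : (G 0).re = 0 := by simp [hG, hH]
  have hGd : DifferentiableOn ℂ G (ball 0 1) := hLH.diff.div_const _
  have hdG : ∀ z ∈ ball (0 : ℂ) 1, deriv G z = deriv H z / (2 * p : ℝ) := by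
    intro z hz
    exact ((hLH.hasDerivAt hz).div_const _).deriv
  have key := dufresnoy hGd hG0 ?_
  · have h0 : (0 : ℂ) ∈ ball (0 : ℂ) 1 := by simp
    rw [hdG 0 h0, norm_div, Complex.norm_real, Real.norm_eq_abs, abs_of_pos (by positivity),
      div_le_iff₀ (by positivity)] at key
    have h1 : deriv H 0 = deriv F 0 := by
      simp only [hH, deriv_sub_const]
    rw [h1] at key
    linarith
  · have hw := hLH.weight hp0.le (psiG p) (psiG_meas p) (psiG_anti hp) (fun R hR => psiG_nonneg p R hR)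
    rw [psiG_int hp0] at hw
    refine le_trans (le_of_eq ?_) hw
    refine setLIntegral_congr_fun measurableSet_ball fun z hz => ?_
    congr 1
    rw [hdG z hz, norm_div, Complex.norm_real, Real.norm_eq_abs, abs_of_pos (by positivity : 0 < 2 * p)]
    set u := (H z).re with hu
    have h1 : (G z).re = u / (2 * p) := by
      simp only [hG]
      rw [Complex.div_ofReal_re]
    rw [h1]
    unfold psiG Ph2
    have h2 : Real.exp u ^ (1 / p) = Real.exp (2 * (u / (2 * p))) := by
      rw [← Real.exp_mul]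
      congr 1
      field_simp
    have h3 : Real.exp u ^ (1 / p - 2) * Real.exp (2 * u) = Real.exp (2 * (u / (2 * p))) := by
      rw [Real.rpow_sub (Real.exp_pos _), h2]
      have : Real.exp u ^ (2 : ℝ) = Real.exp (2 * u) := by
        rw [← Real.exp_mul]; ring_nf
      rw [this, div_mul_cancel₀ _ (Real.exp_pos _).ne']
    rw [h2]
    have h4 : 1 / p ^ 2 * Real.exp u ^ (1 / p - 2) / (1 + Real.exp (2 * (u / (2 * p)))) ^ 2 *
        (‖deriv H z‖ ^ 2 * Real.exp (2 * u)) = 1 / p ^ 2 * (Real.exp u ^ (1 / p - 2) * Real.exp (2 * u)) /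
          (1 + Real.exp (2 * (u / (2 * p)))) ^ 2 * ‖deriv H z‖ ^ 2 := by ring
    rw [h4, h3]
    field_simp
    ring

/-- sharp distortion in the disc -/
lemma LogArea.deriv_le {p : ℝ} (hp : 1 / 2 ≤ p) {F : ℂ → ℂ} (h : LogArea p F) {z : ℂ} (hz : ‖z‖ < 1) :
    ‖deriv F z‖ * (1 - ‖z‖ ^ 2) ≤ 4 * p := by
  have h1 := (h.comp (mob_diff hz) (mob_mapsTo hz) (mob_injOn hz)).deriv_zero_le hp
  have hz' : z ∈ ball (0 : ℂ) 1 := by simpa using hz
  have h2 : HasDerivAt (mob z) ((1 - ‖z‖ ^ 2 : ℝ) / (1 + conj z * 0) ^ 2) 0 :=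
    mob_hasDerivAt hz (by simp)
  have h3 : HasDerivAt (fun w => F (mob z w)) (deriv F z * ((1 - ‖z‖ ^ 2 : ℝ) / (1 + conj z * 0) ^ 2)) 0 := by
    have h4 : HasDerivAt F (deriv F z) (mob z 0) := by
      rw [mob_zero]; exact h.hasDerivAt hz'
    exact h4.comp 0 h2
  rw [h3.deriv] at h1
  simp only [mul_zero, add_zero, one_pow, div_one, norm_mul, Complex.norm_real] at h1
  rw [Real.norm_eq_abs, abs_of_nonneg (by nlinarith [norm_nonneg z])] at h1
  exact h1

end Pool.Agent.Run7.h820
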