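import Pool.Agent.Run7.h820.Growth

open Complex MeasureTheory Metric Set Filter Topology
open scoped ENNReal Real ComplexConjugate

set_option autoImplicit false

namespace Pool.Agent.Run7.h820

noncomputable def hyp (t : ℝ) : ℝ := Real.log ((1 + t) / (1 - t))

lemma hyp_hasDerivAt {t : ℝ} (h0 : -1 < t) (h1 : t < 1) : HasDerivAt hyp (2 / (1 - t ^ 2)) t := by
  have h2 : HasDerivAt (fun t : ℝ => 1 + t) 1 t := (hasDerivAt_id t).const_add 1
  have h3 : HasDerivAt (fun t : ℝ => 1 - t) (-1) t := (hasDerivAt_id t).const_sub 1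
  have h4 : (1 - t) ≠ 0 := by linarith
  have h5 : (1 + t) ≠ 0 := by linarith
  have h6 := (h2.div h3 h4).log (div_ne_zero h5 h4)
  refine h6.congr_deriv ?_
  have h7 : 1 - t ^ 2 = (1 - t) * (1 + t) := by ring
  rw [h7]
  simp only [Pi.div_apply]
  field_simp
  ring

lemma hyp_zero : hyp 0 = 0 := by simp [hyp]

lemma norm_ofReal_mul_unit {ζ : ℂ} (hζ : ‖ζ‖ = 1) {t : ℝ} (ht : 0 ≤ t) : ‖(t : ℂ) * ζ‖ = t := by
  rw [norm_mul, hζ, mul_one, Complex.norm_real, Real.norm_eq_abs, abs_of_nonneg ht]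

lemma LogArea.radial {p : ℝ} (hp : 1 / 2 ≤ p) {F : ℂ → ℂ} (h : LogArea p F) {ζ : ℂ} (hζ : ‖ζ‖ = 1)
    {a b : ℝ} (ha : 0 ≤ a) (hab : a ≤ b) (hb : b < 1) :
    |(F (b * ζ)).re - (F (a * ζ)).re| ≤ 2 * p * (hyp b - hyp a) := by
  have hd : ∀ t ∈ Icc a b, HasDerivAt (fun t : ℝ => (F (t * ζ)).re) (deriv F (t * ζ) * ζ).re t := by
    intro t ht
    have hn : ‖(t : ℂ) * ζ‖ = t := norm_ofReal_mul_unit hζ (ha.trans ht.1)
    have hz : (t : ℂ) * ζ ∈ ball (0 : ℂ) 1 := by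
      rw [mem_ball_zero_iff, hn]; linarith [ht.2]
    have h3 : HasDerivAt (fun t : ℝ => (t : ℂ) * ζ) (1 * ζ) t :=
      (Complex.ofRealCLM.hasDerivAt (x := t)).mul_const ζ
    have h4 := (h.hasDerivAt hz).comp_of_eq (𝕜 := ℝ) t h3 rfl
    have h7 := Complex.reCLM.hasFDerivAt.comp_hasDerivAt t h4
    exact h7.congr_deriv (by simp)
  have hb1 : ∀ t ∈ Icc a b, |(deriv F (t * ζ) * ζ).re| ≤ 2 * p * (2 / (1 - t ^ 2)) := by
    intro t ht
    have hn : ‖(t : ℂ) * ζ‖ = t := norm_ofReal_mul_unit hζ (ha.trans ht.1)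
    have ht1 : t < 1 := by linarith [ht.2]
    have ht0 : 0 ≤ t := ha.trans ht.1
    have h5 := h.deriv_le hp (z := (t : ℂ) * ζ) (by rw [hn]; exact ht1)
    rw [hn] at h5
    have h6 : 0 < 1 - t ^ 2 := by nlinarith
    calc |(deriv F (t * ζ) * ζ).re| ≤ ‖deriv F (t * ζ) * ζ‖ := Complex.abs_re_le_norm _
      _ = ‖deriv F (t * ζ)‖ := by rw [norm_mul, hζ, mul_one]
      _ ≤ 4 * p / (1 - t ^ 2) := by rw [le_div_iff₀ h6]; exact h5
      _ = 2 * p * (2 / (1 - t ^ 2)) := by ring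
  have hdh : ∀ t ∈ Icc a b, HasDerivAt hyp (2 / (1 - t ^ 2)) t := fun t ht =>
    hyp_hasDerivAt (by linarith [ht.1]) (by linarith [ht.2])
  have key : ∀ σ : ℝ, |σ| = 1 → σ * ((F (b * ζ)).re - (F (a * ζ)).re) ≤ 2 * p * (hyp b - hyp a) := by
    intro σ hσ
    have hu : ∀ t ∈ Icc a b, HasDerivAt (fun t : ℝ => 2 * p * hyp t - σ * (F (t * ζ)).re)
        (2 * p * (2 / (1 - t ^ 2)) - σ * (deriv F (t * ζ) * ζ).re) t := fun t ht =>
      ((hdh t ht).const_mul _).sub ((hd t ht).const_mul _)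
    have hmono : MonotoneOn (fun t : ℝ => 2 * p * hyp t - σ * (F (t * ζ)).re) (Icc a b) := by
      apply monotoneOn_of_deriv_nonneg (convex_Icc a b)
      · exact fun t ht => (hu t ht).continuousAt.continuousWithinAt
      · intro t ht
        exact (hu t (interior_subset ht)).differentiableAt.differentiableWithinAt
      · intro t ht
        rw [(hu t (interior_subset ht)).deriv]
        have h8 := hb1 t (interior_subset ht)
        have h9 : σ * (deriv F (t * ζ) * ζ).re ≤ |(deriv F (t * ζ) * ζ).re| := by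
          calc σ * (deriv F (t * ζ) * ζ).re ≤ |σ * (deriv F (t * ζ) * ζ).re| := le_abs_self _
            _ = |(deriv F (t * ζ) * ζ).re| := by rw [abs_mul, hσ, one_mul]
        linarith
    have := hmono (left_mem_Icc.mpr hab) (right_mem_Icc.mpr hab) hab
    simp only at this
    linarith
  rw [abs_le]
  have k1 := key 1 (by simp)
  have k2 := key (-1) (by simp)
  constructor <;> linarith

/-- growth from the centre -/
lemma LogArea.growth {p : ℝ} (hp : 1 / 2 ≤ p) {F : ℂ → ℂ} (h : LogArea p F) {z : ℂ} (hz : ‖z‖ < 1) :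
    |(F z).re - (F 0).re| ≤ 2 * p * hyp ‖z‖ := by
  rcases eq_or_ne z 0 with rfl | hz0
  · simp [hyp_zero]
  · have hn : (‖z‖ : ℂ) ≠ 0 := by simpa using hz0
    have h1 := h.radial hp (ζ := z / ‖z‖) (by
      rw [norm_div, Complex.norm_real, norm_norm, div_self (by simpa using hz0)]) le_rfl
      (norm_nonneg z) hz
    rw [hyp_zero, sub_zero, mul_div_cancel₀ _ hn] at h1
    simpa using h1

lemma hyp_le {t : ℝ} (h0 : 0 ≤ t) (h1 : t < 1) : hyp t ≤ Real.log (2 / (1 - t)) := by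
  unfold hyp
  apply Real.log_le_log
  · apply div_pos <;> linarith
  · have : 0 < 1 - t := by linarith
    gcongr
    linarith

lemma LogArea.exp_le {p : ℝ} (hp : 1 / 2 ≤ p) {F : ℂ → ℂ} (h : LogArea p F) (h0 : (F 0).re = 0)
    {z : ℂ} {δ : ℝ} (hδ : 0 < δ) (hz : ‖z‖ ≤ 1 - δ) :
    Real.exp (F z).re ≤ (2 / δ) ^ (2 * p) := by
  have hz1 : ‖z‖ < 1 := by linarith
  have h1 := h.growth hp hz1
  rw [h0, sub_zero] at h1
  have h2 := le_trans (le_abs_self _) h1
  have h3 := hyp_le (norm_nonneg z) hz1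
  have h4 : Real.log (2 / (1 - ‖z‖)) ≤ Real.log (2 / δ) := by
    apply Real.log_le_log
    · apply div_pos <;> linarith
    · gcongr; linarith
  rw [Real.rpow_def_of_pos (by positivity)]
  apply Real.exp_le_exp.mpr
  have hp0 : 0 ≤ 2 * p := by linarith
  calc (F z).re ≤ 2 * p * hyp ‖z‖ := h2
    _ ≤ 2 * p * Real.log (2 / δ) := by gcongr; linarith
    _ = Real.log (2 / δ) * (2 * p) := by ring

/-- Lipschitz estimate -/
lemma LogArea.lip {p : ℝ} (hp : 1 / 2 ≤ p) {F : ℂ → ℂ} (h : LogArea p F) {δ : ℝ} (hδ : 0 < δ)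
    {a b : ℂ} (ha : ‖a‖ ≤ 1 - δ) (hb : ‖b‖ ≤ 1 - δ) :
    ‖F b - F a‖ ≤ 4 * p / δ * ‖b - a‖ := by
  have hsub : ∀ z ∈ closedBall (0 : ℂ) (1 - δ), ‖z‖ ≤ 1 - δ ∧ ‖z‖ < 1 := by
    intro z hz
    rw [mem_closedBall_zero_iff] at hz
    exact ⟨hz, by linarith⟩
  apply (convex_closedBall (0 : ℂ) (1 - δ)).norm_image_sub_le_of_norm_deriv_le (𝕜 := ℂ)
  · intro z hz
    exact (h.hasDerivAt (by simpa using (hsub z hz).2)).differentiableAt
  · intro z hz
    obtain ⟨h1, h2⟩ := hsub z hz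
    have h3 := h.deriv_le hp h2
    rw [le_div_iff₀ hδ]
    refine le_trans ?_ h3
    gcongr
    nlinarith [norm_nonneg z]
  · simpa using ha
  · simpa using hb

end Pool.Agent.Run7.h820
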