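import Pool.Agent.Run7.h820.TwoSector

open Complex MeasureTheory Metric Set Filter Topology
open scoped ENNReal Real ComplexConjugate

set_option autoImplicit false

namespace Pool.Agent.Run7.h820

lemma one_sub_exp_neg_ge {x : ℝ} (h0 : 0 ≤ x) (h1 : x ≤ 1) : x / 2 ≤ 1 - Real.exp (-x) := by
  have h2 : Real.exp (-x) ≤ 1 / (1 + x) := by
    rw [Real.exp_neg, ← one_div]
    apply one_div_le_one_div_of_le (by linarith)
    linarith [Real.add_one_le_exp x]
  have h3 : 1 / (1 + x) ≤ 1 - x / 2 := by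
    rw [div_le_iff₀ (by linarith)]
    nlinarith
  linarith

lemma one_sub_exp_neg_le (x : ℝ) : 1 - Real.exp (-x) ≤ x := by
  linarith [Real.add_one_le_exp (-x)]

lemma norm_one_sub_exp_I_ge {θ : ℝ} (h : |θ| ≤ π) : 2 * |θ| / π ≤ ‖(1 : ℂ) - exp (θ * I)‖ := by
  have hpi := Real.pi_pos
  have h1 : ‖(1 : ℂ) - exp (θ * I)‖ = 2 * |Real.sin (θ / 2)| := by
    rw [norm_sub_rev, mul_comm, Complex.norm_exp_I_mul_ofReal_sub_one, Real.norm_eq_abs, abs_mul,
      abs_of_pos (by norm_num : (0 : ℝ) < 2)]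
  have h2 : |Real.sin (θ / 2)| = Real.sin (|θ| / 2) := by
    have h3 : |θ| / 2 = |θ / 2| := by rw [abs_div, abs_of_pos (by norm_num : (0 : ℝ) < 2)]
    rw [h3]
    rcases le_or_gt 0 (θ / 2) with h4 | h4
    · rw [abs_of_nonneg h4, abs_of_nonneg]
      apply Real.sin_nonneg_of_nonneg_of_le_pi h4
      rw [abs_le] at h; linarith
    · rw [abs_of_neg h4, Real.sin_neg, abs_of_nonpos]
      apply Real.sin_nonpos_of_nonpos_of_neg_pi_le h4.le
      rw [abs_le] at h; linarith
  have h3 := Real.mul_le_sin (x := |θ| / 2) (by positivity) (by linarith)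
  rw [h1, h2]
  calc 2 * |θ| / π = 2 * (2 / π * (|θ| / 2)) := by ring
    _ ≤ _ := by gcongr

/-- points of a sector at level `t` versus the radial point -/
lemma LogArea.sec_lip {p : ℝ} (hp : 1 / 2 ≤ p) {F : ℂ → ℂ} (h : LogArea p F) {ζ : ℂ} (hζ : ‖ζ‖ = 1)
    {φ0 : ℝ} (h0 : 0 < φ0) (hφ : φ0 < π / 2) {a y : ℝ} (ha : Real.exp a ≤ Real.cos φ0)
    (hy : y ∈ Icc (-φ0) φ0) :
    |(F (sec ζ (a + y * I))).re - (F (ζ * (1 - Real.exp a))).re| ≤ 16 * p / Real.cos φ0 := by
  have hpi := Real.pi_pos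
  set c := Real.cos φ0 with hc
  have hc0 : 0 < c := Real.cos_pos_of_mem_Ioo ⟨by linarith, hφ⟩
  have him : |((a : ℂ) + y * I).im| ≤ φ0 := by
    simp only [add_im, ofReal_im, mul_im, ofReal_re, I_im, mul_one, I_re, mul_zero, add_zero,
      zero_add]
    exact abs_le.mpr hy
  have hre : Real.exp ((a : ℂ) + y * I).re ≤ c := by
    simp only [add_re, ofReal_re, mul_re, I_re, mul_zero, ofReal_im, I_im, mul_one, sub_self,
      add_zero]
    exact ha
  have hre' : ((a : ℂ) + y * I).re = a := by simp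
  have h1 := sec_norm_le hζ hφ him hre
  rw [hre'] at h1
  have h2 : sec ζ a = ζ * (1 - Real.exp a) := by
    rw [sec, Complex.ofReal_exp]
  have h3 := sec_norm_le (ξ := (a : ℂ)) hζ hφ (by simpa using h0.le) (by simpa using ha)
  simp only [ofReal_re] at h3
  rw [← h2]
  have hea := Real.exp_pos a
  have hδ : 0 < Real.exp a * c / 2 := by positivity
  have h4 := h.lip hp hδ h3 h1
  have h5 : ‖sec ζ (a + y * I) - sec ζ a‖ ≤ 2 * Real.exp a := by
    have : sec ζ (a + y * I) - sec ζ a = ζ * (exp a - exp (a + y * I)) := by unfold sec; ring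
    rw [this, norm_mul, hζ, one_mul]
    refine (norm_sub_le _ _).trans ?_
    rw [Complex.norm_exp, Complex.norm_exp, hre']
    simp only [ofReal_re]
    linarith
  calc |(F (sec ζ (a + y * I))).re - (F (sec ζ a)).re|
      = |(F (sec ζ (a + y * I)) - F (sec ζ a)).re| := by rw [Complex.sub_re]
    _ ≤ ‖F (sec ζ (a + y * I)) - F (sec ζ a)‖ := Complex.abs_re_le_norm _
    _ ≤ 4 * p / (Real.exp a * c / 2) * ‖sec ζ (a + y * I) - sec ζ a‖ := h4
    _ ≤ 4 * p / (Real.exp a * c / 2) * (2 * Real.exp a) := by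
        have : 0 ≤ p := by linarith
        gcongr
    _ = 16 * p / c := by field_simp; ring

/-- lower bound along the radius of maximal growth -/
lemma LogArea.radial_lower {p : ℝ} (hp : 1 / 2 ≤ p) {F : ℂ → ℂ} (h : LogArea p F)
    {e0 : ℝ} {m : ℝ} (hm : 1 ≤ m)
    (hbig : Real.log e0 + 2 * p * Real.log m ≤ (F (Real.exp (-(1 / m)))).re)
    {s : ℝ} (hs : 1 - Real.exp (-(1 / m)) ≤ s) (hs1 : s ≤ 1) :
    Real.log e0 - 2 * p * Real.log 4 - 2 * p * Real.log s ≤ (F ((1 - s : ℝ))).re := by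
  set r0 := Real.exp (-(1 / m)) with hr0
  have hm0 : 0 < m := by linarith
  have hr0pos : 0 < r0 := Real.exp_pos _
  have ht1 : 1 / m / 2 ≤ 1 - r0 := one_sub_exp_neg_ge (by positivity) (by rw [div_le_one hm0]; exact hm)
  have htpos : 0 < 1 - r0 := lt_of_lt_of_le (by positivity) ht1
  have hs0 : 0 < s := by linarith
  have h1 := h.radial hp (ζ := 1) (by simp) (a := 1 - s) (b := r0) (by linarith) (by linarith) (by linarith)
  rw [mul_one, mul_one] at h1
  have h2 := (abs_le.mp h1).2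
  have h3 : hyp r0 ≤ Real.log (4 * m) := by
    refine (hyp_le hr0pos.le (by linarith)).trans ?_
    apply Real.log_le_log (by positivity)
    rw [div_le_iff₀ htpos]
    calc (2 : ℝ) = 4 * m * (1 / m / 2) := by field_simp; norm_num
      _ ≤ 4 * m * (1 - r0) := by gcongr
  have h4 : -Real.log s ≤ hyp (1 - s) := by
    unfold hyp
    rw [← Real.log_inv]
    apply Real.log_le_log (by positivity)
    have : 1 - (1 - s) = s := by ring
    rw [this, inv_eq_one_div]
    gcongr
    linarith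
  have h5 : Real.log (4 * m) = Real.log 4 + Real.log m := Real.log_mul (by norm_num) hm0.ne'
  rw [h5] at h3
  have hp2 : 0 ≤ 2 * p := by linarith
  have h6 : 2 * p * (hyp r0 - hyp (1 - s)) ≤ 2 * p * (Real.log 4 + Real.log m + Real.log s) := by
    gcongr
    linarith
  linarith

/-- the real-variable endgame -/
lemma endgame {p e L C1 X1 X2 φ0 : ℝ} (hp : 1 / 2 ≤ p) (hp1 : p ≤ 1) (he : e = 1 / 128)
    (hφ0 : φ0 = π / (2 + 2 * e)) (hC1 : 0 ≤ C1) (hL4 : 2 * Real.log 4 ≤ L)
    (hLC : (2 * Real.log 4 + C1) / e ≤ L) (hX1 : 0 < X1) (hX1' : X1 ≤ (L + C1) / (2 * p))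
    (hX2 : 0 < X2)
    (hmain : 2 * φ0 * (L - Real.log 4) ^ 2 * (1 / X1 + 1 / X2) ≤ 2 * π * p * L) :
    L ≤ X2 / 8 := by
  have hpi := Real.pi_pos
  have he0 : 0 < e := by rw [he]; norm_num
  have hlog4 : 0 < Real.log 4 := Real.log_pos (by norm_num)
  set a := Real.log 4 with ha
  have hL0 : 0 < L := by linarith
  have hφpos : 0 < φ0 := by rw [hφ0]; positivity
  have h1 : (L - a) ^ 2 * (1 / X1 + 1 / X2) ≤ (1 + e) * (2 * p * L) := by
    have h2 : 2 * φ0 * ((L - a) ^ 2 * (1 / X1 + 1 / X2)) ≤ 2 * φ0 * ((1 + e) * (2 * p * L)) := by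
      calc 2 * φ0 * ((L - a) ^ 2 * (1 / X1 + 1 / X2)) = 2 * φ0 * (L - a) ^ 2 * (1 / X1 + 1 / X2) := by ring
        _ ≤ 2 * π * p * L := hmain
        _ = 2 * φ0 * ((1 + e) * (2 * p * L)) := by
          rw [hφ0]
          have : (2 + 2 * e) ≠ 0 := by positivity
          field_simp
    exact le_of_mul_le_mul_left h2 (by positivity)
  have hLC1 : 0 < L + C1 := by linarith
  have h3 : 2 * p / (L + C1) ≤ 1 / X1 := by
    rw [div_le_div_iff₀ hLC1 hX1]
    rw [le_div_iff₀ (by positivity)] at hX1'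
    linarith
  have h4 : 2 * p * (L - 2 * a - C1) ≤ (L - a) ^ 2 * (2 * p / (L + C1)) := by
    have : (L - 2 * a - C1) ≤ (L - a) ^ 2 / (L + C1) := by
      rw [le_div_iff₀ hLC1]
      nlinarith
    calc 2 * p * (L - 2 * a - C1) ≤ 2 * p * ((L - a) ^ 2 / (L + C1)) := by gcongr
      _ = _ := by ring
  have h5 : (L - a) ^ 2 * (2 * p / (L + C1)) ≤ (L - a) ^ 2 * (1 / X1) := by gcongr
  have h6 : (L - a) ^ 2 / X2 ≤ 2 * p * (e * L + (2 * a + C1)) := by
    have : (L - a) ^ 2 / X2 = (L - a) ^ 2 * (1 / X1 + 1 / X2) - (L - a) ^ 2 * (1 / X1) := by ring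
    rw [this]
    nlinarith
  have h7 : 2 * a + C1 ≤ e * L := by
    rw [div_le_iff₀ he0] at hLC
    linarith
  have h8 : (L / 2) ^ 2 ≤ (L - a) ^ 2 := by
    have : L / 2 ≤ L - a := by linarith
    gcongr
  have h9 : (L / 2) ^ 2 / X2 ≤ 2 * (2 * e * L) := by
    calc (L / 2) ^ 2 / X2 ≤ (L - a) ^ 2 / X2 := by gcongr
      _ ≤ 2 * p * (e * L + (2 * a + C1)) := h6
      _ ≤ 2 * p * (2 * e * L) := by
          have : 0 ≤ 2 * p := by linarith
          gcongr
          linarith
      _ ≤ 2 * (2 * e * L) := by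
          have : 0 ≤ 2 * e * L := by positivity
          nlinarith
  rw [div_le_iff₀ hX2] at h9
  rw [he] at h9
  have h10 : L * L ≤ L * (X2 / 8) := by nlinarith
  exact le_of_mul_le_mul_left h10 hL0

/-- the refined two-point estimate -/
theorem two_point {p : ℝ} (hp : 1 / 2 ≤ p) (hp1 : p ≤ 1) {e0 : ℝ} (he0 : 0 < e0) (he1 : e0 ≤ 1) :
    ∃ C : ℝ, 1 ≤ C ∧ ∀ F : ℂ → ℂ, LogArea p F → (F 0).re = 0 → ∀ m : ℝ, 1 ≤ m →
      Real.log e0 + 2 * p * Real.log m ≤ (F (Real.exp (-(1 / m)))).re →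
      ∀ θ : ℝ, |θ| ≤ π → C ≤ m * |θ| →
      (F (Real.exp (-(1 / m)) * exp (θ * I))).re ≤ (F (Real.exp (-(1 / m)))).re →
      (F (Real.exp (-(1 / m)) * exp (θ * I))).re ≤
        C - 2 * p * Real.log |θ| + Real.log (m * |θ|) / 8 := by
  have hpi := Real.pi_pos
  have hp0 : 0 < p := by linarith
  set e : ℝ := 1 / 128 with he
  set φ0 : ℝ := π / (2 + 2 * e) with hφ0
  have hφpos : 0 < φ0 := by rw [hφ0, he]; positivity
  have hφlt : φ0 < π / 2 := by
    rw [hφ0, he]
    apply div_lt_div_of_pos_left hpi (by norm_num) (by norm_num)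
  set c := Real.cos φ0 with hc
  have hc0 : 0 < c := Real.cos_pos_of_mem_Ioo ⟨by linarith, hφlt⟩
  have hc1 : c ≤ 1 := Real.cos_le_one _
  set κ : ℝ := 16 * p / c with hκ
  have hκ0 : 0 < κ := by positivity
  set κ1 : ℝ := 2 * p * Real.log 4 - Real.log e0 with hκ1
  have hlog4 : 0 < Real.log 4 := Real.log_pos (by norm_num)
  have hκ10 : 0 < κ1 := by
    have : Real.log e0 ≤ 0 := Real.log_nonpos he0.le he1
    have : 0 < 2 * p * Real.log 4 := by positivity
    linarith
  set C1 : ℝ := κ + 2 * p * Real.log (4 / c) + κ1 with hC1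
  have hlog4c : 0 < Real.log (4 / c) := by
    apply Real.log_pos
    rw [lt_div_iff₀ hc0]; linarith
  have hC10 : 0 < C1 := by positivity
  set C3 : ℝ := max (2 * Real.log 4) ((2 * Real.log 4 + C1) / e) with hC3
  set K : ℝ := κ + 2 * p * Real.log (4 * π / (c * c)) with hK
  refine ⟨max (C3 + K) (max (π / c + 1) 1), ?_, ?_⟩
  · exact le_trans (le_max_right _ _) (le_max_right _ _)
  intro F h h0 m hm hbig θ hθ hmθ hmax
  set r0 := Real.exp (-(1 / m)) with hr0
  set u2 := (F (r0 * exp (θ * I))).re with hu2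
  set u1 := (F (r0 : ℂ)).re with hu1
  have hm0 : 0 < m := by linarith
  have hC3' : 0 < C3 := lt_of_lt_of_le (by positivity) (le_max_left _ _)
  have hmθ1 : π / c + 1 ≤ m * |θ| := le_trans (le_trans (le_max_left _ _) (le_max_right _ _)) hmθ
  have hmθ2 : 1 ≤ m * |θ| := le_trans (le_trans (le_max_right _ _) (le_max_right _ _)) hmθ
  have hθ0 : 0 < |θ| := by
    by_contra hcon
    have : |θ| = 0 := le_antisymm (not_lt.mp hcon) (abs_nonneg _)
    rw [this, mul_zero] at hmθ2
    linarith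
  have hlogmθ : 0 ≤ Real.log (m * |θ|) := Real.log_nonneg hmθ2
  have hCbig : C3 + K ≤ max (C3 + K) (max (π / c + 1) 1) := le_max_left _ _
  -- the scale
  set s2 : ℝ := c * |θ| / π with hs2
  have hs2pos : 0 < s2 := by positivity
  have hs2c : s2 ≤ c := by
    rw [hs2, div_le_iff₀ hpi]
    gcongr
  set t : ℝ := 1 - r0 with ht
  have ht1 : 1 / m / 2 ≤ t := one_sub_exp_neg_ge (by positivity) (by rw [div_le_one hm0]; exact hm)
  have ht2 : t ≤ 1 / m := one_sub_exp_neg_le _
  have htpos : 0 < t := lt_of_lt_of_le (by positivity) ht1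
  have hts2 : t < s2 := by
    apply lt_of_le_of_lt ht2
    rw [hs2, div_lt_div_iff₀ hm0 hpi]
    have : π / c < m * |θ| := by linarith
    rw [div_lt_iff₀ hc0] at this
    linarith
  have hs2lt1 : s2 < 1 ∨ s2 = 1 := by
    have := hs2c.trans hc1
    exact lt_or_eq_of_le this
  -- logarithm of L
  set R1 : ℝ := (4 / (s2 * c)) ^ (2 * p) with hR1
  have hR1pos : 0 < R1 := by positivity
  set R2 : ℝ := Real.exp (u2 - κ) with hR2
  have hR2pos : 0 < R2 := Real.exp_pos _
  set L : ℝ := Real.log (R2 / R1) with hL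
  have hLeq : L = u2 - κ - 2 * p * Real.log (4 / (s2 * c)) := by
    rw [hL, Real.log_div hR2pos.ne' hR1pos.ne', hR2, Real.log_exp, hR1,
      Real.log_rpow (by positivity)]
  have hlogsc : Real.log (4 / (s2 * c)) = Real.log (4 / c) - Real.log s2 := by
    rw [Real.log_div (by norm_num) (by positivity), Real.log_mul hs2pos.ne' hc0.ne',
      Real.log_div (by norm_num) hc0.ne']
    ring
  have hlogsc2 : Real.log (4 / (s2 * c)) = Real.log (4 * π / (c * c)) - Real.log |θ| := by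
    have : 4 / (s2 * c) = 4 * π / (c * c) / |θ| := by
      rw [hs2]; field_simp
    rw [this, Real.log_div (by positivity) hθ0.ne']
  -- reduction to the bound for L
  suffices hLle : L ≤ C3 + Real.log (m * |θ|) / 8 by
    have : u2 = L + κ + 2 * p * (Real.log (4 * π / (c * c)) - Real.log |θ|) := by
      rw [hLeq, hlogsc2]; ring
    rw [this]
    have h9 : K = κ + 2 * p * Real.log (4 * π / (c * c)) := hK
    nlinarith
  by_cases hLC : L ≤ C3
  · linarith
  push Not at hLC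
  have hLC4 : 2 * Real.log 4 < L := lt_of_le_of_lt (le_max_left _ _) hLC
  have hLCe : (2 * Real.log 4 + C1) / e < L := lt_of_le_of_lt (le_max_right _ _) hLC
  -- the points
  set b := Real.log s2 with hb
  have hexpb : Real.exp b = s2 := Real.exp_log hs2pos
  set τl : ℝ := -(κ1 + u2) / (2 * p) with hτl
  set a1 : ℝ := max (Real.log t) τl with ha1
  set a2 : ℝ := Real.log t with ha2
  have hexpa2 : Real.exp a2 = t := Real.exp_log htpos
  have hbτ : b - τl = (L + C1) / (2 * p) := by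
    rw [eq_div_iff (by positivity), hτl, hLeq, hlogsc, hC1]
    field_simp
    ring
  have ha2b : a2 < b := Real.log_lt_log htpos hts2
  have hτb : τl < b := by
    have : 0 < (L + C1) / (2 * p) := by
      have : 0 < L := by linarith
      positivity
    linarith
  have ha1b : a1 < b := max_lt ha2b hτb
  have hX1' : b - a1 ≤ (L + C1) / (2 * p) := by
    rw [← hbτ]
    have : τl ≤ a1 := le_max_right _ _
    linarith
  have hcosb : Real.exp b ≤ Real.cos φ0 := by rw [hexpb]; exact hs2c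
  have hcosa1 : Real.exp a1 ≤ Real.cos φ0 := (Real.exp_le_exp.mpr ha1b.le).trans hcosb
  have hcosa2 : Real.exp a2 ≤ Real.cos φ0 := (Real.exp_le_exp.mpr ha2b.le).trans hcosb
  set ζ2 : ℂ := exp (θ * I) with hζ2
  have hζ2n : ‖ζ2‖ = 1 := Complex.norm_exp_ofReal_mul_I θ
  have hdist : 2 * Real.exp b ≤ ‖(1 : ℂ) - ζ2‖ := by
    rw [hexpb]
    refine le_trans ?_ (norm_one_sub_exp_I_ge hθ)
    rw [hs2]
    calc 2 * (c * |θ| / π) ≤ 2 * (1 * |θ| / π) := by gcongr
      _ = 2 * |θ| / π := by ring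
  -- lower bounds at the starting points
  have hst1 : u2 ≤ (F ((1 : ℂ) * (1 - Real.exp a1))).re := by
    rw [one_mul]
    rcases le_total τl (Real.log t) with hcase | hcase
    · have : a1 = Real.log t := max_eq_left hcase
      rw [this, Real.exp_log htpos, ht]
      push_cast
      have e5 : (1 : ℂ) - (1 - (r0 : ℂ)) = r0 := by ring
      rw [e5]
      exact hmax
    · have hh : a1 = τl := max_eq_right hcase
      have h7 := h.radial_lower hp (e0 := e0) hm hbig (s := Real.exp a1)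
        (by rw [hh, ← ht, ← hexpa2]; exact Real.exp_le_exp.mpr hcase)
        (hcosa1.trans (Real.cos_le_one _))
      rw [Real.log_exp, hh] at h7
      have h8 : Real.log e0 - 2 * p * Real.log 4 - 2 * p * τl = u2 := by
        rw [hτl, hκ1]
        field_simp
        ring
      rw [h8] at h7
      rw [hh]
      push_cast at h7 ⊢
      exact h7
  have hst2 : u2 ≤ (F (ζ2 * (1 - Real.exp a2))).re := by
    rw [hexpa2, ht]
    push_cast
    have e5 : ζ2 * ((1 : ℂ) - (1 - (r0 : ℂ))) = r0 * ζ2 := by ring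
    rw [e5]
  have hs1' : ∀ y ∈ Icc (-φ0) φ0, R2 ≤ Real.exp (F (sec 1 (a1 + y * I))).re := by
    intro y hy
    have h7 := h.sec_lip hp (ζ := 1) (by simp) hφpos hφlt hcosa1 hy
    have h8 := (abs_le.mp h7).1
    apply Real.exp_le_exp.mpr
    linarith
  have hs2' : ∀ y ∈ Icc (-φ0) φ0, R2 ≤ Real.exp (F (sec ζ2 (a2 + y * I))).re := by
    intro y hy
    have h7 := h.sec_lip hp hζ2n hφpos hφlt hcosa2 hy
    have h8 := (abs_le.mp h7).1
    apply Real.exp_le_exp.mpr
    linarith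
  have hend : ∀ ζ : ℂ, ‖ζ‖ = 1 → ∀ y ∈ Icc (-φ0) φ0, Real.exp (F (sec ζ (b + y * I))).re ≤ R1 := by
    intro ζ hζ y hy
    have him : |((b : ℂ) + y * I).im| ≤ φ0 := by
      simp only [add_im, ofReal_im, mul_im, ofReal_re, I_im, mul_one, I_re, mul_zero, add_zero,
        zero_add]
      exact abs_le.mpr hy
    have hre' : ((b : ℂ) + y * I).re = b := by simp
    have hre : Real.exp ((b : ℂ) + y * I).re ≤ Real.cos φ0 := by
      rw [hre']; exact hcosb
    have h7 := sec_norm_le hζ hφlt him hre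
    rw [hre', hexpb] at h7
    have h8 := h.exp_le hp h0 (δ := s2 * c / 2) (by positivity) h7
    have h9 : 2 / (s2 * c / 2) = 4 / (s2 * c) := by
      field_simp; norm_num
    rw [h9] at h8
    exact h8
  have hRR : 4 * R1 ≤ R2 := by
    have h7 : Real.log 4 ≤ Real.log (R2 / R1) := by rw [← hL]; linarith
    have h8 := (Real.log_le_log_iff (by norm_num) (by positivity)).mp h7
    rwa [le_div_iff₀ hR1pos] at h8
  have hmain := two_sector hp0.le h hR1pos hRR (by simp : ‖(1 : ℂ)‖ = 1) hζ2n hφpos hφlt ha1b ha2b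
    hcosb hdist hs1' hs2' (hend 1 (by simp)) (hend ζ2 hζ2n)
  have hend2 := endgame hp hp1 he hφ0 hC10.le hLC4.le hLCe.le (by linarith : 0 < b - a1) hX1'
    (by linarith : 0 < b - a2) hmain
  have hX2 : b - a2 ≤ Real.log (m * |θ|) := by
    rw [hb, ha2, ← Real.log_div hs2pos.ne' htpos.ne']
    apply Real.log_le_log (by positivity)
    rw [div_le_iff₀ htpos, hs2, div_le_iff₀ hpi]
    have h3 : (3 : ℝ) < π := Real.pi_gt_three
    have h4 : 1 / 2 ≤ m * t := by
      calc (1 : ℝ) / 2 = m * (1 / m / 2) := by field_simp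
        _ ≤ m * t := by gcongr
    calc c * |θ| ≤ 1 * |θ| := by gcongr
      _ ≤ (2 * (m * t)) * |θ| := by gcongr; linarith
      _ = (m * t) * 2 * |θ| := by ring
      _ ≤ (m * t) * π * |θ| := by gcongr; linarith
      _ = m * |θ| * t * π := by ring
  linarith

end Pool.Agent.Run7.h820
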