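import Pool.Agent.Run7.h820.Energy
import Pool.Agent.Run7.h820.TwoPoint

open Complex MeasureTheory Metric Set Filter Topology
open scoped ENNReal Real ComplexConjugate

set_option autoImplicit false

namespace Pool.Agent.Run7.h820

noncomputable def E0 (v : ℝ) : ℝ := Real.exp (7 / 4 * v)
noncomputable def E1 (v : ℝ) : ℝ := 7 / 4 * Real.exp (7 / 4 * v)
noncomputable def E2 (v : ℝ) : ℝ := (7 / 4) ^ 2 * Real.exp (7 / 4 * v)

lemma E0_hasDerivAt (v : ℝ) : HasDerivAt E0 (E1 v) v := by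
  have := ((hasDerivAt_id v).const_mul (7 / 4 : ℝ)).exp
  refine this.congr_deriv ?_
  simp only [id_eq, mul_one, E1]
  ring

lemma E1_hasDerivAt (v : ℝ) : HasDerivAt E1 (E2 v) v := by
  have := (((hasDerivAt_id v).const_mul (7 / 4 : ℝ)).exp).const_mul (7 / 4 : ℝ)
  refine this.congr_deriv ?_
  simp only [id_eq, mul_one, E2]
  ring

lemma E2_cont : Continuous E2 := by unfold E2; fun_prop
lemma E0_cont : Continuous E0 := by unfold E0; fun_prop
lemma E2_nonneg (v : ℝ) : 0 ≤ E2 v := by unfold E2; positivity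

lemma exp_sub_le_exp_neg {y : ℝ} (hy : 0 < y) (hy1 : y ≤ 1) {z : ℂ} (hz : ‖z‖ ≤ Real.exp (-y)) :
    ‖z‖ ≤ 1 - y / 2 := by
  have := one_sub_exp_neg_ge hy.le hy1
  linarith

/-- growth of the `7/4` means -/
lemma LogArea.J_growth {p : ℝ} (hp : 1 / 2 ≤ p) {F : ℂ → ℂ} (h : LogArea p F)
    (h0 : (F 0).re = 0) {m : ℝ} (hm : 1 ≤ m) :
    Jint F E0 (-(1 / m)) ≤ (3 * (14 * π * p * 4 ^ (7 / 2 * p)) * 2 ^ (7 / 2 * p - 1)) * m ^ (7 / 2 * p - 1) := by
  have hpi := Real.pi_pos
  have hp0 : 0 < p := by linarith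
  set γ : ℝ := 7 / 2 * p - 1 with hγ
  have hγ1 : 3 / 4 ≤ γ := by rw [hγ]; linarith
  set D : ℝ := 14 * π * p * 4 ^ (7 / 2 * p) with hD
  have hD0 : 0 < D := by positivity
  -- pointwise bound
  have hpt : ∀ y : ℝ, 0 < y → y ≤ 1 → ∀ z : ℂ, ‖z‖ ≤ Real.exp (-y) →
      Real.exp (F z).re ≤ (4 / y) ^ (2 * p) := by
    intro y hy hy1 z hz
    have h1 := h.exp_le hp h0 (δ := y / 2) (by positivity) (exp_sub_le_exp_neg hy hy1 hz)
    have h2 : 2 / (y / 2) = 4 / y := by field_simp; norm_num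
    rwa [h2] at h1
  have hpow : ∀ y : ℝ, 0 < y → ((4 / y) ^ (2 * p)) ^ (7 / 4 : ℝ) = 4 ^ (7 / 2 * p) * (1 / y) ^ (7 / 2 * p) := by
    intro y hy
    rw [← Real.rpow_mul (by positivity), ← Real.mul_rpow (by norm_num) (by positivity)]
    congr 1 <;> ring
  -- dyadic induction
  have hstep : ∀ j : ℕ, Jint F E0 (-(1 / 2 ^ j)) ≤ 3 * D * (2 ^ j) ^ γ := by
    intro j
    induction j with
    | zero =>
      simp only [pow_zero, div_one, Real.one_rpow, mul_one]
      have h1 : ∀ y ∈ uIoc (0 : ℝ) (2 * π), ‖E0 (F (exp ((-1 : ℝ) + y * I))).re‖ ≤ 4 ^ (7 / 2 * p) := by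
        intro y _
        have hn : ‖exp (((-1 : ℝ) : ℂ) + y * I)‖ ≤ Real.exp (-1) := by
          rw [Complex.norm_exp]; simp
        have h2 := hpt 1 one_pos le_rfl _ hn
        rw [Real.norm_eq_abs, E0, abs_of_pos (Real.exp_pos _)]
        have h3 := Real.rpow_le_rpow (Real.exp_pos _).le h2 (by norm_num : (0 : ℝ) ≤ 7 / 4)
        rw [hpow 1 one_pos, ← Real.exp_mul] at h3
        simp only [div_one, Real.one_rpow, mul_one] at h3
        rw [mul_comm (7 / 4 : ℝ)]
        exact h3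
      have h2 := intervalIntegral.norm_integral_le_of_norm_le_const h1
      have h3 : Jint F E0 (-1) ≤ 4 ^ (7 / 2 * p) * |2 * π - 0| := by
        refine le_trans (le_abs_self _) ?_
        rw [← Real.norm_eq_abs]
        exact h2
      rw [sub_zero, abs_of_pos (by positivity)] at h3
      refine h3.trans ?_
      rw [hD]
      have h4 : (0 : ℝ) < 4 ^ (7 / 2 * p) := by positivity
      have h5 : 0 < π * 4 ^ (7 / 2 * p) := by positivity
      nlinarith
    | succ j ih =>
      set y : ℝ := 1 / 2 ^ (j + 1) with hy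
      have hy0 : 0 < y := by positivity
      have hy1 : y ≤ 1 := by
        rw [hy, div_le_one (by positivity)]
        exact one_le_pow₀ (by norm_num)
      set M : ℝ := (4 / y) ^ (2 * p) with hM
      have hM0 : 0 < M := by positivity
      have hE := h.energy (β := 7 / 4) hp0.le (by norm_num) (by norm_num) hM0
        (S := ball (0 : ℂ) (Real.exp (-y)))
        (ball_subset_ball (Real.exp_le_one_iff.mpr (by linarith))) measurableSet_ball
        (fun z hz => hpt y hy0 hy1 z (by rw [mem_ball_zero_iff] at hz; exact hz.le))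
      have hint : ∫⁻ z in ball (0 : ℂ) (Real.exp (-y)), ENNReal.ofReal (E2 (F z).re * ‖deriv F z‖ ^ 2)
          ≤ ENNReal.ofReal (14 * π * p * M ^ (7 / 4 : ℝ)) := by
        have h1 : ∀ z, ENNReal.ofReal (E2 (F z).re * ‖deriv F z‖ ^ 2) =
            ENNReal.ofReal ((7 / 4) ^ 2) * ENNReal.ofReal (Real.exp (7 / 4 * (F z).re) * ‖deriv F z‖ ^ 2) := by
          intro z
          rw [← ENNReal.ofReal_mul (by positivity), E2]
          congr 1
          ring
        simp_rw [h1]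
        rw [lintegral_const_mul' _ _ ENNReal.ofReal_ne_top]
        refine (mul_le_mul_right hE _).trans ?_
        rw [← ENNReal.ofReal_mul (by positivity)]
        apply ENNReal.ofReal_le_ofReal
        apply le_of_eq
        ring
      have hx : -(1 / 2 ^ j : ℝ) ≤ -y := by
        rw [hy, neg_le_neg_iff]
        apply one_div_le_one_div_of_le (by positivity)
        exact pow_le_pow_right₀ (by norm_num) (by omega)
      have h2 := J_le h.diff E0_hasDerivAt E1_hasDerivAt E2_cont E2_nonneg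
        (by positivity : 0 ≤ 14 * π * p * M ^ (7 / 4 : ℝ)) hx (by linarith) le_rfl hint
      have h3 : -y - -(1 / 2 ^ j : ℝ) = y := by
        rw [hy, pow_succ]
        field_simp
        ring
      rw [h3] at h2
      have h4 : 14 * π * p * M ^ (7 / 4 : ℝ) * y = D * (2 ^ (j + 1)) ^ γ := by
        rw [hM, hpow y hy0, hD]
        have h5 : (1 / y) ^ (7 / 2 * p) * y = (2 ^ (j + 1) : ℝ) ^ γ := by
          have h6 : (1 / y) = (2 ^ (j + 1) : ℝ) := by rw [hy]; simp
          rw [h6, hγ, Real.rpow_sub (by positivity), Real.rpow_one, hy]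
          ring
        rw [← h5]
        ring
      rw [h4] at h2
      have h7 : (2 ^ (j + 1) : ℝ) ^ γ = (2 ^ j : ℝ) ^ γ * 2 ^ γ := by
        rw [pow_succ, Real.mul_rpow (by positivity) (by norm_num)]
      have h8 : (3 / 2 : ℝ) ≤ 2 ^ γ := by
        have h9 : (2 : ℝ) ^ (3 / 4 : ℝ) ≤ 2 ^ γ := Real.rpow_le_rpow_of_exponent_le (by norm_num) hγ1
        have h10 : (3 / 2 : ℝ) ≤ 2 ^ (3 / 4 : ℝ) := by
          have h11 : (3 / 2 : ℝ) = ((3 / 2 : ℝ) ^ (4 : ℝ)) ^ (1 / 4 : ℝ) := by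
            rw [← Real.rpow_mul (by norm_num)]; norm_num
          have h12 : (2 : ℝ) ^ (3 / 4 : ℝ) = ((2 : ℝ) ^ (3 : ℝ)) ^ (1 / 4 : ℝ) := by
            rw [← Real.rpow_mul (by norm_num)]; norm_num
          rw [h11, h12]
          apply Real.rpow_le_rpow (by positivity) _ (by norm_num)
          have e1 : (3 / 2 : ℝ) ^ (4 : ℝ) = (3 / 2 : ℝ) ^ 4 := by norm_cast
          have e2 : (2 : ℝ) ^ (3 : ℝ) = (2 : ℝ) ^ 3 := by norm_cast
          rw [e1, e2]
          norm_num
        linarith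
      set A : ℝ := (2 ^ j : ℝ) ^ γ with hA
      have hA0 : 0 < A := by positivity
      rw [h7] at h2 ⊢
      have h13 : 3 * D * A ≤ 2 * D * (A * 2 ^ γ) := by
        have h14 : 0 < D * A := by positivity
        nlinarith
      linarith
  -- interpolation
  obtain ⟨n, hn1, hn2⟩ := exists_nat_pow_near hm (by norm_num : (1 : ℝ) < 2)
  have hm0 : 0 < m := by linarith
  have h1 : Jint F E0 (-(1 / m)) ≤ Jint F E0 (-(1 / 2 ^ (n + 1))) := by
    apply J_mono h.diff E0_hasDerivAt E1_hasDerivAt E2_cont E2_nonneg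
    · rw [neg_le_neg_iff]
      exact one_div_le_one_div_of_le hm0 hn2.le
    · have : (0 : ℝ) < 1 / 2 ^ (n + 1) := by positivity
      linarith
  refine h1.trans ((hstep (n + 1)).trans ?_)
  have h2 : ((2 : ℝ) ^ (n + 1)) ^ γ ≤ 2 ^ γ * m ^ γ := by
    rw [← Real.mul_rpow (by norm_num) hm0.le]
    apply Real.rpow_le_rpow (by positivity) _ (by linarith)
    rw [pow_succ]
    linarith
  calc 3 * D * ((2 : ℝ) ^ (n + 1)) ^ γ ≤ 3 * D * (2 ^ γ * m ^ γ) := by gcongr
    _ = 3 * D * 2 ^ γ * m ^ γ := by ring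

end Pool.Agent.Run7.h820
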