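import Pool.Agent.Run7.h820.Moebius

open Complex MeasureTheory Metric Set Filter Topology
open scoped ENNReal Real ComplexConjugate NNReal

set_option autoImplicit false

namespace Pool.Agent.Run7.h820

lemma pow_sub_pow_le {a b : ℂ} {M : ℝ} (hM : 1 ≤ M) (ha : ‖a‖ ≤ M) (hb : ‖b‖ ≤ M) (n : ℕ) :
    ‖a ^ n - b ^ n‖ ≤ n * M ^ n * ‖a - b‖ := by
  induction n with
  | zero => simp
  | succ n ih =>
    have h1 : a ^ (n + 1) - b ^ (n + 1) = a * (a ^ n - b ^ n) + (a - b) * b ^ n := by ring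
    rw [h1]
    have hM0 : 0 ≤ M := by linarith
    have h2 : ‖b ^ n‖ ≤ M ^ n := by rw [norm_pow]; gcongr
    calc ‖a * (a ^ n - b ^ n) + (a - b) * b ^ n‖ ≤ ‖a‖ * ‖a ^ n - b ^ n‖ + ‖a - b‖ * ‖b ^ n‖ := by
          refine (norm_add_le _ _).trans ?_
          rw [norm_mul, norm_mul]
      _ ≤ M * (n * M ^ n * ‖a - b‖) + ‖a - b‖ * M ^ n := by gcongr
      _ ≤ M * (n * M ^ n * ‖a - b‖) + ‖a - b‖ * M ^ (n + 1) := by
          gcongr
          omega
      _ = ((n + 1 : ℕ) : ℝ) * M ^ (n + 1) * ‖a - b‖ := by push_cast; ring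

lemma cay_sub_exp {t : ℂ} (ht : ‖t‖ ≤ 1 / 2) :
    ‖(1 + t) / (1 - t) - exp (2 * t)‖ ≤ 8 * ‖t‖ ^ 2 := by
  have h1 : 1 / 2 ≤ ‖1 - t‖ := by
    have := norm_sub_norm_le (1 : ℂ) t
    rw [norm_one] at this
    linarith
  have h0 : (1 - t) ≠ 0 := by
    intro h
    rw [h, norm_zero] at h1
    linarith
  have h2 : ‖exp (2 * t) - 1 - 2 * t‖ ≤ ‖2 * t‖ ^ 2 :=
    Complex.norm_exp_sub_one_sub_id_le (by rw [norm_mul]; simp; linarith)
  have h3 : (1 + t) / (1 - t) - exp (2 * t) = 2 * t ^ 2 / (1 - t) - (exp (2 * t) - 1 - 2 * t) := by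
    field_simp
    ring
  rw [h3]
  refine (norm_sub_le _ _).trans ?_
  have h4 : ‖2 * t ^ 2 / (1 - t)‖ ≤ 4 * ‖t‖ ^ 2 := by
    rw [norm_div, norm_mul, norm_pow, div_le_iff₀ (by linarith)]
    simp only [Complex.norm_ofNat]
    nlinarith [sq_nonneg ‖t‖]
  have h5 : ‖2 * t‖ ^ 2 = 4 * ‖t‖ ^ 2 := by
    rw [norm_mul]; simp only [Complex.norm_ofNat]; ring
  linarith

lemma cay_norm_le {t : ℂ} (ht : ‖t‖ ≤ 1 / 2) : ‖(1 + t) / (1 - t)‖ ≤ Real.exp (4 * ‖t‖) := by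
  have h1 : 1 - ‖t‖ ≤ ‖1 - t‖ := by
    have := norm_sub_norm_le (1 : ℂ) t
    rwa [norm_one] at this
  have h2 : ‖1 + t‖ ≤ 1 + ‖t‖ := by
    have := norm_add_le (1 : ℂ) t
    rwa [norm_one] at this
  set s := ‖t‖ with hs
  have hs0 : 0 ≤ s := norm_nonneg t
  rw [norm_div, div_le_iff₀ (by linarith)]
  have h3 : 1 + 4 * s ≤ Real.exp (4 * s) := by linarith [Real.add_one_le_exp (4 * s)]
  calc ‖1 + t‖ ≤ 1 + s := h2
    _ ≤ (1 + 4 * s) * (1 - s) := by nlinarith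
    _ ≤ Real.exp (4 * s) * ‖1 - t‖ := by
        apply mul_le_mul h3 h1 (by linarith) (Real.exp_pos _).le

/-- `((1+Q/N)/(1-Q/N))^N` is close to `exp (2Q)` -/
lemma cay_pow {Q : ℂ} {B : ℝ} (hQ : ‖Q‖ ≤ B) {N : ℕ} (hN : 1 ≤ N) (hBN : 2 * B ≤ N) :
    ‖((1 + Q / N) / (1 - Q / N)) ^ N - exp (2 * Q)‖ ≤ 8 * B ^ 2 * Real.exp (4 * B) / N := by
  have hN0 : (0 : ℝ) < N := by exact_mod_cast hN
  have hB : 0 ≤ B := (norm_nonneg _).trans hQ
  set t : ℂ := Q / N with ht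
  have htn : ‖t‖ ≤ B / N := by
    rw [ht, norm_div, Complex.norm_natCast]; gcongr
  have ht2 : ‖t‖ ≤ 1 / 2 := by
    refine htn.trans ?_
    rw [div_le_div_iff₀ hN0 (by norm_num)]; linarith
  have h1 : exp (2 * Q) = exp (2 * t) ^ N := by
    rw [← Complex.exp_nat_mul, ht]
    congr 1
    have : (N : ℂ) ≠ 0 := by exact_mod_cast hN0.ne'
    field_simp
  set M : ℝ := Real.exp (4 * (B / N)) with hM
  have hM1 : 1 ≤ M := Real.one_le_exp (by positivity)
  have ha : ‖(1 + t) / (1 - t)‖ ≤ M := (cay_norm_le ht2).trans (Real.exp_le_exp.mpr (by linarith))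
  have hb : ‖exp (2 * t)‖ ≤ M := by
    rw [Complex.norm_exp]
    apply Real.exp_le_exp.mpr
    have h2 : (2 * t).re ≤ ‖2 * t‖ := Complex.re_le_norm _
    rw [norm_mul] at h2
    simp only [Complex.norm_ofNat] at h2
    have : 0 ≤ B / N := by positivity
    linarith
  rw [h1]
  refine (pow_sub_pow_le hM1 ha hb N).trans ?_
  have h3 : M ^ N = Real.exp (4 * B) := by
    rw [hM, ← Real.exp_nat_mul]; congr 1; field_simp
  rw [h3]
  calc N * Real.exp (4 * B) * ‖(1 + t) / (1 - t) - exp (2 * t)‖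
      ≤ N * Real.exp (4 * B) * (8 * ‖t‖ ^ 2) := by gcongr; exact cay_sub_exp ht2
    _ ≤ N * Real.exp (4 * B) * (8 * (B / N) ^ 2) := by gcongr
    _ = 8 * B ^ 2 * Real.exp (4 * B) / N := by field_simp

/-- the kernel -/
noncomputable def Ker (n m : ℕ) (w : ℂ) : ℂ :=
  ((1 - (((m : ℝ) - n) / (m + n) : ℝ) * w) / (w - (((m : ℝ) - n) / (m + n) : ℝ))) ^ n - 1 / w ^ m

lemma norm_one_sub_cexp_le {ξ : ℂ} (h : ‖ξ‖ ≤ 1) : ‖1 - exp ξ‖ ≤ 2 * ‖ξ‖ := by
  rw [norm_sub_rev]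
  exact Complex.norm_exp_sub_one_le h

/-- local smallness of the kernel -/
lemma Ker_small {B : ℝ} (hB : 0 ≤ B) {η : ℝ} (hη : 0 < η) : ∃ n0 : ℕ, 1 ≤ n0 ∧ ∀ n m : ℕ, n0 ≤ n → n ≤ m →
    ∀ ξ : ℂ, ‖ξ‖ ≤ B / m → ‖Ker n m (exp ξ)‖ ≤ η := by
  set B' := 2 * B with hB'
  set D := 8 * B' ^ 2 * Real.exp (4 * B') with hD
  obtain ⟨n0, hn0⟩ := exists_nat_ge (max (max (2 * B') (2 * D / η)) (max 1 (4 * B)))
  have hn0a : 2 * B' ≤ n0 := le_trans (le_trans (le_max_left _ _) (le_max_left _ _)) hn0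
  have hn0b : 2 * D / η ≤ n0 := le_trans (le_trans (le_max_right _ _) (le_max_left _ _)) hn0
  have hn0c : (1 : ℝ) ≤ n0 := le_trans (le_trans (le_max_left _ _) (le_max_right _ _)) hn0
  have hn0d : 4 * B ≤ n0 := le_trans (le_trans (le_max_right _ _) (le_max_right _ _)) hn0
  refine ⟨n0, by exact_mod_cast hn0c, ?_⟩
  intro n m hn hm ξ hξ
  have hn' : (n0 : ℝ) ≤ n := by exact_mod_cast hn
  have hm' : (n : ℝ) ≤ m := by exact_mod_cast hm
  have hn1 : (1 : ℝ) ≤ n := hn0c.trans hn'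
  have hnp : (0 : ℝ) < n := by linarith
  have hmp : (0 : ℝ) < m := by linarith
  have hξ2 : ‖ξ‖ ≤ 1 / 4 := by
    refine hξ.trans ?_
    rw [div_le_div_iff₀ hmp (by norm_num)]
    linarith
  have h1 : ‖1 - exp ξ‖ ≤ 2 * ‖ξ‖ := norm_one_sub_cexp_le (by linarith)
  set w := exp ξ with hw
  have hw0 : w ≠ 0 := Complex.exp_ne_zero _
  have h2 : 1 ≤ ‖1 + w‖ := by
    have h3 : (1 : ℂ) + w = 2 - (1 - w) := by ring
    rw [h3]
    have h4 := norm_sub_norm_le (2 : ℂ) (1 - w)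
    simp only [Complex.norm_ofNat] at h4
    linarith
  have h20 : (1 : ℂ) + w ≠ 0 := by
    intro h
    rw [h, norm_zero] at h2
    linarith
  set Q : ℂ := m * (1 - w) / (1 + w) with hQ
  have hQn : ‖Q‖ ≤ B' := by
    rw [hQ, norm_div, norm_mul, Complex.norm_natCast, div_le_iff₀ (by linarith)]
    calc m * ‖1 - w‖ ≤ m * (2 * (B / m)) := by gcongr; linarith
      _ = B' * 1 := by rw [hB']; field_simp
      _ ≤ B' * ‖1 + w‖ := by gcongr
  have hmc : (m : ℂ) ≠ 0 := by exact_mod_cast hmp.ne'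
  have hnc : (n : ℂ) ≠ 0 := by exact_mod_cast hnp.ne'
  have e1 : (1 + Q / m) / (1 - Q / m) = 1 / w := by
    have e2 : 1 + Q / m = 2 / (1 + w) := by
      rw [hQ]; field_simp; ring
    have e3 : 1 - Q / m = 2 * w / (1 + w) := by
      rw [hQ]; field_simp; ring
    rw [e2, e3, div_div_div_cancel_right₀ h20]
    field_simp
  have hmnc : (m : ℂ) + n ≠ 0 := by
    have : (0 : ℝ) < m + n := by linarith
    exact_mod_cast this.ne'
  have e4 : (1 + Q / n) / (1 - Q / n) =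
      (1 - (((m : ℝ) - n) / (m + n) : ℝ) * w) / (w - (((m : ℝ) - n) / (m + n) : ℝ)) := by
    have e5 : 1 + Q / n = (n * (1 + w) + m * (1 - w)) / (n * (1 + w)) := by
      rw [hQ]; field_simp
    have e6 : 1 - Q / n = (n * (1 + w) - m * (1 - w)) / (n * (1 + w)) := by
      rw [hQ]; field_simp
    have e7 : (1 : ℂ) - (((m : ℝ) - n) / (m + n) : ℝ) * w = (n * (1 + w) + m * (1 - w)) / (m + n) := by
      push_cast
      field_simp
      ring
    have e8 : w - (((m : ℝ) - n) / (m + n) : ℝ) = (n * (1 + w) - m * (1 - w)) / (m + n) := by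
      push_cast
      field_simp
      ring
    rw [e5, e6, e7, e8, div_div_div_cancel_right₀ (mul_ne_zero hnc h20), div_div_div_cancel_right₀ hmnc]
  have k1 := cay_pow hQn (N := n) (by exact_mod_cast hn1) (by linarith)
  have k2 := cay_pow hQn (N := m) (by exact_mod_cast (hn1.trans hm')) (by linarith)
  rw [e4] at k1
  rw [e1] at k2
  have k3 : Ker n m w = (((1 - (((m : ℝ) - n) / (m + n) : ℝ) * w) / (w - (((m : ℝ) - n) / (m + n) : ℝ))) ^ n
      - exp (2 * Q)) - ((1 / w) ^ m - exp (2 * Q)) := by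
    rw [Ker, one_div_pow]; ring
  rw [k3]
  refine (norm_sub_le _ _).trans ((add_le_add k1 k2).trans ?_)
  have hD0 : 0 ≤ D := by positivity
  have k4 : D / m ≤ D / n := by gcongr
  have k5 : 2 * D / η ≤ n := hn0b.trans hn'
  rw [div_le_iff₀ hη] at k5
  have k6 : D / n ≤ η / 2 := by
    rw [div_le_iff₀ hnp]; linarith
  calc 8 * B' ^ 2 * Real.exp (4 * B') / n + 8 * B' ^ 2 * Real.exp (4 * B') / m = D / n + D / m := rfl
    _ ≤ η := by linarith

/-- the point `x = (m-n)/(m+n)` lies inside the circles used -/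
lemma x_lt {n m : ℕ} (hn : 8 ≤ n) (hm : n ≤ m) {a : ℝ} (ha : -(2 / (m : ℝ)) ≤ a) :
    ((m : ℝ) - n) / (m + n) < Real.exp a := by
  have hn' : (8 : ℝ) ≤ n := by exact_mod_cast hn
  have hm' : (n : ℝ) ≤ m := by exact_mod_cast hm
  have hmp : (0 : ℝ) < m := by linarith
  have h1 : 1 - 2 / (m : ℝ) ≤ Real.exp a := by
    have := Real.add_one_le_exp a
    linarith
  have h2 : ((m : ℝ) - n) / (m + n) ≤ 1 - n / m := by
    rw [div_le_iff₀ (by linarith)]
    have : (1 - (n : ℝ) / m) * (m + n) = m - n * n / m := by field_simp; ring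
    rw [this]
    have h3 : (n : ℝ) * n / m ≤ n := by
      rw [div_le_iff₀ hmp]
      nlinarith
    linarith
  have h3 : (2 : ℝ) / m < n / m := by gcongr; linarith
  linarith

lemma x_nonneg {n m : ℕ} (hm : n ≤ m) : 0 ≤ ((m : ℝ) - n) / (m + n) := by
  have hm' : (n : ℝ) ≤ m := by exact_mod_cast hm
  have : 0 ≤ (m : ℝ) - n := by linarith
  positivity

lemma Ker_bound {n m : ℕ} (hn : 8 ≤ n) (hm : n ≤ m) {w : ℂ} (hw : Real.exp (-(2 / (m : ℝ))) ≤ ‖w‖)
    (hw1 : ‖w‖ < 1) : ‖Ker n m w‖ ≤ Real.exp 4 + Real.exp 2 := by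
  have hn' : (8 : ℝ) ≤ n := by exact_mod_cast hn
  have hm' : (n : ℝ) ≤ m := by exact_mod_cast hm
  have hnp : (0 : ℝ) < n := by linarith
  have hmp : (0 : ℝ) < m := by linarith
  set x : ℝ := ((m : ℝ) - n) / (m + n) with hx
  have hxlt : x < Real.exp (-(2 / (m : ℝ))) := x_lt hn hm le_rfl
  have hx0 : 0 ≤ x := x_nonneg hm
  have hx1 : x < 1 := by linarith
  have hw0 : 0 < ‖w‖ := lt_of_lt_of_le (Real.exp_pos _) hw
  have hne : w - x ≠ 0 := by
    intro h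
    have : w = x := by linear_combination h
    rw [this, Complex.norm_real, Real.norm_eq_abs, abs_of_nonneg hx0] at hw
    linarith
  have hA : ‖1 - (x : ℂ) * w‖ ^ 2 - ‖w - x‖ ^ 2 = (1 - x ^ 2) * (1 - ‖w‖ ^ 2) := by
    have := mob_norm_sq (-(x : ℂ)) w
    rw [map_neg, Complex.conj_ofReal, norm_neg, Complex.norm_real, Real.norm_eq_abs, sq_abs] at this
    have e1 : (1 : ℂ) + -(x : ℂ) * w = 1 - x * w := by ring
    have e2 : w + -(x : ℂ) = w - x := by ring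
    rw [e1, e2] at this
    exact this
  have hB : 1 - x ≤ ‖1 - (x : ℂ) * w‖ := by
    have h1 := norm_sub_norm_le (1 : ℂ) (x * w)
    rw [norm_one, norm_mul, Complex.norm_real, Real.norm_eq_abs, abs_of_nonneg hx0] at h1
    nlinarith
  have hw2 : 1 - ‖w‖ ^ 2 ≤ 4 / m := by
    have h1 : Real.exp (-(2 / (m : ℝ))) ^ 2 ≤ ‖w‖ ^ 2 := by gcongr
    have h2 : Real.exp (-(2 / (m : ℝ))) ^ 2 = Real.exp (-(4 / m)) := by
      rw [← Real.exp_nat_mul]; congr 1; push_cast; ring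
    have h3 := Real.add_one_le_exp (-(4 / (m : ℝ)))
    rw [h2] at h1
    linarith
  have hmn : (1 + x) / (1 - x) = m / n := by
    have h0 : (m : ℝ) + n ≠ 0 := by linarith
    have e1 : 1 + x = 2 * m / (m + n) := by rw [hx]; field_simp; ring
    have e2 : 1 - x = 2 * n / (m + n) := by rw [hx]; field_simp; ring
    rw [e1, e2, div_div_div_cancel_right₀ h0]
    field_simp
  set P : ℝ := ‖1 - (x : ℂ) * w‖ with hP
  have hP0 : 0 < P := by linarith
  have hC : P ^ 2 * (1 - 4 / n) ≤ ‖w - x‖ ^ 2 := by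
    have h1 : (1 - x ^ 2) * (1 - ‖w‖ ^ 2) ≤ P ^ 2 * (4 / n) := by
      have h2 : 1 - x ^ 2 = (1 - x) ^ 2 * (m / n) := by
        rw [← hmn]
        have : 1 - x ≠ 0 := by linarith
        field_simp
        ring
      rw [h2]
      have h3 : (1 - x) ^ 2 ≤ P ^ 2 := by
        have : 0 ≤ 1 - x := by linarith
        gcongr
      calc (1 - x) ^ 2 * (m / n) * (1 - ‖w‖ ^ 2) ≤ (1 - x) ^ 2 * (m / n) * (4 / m) := by gcongr
        _ = (1 - x) ^ 2 * (4 / n) := by field_simp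
        _ ≤ P ^ 2 * (4 / n) := by gcongr
    have h4 : P ^ 2 * (1 - 4 / n) = P ^ 2 - P ^ 2 * (4 / n) := by ring
    linarith
  have h4n : (4 : ℝ) / n ≤ 1 / 2 := by
    rw [div_le_div_iff₀ hnp (by norm_num)]; linarith
  have hD : (P / ‖w - x‖) ^ 2 ≤ Real.exp (8 / n) := by
    have hpos : 0 < ‖w - x‖ := norm_pos_iff.mpr hne
    rw [div_pow, div_le_iff₀ (by positivity)]
    have h5 : 1 ≤ Real.exp (8 / n) * (1 - 4 / n) := by
      have h6 : 1 + 8 / (n : ℝ) ≤ Real.exp (8 / n) := by linarith [Real.add_one_le_exp (8 / (n : ℝ))]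
      have h7 : 1 ≤ (1 + 8 / (n : ℝ)) * (1 - 4 / n) := by
        have : 8 / (n : ℝ) = 2 * (4 / n) := by ring
        rw [this]
        have h8 : 0 < 4 / (n : ℝ) := by positivity
        nlinarith
      have h9 : 0 ≤ 1 - 4 / (n : ℝ) := by linarith
      exact h7.trans (by gcongr)
    calc P ^ 2 = P ^ 2 * 1 := by ring
      _ ≤ P ^ 2 * (Real.exp (8 / n) * (1 - 4 / n)) := by gcongr
      _ = Real.exp (8 / n) * (P ^ 2 * (1 - 4 / n)) := by ring
      _ ≤ Real.exp (8 / n) * ‖w - x‖ ^ 2 := by gcongr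
  have hE : P / ‖w - x‖ ≤ Real.exp (4 / n) := by
    have h10 : Real.exp (8 / n) = Real.exp (4 / n) ^ 2 := by
      rw [← Real.exp_nat_mul]; congr 1; push_cast; ring
    rw [h10] at hD
    exact le_of_sq_le_sq hD (Real.exp_pos _).le
  unfold Ker
  refine (norm_sub_le _ _).trans ?_
  apply add_le_add
  · rw [norm_pow, norm_div]
    calc (P / ‖w - x‖) ^ n ≤ Real.exp (4 / n) ^ n := by gcongr
      _ = Real.exp 4 := by rw [← Real.exp_nat_mul]; congr 1; field_simp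
  · rw [norm_div, norm_one, norm_pow]
    have h11 : Real.exp (-(2 / (m : ℝ))) ^ m ≤ ‖w‖ ^ m := by gcongr
    have h12 : Real.exp (-(2 / (m : ℝ))) ^ m = Real.exp (-2) := by
      rw [← Real.exp_nat_mul]; congr 1; field_simp
    rw [h12] at h11
    calc 1 / ‖w‖ ^ m ≤ 1 / Real.exp (-2) := one_div_le_one_div_of_le (Real.exp_pos _) h11
      _ = Real.exp 2 := by rw [Real.exp_neg]; simp

lemma Ker_cont {n m : ℕ} (hn : 8 ≤ n) (hm : n ≤ m) {w : ℂ} (hw : Real.exp (-(2 / (m : ℝ))) ≤ ‖w‖) :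
    ContinuousAt (Ker n m) w := by
  have hxlt : ((m : ℝ) - n) / (m + n) < Real.exp (-(2 / (m : ℝ))) := x_lt hn hm le_rfl
  have hx0 : 0 ≤ ((m : ℝ) - n) / (m + n) := x_nonneg hm
  have hw0 : 0 < ‖w‖ := lt_of_lt_of_le (Real.exp_pos _) hw
  have hne : w - (((m : ℝ) - n) / (m + n) : ℝ) ≠ 0 := by
    intro h
    have : w = (((m : ℝ) - n) / (m + n) : ℝ) := by linear_combination h
    rw [this, Complex.norm_real, Real.norm_eq_abs, abs_of_nonneg hx0] at hw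
    linarith
  have hwm : w ^ m ≠ 0 := pow_ne_zero _ (norm_pos_iff.mp hw0)
  unfold Ker
  apply ContinuousAt.sub
  · apply ContinuousAt.pow
    exact ContinuousAt.div (by fun_prop) (by fun_prop) hne
  · exact ContinuousAt.div (by fun_prop) (by fun_prop) hwm

end Pool.Agent.Run7.h820
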