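import Pool.Agent.Run7.h820.Binom

open Complex MeasureTheory Metric Set Filter Topology
open scoped ENNReal Real ComplexConjugate NNReal

set_option autoImplicit false

namespace Pool.Agent.Run7.h820

lemma kp_eq {p : ℝ} {z : ℂ} (hz : ‖z‖ < 1) :
    kp p z = (1 + z) ^ ((2 * p : ℝ) : ℂ) * (1 - z) ^ (-((2 * p : ℝ) : ℂ)) := by
  have h1 := one_sub_ne hz
  have h2 := one_add_ne hz
  have hre1 : 0 < (1 + z).re := by
    have := (abs_lt.mp ((Complex.abs_re_le_norm z).trans_lt hz)).1
    simp; linarith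
  have hre2 : 0 < (1 - z).re := by
    have := (abs_lt.mp ((Complex.abs_re_le_norm z).trans_lt hz)).2
    simp; linarith
  have hlk : lk z = Complex.log (1 + z) - Complex.log (1 - z) := by
    have e1 : (1 + z) / (1 - z) = exp (Complex.log (1 + z) - Complex.log (1 - z)) := by
      rw [Complex.exp_sub, Complex.exp_log h2, Complex.exp_log h1]
    have a1 := abs_lt.mp (Complex.abs_arg_lt_pi_div_two_iff.mpr (Or.inl hre1))
    have a2 := abs_lt.mp (Complex.abs_arg_lt_pi_div_two_iff.mpr (Or.inl hre2))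
    rw [lk, e1, Complex.log_exp]
    · rw [sub_im, Complex.log_im, Complex.log_im]; linarith [a1.1, a2.2]
    · rw [sub_im, Complex.log_im, Complex.log_im]; linarith [a1.2, a2.1]
  rw [kp, hlk, Complex.cpow_def_of_ne_zero h2, Complex.cpow_def_of_ne_zero h1, ← Complex.exp_add]
  congr 1
  ring

/-- coefficients of the Koebe function -/
noncomputable def kc (a : ℝ) (n : ℕ) : ℝ := ∑ k ∈ Finset.range (n + 1), ch a k * bb a (n - k)

lemma summable_norm_of_hasSum_ball {c : ℕ → ℂ} {f : ℂ → ℂ}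
    (h : ∀ z : ℂ, ‖z‖ < 1 → HasSum (fun k => c k * z ^ k) (f z)) {z : ℂ} (hz : ‖z‖ < 1) :
    Summable (fun k => ‖c k * z ^ k‖) := by
  set r : ℝ := (1 + ‖z‖) / 2 with hr
  have hz0 := norm_nonneg z
  have hr1 : r < 1 := by rw [hr]; linarith
  have hr0 : 0 < r := by rw [hr]; linarith
  have hzr : ‖z‖ < r := by rw [hr]; linarith
  have h1 := (h (r : ℂ) (by rw [Complex.norm_real, Real.norm_eq_abs, abs_of_pos hr0]; exact hr1)).summable
  obtain ⟨B, hB⟩ := h1.tendsto_atTop_zero.norm.bddAbove_range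
  have h2 : ∀ k, ‖c k‖ * r ^ k ≤ B := by
    intro k
    have := hB (mem_range_self k)
    simpa [norm_mul, norm_pow, abs_of_pos hr0] using this
  have hq : ‖z‖ / r < 1 := by rw [div_lt_one hr0]; exact hzr
  refine Summable.of_nonneg_of_le (fun k => norm_nonneg _) (fun k => ?_)
    ((summable_geometric_of_lt_one (by positivity) hq).mul_left B)
  rw [norm_mul, norm_pow, div_pow]
  calc ‖c k‖ * ‖z‖ ^ k = (‖c k‖ * r ^ k) * (‖z‖ ^ k / r ^ k) := by field_simp
    _ ≤ B * (‖z‖ ^ k / r ^ k) := by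
      have := h2 k
      gcongr

lemma kp_hasSum {p : ℝ} {z : ℂ} (hz : ‖z‖ < 1) :
    HasSum (fun n : ℕ => ((kc (2 * p) n : ℝ) : ℂ) * z ^ n) (kp p z) := by
  have h1 := fun z hz => hasSum_one_add_cpow (2 * p) (z := z) hz
  have h2 := fun z hz => hasSum_one_sub_cpow (2 * p) (z := z) hz
  have s1 := summable_norm_of_hasSum_ball h1 hz
  have s2 := summable_norm_of_hasSum_ball h2 hz
  have h3 := hasSum_sum_range_mul_of_summable_norm s1 s2
  rw [(h1 z hz).tsum_eq, (h2 z hz).tsum_eq, ← kp_eq hz] at h3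
  refine h3.congr_fun ?_
  intro n
  rw [kc]
  push_cast
  rw [Finset.sum_mul]
  apply Finset.sum_congr rfl
  intro k hk
  have hkn : k ≤ n := by
    have := Finset.mem_range.mp hk
    omega
  have : z ^ n = z ^ k * z ^ (n - k) := by rw [← pow_add]; congr 1; omega
  rw [this]
  ring

lemma coeff_kp (p : ℝ) (n : ℕ) : coeff (kp p) n = (kc (2 * p) n : ℝ) := by
  have hs2 : Summable (fun k : ℕ => ((kc (2 * p) k : ℝ) : ℂ) * (1 / 2 : ℂ) ^ k) :=
    (kp_hasSum (by simp; norm_num)).summable
  obtain ⟨B, hB⟩ := hs2.tendsto_atTop_zero.norm.bddAbove_range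
  have h3 := coeff_of_hasSum (G := kp p) (c := fun k => ((kc (2 * p) k : ℝ) : ℂ))
    (ρ := 1 / 2) (by norm_num) (B := B) ?_ (fun z hz => kp_hasSum (by linarith)) n
  · rw [coeff, h3]
    have : ((n.factorial : ℕ) : ℂ) ≠ 0 := by exact_mod_cast n.factorial_ne_zero
    rw [mul_div_cancel_left₀ _ this]
  · intro k
    have h4 := hB (mem_range_self k)
    simp only [norm_mul, norm_pow, norm_div, norm_one, Complex.norm_ofNat] at h4 ⊢
    exact h4

lemma kc_asymp {a : ℝ} (ha1 : 1 ≤ a) (ha2 : a ≤ 2) :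
    Tendsto (fun n : ℕ => kc a n * (n : ℝ) ^ (1 - a)) atTop (𝓝 (2 ^ a / Real.Gamma a)) := by
  have ha0 : 0 < a := by linarith
  have hs := ch_summable ha1 ha2
  have h1 : Tendsto (fun n : ℕ => ∑' j, (if j ≤ n then ch a j * (bb a (n - j) / bb a n) else 0)) atTop
      (𝓝 (∑' j, ch a j)) := by
    apply tendsto_tsum_of_dominated_convergence hs
    · intro j
      have h2 := (bb_ratio ha0 j).const_mul (ch a j)
      rw [mul_one] at h2
      refine h2.congr' ?_
      filter_upwards [eventually_ge_atTop j] with n hn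
      rw [if_pos hn]
    · refine Eventually.of_forall fun n j => ?_
      by_cases hj : j ≤ n
      · rw [if_pos hj, Real.norm_eq_abs, abs_mul]
        have h3 : |bb a (n - j) / bb a n| ≤ 1 := by
          rw [abs_of_pos (div_pos (bb_pos ha0 _) (bb_pos ha0 _)), div_le_one (bb_pos ha0 _)]
          exact bb_mono ha1 (Nat.sub_le _ _)
        have h4 := abs_nonneg (ch a j)
        nlinarith
      · rw [if_neg hj]
        simp
  rw [ch_tsum ha1 ha2] at h1
  have h2 := h1.mul (bb_asymp ha0)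
  rw [mul_one_div] at h2
  refine h2.congr ?_
  intro n
  have h3 : ∑' j, (if j ≤ n then ch a j * (bb a (n - j) / bb a n) else 0) = kc a n / bb a n := by
    rw [tsum_eq_sum (s := Finset.range (n + 1))]
    · rw [kc, Finset.sum_div]
      apply Finset.sum_congr rfl
      intro k hk
      have hkn : k ≤ n := by
        have := Finset.mem_range.mp hk
        omega
      rw [if_pos hkn, mul_div_assoc]
    · intro j hj
      rw [Finset.mem_range] at hj
      rw [if_neg (by omega)]
  rw [h3]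
  have := (bb_pos ha0 n).ne'
  field_simp

end Pool.Agent.Run7.h820
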