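import Pool.Agent.Run7.h820.Assembly

open Complex MeasureTheory Metric Set Filter Topology
open scoped ENNReal Real ComplexConjugate NNReal

set_option autoImplicit false

namespace Pool.Agent.Run7.h820

lemma limit_lemma (b : ℕ → ℝ≥0∞)
    (h : ∀ η : ℝ≥0, 0 < η → ∃ n0 : ℕ, b n0 ≠ ⊤ ∧ ∀ n m : ℕ, n0 ≤ n → n ≤ m → b m ≤ b n + η) :
    ∃ L : ℝ≥0∞, L ≠ ⊤ ∧ Tendsto b atTop (𝓝 L) := by
  have h1 : ∀ η : ℝ≥0, 0 < η → limsup b atTop ≤ liminf b atTop + η := by
    intro η hη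
    obtain ⟨n0, _, hn0⟩ := h η hη
    rw [← tsub_le_iff_right]
    apply le_liminf_of_le
    · isBoundedDefault
    · filter_upwards [eventually_ge_atTop n0] with n hn
      rw [tsub_le_iff_right]
      apply limsup_le_of_le
      · isBoundedDefault
      · filter_upwards [eventually_ge_atTop n] with m hm using hn0 n m hn hm
  have h2 : limsup b atTop ≤ liminf b atTop :=
    ENNReal.le_of_forall_pos_le_add fun ε hε _ => h1 ε hε
  refine ⟨liminf b atTop, ?_, tendsto_of_le_liminf_of_limsup_le le_rfl h2⟩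
  obtain ⟨n0, hn0t, hn0⟩ := h 1 one_pos
  have h3 : limsup b atTop ≤ b n0 + 1 := by
    apply limsup_le_of_le
    · isBoundedDefault
    · filter_upwards [eventually_ge_atTop n0] with m hm using hn0 n0 m le_rfl hm
  have h4 : liminf b atTop ≤ b n0 + 1 := le_trans (liminf_le_limsup) h3
  exact ne_top_of_le_ne_top (ENNReal.add_ne_top.mpr ⟨hn0t, ENNReal.one_ne_top⟩) h4

lemma coeff_le {p : ℝ} (hp : 1 / 2 ≤ p) (hp1 : p < 1) {f : ℂ → ℂ} (hf : f ∈ classS p) (n : ℕ) :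
    ‖coeff f n‖ ≤ 4 ^ (2 * p) * 2 ^ n := by
  have hp0 : 0 ≤ p := by linarith
  obtain ⟨F, hLF, hexp, hF0⟩ := classS_log hp0 hp1 hf
  obtain ⟨hfd, _, _⟩ := (mem_classS_iff hp0 hp1).mp hf
  have hd : DiffContOnCl ℂ f (ball 0 (1 / 2)) := by
    apply DifferentiableOn.diffContOnCl
    rw [closure_ball _ (by norm_num)]
    exact hfd.mono (closedBall_subset_ball (by norm_num))
  have h1 := Complex.norm_iteratedDeriv_le_of_forall_mem_sphere_norm_le n
    (by norm_num : (0 : ℝ) < 1 / 2) hd (C := 4 ^ (2 * p)) (by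
      intro z hz
      rw [mem_sphere_zero_iff_norm] at hz
      have hz1 : z ∈ ball (0 : ℂ) 1 := by
        rw [mem_ball_zero_iff, hz]; norm_num
      rw [← hexp z hz1, Complex.norm_exp]
      have h2 := hLF.exp_le hp hF0 (δ := 1 / 2) (by norm_num) (z := z) (by rw [hz]; norm_num)
      have h3 : (2 : ℝ) / (1 / 2) = 4 := by norm_num
      rwa [h3] at h2)
  rw [coeff, norm_div, Complex.norm_natCast]
  have hn : (0 : ℝ) < n.factorial := by exact_mod_cast n.factorial_pos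
  rw [div_le_iff₀ hn]
  refine h1.trans (le_of_eq ?_)
  rw [one_div, inv_pow]
  field_simp

lemma A_le {p : ℝ} {n : ℕ} {a : ℝ} (h : ∀ g ∈ classS p, ‖coeff g n‖ ≤ a) : A p n ≤ ENNReal.ofReal a := by
  unfold A
  apply iSup₂_le
  intro g hg
  rw [← ofReal_norm]
  exact ENNReal.ofReal_le_ofReal (h g hg)

lemma A_ne_top {p : ℝ} (hp : 1 / 2 ≤ p) (hp1 : p < 1) (n : ℕ) : A p n ≠ ⊤ :=
  ne_top_of_le_ne_top ENNReal.ofReal_ne_top (A_le fun _ hg => coeff_le hp hp1 hg n)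

lemma le_A_toReal {p : ℝ} (hp : 1 / 2 ≤ p) (hp1 : p < 1) {g : ℂ → ℂ} (hg : g ∈ classS p) (n : ℕ) :
    ‖coeff g n‖ ≤ (A p n).toReal := by
  have h1 : ‖coeff g n‖ₑ ≤ A p n := by
    unfold A
    exact le_iSup₂ (f := fun f (_ : f ∈ classS p) => ‖coeff f n‖ₑ) g hg
  have h2 := ENNReal.toReal_mono (A_ne_top hp hp1 n) h1
  simpa using h2

/-- existence of the limit -/
theorem limit_exists {p : ℝ} (hp : 1 / 2 ≤ p) (hp1 : p < 1) :
    ∃ L : ℝ≥0∞, L ≠ ⊤ ∧
      Tendsto (fun n : ℕ => A p n * ENNReal.ofReal ((n : ℝ) ^ (1 - 2 * p))) atTop (𝓝 L) := by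
  apply limit_lemma
  intro η hη
  obtain ⟨n0, hn08, hstep⟩ := step hp hp1 (η := η) (by exact_mod_cast hη)
  refine ⟨n0, ENNReal.mul_ne_top (A_ne_top hp hp1 n0) ENNReal.ofReal_ne_top, ?_⟩
  intro n m hn hm
  have hm0 : (0 : ℝ) < m := by
    have : 0 < m := by omega
    exact_mod_cast this
  have hn0 : (0 : ℝ) < n := by
    have : 0 < n := by omega
    exact_mod_cast this
  set a := (A p n).toReal with ha
  have ha0 : 0 ≤ a := ENNReal.toReal_nonneg
  have h1 := hstep n m hn hm a (fun g hg => le_A_toReal hp hp1 hg n) ha0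
  have h2 : A p m ≤ ENNReal.ofReal ((a * (n : ℝ) ^ (1 - 2 * p) + η) * ((m : ℝ) ^ (1 - 2 * p))⁻¹) := by
    apply A_le
    intro g hg
    rw [← div_eq_mul_inv, le_div_iff₀ (by positivity)]
    exact h1 g hg
  calc A p m * ENNReal.ofReal ((m : ℝ) ^ (1 - 2 * p))
      ≤ ENNReal.ofReal ((a * (n : ℝ) ^ (1 - 2 * p) + η) * ((m : ℝ) ^ (1 - 2 * p))⁻¹) *
        ENNReal.ofReal ((m : ℝ) ^ (1 - 2 * p)) := by gcongr
    _ = ENNReal.ofReal (a * (n : ℝ) ^ (1 - 2 * p) + η) := by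
      rw [← ENNReal.ofReal_mul (by positivity)]
      congr 1
      field_simp
    _ = A p n * ENNReal.ofReal ((n : ℝ) ^ (1 - 2 * p)) + η := by
      rw [ENNReal.ofReal_add (by positivity) (by positivity), ENNReal.ofReal_mul ha0, ha,
        ENNReal.ofReal_toReal (A_ne_top hp hp1 n), ENNReal.ofReal_coe_nnreal]

end Pool.Agent.Run7.h820
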