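import Pool.Agent.Run7.h820.JGrowth
import Pool.Agent.Run7.h820.Defs

open Complex MeasureTheory Metric Set Filter Topology
open scoped ENNReal Real ComplexConjugate

set_option autoImplicit false

namespace Pool.Agent.Run7.h820

noncomputable def Q1 (v : ℝ) : ℝ := 4 * Real.exp (1 / 4 * v)
noncomputable def Q2 (v : ℝ) : ℝ := Real.exp (1 / 4 * v)

lemma Q1_hasDerivAt (v : ℝ) : HasDerivAt Q1 (Q2 v) v := by
  have := (((hasDerivAt_id v).const_mul (1 / 4 : ℝ)).exp).const_mul (4 : ℝ)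
  refine this.congr_deriv ?_
  simp only [id_eq, mul_one, Q2]
  ring

lemma Q2_cont : Continuous Q2 := by unfold Q2; fun_prop
lemma Q2_nonneg (v : ℝ) : 0 ≤ Q2 v := by unfold Q2; positivity

lemma LogArea.master {p : ℝ} (hp : 1 / 2 ≤ p) {F : ℂ → ℂ} (h : LogArea p F) {m : ℝ} (hm : 1 ≤ m)
    {M : ℝ} (hM : 0 < M) (hFM : ∀ z : ℂ, ‖z‖ ≤ Real.exp (-(1 / m)) → Real.exp (F z).re ≤ M)
    {k : ℝ → ℝ → ℝ} (hk : ContinuousOn (fun q : ℝ × ℝ => k q.1 q.2)
      (Icc (-(2 / m)) (-(1 / m)) ×ˢ Icc 0 (2 * π)))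
    {N : ℝ} (hN : 0 < N)
    (hkN : ∫ x in (-(2 / m))..(-(1 / m)), ∫ y in (0 : ℝ)..(2 * π),
      E0 (F (exp (x + y * I))).re * k x y ^ 2 ≤ N) {V : ℝ}
    (hV : ∀ x ∈ Icc (-(2 / m)) (-(1 / m)), V ≤ ∫ y in (0 : ℝ)..(2 * π),
      ‖G1 F (x + y * I)‖ * Real.exp (F (exp (x + y * I))).re * k x y) :
    V ≤ m * Real.sqrt ((32 * π * p * M ^ (1 / 4 : ℝ)) * N) := by
  have hpi := Real.pi_pos
  have hp0 : 0 < p := by linarith
  have hm0 : 0 < m := by linarith
  set x0 : ℝ := -(2 / m) with hx0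
  set x1 : ℝ := -(1 / m) with hx1
  have hx : x0 ≤ x1 := by
    rw [hx0, hx1, neg_le_neg_iff]; gcongr; norm_num
  have hx1neg : x1 < 0 := by rw [hx1]; have : 0 < 1 / m := by positivity
                             linarith
  have hlen : x1 - x0 = 1 / m := by rw [hx0, hx1]; ring
  set E : ℝ := 32 * π * p * M ^ (1 / 4 : ℝ) with hE
  have hE0 : 0 < E := by positivity
  -- first energy
  have hen := h.energy (β := 1 / 4) hp0.le (by norm_num) (by norm_num) hM
    (S := ball (0 : ℂ) (Real.exp x1)) (ball_subset_ball (Real.exp_le_one_iff.mpr hx1neg.le))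
    measurableSet_ball (fun z hz => hFM z (by rw [mem_ball_zero_iff] at hz; exact hz.le))
  have hen' : ∫⁻ z in ball (0 : ℂ) (Real.exp x1), ENNReal.ofReal (Q2 (F z).re * ‖deriv F z‖ ^ 2)
      ≤ ENNReal.ofReal E := by
    refine hen.trans (le_of_eq ?_)
    congr 1
    rw [hE]; ring
  have h1 : ∫ x in x0..x1, ∫ y in (0 : ℝ)..(2 * π),
      Q2 (F (exp (x + y * I))).re * ‖G1 F (x + y * I)‖ ^ 2 ≤ E := by
    have h2 := q_diff_le h.diff Q1_hasDerivAt Q2_cont Q2_nonneg hE0.le hx hx1neg le_rfl hen'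
    unfold qint at h2
    rwa [green_id h.diff Q1_hasDerivAt Q2_cont hx hx1neg] at h2
  -- continuity
  have hc1 := contOn_comb2 h.diff Q2_cont (x0 := x0) (c := 0) (d := 2 * π) hx1neg
  have hFc : ContinuousOn (fun q : ℝ × ℝ => (F (exp (q.1 + q.2 * I))).re) (Icc x0 x1 ×ˢ Icc 0 (2 * π)) := by
    intro q hq
    have hre : ((q.1 : ℂ) + q.2 * I).re < 0 := by
      simpa using lt_of_le_of_lt hq.1.2 hx1neg
    have h2 : ContinuousAt (fun q : ℝ × ℝ => F (exp (q.1 + q.2 * I))) q :=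
      (continuousAt_Fexp h.diff hre).comp (f := fun q : ℝ × ℝ => ((q.1 : ℂ) + q.2 * I)) (by fun_prop)
    exact (Complex.continuous_re.continuousAt.comp h2).continuousWithinAt
  have hGc : ContinuousOn (fun q : ℝ × ℝ => ‖G1 F (q.1 + q.2 * I)‖) (Icc x0 x1 ×ˢ Icc 0 (2 * π)) := by
    intro q hq
    have hre : ((q.1 : ℂ) + q.2 * I).re < 0 := by
      simpa using lt_of_le_of_lt hq.1.2 hx1neg
    exact (((continuousAt_G1 h.diff hre).comp (f := fun q : ℝ × ℝ => ((q.1 : ℂ) + q.2 * I))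
      (by fun_prop)).norm).continuousWithinAt
  have hc2 : ContinuousOn (fun q : ℝ × ℝ => E0 (F (exp (q.1 + q.2 * I))).re * k q.1 q.2 ^ 2)
      (Icc x0 x1 ×ˢ Icc 0 (2 * π)) := (E0_cont.comp_continuousOn hFc).mul (hk.pow 2)
  have hc3 : ContinuousOn (fun q : ℝ × ℝ => ‖G1 F (q.1 + q.2 * I)‖ *
      Real.exp (F (exp (q.1 + q.2 * I))).re * k q.1 q.2) (Icc x0 x1 ×ˢ Icc 0 (2 * π)) :=
    (hGc.mul (Real.continuous_exp.comp_continuousOn hFc)).mul hk
  set a : ℝ := Real.sqrt (N / E) with ha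
  have ha0 : 0 < a := Real.sqrt_pos.mpr (by positivity)
  -- slice integrability
  have hsl : ∀ {w : ℝ → ℝ → ℝ}, ContinuousOn (fun q : ℝ × ℝ => w q.1 q.2) (Icc x0 x1 ×ˢ Icc 0 (2 * π)) →
      ∀ x ∈ Icc x0 x1, IntervalIntegrable (fun y => w x y) volume 0 (2 * π) := by
    intro w hw x hx'
    apply ContinuousOn.intervalIntegrable
    rw [uIcc_of_le (by positivity)]
    exact hw.comp (f := fun y : ℝ => (x, y)) (by fun_prop) (fun y hy => ⟨hx', hy⟩)
  have h2 : ∀ x ∈ Icc x0 x1, V ≤ a / 2 * (∫ y in (0 : ℝ)..(2 * π),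
      Q2 (F (exp (x + y * I))).re * ‖G1 F (x + y * I)‖ ^ 2) + 1 / (2 * a) *
      (∫ y in (0 : ℝ)..(2 * π), E0 (F (exp (x + y * I))).re * k x y ^ 2) := by
    intro x hx'
    refine (hV x hx').trans ?_
    have i1 := hsl (w := fun x y => Q2 (F (exp (x + y * I))).re * ‖G1 F (x + y * I)‖ ^ 2) hc1 x hx'
    have i2 := hsl (w := fun x y => E0 (F (exp (x + y * I))).re * k x y ^ 2) hc2 x hx'
    have i3 := hsl (w := fun x y => ‖G1 F (x + y * I)‖ *
      Real.exp (F (exp (x + y * I))).re * k x y) hc3 x hx'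
    rw [← intervalIntegral.integral_const_mul, ← intervalIntegral.integral_const_mul,
      ← intervalIntegral.integral_add (i1.const_mul _) (i2.const_mul _)]
    apply intervalIntegral.integral_mono_on (by positivity) i3
      ((i1.const_mul _).add (i2.const_mul _))
    intro y _
    set u := (F (exp (x + y * I))).re with hu
    have e1 : Real.exp u = Real.exp (1 / 8 * u) * Real.exp (7 / 8 * u) := by
      rw [← Real.exp_add]; congr 1; ring
    have e2 : Q2 u = Real.exp (1 / 8 * u) ^ 2 := by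
      rw [Q2, ← Real.exp_nat_mul]; congr 1; push_cast; ring
    have e3 : E0 u = Real.exp (7 / 8 * u) ^ 2 := by
      rw [E0, ← Real.exp_nat_mul]; congr 1; push_cast; ring
    rw [e1, e2, e3]
    set α := Real.exp (1 / 8 * u)
    set β := Real.exp (7 / 8 * u)
    set g := ‖G1 F (x + y * I)‖
    have h5 : a / 2 * (α ^ 2 * g ^ 2) + 1 / (2 * a) * (β ^ 2 * k x y ^ 2) - g * (α * β) * k x y
        = (a * (α * g) - β * k x y) ^ 2 / (2 * a) := by
      field_simp
      ring
    have h6 : 0 ≤ (a * (α * g) - β * k x y) ^ 2 / (2 * a) := by positivity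
    linarith
  have j1 := rect_inner_integrable (h := fun x y => Q2 (F (exp (x + y * I))).re *
    ‖G1 F (x + y * I)‖ ^ 2) hx (by positivity) hc1
  have j2 := rect_inner_integrable (h := fun x y => E0 (F (exp (x + y * I))).re * k x y ^ 2)
    hx (by positivity) hc2
  have h3 : ∫ x in x0..x1, V ≤ ∫ x in x0..x1, (a / 2 * (∫ y in (0 : ℝ)..(2 * π),
      Q2 (F (exp (x + y * I))).re * ‖G1 F (x + y * I)‖ ^ 2) + 1 / (2 * a) *
      (∫ y in (0 : ℝ)..(2 * π), E0 (F (exp (x + y * I))).re * k x y ^ 2)) := by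
    apply intervalIntegral.integral_mono_on hx intervalIntegrable_const _ h2
    exact (j1.const_mul _).add (j2.const_mul _)
  rw [intervalIntegral.integral_add (j1.const_mul _) (j2.const_mul _),
    intervalIntegral.integral_const_mul, intervalIntegral.integral_const_mul,
    intervalIntegral.integral_const, smul_eq_mul, hlen] at h3
  have h4 : 1 / m * V ≤ a / 2 * E + 1 / (2 * a) * N := by
    refine h3.trans ?_
    gcongr
  have h5 : a / 2 * E + 1 / (2 * a) * N = Real.sqrt (E * N) := by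
    have e1 : Real.sqrt (E * N) = a * E := by
      rw [ha]
      have : E * N = (N / E) * E ^ 2 := by field_simp
      rw [this, Real.sqrt_mul (by positivity), Real.sqrt_sq hE0.le]
    have e2 : a ^ 2 = N / E := Real.sq_sqrt (by positivity)
    rw [e1]
    have e3 : N = a ^ 2 * E := by rw [e2]; field_simp
    rw [e3]
    field_simp
    ring
  rw [h5] at h4
  calc V = m * (1 / m * V) := by field_simp
    _ ≤ m * Real.sqrt (E * N) := by gcongr

/-- bounding circle integrals -/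
lemma circ_bound {F : ℂ → ℂ} (K : ℂ → ℂ) (x : ℝ) :
    2 * π * ‖(2 * π * I : ℂ)⁻¹ * ∮ w in C(0, Real.exp x), K w * (deriv F w * exp (F w))‖
      ≤ ∫ y in (0 : ℝ)..(2 * π), ‖G1 F (x + y * I)‖ * Real.exp (F (exp (x + y * I))).re *
        ‖K (exp (x + y * I))‖ := by
  have hpi := Real.pi_pos
  rw [norm_mul, norm_inv]
  have h1 : ‖(2 * π * I : ℂ)‖ = 2 * π := by
    simp [abs_of_pos hpi]
  rw [h1, ← mul_assoc, mul_inv_cancel₀ (by positivity), one_mul, circleIntegral]
  refine (intervalIntegral.norm_integral_le_integral_norm (by positivity)).trans (le_of_eq ?_)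
  apply intervalIntegral.integral_congr
  intro y _
  simp only [deriv_circleMap, smul_eq_mul]
  have h2 : circleMap 0 (Real.exp x) y = exp (x + y * I) := by
    rw [circleMap, zero_add, Complex.exp_add, Complex.ofReal_exp]
  rw [h2, norm_mul, norm_mul, norm_mul, norm_mul, Complex.norm_I, G1, norm_mul, Complex.norm_exp (F _)]
  ring

end Pool.Agent.Run7.h820
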