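import Mathlib

open Complex MeasureTheory Metric Set Filter Topology Finset
open scoped ENNReal Real

set_option autoImplicit false

namespace Pool.Agent.Run7.h820

/-- mean value property, real part -/
lemma avg_re (Q : ℂ → ℂ) (r : ℝ) (hc : ContinuousOn Q (sphere 0 |r|))
    (hQ : DiffContOnCl ℂ Q (ball 0 |r|)) :
    Real.circleAverage (fun z => (Q z).re) 0 r = (Q 0).re := by
  have hi : CircleIntegrable Q 0 r := hc.circleIntegrable'
  have h1 := hQ.circleAverage
  have h2 := Complex.reCLM.circleAverage_comp_comm hi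
  rw [h1] at h2
  exact h2

lemma circ_int_cont (f : ℂ → ℝ) (hf : Continuous f) (r : ℝ) : CircleIntegrable f 0 r :=
  ContinuousOn.circleIntegrable' hf.continuousOn

lemma avg_add3 (f g : ℂ → ℝ) (hf : Continuous f) (hg : Continuous g) (c r : ℝ) :
    Real.circleAverage (fun z => f z + g z + c) 0 r
      = Real.circleAverage f 0 r + Real.circleAverage g 0 r + c := by
  have h1 := Real.circleAverage_fun_add (circ_int_cont _ (hf.add hg) r)
    (circ_int_cont (fun _ => c) continuous_const r)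
  have h2 := Real.circleAverage_fun_add (circ_int_cont _ hf r) (circ_int_cont _ hg r)
  rw [Real.circleAverage_const] at h1
  simp only [Pi.add_apply] at h1 h2 ⊢
  rw [h1, ← h2]
  rfl

lemma parseval_fin (p : ℕ → ℂ) (r : ℝ) (N : ℕ) :
    Real.circleAverage (fun z => ‖∑ n ∈ range N, p n * z ^ n‖ ^ 2) 0 r
      = ∑ n ∈ range N, ‖p n‖ ^ 2 * (r ^ 2) ^ n := by
  induction N with
  | zero =>
    simp only [Finset.range_zero, Finset.sum_empty, norm_zero]
    rw [Real.circleAverage_const]
    simp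
  | succ N ih =>
    rw [Finset.sum_range_succ (n := N) (f := fun n => ‖p n‖ ^ 2 * (r ^ 2) ^ n), ← ih]
    set Q : ℂ → ℂ := fun z => p N * ∑ n ∈ range N, (starRingEnd ℂ) (p n) * ((r : ℂ) ^ 2) ^ n * z ^ (N - n) with hQ
    have hQd : Differentiable ℂ Q := by
      rw [hQ]
      fun_prop
    have hQ0 : Q 0 = 0 := by
      rw [hQ]
      simp only
      rw [Finset.sum_eq_zero, mul_zero]
      intro n hn
      have : N - n ≠ 0 := by
        have := Finset.mem_range.mp hn
        omega
      rw [zero_pow this, mul_zero]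
    have havg : Real.circleAverage (fun z => (Q z).re) 0 r = 0 := by
      rw [avg_re Q r hQd.continuous.continuousOn hQd.diffContOnCl, hQ0]
      simp
    have hpt : Set.EqOn (fun z : ℂ => ‖∑ n ∈ range (N + 1), p n * z ^ n‖ ^ 2)
        (fun z => (‖∑ n ∈ range N, p n * z ^ n‖ ^ 2 + 2 * (Q z).re) + ‖p N‖ ^ 2 * (r ^ 2) ^ N)
        (sphere 0 |r|) := by
      intro z hz
      have hz1 : ‖z‖ = |r| := by simpa using hz
      have hz2 : (starRingEnd ℂ) z * z = (r : ℂ) ^ 2 := by
        rw [Complex.conj_mul', hz1]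
        rw [← Complex.ofReal_pow, sq_abs, Complex.ofReal_pow]
      simp only
      rw [Finset.sum_range_succ]
      have h1 : (starRingEnd ℂ) (∑ n ∈ range N, p n * z ^ n) * (p N * z ^ N) = Q z := by
        rw [hQ]
        simp only
        rw [map_sum, Finset.sum_mul, Finset.mul_sum]
        apply Finset.sum_congr rfl
        intro n hn
        have hn' : n < N := Finset.mem_range.mp hn
        rw [map_mul, map_pow, ← hz2, mul_pow]
        have : z ^ N = z ^ n * z ^ (N - n) := by
          rw [← pow_add]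
          congr 1
          omega
        rw [this]
        ring
      have h2 : ∀ x y : ℂ, ‖x + y‖ ^ 2 = ‖x‖ ^ 2 + 2 * ((starRingEnd ℂ) x * y).re + ‖y‖ ^ 2 := by
        intro x y
        simp only [← Complex.normSq_eq_norm_sq, Complex.normSq_apply, Complex.mul_re,
          Complex.conj_re, Complex.conj_im, Complex.add_re, Complex.add_im]
        ring
      rw [h2, h1, norm_mul, norm_pow, hz1, mul_pow, ← pow_mul, mul_comm N 2, pow_mul, sq_abs]
    rw [Real.circleAverage_congr_sphere hpt]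
    have hc1 : Continuous (fun z : ℂ => ‖∑ n ∈ range N, p n * z ^ n‖ ^ 2) := by fun_prop
    have hc2 : Continuous (fun z : ℂ => 2 * (Q z).re) := by
      have := hQd.continuous
      fun_prop
    rw [avg_add3 _ _ hc1 hc2]
    have : Real.circleAverage (fun z : ℂ => 2 * (Q z).re) 0 r = 0 := by
      have h := Real.circleAverage_fun_smul (a := (2 : ℝ)) (f := fun z : ℂ => (Q z).re) (c := 0) (R := r)
      simp only [smul_eq_mul] at h
      rw [h, havg]
      simp
    rw [this]
    ring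

/-- Taylor coefficient -/
noncomputable def tc (H : ℂ → ℂ) (n : ℕ) : ℂ := (n.factorial : ℂ)⁻¹ * iteratedDeriv n H 0

lemma tc_hasSum {H : ℂ → ℂ} (hH : DifferentiableOn ℂ H (ball 0 1)) {z : ℂ} (hz : z ∈ ball (0 : ℂ) 1) :
    HasSum (fun n => tc H n * z ^ n) (H z) := by
  have h := Complex.hasSum_taylorSeries_on_ball (r := 1) (by simpa using hH) (by simpa using hz)
  simp only [sub_zero, smul_eq_mul] at h
  refine h.congr_fun ?_
  intro n
  simp only [tc]
  ring

lemma parseval {H : ℂ → ℂ} (hH : DifferentiableOn ℂ H (ball 0 1)) {t : ℝ} (h0 : 0 ≤ t) (h1 : t < 1) :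
    HasSum (fun n => ‖tc H n‖ ^ 2 * (t ^ 2) ^ n) (Real.circleAverage (fun z => ‖H z‖ ^ 2) 0 t) := by
  have hmem : ∀ θ : ℝ, ‖circleMap 0 t θ‖ = t := by
    intro θ
    rw [norm_circleMap_zero, abs_of_nonneg h0]
  have hts : Summable (fun n => ‖tc H n‖ * t ^ n) := by
    have h := (tc_hasSum hH (z := (t : ℂ)) (by simpa [abs_of_nonneg h0] using h1)).summable.norm
    refine h.congr fun n => ?_
    rw [norm_mul, norm_pow, Complex.norm_real, Real.norm_of_nonneg h0]
  set B := ∑' n, ‖tc H n‖ * t ^ n with hB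
  have key : Tendsto (fun N : ℕ => Real.circleAverage (fun z => ‖∑ n ∈ range N, tc H n * z ^ n‖ ^ 2) 0 t)
      atTop (𝓝 (Real.circleAverage (fun z => ‖H z‖ ^ 2) 0 t)) := by
    unfold Real.circleAverage
    apply Tendsto.const_smul
    apply intervalIntegral.tendsto_integral_filter_of_dominated_convergence
      (fun _ => B ^ 2)
    · filter_upwards with N
      apply Continuous.aestronglyMeasurable
      fun_prop
    · filter_upwards with N
      filter_upwards with θ _
      rw [Real.norm_of_nonneg (by positivity)]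
      apply pow_le_pow_left₀ (norm_nonneg _)
      calc ‖∑ n ∈ range N, tc H n * circleMap 0 t θ ^ n‖
          ≤ ∑ n ∈ range N, ‖tc H n * circleMap 0 t θ ^ n‖ := norm_sum_le _ _
        _ = ∑ n ∈ range N, ‖tc H n‖ * t ^ n := by
            apply Finset.sum_congr rfl
            intro n _
            rw [norm_mul, norm_pow, hmem]
        _ ≤ B := hts.sum_le_tsum _ (fun n _ => by positivity)
    · exact intervalIntegrable_const
    · filter_upwards with θ _
      have hs := tc_hasSum hH (z := circleMap 0 t θ) (by rw [mem_ball_zero_iff, hmem]; exact h1)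
      exact (hs.tendsto_sum_nat.norm).pow 2
  have key2 : Tendsto (fun N : ℕ => ∑ n ∈ range N, ‖tc H n‖ ^ 2 * (t ^ 2) ^ n) atTop
      (𝓝 (Real.circleAverage (fun z => ‖H z‖ ^ 2) 0 t)) :=
    key.congr fun N => parseval_fin _ _ _
  exact (hasSum_iff_tendsto_nat_of_nonneg (fun n => by positivity) _).mpr key2

lemma tc_zero (H : ℂ → ℂ) : tc H 0 = H 0 := by simp [tc]

lemma tc_one (H : ℂ → ℂ) : tc H 1 = deriv H 0 := by simp [tc, iteratedDeriv_one]

lemma parseval_lower {H : ℂ → ℂ} (hH : DifferentiableOn ℂ H (ball 0 1)) {t : ℝ} (h0 : 0 ≤ t)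
    (h1 : t < 1) :
    ‖H 0‖ ^ 2 + t ^ 2 * ‖deriv H 0‖ ^ 2 ≤ Real.circleAverage (fun z => ‖H z‖ ^ 2) 0 t := by
  have h := sum_le_hasSum (range 2) (fun n _ => by positivity) (parseval hH h0 h1)
  rw [Finset.sum_range_succ, Finset.sum_range_one, tc_zero, tc_one] at h
  simp only [pow_zero, mul_one, pow_one] at h
  linarith [mul_comm (t ^ 2) (‖deriv H 0‖ ^ 2)]

lemma parseval_ratio {H : ℂ → ℂ} (hH : DifferentiableOn ℂ H (ball 0 1)) {t r : ℝ} (h0 : 0 ≤ t)
    (htr : t ≤ r) (hr : 0 < r) (h1 : r < 1) :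
    Real.circleAverage (fun z => ‖H z‖ ^ 2) 0 t - ‖H 0‖ ^ 2 ≤
      t ^ 2 / r ^ 2 * (Real.circleAverage (fun z => ‖H z‖ ^ 2) 0 r - ‖H 0‖ ^ 2) := by
  have ht := parseval hH h0 (lt_of_le_of_lt htr h1)
  have hr' := parseval hH hr.le h1
  have ht2 := (hasSum_nat_add_iff' (f := fun n => ‖tc H n‖ ^ 2 * (t ^ 2) ^ n) 1).mpr ht
  have hr2 := (hasSum_nat_add_iff' (f := fun n => ‖tc H n‖ ^ 2 * (r ^ 2) ^ n) 1).mpr hr'
  simp only [Finset.sum_range_one, tc_zero, pow_zero, mul_one] at ht2 hr2
  refine hasSum_le (fun n => ?_) ht2 (hr2.mul_left (t ^ 2 / r ^ 2))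
  have h3 : t ^ 2 ≤ r ^ 2 := by nlinarith
  have h4 : (t ^ 2) ^ n ≤ (r ^ 2) ^ n := pow_le_pow_left₀ (by positivity) h3 n
  have h5 : t ^ 2 / r ^ 2 * (‖tc H (n + 1)‖ ^ 2 * (r ^ 2) ^ (n + 1))
      = ‖tc H (n + 1)‖ ^ 2 * (t ^ 2 * (r ^ 2) ^ n) := by
    have : r ^ 2 ≠ 0 := by positivity
    field_simp
    ring
  rw [h5, pow_succ' (t ^ 2)]
  gcongr

end Pool.Agent.Run7.h820
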