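import Pool.Agent.Run7.h820.Master

open Complex MeasureTheory Metric Set Filter Topology
open scoped ENNReal Real ComplexConjugate

set_option autoImplicit false

namespace Pool.Agent.Run7.h820

lemma coeff_formula {f : ℂ → ℂ} (hf : DifferentiableOn ℂ f (ball 0 1)) {r : ℝ} (hr : 0 < r)
    (hr1 : r < 1) {m : ℕ} (hm : 1 ≤ m) :
    (m : ℂ) * coeff f m = (2 * π * I : ℂ)⁻¹ * ∮ w in C(0, r), (1 / w ^ m) * deriv f w := by
  obtain ⟨n, rfl⟩ : ∃ n, m = n + 1 := ⟨m - 1, by omega⟩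
  have hd : DifferentiableOn ℂ (deriv f) (closedBall 0 r) :=
    (hf.deriv isOpen_ball).mono (closedBall_subset_ball hr1)
  have h1 := hd.circleIntegral_one_div_sub_center_pow_smul hr n
  simp only [sub_zero, smul_eq_mul] at h1
  rw [h1, coeff, iteratedDeriv_succ', Nat.factorial_succ]
  have hpi : (π : ℂ) ≠ 0 := by exact_mod_cast Real.pi_ne_zero
  have hn : ((n : ℂ) + 1) ≠ 0 := by exact_mod_cast Nat.succ_ne_zero n
  have hf : ((n.factorial : ℕ) : ℂ) ≠ 0 := by exact_mod_cast n.factorial_ne_zero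
  push_cast
  have hI : I ≠ 0 := Complex.I_ne_zero
  field_simp

lemma deriv_exp_comp {F : ℂ → ℂ} (hF : DifferentiableOn ℂ F (ball 0 1)) {w : ℂ}
    (hw : w ∈ ball (0 : ℂ) 1) : deriv (fun z => exp (F z)) w = deriv F w * exp (F w) := by
  have h1 : HasDerivAt F (deriv F w) w := (hF.differentiableAt (isOpen_ball.mem_nhds hw)).hasDerivAt
  have h2 := h1.cexp
  rw [h2.deriv]; ring

lemma circle_deriv_congr {F : ℂ → ℂ} (hF : DifferentiableOn ℂ F (ball 0 1)) (K : ℂ → ℂ) {r : ℝ}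
    (hr : 0 ≤ r) (hr1 : r < 1) :
    ∮ w in C(0, r), K w * deriv (fun z => exp (F z)) w = ∮ w in C(0, r), K w * (deriv F w * exp (F w)) := by
  apply circleIntegral.integral_congr hr
  intro w hw
  simp only
  rw [deriv_exp_comp hF]
  rw [mem_sphere_zero_iff_norm] at hw
  rw [mem_ball_zero_iff, hw]
  exact hr1

/-- a small maximum modulus forces a small coefficient -/
theorem partH {p : ℝ} (hp : 1 / 2 ≤ p) : ∃ C : ℝ, 0 < C ∧ ∀ F : ℂ → ℂ, LogArea p F →
    (F 0).re = 0 → ∀ m : ℕ, 1 ≤ m → ∀ u : ℝ, (∀ z : ℂ, ‖z‖ ≤ Real.exp (-(1 / m)) → (F z).re ≤ u) →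
    ‖coeff (fun z => exp (F z)) m‖ * (m : ℝ) ^ (1 - 2 * p) ≤
      C * Real.exp ((u - 2 * p * Real.log m) / 8) := by
  have hpi := Real.pi_pos
  have hp0 : 0 < p := by linarith
  set CJ : ℝ := 3 * (14 * π * p * 4 ^ (7 / 2 * p)) * 2 ^ (7 / 2 * p - 1) with hCJ
  have hCJ0 : 0 < CJ := by positivity
  set C : ℝ := Real.sqrt (32 * π * p * (Real.exp 4 * CJ)) / (2 * π) with hC
  refine ⟨C, by positivity, ?_⟩
  intro F h h0 m hm u hu
  have hm' : (1 : ℝ) ≤ m := by exact_mod_cast hm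
  have hm0 : (0 : ℝ) < m := by linarith
  set x0 : ℝ := -(2 / m) with hx0
  set x1 : ℝ := -(1 / m) with hx1
  have hx : x0 ≤ x1 := by
    rw [hx0, hx1, neg_le_neg_iff]; gcongr; norm_num
  have hx1neg : x1 < 0 := by
    rw [hx1]; have : 0 < 1 / (m : ℝ) := by positivity
    linarith
  have hlen : x1 - x0 = 1 / m := by rw [hx0, hx1]; ring
  set N : ℝ := Real.exp 4 * (CJ * (m : ℝ) ^ (7 / 2 * p - 1)) * (1 / m) with hN
  have hN0 : 0 < N := by positivity
  have hFc : ContinuousOn (fun q : ℝ × ℝ => (F (exp (q.1 + q.2 * I))).re) (Icc x0 x1 ×ˢ Icc 0 (2 * π)) := by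
    intro q hq
    have hre : ((q.1 : ℂ) + q.2 * I).re < 0 := by
      simpa using lt_of_le_of_lt hq.1.2 hx1neg
    have h2 : ContinuousAt (fun q : ℝ × ℝ => F (exp (q.1 + q.2 * I))) q :=
      (continuousAt_Fexp h.diff hre).comp (f := fun q : ℝ × ℝ => ((q.1 : ℂ) + q.2 * I)) (by fun_prop)
    exact (Complex.continuous_re.continuousAt.comp h2).continuousWithinAt
  have hGc : ContinuousOn (fun q : ℝ × ℝ => ‖G1 F (q.1 + q.2 * I)‖) (Icc x0 x1 ×ˢ Icc 0 (2 * π)) := by
    intro q hq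
    have hre : ((q.1 : ℂ) + q.2 * I).re < 0 := by
      simpa using lt_of_le_of_lt hq.1.2 hx1neg
    exact (((continuousAt_G1 h.diff hre).comp (f := fun q : ℝ × ℝ => ((q.1 : ℂ) + q.2 * I))
      (by fun_prop)).norm).continuousWithinAt
  have hkN : ∫ x in x0..x1, ∫ y in (0 : ℝ)..(2 * π),
      E0 (F (exp (x + y * I))).re * (Real.exp 2) ^ 2 ≤ N := by
    have hc2 : ContinuousOn (fun q : ℝ × ℝ => E0 (F (exp (q.1 + q.2 * I))).re * (Real.exp 2) ^ 2)
      (Icc x0 x1 ×ˢ Icc 0 (2 * π)) := (E0_cont.comp_continuousOn hFc).mul continuousOn_const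
    have h1 : ∀ x ∈ Icc x0 x1, ∫ y in (0 : ℝ)..(2 * π), E0 (F (exp (x + y * I))).re * (Real.exp 2) ^ 2
        ≤ Real.exp 4 * (CJ * (m : ℝ) ^ (7 / 2 * p - 1)) := by
      intro x hx'
      rw [intervalIntegral.integral_mul_const]
      have h2 : Jint F E0 x ≤ Jint F E0 x1 :=
        J_mono h.diff E0_hasDerivAt E1_hasDerivAt E2_cont E2_nonneg hx'.2 hx1neg
      have h3 := h.J_growth hp h0 hm'
      have h4 : Real.exp 2 ^ 2 = Real.exp 4 := by
        rw [← Real.exp_nat_mul]; norm_num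
      rw [h4]
      have h5 : (∫ y in (0 : ℝ)..(2 * π), E0 (F (exp (x + y * I))).re) = Jint F E0 x := rfl
      rw [h5, mul_comm]
      gcongr
      exact h2.trans h3
    have h2 := intervalIntegral.integral_mono_on hx
      (rect_inner_integrable (h := fun x y => E0 (F (exp (x + y * I))).re * (Real.exp 2) ^ 2)
        hx (by positivity) hc2) intervalIntegrable_const h1
    rw [intervalIntegral.integral_const, smul_eq_mul, hlen] at h2
    refine h2.trans (le_of_eq ?_)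
    rw [hN]; ring
  have hV : ∀ x ∈ Icc x0 x1, 2 * π * ‖(m : ℂ) * coeff (fun z => exp (F z)) m‖ ≤
      ∫ y in (0 : ℝ)..(2 * π), ‖G1 F (x + y * I)‖ * Real.exp (F (exp (x + y * I))).re * Real.exp 2 := by
    intro x hx'
    have hxneg : x < 0 := lt_of_le_of_lt hx'.2 hx1neg
    have hfd : DifferentiableOn ℂ (fun z => exp (F z)) (ball 0 1) := h.diff.cexp
    rw [coeff_formula hfd (Real.exp_pos x) (Real.exp_lt_one_iff.mpr hxneg) hm]
    rw [circle_deriv_congr h.diff (fun w => 1 / w ^ m) (Real.exp_pos x).le (Real.exp_lt_one_iff.mpr hxneg)]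
    refine (circ_bound (fun w => 1 / w ^ m) x).trans ?_
    have hsl : ∀ {w : ℝ → ℝ → ℝ}, ContinuousOn (fun q : ℝ × ℝ => w q.1 q.2) (Icc x0 x1 ×ˢ Icc 0 (2 * π)) →
        IntervalIntegrable (fun y => w x y) volume 0 (2 * π) := by
      intro w hw
      apply ContinuousOn.intervalIntegrable
      rw [uIcc_of_le (by positivity)]
      exact hw.comp (f := fun y : ℝ => (x, y)) (by fun_prop) (fun y hy => ⟨hx', hy⟩)
    have hKn : ∀ y : ℝ, ‖(1 : ℂ) / exp ((x : ℂ) + y * I) ^ m‖ = Real.exp (-(m * x)) := by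
      intro y
      rw [norm_div, norm_one, norm_pow, Complex.norm_exp]
      simp only [add_re, ofReal_re, mul_re, I_re, mul_zero, ofReal_im, I_im, mul_one, sub_self,
        add_zero]
      rw [← Real.exp_nat_mul, one_div, ← Real.exp_neg]
    simp_rw [hKn]
    have hmx : Real.exp (-(m * x)) ≤ Real.exp 2 := by
      apply Real.exp_le_exp.mpr
      have h1 : x0 ≤ x := hx'.1
      rw [hx0] at h1
      have h2 : m * (-(2 / m)) ≤ m * x := by gcongr
      have h3 : (m : ℝ) * (-(2 / m)) = -2 := by field_simp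
      linarith
    have hc3 : ContinuousOn (fun q : ℝ × ℝ => ‖G1 F (q.1 + q.2 * I)‖ *
        Real.exp (F (exp (q.1 + q.2 * I))).re) (Icc x0 x1 ×ˢ Icc 0 (2 * π)) :=
      hGc.mul (Real.continuous_exp.comp_continuousOn hFc)
    have i1 := hsl (w := fun x y => ‖G1 F (x + y * I)‖ * Real.exp (F (exp (x + y * I))).re) hc3
    apply intervalIntegral.integral_mono_on (by positivity) (i1.mul_const _) (i1.mul_const _)
    intro y _
    gcongr
  have hmas := h.master hp hm' (M := Real.exp u) (Real.exp_pos u)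
    (fun z hz => Real.exp_le_exp.mpr (hu z hz)) (k := fun _ _ => Real.exp 2) (by fun_prop) hN0 hkN hV
  -- conclusion
  rw [norm_mul, Complex.norm_natCast] at hmas
  set a := ‖coeff (fun z => exp (F z)) m‖ with ha
  have h1 : a ≤ Real.sqrt (32 * π * p * Real.exp u ^ (1 / 4 : ℝ) * N) / (2 * π) := by
    rw [le_div_iff₀ (by positivity)]
    have : m * (a * (2 * π)) ≤ m * Real.sqrt (32 * π * p * Real.exp u ^ (1 / 4 : ℝ) * N) := by
      calc m * (a * (2 * π)) = 2 * π * (m * a) := by ring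
        _ ≤ _ := hmas
    exact le_of_mul_le_mul_left this hm0
  have h2 : 32 * π * p * Real.exp u ^ (1 / 4 : ℝ) * N =
      (32 * π * p * (Real.exp 4 * CJ)) * (Real.exp (u / 8) * (m : ℝ) ^ (7 / 4 * p - 1)) ^ 2 := by
    have e1 : Real.exp u ^ (1 / 4 : ℝ) = Real.exp (u / 8) ^ 2 := by
      rw [← Real.exp_mul, ← Real.exp_nat_mul]; congr 1; push_cast; ring
    have e2 : (m : ℝ) ^ (7 / 2 * p - 1) * (1 / m) = ((m : ℝ) ^ (7 / 4 * p - 1)) ^ 2 := by
      rw [← Real.rpow_natCast, ← Real.rpow_mul hm0.le]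
      have : 7 / 2 * p - 1 = (7 / 4 * p - 1) * (2 : ℕ) + 1 := by push_cast; ring
      rw [this, Real.rpow_add hm0, Real.rpow_one]
      field_simp
    rw [e1, hN, mul_pow, ← e2]
    ring
  rw [h2, Real.sqrt_mul (by positivity), Real.sqrt_sq (by positivity)] at h1
  have h3 : Real.exp ((u - 2 * p * Real.log m) / 8) =
      Real.exp (u / 8) * (m : ℝ) ^ (7 / 4 * p - 1) * (m : ℝ) ^ (1 - 2 * p) := by
    rw [mul_assoc (Real.exp (u / 8)), ← Real.rpow_add hm0, Real.rpow_def_of_pos hm0, ← Real.exp_add]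
    congr 1
    ring
  rw [h3]
  calc a * (m : ℝ) ^ (1 - 2 * p) ≤ (Real.sqrt (32 * π * p * (Real.exp 4 * CJ)) *
        (Real.exp (u / 8) * (m : ℝ) ^ (7 / 4 * p - 1)) / (2 * π)) * (m : ℝ) ^ (1 - 2 * p) := by gcongr
    _ = _ := by rw [hC]; ring

end Pool.Agent.Run7.h820
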