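import Mathlib

open Complex MeasureTheory Metric Set Filter Topology
open scoped ENNReal Real ComplexConjugate NNReal

set_option autoImplicit false

namespace Pool.Agent.Run7.h820

/-- the denominator -/
noncomputable def pD (s : ℝ) (ζ : ℂ) : ℂ := (ζ + s) ^ 2 + 1

/-- the perturbing function -/
noncomputable def pg (a s : ℝ) (ζ : ℂ) : ℂ :=
  2 * ζ * (ζ + s) / pD s ζ ^ 2 + 2 * a / pD s ζ

/-- its derivative -/
noncomputable def pgd (a s : ℝ) (ζ : ℂ) : ℂ :=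
  2 * (2 * ζ + s) / pD s ζ ^ 2 - 8 * ζ * (ζ + s) ^ 2 / pD s ζ ^ 3 - 4 * a * (ζ + s) / pD s ζ ^ 2

lemma pD_lower {s : ℝ} (hs0 : 0 < s) (hs1 : s ≤ 1) {ζ : ℂ} (hζ : 0 ≤ ζ.re) :
    s / 6 * (1 + ‖ζ + s‖) ^ 2 ≤ ‖pD s ζ‖ := by
  set u : ℂ := ζ + s with hu
  have hure : s ≤ u.re := by simp [hu, hζ]
  have hn : 0 ≤ ‖u‖ := norm_nonneg _
  have hfac : pD s ζ = (u - I) * (u + I) := by
    rw [pD, ← hu]
    linear_combination I_sq
  have hlow : ∀ c : ℂ, c.re = 0 → ‖c‖ = 1 → s * (1 + ‖u‖) / 3 ≤ ‖u - c‖ := by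
    intro c hc hc1
    have h1 : s ≤ ‖u - c‖ := by
      have := Complex.abs_re_le_norm (u - c)
      rw [sub_re, hc, sub_zero] at this
      exact hure.trans ((le_abs_self _).trans this)
    have h2 : ‖u‖ - 1 ≤ ‖u - c‖ := by
      have := norm_sub_norm_le u c
      rwa [hc1] at this
    rcases le_or_gt ‖u‖ 2 with h | h
    · nlinarith
    · nlinarith
  have hbig : ∀ c : ℂ, c.re = 0 → ‖c‖ = 1 → 0 ≤ u.im * c.im → (1 + ‖u‖) / 2 ≤ ‖u + c‖ := by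
    intro c hc hc1 hcu
    have h1 : ‖u + c‖ ^ 2 = ‖u‖ ^ 2 + 2 * (u.im * c.im) + 1 := by
      have e1 : ‖c‖ ^ 2 = 1 := by rw [hc1]; norm_num
      rw [← Complex.normSq_eq_norm_sq, Complex.normSq_apply] at e1
      rw [← Complex.normSq_eq_norm_sq, ← Complex.normSq_eq_norm_sq, Complex.normSq_apply,
        Complex.normSq_apply, add_re, add_im, hc]
      rw [hc] at e1
      nlinarith
    have h2 : ((1 + ‖u‖) / 2) ^ 2 ≤ ‖u + c‖ ^ 2 := by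
      rw [h1]
      nlinarith [sq_nonneg (‖u‖ - 1)]
    exact (pow_le_pow_iff_left₀ (by positivity) (norm_nonneg _) (by norm_num)).mp h2
  rw [hfac, norm_mul]
  have hI1 : ‖(I : ℂ)‖ = 1 := Complex.norm_I
  rcases le_total 0 u.im with h | h
  · have h1 := hlow I (by simp) hI1
    have h2 := hbig I (by simp) hI1 (by simpa using h)
    calc s / 6 * (1 + ‖u‖) ^ 2 = (s * (1 + ‖u‖) / 3) * ((1 + ‖u‖) / 2) := by ring
      _ ≤ ‖u - I‖ * ‖u + I‖ := by gcongr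
  · have h1 := hlow (-I) (by simp) (by simp)
    have h2 := hbig (-I) (by simp) (by simp) (by simpa using h)
    rw [sub_neg_eq_add] at h1
    rw [← sub_eq_add_neg] at h2
    calc s / 6 * (1 + ‖u‖) ^ 2 = ((1 + ‖u‖) / 2) * (s * (1 + ‖u‖) / 3) := by ring
      _ ≤ ‖u - I‖ * ‖u + I‖ := by gcongr

lemma pD_ne {s : ℝ} (hs0 : 0 < s) (hs1 : s ≤ 1) {ζ : ℂ} (hζ : 0 ≤ ζ.re) : pD s ζ ≠ 0 := by
  have h := pD_lower hs0 hs1 hζ
  have h1 : 0 < s / 6 * (1 + ‖ζ + s‖) ^ 2 := by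
    have := norm_nonneg (ζ + s)
    positivity
  exact norm_pos_iff.mp (h1.trans_le h)

lemma norm_le_add {s : ℝ} (hs0 : 0 < s) {ζ : ℂ} (hζ : 0 ≤ ζ.re) : ‖ζ‖ ≤ ‖ζ + s‖ := by
  have h2 : ‖ζ‖ ^ 2 ≤ ‖ζ + s‖ ^ 2 := by
    rw [← Complex.normSq_eq_norm_sq, ← Complex.normSq_eq_norm_sq, Complex.normSq_apply,
        Complex.normSq_apply]
    simp
    nlinarith
  exact (pow_le_pow_iff_left₀ (norm_nonneg _) (norm_nonneg _) (by norm_num)).mp h2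

/-- the constant in all bounds -/
noncomputable def pC (s : ℝ) : ℝ := 20 / (s / 6) ^ 3

lemma pC_pos {s : ℝ} (hs0 : 0 < s) : 0 < pC s := by unfold pC; positivity

lemma pg_bound {a s : ℝ} (ha0 : 0 ≤ a) (ha2 : a ≤ 2) (hs0 : 0 < s) (hs1 : s ≤ 1) {ζ : ℂ} (hζ : 0 ≤ ζ.re) :
    ‖pg a s ζ‖ ≤ pC s / (1 + ‖ζ‖) ^ 2 := by
  set q : ℝ := 1 + ‖ζ + s‖ with hq
  have hM := norm_nonneg (ζ + s)
  have hm := norm_nonneg ζ
  have hmM := norm_le_add hs0 hζ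
  have hq1 : 1 ≤ q := by linarith
  set c : ℝ := s / 6 with hc
  have hc0 : 0 < c := by positivity
  have hc1 : c ≤ 1 := by rw [hc]; linarith
  have hD := pD_lower hs0 hs1 hζ
  rw [← hq, ← hc] at hD
  have hDpos : 0 < c * q ^ 2 := by positivity
  have h1 : ‖2 * ζ * (ζ + s) / pD s ζ ^ 2‖ ≤ 2 / c ^ 2 / q ^ 2 := by
    rw [norm_div, norm_mul, norm_mul, norm_pow, Complex.norm_ofNat]
    calc 2 * ‖ζ‖ * ‖ζ + s‖ / ‖pD s ζ‖ ^ 2 ≤ 2 * q * q / (c * q ^ 2) ^ 2 := by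
          gcongr
          · linarith
          · linarith
      _ = 2 / c ^ 2 / q ^ 2 := by field_simp
  have h2 : ‖2 * (a : ℂ) / pD s ζ‖ ≤ 4 / c ^ 2 / q ^ 2 := by
    rw [norm_div, norm_mul, Complex.norm_ofNat, Complex.norm_real, Real.norm_eq_abs, abs_of_nonneg ha0]
    calc 2 * a / ‖pD s ζ‖ ≤ 2 * 2 / (c * q ^ 2) := by gcongr
      _ = 4 / c / q ^ 2 := by field_simp; norm_num
      _ ≤ 4 / c ^ 2 / q ^ 2 := by
        gcongr
        nlinarith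
  calc ‖pg a s ζ‖ ≤ 2 / c ^ 2 / q ^ 2 + 4 / c ^ 2 / q ^ 2 := by
        rw [pg]; exact (norm_add_le _ _).trans (add_le_add h1 h2)
    _ = 6 / c ^ 2 / q ^ 2 := by ring
    _ ≤ 20 / c ^ 3 / (1 + ‖ζ‖) ^ 2 := by
        have h5 : 1 + ‖ζ‖ ≤ q := by linarith
        have h6 : c ^ 3 ≤ c ^ 2 := pow_le_pow_of_le_one hc0.le hc1 (by norm_num)
        have h7 : 6 / c ^ 2 ≤ 20 / c ^ 3 := by
          have : 6 / c ^ 2 ≤ 6 / c ^ 3 := by gcongr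
          refine this.trans ?_
          gcongr
          norm_num
        calc 6 / c ^ 2 / q ^ 2 ≤ 20 / c ^ 3 / q ^ 2 := by gcongr
          _ ≤ 20 / c ^ 3 / (1 + ‖ζ‖) ^ 2 := by gcongr
    _ = pC s / (1 + ‖ζ‖) ^ 2 := by rw [pC]

lemma pgd_bound {a s : ℝ} (ha0 : 0 ≤ a) (ha2 : a ≤ 2) (hs0 : 0 < s) (hs1 : s ≤ 1) {ζ : ℂ} (hζ : 0 ≤ ζ.re) :
    ‖pgd a s ζ‖ ≤ pC s / (1 + ‖ζ‖) ^ 3 := by
  set q : ℝ := 1 + ‖ζ + s‖ with hq
  have hM := norm_nonneg (ζ + s)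
  have hm := norm_nonneg ζ
  have hmM := norm_le_add hs0 hζ
  have hq1 : 1 ≤ q := by linarith
  have hq0 : 0 < q := by linarith
  set c : ℝ := s / 6 with hc
  have hc0 : 0 < c := by positivity
  have hc1 : c ≤ 1 := by rw [hc]; linarith
  have hc32 : c ^ 3 ≤ c ^ 2 := pow_le_pow_of_le_one hc0.le hc1 (by norm_num)
  have hD := pD_lower hs0 hs1 hζ
  rw [← hq, ← hc] at hD
  have hDpos : 0 < c * q ^ 2 := by positivity
  have h2s : ‖2 * ζ + s‖ ≤ 2 * q := by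
    have : 2 * ζ + s = ζ + (ζ + s) := by ring
    rw [this]
    refine (norm_add_le _ _).trans ?_
    linarith
  have h1 : ‖2 * (2 * ζ + s) / pD s ζ ^ 2‖ ≤ 4 / c ^ 3 / q ^ 3 := by
    rw [norm_div, norm_mul, norm_pow, Complex.norm_ofNat]
    calc 2 * ‖2 * ζ + s‖ / ‖pD s ζ‖ ^ 2 ≤ 2 * (2 * q) / (c * q ^ 2) ^ 2 := by gcongr
      _ = 4 / c ^ 2 / q ^ 3 := by field_simp; norm_num
      _ ≤ 4 / c ^ 3 / q ^ 3 := by gcongr
  have h2 : ‖8 * ζ * (ζ + s) ^ 2 / pD s ζ ^ 3‖ ≤ 8 / c ^ 3 / q ^ 3 := by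
    rw [norm_div, norm_mul, norm_mul, norm_pow, norm_pow, Complex.norm_ofNat]
    calc 8 * ‖ζ‖ * ‖ζ + s‖ ^ 2 / ‖pD s ζ‖ ^ 3 ≤ 8 * q * q ^ 2 / (c * q ^ 2) ^ 3 := by
          gcongr
          · linarith
          · linarith
      _ = 8 / c ^ 3 / q ^ 3 := by field_simp
  have h3 : ‖4 * (a : ℂ) * (ζ + s) / pD s ζ ^ 2‖ ≤ 8 / c ^ 3 / q ^ 3 := by
    rw [norm_div, norm_mul, norm_mul, norm_pow, Complex.norm_ofNat, Complex.norm_real, Real.norm_eq_abs,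
      abs_of_nonneg ha0]
    calc 4 * a * ‖ζ + s‖ / ‖pD s ζ‖ ^ 2 ≤ 4 * 2 * q / (c * q ^ 2) ^ 2 := by
          gcongr
          linarith
      _ = 8 / c ^ 2 / q ^ 3 := by field_simp; norm_num
      _ ≤ 8 / c ^ 3 / q ^ 3 := by gcongr
  calc ‖pgd a s ζ‖ ≤ 4 / c ^ 3 / q ^ 3 + 8 / c ^ 3 / q ^ 3 + 8 / c ^ 3 / q ^ 3 := by
        rw [pgd]
        exact (norm_sub_le _ _).trans (add_le_add ((norm_sub_le _ _).trans (add_le_add h1 h2)) h3)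
    _ = 20 / c ^ 3 / q ^ 3 := by ring
    _ ≤ 20 / c ^ 3 / (1 + ‖ζ‖) ^ 3 := by
        have h5 : 1 + ‖ζ‖ ≤ q := by linarith
        gcongr
    _ = pC s / (1 + ‖ζ‖) ^ 3 := by rw [pC]

lemma pg_hasDerivAt {a s : ℝ} (hs0 : 0 < s) (hs1 : s ≤ 1) {ζ : ℂ} (hζ : 0 ≤ ζ.re) :
    HasDerivAt (pg a s) (pgd a s ζ) ζ := by
  have hne := pD_ne hs0 hs1 hζ
  have hu : HasDerivAt (fun ζ : ℂ => ζ + s) 1 ζ := (hasDerivAt_id ζ).add_const _
  have hD : HasDerivAt (pD s) (2 * (ζ + s)) ζ := by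
    have := (hu.pow 2).add_const (1 : ℂ)
    refine this.congr_deriv ?_
    simp
  have h1 : HasDerivAt (fun ζ : ℂ => 2 * ζ * (ζ + s) / pD s ζ ^ 2)
      (((2 * (ζ + s) + 2 * ζ * 1) * pD s ζ ^ 2 - 2 * ζ * (ζ + s) * (2 * pD s ζ * (2 * (ζ + s)))) /
        (pD s ζ ^ 2) ^ 2) ζ := by
    have e1 : HasDerivAt (fun ζ : ℂ => 2 * ζ) 2 ζ := by
      simpa using (hasDerivAt_id ζ).const_mul (2 : ℂ)
    have e2 := (e1.mul hu)
    have e3 := hD.pow 2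
    refine (e2.div e3 (pow_ne_zero 2 hne)).congr_deriv ?_
    simp
  have h2 : HasDerivAt (fun ζ : ℂ => 2 * (a : ℂ) / pD s ζ) (-(2 * a * (2 * (ζ + s))) / pD s ζ ^ 2) ζ := by
    have := (hasDerivAt_const ζ (2 * (a : ℂ))).div hD hne
    refine this.congr_deriv ?_
    simp
  refine (h1.add h2).congr_deriv ?_
  rw [pgd]
  field_simp
  ring

/-- `γ` -/
noncomputable def pQ (s r : ℝ) : ℝ := (s ^ 2 - r ^ 2 + 1) ^ 2 + 4 * s ^ 2 * r ^ 2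

noncomputable def pγ (s r : ℝ) : ℝ := 2 * s * r / pQ s r

noncomputable def pγd (s r : ℝ) : ℝ := (2 * s * pQ s r - 2 * s * r * (4 * r * (r ^ 2 + s ^ 2 - 1))) / pQ s r ^ 2

/-- `v(r) = Im g(ir)` -/
noncomputable def pv (a s r : ℝ) : ℝ := r * pγd s r - 2 * a * pγ s r

lemma pQ_pos {s : ℝ} (hs0 : 0 < s) (r : ℝ) : 0 < pQ s r := by
  unfold pQ
  rcases eq_or_ne r 0 with h | h
  · subst h
    simp only [ne_eq, OfNat.ofNat_ne_zero, not_false_eq_true, zero_pow, sub_zero, mul_zero, add_zero]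
    positivity
  · have : 0 < r ^ 2 := by positivity
    have h2 : 0 < 4 * s ^ 2 * r ^ 2 := by positivity
    have h3 := sq_nonneg (s ^ 2 - r ^ 2 + 1)
    linarith

lemma pQ_hasDerivAt (s r : ℝ) : HasDerivAt (pQ s) (4 * r * (r ^ 2 + s ^ 2 - 1)) r := by
  have h1 : HasDerivAt (fun r : ℝ => r ^ 2) (2 * r) r := by simpa using hasDerivAt_pow 2 r
  have h2 : HasDerivAt (fun r : ℝ => s ^ 2 - r ^ 2 + 1) (-(2 * r)) r := by
    simpa using (h1.const_sub (s ^ 2)).add_const 1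
  have h3 := (h2.pow 2).add (h1.const_mul (4 * s ^ 2))
  refine h3.congr_deriv ?_
  simp
  ring

lemma pγ_hasDerivAt {s : ℝ} (hs0 : 0 < s) (r : ℝ) : HasDerivAt (pγ s) (pγd s r) r := by
  have h1 : HasDerivAt (fun r : ℝ => 2 * s * r) (2 * s) r := by
    simpa using (hasDerivAt_id r).const_mul (2 * s)
  exact (h1.div (pQ_hasDerivAt s r) (pQ_pos hs0 r).ne')

lemma pg_im {a s : ℝ} (hs0 : 0 < s) (r : ℝ) : (pg a s (r * I)).im = pv a s r := by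
  have hQ := pQ_pos hs0 r
  set A : ℝ := s ^ 2 - r ^ 2 + 1 with hA
  set B : ℝ := 2 * s * r with hB
  have hD : pD s (r * I) = (A : ℂ) + B * I := by
    rw [pD, hA, hB]
    push_cast
    linear_combination (r : ℂ) ^ 2 * I_sq
  have hQ2 : pQ s r = A ^ 2 + B ^ 2 := by rw [pQ, hA, hB]; ring
  have hne : (A : ℂ) + B * I ≠ 0 := by
    intro h
    have h1 : A = 0 := by simpa using congrArg Complex.re h
    have h2 : B = 0 := by simpa using congrArg Complex.im h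
    rw [hQ2, h1, h2] at hQ
    norm_num at hQ
  have hinv : ((A : ℂ) + B * I)⁻¹ = (A - B * I) / (pQ s r : ℝ) := by
    have hQc : ((pQ s r : ℝ) : ℂ) ≠ 0 := by exact_mod_cast hQ.ne'
    rw [eq_div_iff hQc, inv_mul_eq_iff_eq_mul₀ hne, hQ2]
    push_cast
    linear_combination (B : ℂ) ^ 2 * I_sq
  have hg : pg a s (r * I) = ((-2 * r ^ 2 : ℝ) + (2 * r * s : ℝ) * I) * ((A - B * I) / (pQ s r : ℝ)) ^ 2 +
      2 * a * ((A - B * I) / (pQ s r : ℝ)) := by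
    rw [pg, hD, div_eq_mul_inv, div_eq_mul_inv, ← inv_pow, hinv]
    push_cast
    linear_combination (2 * (r : ℂ) ^ 2) * ((A - B * I) / (pQ s r : ℝ)) ^ 2 * I_sq
  have hg2 : pg a s (r * I) = (((-2 * r ^ 2 * (A ^ 2 - B ^ 2) + 2 * r * s * (2 * A * B)) / pQ s r ^ 2 +
      2 * a * A / pQ s r : ℝ) : ℂ) + (((4 * r ^ 2 * A * B + 2 * r * s * (A ^ 2 - B ^ 2)) / pQ s r ^ 2
        - 2 * a * B / pQ s r : ℝ) : ℂ) * I := by
    rw [hg]
    have hQc : ((pQ s r : ℝ) : ℂ) ≠ 0 := by exact_mod_cast hQ.ne'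
    push_cast
    field_simp
    ring_nf
    simp only [I_sq, show (I : ℂ) ^ 3 = -I by rw [pow_succ, I_sq]; ring]
    ring
  rw [hg2]
  simp only [add_im, ofReal_im, mul_im, ofReal_re, I_im, I_re, mul_one, mul_zero, zero_add, add_zero]
  rw [pv, pγd, pγ]
  have hQ0 := hQ.ne'
  rw [hQ2] at *
  rw [hA, hB] at *
  field_simp
  ring

end Pool.Agent.Run7.h820
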