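import Pool.Agent.Run7.h820.PertMem

open Complex MeasureTheory Metric Set Filter Topology
open scoped ENNReal Real ComplexConjugate NNReal

set_option autoImplicit false

namespace Pool.Agent.Run7.h820

lemma pv_le {a s : ℝ} (ha0 : 0 ≤ a) (ha2 : a ≤ 2) (hs0 : 0 < s) (hs1 : s ≤ 1) (r : ℝ) :
    |pv a s r| ≤ pC s := by
  have h1 := pg_bound ha0 ha2 hs0 hs1 (ζ := (r : ℂ) * I) (by simp)
  rw [← pg_im hs0]
  refine (Complex.abs_im_le_norm _).trans (h1.trans ?_)
  apply div_le_self (pC_pos hs0).le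
  have := norm_nonneg ((r : ℂ) * I)
  nlinarith

/-- the one-dimensional integral -/
lemma area_int {a s : ℝ} (ha1 : 1 ≤ a) (ha2 : a ≤ 2) (hs0 : 0 < s) (hs1 : s ≤ 1) {c0 : ℝ} (hc0 : 0 < c0)
    {ε : ℝ} (hε : 0 < ε) (hε1 : ε * pC s ≤ 1) (hε2 : ε * (pC s ^ 2 * Real.exp 6) ≤ s / 4) {R : ℝ} (hR : 0 < R)
    {rr : ℝ → ℝ} (hrr : ∀ t, rr t = c0 * Real.exp (-(Real.log t / a))) :
    ∫⁻ t in Ioo 0 R, ENNReal.ofReal t * ENNReal.ofReal (2 * (a * (π / 2 + ε * pv a s (rr t) +
      ε ^ 2 * (pC s ^ 2 * Real.exp 6) * plam (rr t)))) ≤ ENNReal.ofReal (a * π / 2 * R ^ 2) := by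
  have hpi := Real.pi_gt_three
  have ha0 : 0 < a := by linarith
  set Cc : ℝ := pC s ^ 2 * Real.exp 6 with hCc
  have hCpos := pC_pos hs0
  have hCc0 : 0 < Cc := by positivity
  have hrpos : ∀ t, 0 < rr t := fun t => by rw [hrr]; positivity
  have hrm : Measurable rr := by
    have : rr = fun t => c0 * Real.exp (-(Real.log t / a)) := funext hrr
    rw [this]; fun_prop
  set φ : ℝ → ℝ := fun t => t * (2 * (a * (π / 2 + ε * pv a s (rr t) + ε ^ 2 * Cc * plam (rr t)))) with hφ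
  have hφm : Measurable φ := by
    have h1 : Measurable (fun t => pv a s (rr t)) := (pv_cont hs0).measurable.comp hrm
    have h2 : Measurable (fun t => plam (rr t)) := plam_cont.measurable.comp hrm
    simp only [hφ]
    fun_prop
  have hin : ∀ t, 0 ≤ π / 2 + ε * pv a s (rr t) + ε ^ 2 * Cc * plam (rr t) := by
    intro t
    have h1 := pv_le ha0.le ha2 hs0 hs1 (a := a) (rr t)
    have h2 : 0 ≤ ε ^ 2 * Cc * plam (rr t) := by
      have := plam_nonneg (hrpos t).le
      positivity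
    have h3 : |ε * pv a s (rr t)| ≤ 1 := by
      rw [abs_mul, abs_of_pos hε]
      nlinarith
    have := (abs_le.mp h3).1
    linarith
  have hφ0 : ∀ t ∈ Icc (0 : ℝ) R, 0 ≤ φ t := by
    intro t ht
    have := hin t
    simp only [hφ]
    have := ht.1
    positivity
  have hφb : ∀ t ∈ Icc (0 : ℝ) R, ‖φ t‖ ≤ R * (2 * (a * (π / 2 + 1 + ε ^ 2 * Cc))) := by
    intro t ht
    rw [Real.norm_eq_abs, abs_of_nonneg (hφ0 t ht)]
    simp only [hφ]
    have h1 := pv_le ha0.le ha2 hs0 hs1 (a := a) (rr t)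
    have h3 : |ε * pv a s (rr t)| ≤ 1 := by
      rw [abs_mul, abs_of_pos hε]
      nlinarith
    have h4 := (abs_le.mp h3).2
    have h5 := plam_le_one (hrpos t).le
    have h6 := plam_nonneg (hrpos t).le
    have h7 := hin t
    have h8 := ht.1
    have h9 : ε ^ 2 * Cc * plam (rr t) ≤ ε ^ 2 * Cc := by
      have : 0 < ε ^ 2 * Cc := by positivity
      nlinarith
    have h10 : π / 2 + ε * pv a s (rr t) + ε ^ 2 * Cc * plam (rr t) ≤ π / 2 + 1 + ε ^ 2 * Cc := by linarith
    have h11 : 2 * (a * (π / 2 + ε * pv a s (rr t) + ε ^ 2 * Cc * plam (rr t))) ≤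
        2 * (a * (π / 2 + 1 + ε ^ 2 * Cc)) := by gcongr
    exact mul_le_mul ht.2 h11 (by positivity) hR.le
  have hφint : IntegrableOn φ (Icc 0 R) :=
    Measure.integrableOn_of_bounded (by simp [Real.volume_Icc]) hφm.aestronglyMeasurable
      (ae_restrict_of_forall_mem measurableSet_Icc hφb)
  -- the primitive
  set P : ℝ → ℝ := fun t => a * π / 2 * t ^ 2 - 2 * a ^ 2 * ε * (t ^ 2 * pγ s (rr t)) +
    2 * a * Cc * ε ^ 2 * (t ^ 2 * plam (rr t)) with hP
  have hrd : ∀ t, 0 < t → HasDerivAt rr (-(rr t / (a * t))) t := by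
    intro t ht
    have h1 : HasDerivAt (fun t => c0 * Real.exp (-(Real.log t / a)))
        (c0 * (Real.exp (-(Real.log t / a)) * (-(t⁻¹ / a)))) t :=
      (((Real.hasDerivAt_log ht.ne').div_const a).neg.exp).const_mul c0
    have h2 : rr = fun t => c0 * Real.exp (-(Real.log t / a)) := funext hrr
    rw [h2]
    refine h1.congr_deriv ?_
    field_simp
  have hPd : ∀ t, 0 < t → HasDerivAt P (a * π * t + 2 * a * ε * t * pv a s (rr t) +
      2 * a * Cc * ε ^ 2 * (t * (2 * plam (rr t) - rr t * ((1 - 3 * rr t ^ 2) / (1 + rr t ^ 2) ^ 3) / a))) t := by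
    intro t ht
    have h1 := (pγ_hasDerivAt hs0 (rr t)).comp t (hrd t ht)
    have h2 := (plam_hasDerivAt (rr t)).comp t (hrd t ht)
    have ht2 : HasDerivAt (fun t : ℝ => t ^ 2) (2 * t) t := by simpa using hasDerivAt_pow 2 t
    have h3 := ((ht2.const_mul (a * π / 2)).sub ((ht2.mul h1).const_mul (2 * a ^ 2 * ε))).add
      ((ht2.mul h2).const_mul (2 * a * Cc * ε ^ 2))
    refine h3.congr_deriv ?_
    simp only [Function.comp]
    rw [pv]
    field_simp
    ring
  have hPcont : ContinuousOn P (Icc 0 R) := by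
    intro t ht
    rcases eq_or_lt_of_le ht.1 with h0 | h0
    · subst h0
      apply ContinuousAt.continuousWithinAt
      have hP0 : P 0 = 0 := by simp [hP]
      rw [ContinuousAt, hP0]
      have hb : ∀ t, ‖P t‖ ≤ (a * π / 2 + 2 * a ^ 2 * ε * (1 / s ^ 2 + 1) + 2 * a * Cc * ε ^ 2) * t ^ 2 := by
        intro t
        have h1 := pγ_le (s := s) hs0 (hrpos t).le
        have h2 := pγ_nonneg hs0 (hrpos t).le
        have h3 := plam_le_one (hrpos t).le
        have h4 := plam_nonneg (hrpos t).le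
        have h5 := sq_nonneg t
        simp only [hP]
        calc ‖a * π / 2 * t ^ 2 - 2 * a ^ 2 * ε * (t ^ 2 * pγ s (rr t)) +
              2 * a * Cc * ε ^ 2 * (t ^ 2 * plam (rr t))‖
            ≤ ‖a * π / 2 * t ^ 2‖ + ‖2 * a ^ 2 * ε * (t ^ 2 * pγ s (rr t))‖ +
              ‖2 * a * Cc * ε ^ 2 * (t ^ 2 * plam (rr t))‖ :=
              (norm_add_le _ _).trans (add_le_add (norm_sub_le _ _) le_rfl)
          _ = a * π / 2 * t ^ 2 + 2 * a ^ 2 * ε * (t ^ 2 * pγ s (rr t)) +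
              2 * a * Cc * ε ^ 2 * (t ^ 2 * plam (rr t)) := by
              rw [Real.norm_of_nonneg (by positivity), Real.norm_of_nonneg (by positivity),
                Real.norm_of_nonneg (by positivity)]
          _ ≤ a * π / 2 * t ^ 2 + 2 * a ^ 2 * ε * (t ^ 2 * (1 / s ^ 2 + 1)) +
              2 * a * Cc * ε ^ 2 * (t ^ 2 * 1) := by gcongr
          _ = _ := by ring
      refine squeeze_zero_norm hb ?_
      have : Tendsto (fun t : ℝ => (a * π / 2 + 2 * a ^ 2 * ε * (1 / s ^ 2 + 1) + 2 * a * Cc * ε ^ 2) * t ^ 2)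
          (𝓝 0) (𝓝 ((a * π / 2 + 2 * a ^ 2 * ε * (1 / s ^ 2 + 1) + 2 * a * Cc * ε ^ 2) * 0 ^ 2)) := by
        apply Continuous.tendsto
        fun_prop
      simpa using this
    · exact (hPd t h0).continuousAt.continuousWithinAt
  have hle : ∫ t in (0 : ℝ)..R, φ t ≤ P R - P 0 := by
    apply intervalIntegral.integral_le_sub_of_hasDeriv_right_of_le hR.le hPcont
      (fun t ht => (hPd t ht.1).hasDerivWithinAt) hφint
    intro t ht
    have ht0 := ht.1
    simp only [hφ]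
    have hr := hrpos t
    have h1 : rr t * ((1 - 3 * rr t ^ 2) / (1 + rr t ^ 2) ^ 3) / a ≤ plam (rr t) := by
      have h2 : rr t * ((1 - 3 * rr t ^ 2) / (1 + rr t ^ 2) ^ 3) ≤ plam (rr t) := by
        rw [plam]
        rw [← mul_div_assoc, div_le_div_iff₀ (by positivity) (by positivity)]
        have h3 : 0 ≤ rr t * (1 + rr t ^ 2) ^ 2 := by positivity
        nlinarith [mul_nonneg h3 (sq_nonneg (rr t))]
      have h3 := plam_nonneg hr.le
      rw [div_le_iff₀ ha0]
      nlinarith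
    have h2 : 2 * a * Cc * ε ^ 2 * (t * plam (rr t)) ≤ 2 * a * Cc * ε ^ 2 *
        (t * (2 * plam (rr t) - rr t * ((1 - 3 * rr t ^ 2) / (1 + rr t ^ 2) ^ 3) / a)) := by
      gcongr
      linarith
    calc t * (2 * (a * (π / 2 + ε * pv a s (rr t) + ε ^ 2 * Cc * plam (rr t)))) =
        a * π * t + 2 * a * ε * t * pv a s (rr t) + 2 * a * Cc * ε ^ 2 * (t * plam (rr t)) := by ring
      _ ≤ _ := by linarith
  have hPR : P R - P 0 ≤ a * π / 2 * R ^ 2 := by
    have h0 : P 0 = 0 := by simp [hP]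
    rw [h0, sub_zero]
    simp only [hP]
    have h1 := plam_le_gamma hs0 hs1 (hrpos R).le
    have h4 := plam_nonneg (hrpos R).le
    have h2 : 2 * a * Cc * ε ^ 2 * (R ^ 2 * plam (rr R)) ≤ 2 * a ^ 2 * ε * (R ^ 2 * pγ s (rr R)) := by
      calc 2 * a * Cc * ε ^ 2 * (R ^ 2 * plam (rr R)) = 2 * a * ε * R ^ 2 * ((ε * Cc) * plam (rr R)) := by ring
        _ ≤ 2 * a * ε * R ^ 2 * (s / 4 * plam (rr R)) := by gcongr
        _ ≤ 2 * a * ε * R ^ 2 * (pγ s (rr R)) := by gcongr
        _ ≤ a * (2 * a * ε * R ^ 2 * (pγ s (rr R))) := by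
            have : 0 ≤ 2 * a * ε * R ^ 2 * (pγ s (rr R)) := by
              have := pγ_nonneg hs0 (hrpos R).le
              positivity
            nlinarith
        _ = _ := by ring
    linarith
  calc ∫⁻ t in Ioo 0 R, ENNReal.ofReal t * ENNReal.ofReal (2 * (a * (π / 2 + ε * pv a s (rr t) +
      ε ^ 2 * Cc * plam (rr t)))) = ∫⁻ t in Ioo 0 R, ENNReal.ofReal (φ t) := by
        apply setLIntegral_congr_fun measurableSet_Ioo
        intro t ht
        simp only [hφ]
        rw [ENNReal.ofReal_mul ht.1.le]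
    _ = ENNReal.ofReal (∫ t in Ioo 0 R, φ t) := by
        rw [ofReal_integral_eq_lintegral_ofReal]
        · exact hφint.mono_set Ioo_subset_Icc_self
        · rw [EventuallyLE, ae_restrict_iff' measurableSet_Ioo]
          exact ae_of_all _ fun t ht => hφ0 t (Ioo_subset_Icc_self ht)
    _ = ENNReal.ofReal (∫ t in (0 : ℝ)..R, φ t) := by
        rw [intervalIntegral.integral_of_le hR.le, restrict_Ioo_eq_restrict_Ioc]
    _ ≤ ENNReal.ofReal (a * π / 2 * R ^ 2) := ENNReal.ofReal_le_ofReal (hle.trans hPR)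

end Pool.Agent.Run7.h820
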