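import Pool.Agent.Run7.h820.PertMem2

open Complex MeasureTheory Metric Set Filter Topology
open scoped ENNReal Real ComplexConjugate NNReal

set_option autoImplicit false

namespace Pool.Agent.Run7.h820

/-- the exponent of the perturbed Koebe function -/
noncomputable def pE (a s N ε : ℝ) (z : ℂ) : ℂ := lk z - ε * (pG a s N (lk z) - pg a s N)

/-- the perturbed Koebe function -/
noncomputable def pf (a s N ε : ℝ) (z : ℂ) : ℂ := exp (a * pE a s N ε z)

lemma pg_real_im (a s x : ℝ) : (pg a s x).im = 0 := by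
  have h := pg_conj a s (x : ℂ)
  rw [conj_ofReal] at h
  exact Complex.conj_eq_iff_im.mp h.symm

lemma pf_zero (a s N ε : ℝ) : pf a s N ε 0 = 1 := by
  have h : lk 0 = 0 := by simp [lk]
  rw [pf, pE, h, pG]
  simp

section
variable {a s N : ℝ} (ha1 : 1 ≤ a) (ha2 : a < 2) (hs0 : 0 < s) (hs1 : s ≤ 1) (hN : 0 < N)
  {ε : ℝ} (hε : 0 < ε) (hε1 : ε * pC s < 1) (hε2 : ε * (pC s ^ 2 * Real.exp 6) ≤ s / 4)
  (hε3 : a * (π / 2 + ε * pC s) < π)
include ha1 ha2 hs0 hs1 hN

lemma pE_hasDerivAt {z : ℂ} (hz : ‖z‖ < 1) :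
    HasDerivAt (pE a s N ε) ((1 - ε * (-(N * exp (-lk z)) * pgd a s (N * exp (-lk z)))) *
      (2 / ((1 - z) * (1 + z)))) z := by
  have h1 := lk_hasDerivAt hz
  have h2 := (pG_hasDerivAt (by linarith) ha2.le hs0 hs1 hN (lk_im hz).le).comp z h1
  refine (h1.sub ((h2.sub_const (pg a s N)).const_mul (ε : ℂ))).congr_deriv ?_
  ring

include hε hε1

lemma one_sub_ne' {η : ℂ} (h : |η.im| ≤ π / 2) :
    1 - ε * (-(N * exp (-η)) * pgd a s (N * exp (-η))) ≠ 0 := by
  intro h0
  have h1 := pG_deriv_bound (by linarith : 0 ≤ a) ha2.le hs0 hs1 hN h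
  have h2 : ‖(ε : ℂ) * (-(N * exp (-η)) * pgd a s (N * exp (-η)))‖ = 1 := by
    rw [← sub_eq_zero.mp h0]; simp
  rw [norm_mul, Complex.norm_real, Real.norm_eq_abs, abs_of_pos hε] at h2
  have h3 : 0 < N * Real.exp (-η.re) := by positivity
  have h5 : N * Real.exp (-η.re) / (1 + N * Real.exp (-η.re)) ^ 3 ≤ 1 := by
    rw [div_le_one (by positivity)]
    set t := N * Real.exp (-η.re)
    nlinarith [mul_pos h3 h3, mul_pos h3 (mul_pos h3 h3)]
  have h4 := pC_pos hs0
  have h6 : pC s * (N * Real.exp (-η.re) / (1 + N * Real.exp (-η.re)) ^ 3) ≤ pC s := by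
    nlinarith
  have h7 := mul_le_mul_of_nonneg_left (h1.trans h6) hε.le
  linarith

lemma pE_inj {z w : ℂ} (hz : ‖z‖ < 1) (hw : ‖w‖ < 1) (h : pE a s N ε z = pE a s N ε w) : z = w := by
  apply lk_inj hz hw
  have h1 : lk z - lk w = ε * (pG a s N (lk z) - pG a s N (lk w)) := by
    rw [pE, pE] at h
    linear_combination h
  have h2 := pG_lip (by linarith : 0 ≤ a) ha2.le hs0 hs1 hN (lk_im hz).le (lk_im hw).le
  by_contra hne
  have h3 : 0 < ‖lk z - lk w‖ := norm_pos_iff.mpr (sub_ne_zero.mpr hne)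
  have h4 : ‖lk z - lk w‖ ≤ ε * (pC s * ‖lk z - lk w‖) := by
    calc ‖lk z - lk w‖ = ε * ‖pG a s N (lk z) - pG a s N (lk w)‖ := by
          conv_lhs => rw [h1]
          rw [norm_mul, Complex.norm_real, Real.norm_eq_abs, abs_of_pos hε]
      _ ≤ _ := by gcongr
  nlinarith

lemma pE_im {z : ℂ} : (pE a s N ε z).im = (lk z).im - ε * (pG a s N (lk z)).im := by
  have h := pg_real_im a s N
  simp only [pE, sub_im, Complex.im_ofReal_mul, h, sub_zero]

lemma pE_re {z : ℂ} : (pE a s N ε z).re = (lk z).re - ε * (pG a s N (lk z)).re + ε * (pg a s N).re := by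
  simp only [pE, sub_re, Complex.re_ofReal_mul]
  ring

include hε2 hε3

lemma pE_im_bound {z : ℂ} (hz : ‖z‖ < 1) : |((a : ℂ) * pE a s N ε z).im| < π := by
  rw [Complex.im_ofReal_mul, pE_im ha1 ha2 hs0 hs1 hN hε hε1, abs_mul, abs_of_pos (by linarith : 0 < a)]
  refine lt_of_le_of_lt ?_ hε3
  have h1 := pG_bound' (by linarith : 0 ≤ a) ha2.le hs0 hs1 hN (lk_im hz).le
  have h2 := Complex.abs_im_le_norm (pG a s N (lk z))
  have h3 := (lk_im hz).le
  have h4 : |(lk z).im - ε * (pG a s N (lk z)).im| ≤ π / 2 + ε * pC s := by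
    refine (abs_sub _ _).trans (add_le_add h3 ?_)
    rw [abs_mul, abs_of_pos hε]
    gcongr
    exact h2.trans h1
  have : 0 < a := by linarith
  gcongr

lemma pf_arg {z : ℂ} (hz : ‖z‖ < 1) : Complex.arg (pf a s N ε z) = ((a : ℂ) * pE a s N ε z).im := by
  have h := abs_lt.mp (pE_im_bound ha1 ha2 hs0 hs1 hN hε hε1 hε2 hε3 hz)
  rw [← Complex.log_im, pf, Complex.log_exp h.1 h.2.le]

lemma pf_injOn : InjOn (pf a s N ε) (ball 0 1) := by
  intro z hz w hw h
  rw [mem_ball_zero_iff] at hz hw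
  have h1 := abs_lt.mp (pE_im_bound ha1 ha2 hs0 hs1 hN hε hε1 hε2 hε3 hz)
  have h2 := abs_lt.mp (pE_im_bound ha1 ha2 hs0 hs1 hN hε hε1 hε2 hε3 hw)
  have h3 : (a : ℂ) * pE a s N ε z = (a : ℂ) * pE a s N ε w := by
    rw [← Complex.log_exp h1.1 h1.2.le, ← Complex.log_exp h2.1 h2.2.le]
    exact congrArg Complex.log h
  have ha : (a : ℂ) ≠ 0 := by
    have : a ≠ 0 := by linarith
    exact_mod_cast this
  exact pE_inj ha1 ha2 hs0 hs1 hN hε hε1 hz hw (mul_left_cancel₀ ha h3)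

omit hε2 hε3 in
lemma pf_hasDerivAt {z : ℂ} (hz : ‖z‖ < 1) : HasDerivAt (pf a s N ε) (pf a s N ε z * (a *
    ((1 - ε * (-(N * exp (-lk z)) * pgd a s (N * exp (-lk z)))) * (2 / ((1 - z) * (1 + z)))))) z :=
  ((pE_hasDerivAt ha1 ha2 hs0 hs1 hN hz).const_mul _).cexp

lemma pf_mem : pf a s N ε ∈ classS (a / 2) := by
  have ha0 : 0 < a := by linarith
  rw [mem_classS_iff (by linarith) (by linarith)]
  have hd : DifferentiableOn ℂ (pf a s N ε) (ball 0 1) := fun y hy =>
    (pf_hasDerivAt ha1 ha2 hs0 hs1 hN hε hε1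
      (by rwa [mem_ball_zero_iff] at hy)).differentiableAt.differentiableWithinAt
  refine ⟨hd, ?_, ?_⟩
  · intro R hR
    set c0 : ℝ := N * Real.exp (ε * (pg a s N).re) with hc0
    have hc0p : 0 < c0 := by positivity
    set rr : ℝ → ℝ := fun t => c0 * Real.exp (-(Real.log t / a)) with hrr
    set h : ℝ → ℝ := fun t => a * (π / 2 + ε * pv a s (rr t) +
      ε ^ 2 * (pC s ^ 2 * Real.exp 6) * plam (rr t)) with hh
    have hrm : Measurable rr := by
      simp only [hrr]; fun_prop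
    have hhm : Measurable h := by
      have h1 : Measurable (fun t => pv a s (rr t)) := (pv_cont hs0).measurable.comp hrm
      have h2 : Measurable (fun t => plam (rr t)) := plam_cont.measurable.comp hrm
      simp only [hh]
      fun_prop
    set S : Set ℂ := {w : ℂ | |Complex.arg w| ≤ h ‖w‖} with hS
    have hSm : MeasurableSet S :=
      measurableSet_le (Complex.measurable_arg.abs) (hhm.comp measurable_norm)
    have hmaps : MapsTo (pf a s N ε) (ball 0 1) S := by
      intro z hz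
      rw [mem_ball_zero_iff] at hz
      rw [hS, mem_ofPred_eq, pf_arg ha1 ha2 hs0 hs1 hN hε hε1 hε2 hε3 hz, Complex.im_ofReal_mul, abs_mul,
        abs_of_pos ha0]
      have hnorm : ‖pf a s N ε z‖ = Real.exp (a * (pE a s N ε z).re) := by
        rw [pf, Complex.norm_exp, Complex.re_ofReal_mul]
      have hrz : rr ‖pf a s N ε z‖ = N * Real.exp (-((lk z).re - ε * (pG a s N (lk z)).re)) := by
        simp only [hrr]
        rw [hnorm, Real.log_exp, mul_div_cancel_left₀ _ ha0.ne', pE_re ha1 ha2 hs0 hs1 hN hε hε1, hc0,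
          mul_assoc, ← Real.exp_add]
        congr 2
        ring
      simp only [hh]
      rw [hrz, pE_im ha1 ha2 hs0 hs1 hN hε hε1]
      have h3 := img_abs ha0.le ha2.le hs0 hs1 hN hε hε1.le (lk_im hz).le
      gcongr
    have hder : ∀ z ∈ ball (0 : ℂ) 1, deriv (pf a s N ε) z ≠ 0 := by
      intro z hz
      rw [mem_ball_zero_iff] at hz
      rw [(pf_hasDerivAt ha1 ha2 hs0 hs1 hN hε hε1 hz).deriv]
      have ha : (a : ℂ) ≠ 0 := by
        have : a ≠ 0 := by linarith
        exact_mod_cast this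
      exact mul_ne_zero (Complex.exp_ne_zero _) (mul_ne_zero ha (mul_ne_zero
        (one_sub_ne' ha1 ha2 hs0 hs1 hN hε hε1 (lk_im hz).le)
        (div_ne_zero (by norm_num) (mul_ne_zero (one_sub_ne hz) (one_add_ne hz)))))
    have hinj := pf_injOn ha1 ha2 hs0 hs1 hN hε hε1 hε2 hε3
    calc ∫⁻ w in ball (0 : ℂ) R, valence (pf a s N ε) w
        ≤ ∫⁻ w in ball (0 : ℂ) R, S.indicator 1 w :=
          lintegral_mono fun w => valence_le_of_inj hd hinj hder hmaps w
      _ = volume (S ∩ ball (0 : ℂ) R) := by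
          rw [lintegral_indicator_one hSm, Measure.restrict_apply hSm]
      _ ≤ ∫⁻ t in Ioo 0 R, ENNReal.ofReal t * ENNReal.ofReal (2 * h t) := polar_area hhm
      _ ≤ ENNReal.ofReal (a * π / 2 * R ^ 2) :=
          area_int ha1 ha2.le hs0 hs1 hc0p hε hε1.le hε2 hR (fun t => rfl)
      _ = _ := by congr 1; ring
  · rw [pf_zero, norm_one]

end

/-- existence of a good threshold -/
lemma pf_mem_eventually {a s : ℝ} (ha1 : 1 ≤ a) (ha2 : a < 2) (hs0 : 0 < s) (hs1 : s ≤ 1) :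
    ∃ ε0 : ℝ, 0 < ε0 ∧ ∀ ε : ℝ, 0 < ε → ε < ε0 → ∀ N : ℝ, 0 < N → pf a s N ε ∈ classS (a / 2) := by
  have hC := pC_pos hs0
  have hpi := Real.pi_pos
  set δ : ℝ := π / a - π / 2 with hδ
  have hδ0 : 0 < δ := by
    rw [hδ, sub_pos]
    gcongr
  refine ⟨min (1 / pC s) (min (s / 4 / (pC s ^ 2 * Real.exp 6)) (δ / pC s)), ?_, ?_⟩
  · refine lt_min (by positivity) (lt_min (by positivity) (by positivity))
  · intro ε hε hlt N hN
    have h1 : ε < 1 / pC s := hlt.trans_le (min_le_left _ _)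
    have h2 : ε < s / 4 / (pC s ^ 2 * Real.exp 6) :=
      hlt.trans_le ((min_le_right _ _).trans (min_le_left _ _))
    have h3 : ε < δ / pC s := hlt.trans_le ((min_le_right _ _).trans (min_le_right _ _))
    rw [lt_div_iff₀ (by positivity)] at h1 h2 h3
    refine pf_mem ha1 ha2 hs0 hs1 hN hε h1 h2.le ?_
    have h4 : π / 2 + ε * pC s < π / a := by
      rw [hδ] at h3; linarith
    calc a * (π / 2 + ε * pC s) < a * (π / a) := by
          have : 0 < a := by linarith
          gcongr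
      _ = π := by
        have : a ≠ 0 := by linarith
        field_simp

end Pool.Agent.Run7.h820
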