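import Pool.Agent.Run7.h820.PertG

open Complex MeasureTheory Metric Set Filter Topology
open scoped ENNReal Real ComplexConjugate NNReal

set_option autoImplicit false

namespace Pool.Agent.Run7.h820

noncomputable def plam (r : ℝ) : ℝ := r / (1 + r ^ 2) ^ 2

noncomputable def pG (a s N : ℝ) (η : ℂ) : ℂ := pg a s (N * exp (-η))

lemma re_Nexp {N : ℝ} (hN : 0 < N) {η : ℂ} (h : |η.im| ≤ π / 2) : 0 ≤ ((N : ℂ) * exp (-η)).re := by
  rw [Complex.re_ofReal_mul, Complex.exp_re]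
  have h1 : 0 ≤ Real.cos (-η).im := by
    rw [neg_im, Real.cos_neg]
    exact Real.cos_nonneg_of_mem_Icc (abs_le.mp h)
  positivity

lemma norm_Nexp {N : ℝ} (hN : 0 < N) (η : ℂ) : ‖(N : ℂ) * exp (-η)‖ = N * Real.exp (-η.re) := by
  rw [norm_mul, Complex.norm_real, Real.norm_eq_abs, abs_of_pos hN, Complex.norm_exp, neg_re]

lemma pg_conj (a s : ℝ) (ζ : ℂ) : pg a s (conj ζ) = conj (pg a s ζ) := by
  have h2 : (conj (2 : ℂ)) = 2 := Complex.conj_ofNat 2
  simp only [pg, pD, map_add, map_div₀, map_mul, map_pow, conj_ofReal, map_one, h2]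

lemma pG_conj (a s N : ℝ) (η : ℂ) : pG a s N (conj η) = conj (pG a s N η) := by
  rw [pG, pG, ← pg_conj, map_mul, conj_ofReal, ← Complex.exp_conj, map_neg]

section
variable {a s N : ℝ} (ha0 : 0 ≤ a) (ha2 : a ≤ 2) (hs0 : 0 < s) (hs1 : s ≤ 1) (hN : 0 < N)
include ha0 ha2 hs0 hs1 hN

lemma pG_hasDerivAt {η : ℂ} (h : |η.im| ≤ π / 2) :
    HasDerivAt (pG a s N) (-(N * exp (-η)) * pgd a s (N * exp (-η))) η := by
  have h1 : HasDerivAt (fun η : ℂ => (N : ℂ) * exp (-η)) (-(N * exp (-η))) η := by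
    have := ((hasDerivAt_id η).neg.cexp).const_mul (N : ℂ)
    refine this.congr_deriv ?_
    simp
  have h2 := pg_hasDerivAt (a := a) hs0 hs1 (re_Nexp hN h)
  have h3 := h2.comp η h1
  refine h3.congr_deriv ?_
  ring

lemma pG_deriv_bound {η : ℂ} (h : |η.im| ≤ π / 2) :
    ‖-(N * exp (-η)) * pgd a s (N * exp (-η))‖ ≤
      pC s * ((N * Real.exp (-η.re)) / (1 + N * Real.exp (-η.re)) ^ 3) := by
  rw [norm_mul, norm_neg, norm_Nexp hN]
  have h1 := pgd_bound ha0 ha2 hs0 hs1 (re_Nexp hN h)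
  rw [norm_Nexp hN] at h1
  calc N * Real.exp (-η.re) * ‖pgd a s (N * exp (-η))‖ ≤
      N * Real.exp (-η.re) * (pC s / (1 + N * Real.exp (-η.re)) ^ 3) := by gcongr
    _ = _ := by ring

lemma pG_bound {η : ℂ} (h : |η.im| ≤ π / 2) :
    ‖pG a s N η‖ ≤ pC s / (1 + N * Real.exp (-η.re)) ^ 2 := by
  have h1 := pg_bound ha0 ha2 hs0 hs1 (re_Nexp hN h)
  rwa [norm_Nexp hN] at h1

lemma pG_bound' {η : ℂ} (h : |η.im| ≤ π / 2) : ‖pG a s N η‖ ≤ pC s := by
  refine (pG_bound ha0 ha2 hs0 hs1 hN h).trans ?_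
  have h1 : 0 < N * Real.exp (-η.re) := by positivity
  have h2 := pC_pos hs0
  apply div_le_self h2.le
  nlinarith

omit ha0 ha2 hs0 hs1 hN in
lemma convex_box (x1 x2 y1 y2 : ℝ) : Convex ℝ (Icc x1 x2 ×ℂ Icc y1 y2) :=
  ((convex_Icc x1 x2).linear_preimage Complex.reLm).inter ((convex_Icc y1 y2).linear_preimage Complex.imLm)

lemma pG_lip {η1 η2 : ℂ} (h1 : |η1.im| ≤ π / 2) (h2 : |η2.im| ≤ π / 2) :
    ‖pG a s N η1 - pG a s N η2‖ ≤ pC s * ‖η1 - η2‖ := by
  set S : Set ℂ := {η | η.im ∈ Icc (-(π / 2)) (π / 2)} with hS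
  have hconv : Convex ℝ S := by
    have : S = Complex.imLm ⁻¹' (Icc (-(π / 2)) (π / 2)) := rfl
    rw [this]
    exact (convex_Icc _ _).linear_preimage _
  have hmem : ∀ η ∈ S, |η.im| ≤ π / 2 := fun η hη => abs_le.mpr hη
  refine hconv.norm_image_sub_le_of_norm_hasDerivWithin_le
    (f' := fun η => -(N * exp (-η)) * pgd a s (N * exp (-η)))
    (fun η hη => (pG_hasDerivAt ha0 ha2 hs0 hs1 hN (hmem η hη)).hasDerivWithinAt) ?_
    (abs_le.mp h2) (abs_le.mp h1)
  intro η hη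
  refine (pG_deriv_bound ha0 ha2 hs0 hs1 hN (hmem η hη)).trans ?_
  have h3 : 0 < N * Real.exp (-η.re) := by positivity
  have h4 := pC_pos hs0
  have h5 : N * Real.exp (-η.re) / (1 + N * Real.exp (-η.re)) ^ 3 ≤ 1 := by
    rw [div_le_one (by positivity)]
    set t := N * Real.exp (-η.re)
    nlinarith [mul_pos h3 h3, mul_pos h3 (mul_pos h3 h3)]
  nlinarith

/-- the constant in the error term -/
lemma img_upper {ε : ℝ} (hε : 0 < ε) (hε1 : ε * pC s ≤ 1) {η : ℂ} (h : |η.im| ≤ π / 2) :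
    η.im - ε * (pG a s N η).im ≤ π / 2 +
      ε * pv a s (N * Real.exp (-(η.re - ε * (pG a s N η).re))) +
      ε ^ 2 * (pC s ^ 2 * Real.exp 6) * plam (N * Real.exp (-(η.re - ε * (pG a s N η).re))) := by
  have hC := pC_pos hs0
  set ρ : ℝ := η.re - ε * (pG a s N η).re with hρ
  set r : ℝ := N * Real.exp (-ρ) with hr
  have hr0 : 0 < r := by positivity
  have hG := pG_bound' ha0 ha2 hs0 hs1 hN h
  have hdist : |η.re - ρ| ≤ 1 := by
    have : η.re - ρ = ε * (pG a s N η).re := by rw [hρ]; ring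
    rw [this, abs_mul, abs_of_pos hε]
    have h2 := Complex.abs_re_le_norm (pG a s N η)
    nlinarith
  set b : ℂ := ⟨ρ, π / 2⟩ with hb
  have hbim : |b.im| ≤ π / 2 := by
    simp only [hb]
    rw [abs_of_pos (by positivity)]
  -- value at b
  have hGb : (pG a s N b).im = - pv a s r := by
    have e1 : (N : ℂ) * exp (-b) = conj ((r : ℂ) * I) := by
      have hb2 : b = (ρ : ℂ) + ((π / 2 : ℝ) : ℂ) * I := by
        apply Complex.ext <;> simp [hb]
      rw [hb2, neg_add, Complex.exp_add, hr]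
      have e2 : exp (-(((π / 2 : ℝ) : ℂ) * I)) = -I := by
        rw [← neg_mul, ← Complex.ofReal_neg]
        rw [Complex.exp_mul_I, ← Complex.ofReal_cos, ← Complex.ofReal_sin, Real.cos_neg, Real.sin_neg,
          Real.cos_pi_div_two, Real.sin_pi_div_two]
        simp
      rw [e2, map_mul, conj_ofReal, conj_I]
      push_cast
      ring
    rw [pG, e1, pg_conj, conj_im, pg_im hs0]
  -- the box
  set S : Set ℂ := Icc (ρ - 1) (ρ + 1) ×ℂ Icc (-(π / 2)) (π / 2) with hS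
  have hmem : ∀ η ∈ S, |η.im| ≤ π / 2 ∧ |η.re - ρ| ≤ 1 := by
    intro η hη
    rw [hS, Complex.mem_reProdIm] at hη
    exact ⟨abs_le.mpr hη.2, abs_le.mpr ⟨by linarith [hη.1.1], by linarith [hη.1.2]⟩⟩
  have hηS : η ∈ S := by
    rw [hS, Complex.mem_reProdIm]
    have := abs_le.mp hdist
    exact ⟨⟨by linarith, by linarith⟩, abs_le.mp h⟩
  have hbS : b ∈ S := by
    rw [hS, Complex.mem_reProdIm]
    exact ⟨⟨by simp [hb], by simp [hb]⟩, abs_le.mp hbim⟩
  have hscale : ∀ x : ℝ, |x - ρ| ≤ 1 → N * Real.exp (-x) ≤ Real.exp 1 * r ∧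
      (1 + r) / Real.exp 1 ≤ 1 + N * Real.exp (-x) := by
    intro x hx
    have hx' := abs_le.mp hx
    have e1 : Real.exp (-x) ≤ Real.exp 1 * Real.exp (-ρ) := by
      rw [← Real.exp_add]; apply Real.exp_le_exp.mpr; linarith
    have e2 : Real.exp (-1) * Real.exp (-ρ) ≤ Real.exp (-x) := by
      rw [← Real.exp_add]; apply Real.exp_le_exp.mpr; linarith
    constructor
    · rw [hr]
      calc N * Real.exp (-x) ≤ N * (Real.exp 1 * Real.exp (-ρ)) := by gcongr
        _ = _ := by ring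
    · rw [div_eq_mul_inv, ← Real.exp_neg]
      have e3 : Real.exp (-1) ≤ 1 := by
        rw [← Real.exp_zero]; apply Real.exp_le_exp.mpr; norm_num
      have e4 : Real.exp (-1) * r ≤ N * Real.exp (-x) := by
        rw [hr]
        calc Real.exp (-1) * (N * Real.exp (-ρ)) = N * (Real.exp (-1) * Real.exp (-ρ)) := by ring
          _ ≤ _ := by gcongr
      nlinarith
  have hS1 : ‖pG a s N η - pG a s N b‖ ≤ (pC s * (Real.exp 4 * (r / (1 + r) ^ 3))) * ‖η - b‖ := by
    refine (convex_box _ _ _ _).norm_image_sub_le_of_norm_hasDerivWithin_le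
      (f' := fun η => -(N * exp (-η)) * pgd a s (N * exp (-η)))
      (fun η hη => (pG_hasDerivAt ha0 ha2 hs0 hs1 hN (hmem η hη).1).hasDerivWithinAt) ?_ hbS hηS
    intro ξ hξ
    obtain ⟨h1, h2⟩ := hmem ξ hξ
    refine (pG_deriv_bound ha0 ha2 hs0 hs1 hN h1).trans ?_
    obtain ⟨h3, h4⟩ := hscale ξ.re h2
    gcongr
    calc N * Real.exp (-ξ.re) / (1 + N * Real.exp (-ξ.re)) ^ 3
        ≤ (Real.exp 1 * r) / ((1 + r) / Real.exp 1) ^ 3 := by gcongr
      _ = Real.exp 1 ^ 4 * (r / (1 + r) ^ 3) := by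
        have := Real.exp_pos 1
        field_simp
      _ = Real.exp 4 * (r / (1 + r) ^ 3) := by
        rw [← Real.exp_nat_mul]; norm_num
  have hS2 : ‖pG a s N η - pG a s N b‖ ≤ pC s * ‖η - b‖ := pG_lip ha0 ha2 hs0 hs1 hN h hbim
  have hG2 : ‖pG a s N η‖ ≤ pC s * (Real.exp 2 / (1 + r) ^ 2) := by
    refine (pG_bound ha0 ha2 hs0 hs1 hN h).trans ?_
    obtain ⟨h3, h4⟩ := hscale η.re hdist
    rw [div_eq_mul_inv]
    gcongr
    calc ((1 + N * Real.exp (-η.re)) ^ 2)⁻¹ ≤ (((1 + r) / Real.exp 1) ^ 2)⁻¹ := by gcongr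
      _ = Real.exp 1 ^ 2 / (1 + r) ^ 2 := by
        have := Real.exp_pos 1
        field_simp
      _ = Real.exp 2 / (1 + r) ^ 2 := by rw [← Real.exp_nat_mul]; norm_num
  -- intermediate point: combine
  have hηb : ‖η - b‖ ≤ ε * ‖pG a s N η‖ + (π / 2 - η.im) := by
    have e1 : η - b = (((η.re - ρ : ℝ) : ℂ)) + (((η.im - π / 2 : ℝ) : ℂ)) * I := by
      apply Complex.ext <;> simp [hb]
    rw [e1]
    refine (norm_add_le _ _).trans ?_
    rw [norm_mul, Complex.norm_I, mul_one, Complex.norm_real, Complex.norm_real, Real.norm_eq_abs,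
      Real.norm_eq_abs]
    have h1 : |η.re - ρ| ≤ ε * ‖pG a s N η‖ := by
      have : η.re - ρ = ε * (pG a s N η).re := by rw [hρ]; ring
      rw [this, abs_mul, abs_of_pos hε]
      have h2 := Complex.abs_re_le_norm (pG a s N η)
      gcongr
    have h2 : |η.im - π / 2| = π / 2 - η.im := by
      rw [abs_sub_comm]
      exact abs_of_nonneg (by linarith [(abs_le.mp h).2])
    linarith
  -- use an intermediate point c with the same imaginary part
  set K : ℝ := pC s * (Real.exp 4 * (r / (1 + r) ^ 3)) with hK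
  have hK0 : 0 ≤ K := by positivity
  have hmain : ε * ‖pG a s N η - pG a s N b‖ ≤ (π / 2 - η.im) +
      ε ^ 2 * (pC s ^ 2 * Real.exp 6) * plam r := by
    have him : 0 ≤ π / 2 - η.im := by linarith [(abs_le.mp h).2]
    -- with S := min
    set M : ℝ := min K (pC s) with hM
    have hM0 : 0 ≤ M := le_min hK0 hC.le
    have h1 : ‖pG a s N η - pG a s N b‖ ≤ M * ‖η - b‖ := by
      rw [hM]
      rcases min_cases K (pC s) with ⟨h, _⟩ | ⟨h, _⟩
      · rw [h]; exact hS1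
      · rw [h]; exact hS2
    have h2 : ε * ‖pG a s N η - pG a s N b‖ ≤ ε * (M * (ε * ‖pG a s N η‖ + (π / 2 - η.im))) := by
      gcongr
      exact h1.trans (by gcongr)
    have h3 : ε * (M * (π / 2 - η.im)) ≤ π / 2 - η.im := by
      have : ε * M ≤ 1 := by
        have : M ≤ pC s := min_le_right _ _
        nlinarith
      nlinarith
    have h4 : ε * (M * (ε * ‖pG a s N η‖)) ≤ ε ^ 2 * (pC s ^ 2 * Real.exp 6) * plam r := by
      have h5 : M ≤ K := min_le_left _ _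
      calc ε * (M * (ε * ‖pG a s N η‖)) ≤ ε * (K * (ε * (pC s * (Real.exp 2 / (1 + r) ^ 2)))) := by
            gcongr
        _ = ε ^ 2 * (pC s ^ 2 * (Real.exp 4 * Real.exp 2)) * (r / (1 + r) ^ 5) := by
            rw [hK]
            field_simp
        _ = ε ^ 2 * (pC s ^ 2 * Real.exp 6) * (r / (1 + r) ^ 5) := by
            rw [← Real.exp_add]; norm_num
        _ ≤ ε ^ 2 * (pC s ^ 2 * Real.exp 6) * plam r := by
            rw [plam]
            gcongr
            have e1 : (1 + r ^ 2) ≤ (1 + r) ^ 2 := by nlinarith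
            calc (1 + r ^ 2) ^ 2 ≤ ((1 + r) ^ 2) ^ 2 := by gcongr
              _ = (1 + r) ^ 4 := by ring
              _ ≤ (1 + r) ^ 5 := pow_le_pow_right₀ (by linarith) (by norm_num)
    have h5 : ε * (M * (ε * ‖pG a s N η‖ + (π / 2 - η.im))) =
      ε * (M * (ε * ‖pG a s N η‖)) + ε * (M * (π / 2 - η.im)) := by ring
    linarith
  have h6 : -(ε * (pG a s N η).im) ≤ ε * pv a s r + ε * ‖pG a s N η - pG a s N b‖ := by
    have h7 := Complex.abs_im_le_norm (pG a s N η - pG a s N b)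
    rw [sub_im, hGb] at h7
    have h8 := (abs_le.mp h7).1
    have h9 : -(pG a s N η).im ≤ pv a s r + ‖pG a s N η - pG a s N b‖ := by linarith
    have := mul_le_mul_of_nonneg_left h9 hε.le
    linarith
  linarith

lemma img_abs {ε : ℝ} (hε : 0 < ε) (hε1 : ε * pC s ≤ 1) {η : ℂ} (h : |η.im| ≤ π / 2) :
    |η.im - ε * (pG a s N η).im| ≤ π / 2 +
      ε * pv a s (N * Real.exp (-(η.re - ε * (pG a s N η).re))) +
      ε ^ 2 * (pC s ^ 2 * Real.exp 6) * plam (N * Real.exp (-(η.re - ε * (pG a s N η).re))) := by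
  rw [abs_le']
  refine ⟨img_upper ha0 ha2 hs0 hs1 hN hε hε1 h, ?_⟩
  have h1 := img_upper ha0 ha2 hs0 hs1 hN hε hε1 (η := conj η) (by rw [conj_im, abs_neg]; exact h)
  rw [pG_conj, conj_im, conj_im, conj_re, conj_re] at h1
  refine le_trans (le_of_eq ?_) h1
  ring

end

end Pool.Agent.Run7.h820
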