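import Pool.Agent.Run7.h820.CV

open Complex MeasureTheory Metric Set Filter Topology
open scoped ENNReal Real

set_option autoImplicit false

namespace Pool.Agent.Run7.h820

lemma rect_integrable {h : ℝ → ℝ → ℝ} {a b c d : ℝ}
    (hc : ContinuousOn (fun p : ℝ × ℝ => h p.1 p.2) (Icc a b ×ˢ Icc c d)) :
    Integrable (fun p : ℝ × ℝ => h p.1 p.2)
      ((volume.restrict (Ioc a b)).prod (volume.restrict (Ioc c d))) := by
  rw [Measure.prod_restrict, ← Measure.volume_eq_prod]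
  have h1 : IntegrableOn (fun p : ℝ × ℝ => h p.1 p.2) (Icc a b ×ˢ Icc c d) :=
    hc.integrableOn_compact (isCompact_Icc.prod isCompact_Icc)
  exact h1.mono_set (prod_mono Ioc_subset_Icc_self Ioc_subset_Icc_self)

lemma rect_swap {h : ℝ → ℝ → ℝ} {a b c d : ℝ} (hab : a ≤ b) (hcd : c ≤ d)
    (hc : ContinuousOn (fun p : ℝ × ℝ => h p.1 p.2) (Icc a b ×ˢ Icc c d)) :
    ∫ x in a..b, ∫ y in c..d, h x y = ∫ y in c..d, ∫ x in a..b, h x y := by
  simp only [intervalIntegral.integral_of_le hab, intervalIntegral.integral_of_le hcd]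
  exact integral_integral_swap (rect_integrable hc)

lemma rect_lintegral {h : ℝ → ℝ → ℝ} {a b c d : ℝ} (hab : a ≤ b) (hcd : c ≤ d)
    (hc : ContinuousOn (fun p : ℝ × ℝ => h p.1 p.2) (Icc a b ×ˢ Icc c d))
    (h0 : ∀ x ∈ Icc a b, ∀ y ∈ Icc c d, 0 ≤ h x y) :
    ENNReal.ofReal (∫ x in a..b, ∫ y in c..d, h x y)
      = ∫⁻ y in Ioo c d, ∫⁻ x in Ioo a b, ENNReal.ofReal (h x y) := by
  have hi := rect_integrable hc
  simp only [intervalIntegral.integral_of_le hab, intervalIntegral.integral_of_le hcd]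
  rw [← integral_prod (fun p : ℝ × ℝ => h p.1 p.2) hi]
  rw [ofReal_integral_eq_lintegral_ofReal hi]
  · rw [lintegral_prod_symm _ hi.aestronglyMeasurable.aemeasurable.ennreal_ofReal]
    rw [restrict_Ioo_eq_restrict_Ioc, restrict_Ioo_eq_restrict_Ioc]
  · rw [Measure.prod_restrict, EventuallyLE, ae_restrict_iff' (measurableSet_Ioc.prod measurableSet_Ioc)]
    exact ae_of_all _ fun p hp => h0 _ (Ioc_subset_Icc_self hp.1) _ (Ioc_subset_Icc_self hp.2)

lemma rect_inner_integrable {h : ℝ → ℝ → ℝ} {a b c d : ℝ} (hab : a ≤ b) (hcd : c ≤ d)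
    (hc : ContinuousOn (fun p : ℝ × ℝ => h p.1 p.2) (Icc a b ×ˢ Icc c d)) :
    IntervalIntegrable (fun x => ∫ y in c..d, h x y) volume a b := by
  rw [intervalIntegrable_iff_integrableOn_Ioc_of_le hab]
  simp only [intervalIntegral.integral_of_le hcd]
  exact (rect_integrable hc).integral_prod_left

end Pool.Agent.Run7.h820
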