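import Pool.Agent.Run7.h820.Growth2

open Complex MeasureTheory Metric Set Filter Topology
open scoped ENNReal Real ComplexConjugate

set_option autoImplicit false

namespace Pool.Agent.Run7.h820

lemma norm_one_sub_exp_le {ξ : ℂ} {φ0 : ℝ} (hφ : φ0 < π / 2) (him : |ξ.im| ≤ φ0)
    (hre : Real.exp ξ.re ≤ Real.cos φ0) :
    ‖1 - exp ξ‖ ≤ 1 - Real.exp ξ.re * Real.cos φ0 / 2 := by
  have hpi := Real.pi_pos
  have h0 : 0 ≤ φ0 := (abs_nonneg _).trans him
  set t := Real.exp ξ.re with ht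
  set c := Real.cos φ0 with hc
  have ht0 : 0 < t := Real.exp_pos _
  have hc0 : 0 < c := Real.cos_pos_of_mem_Ioo ⟨by linarith, hφ⟩
  have hc1 : c ≤ 1 := Real.cos_le_one _
  have h1 : c ≤ Real.cos ξ.im := by
    rw [← Real.cos_abs ξ.im]
    exact Real.cos_le_cos_of_nonneg_of_le_pi (abs_nonneg _) (by linarith) him
  have h2 : ‖1 - exp ξ‖ ^ 2 = 1 - 2 * t * Real.cos ξ.im + t ^ 2 := by
    rw [← Complex.normSq_eq_norm_sq, Complex.normSq_apply]
    simp only [Complex.sub_re, Complex.sub_im, Complex.one_re, Complex.one_im, Complex.exp_re,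
      Complex.exp_im, ← ht]
    have := Real.sin_sq_add_cos_sq ξ.im
    linear_combination t ^ 2 * this
  have h3 : ‖1 - exp ξ‖ ^ 2 ≤ (1 - t * c / 2) ^ 2 := by
    rw [h2]
    nlinarith [mul_nonneg ht0.le (sub_nonneg.mpr h1), mul_nonneg ht0.le (sub_nonneg.mpr hre),
      mul_pos ht0 hc0]
  have h4 : 0 ≤ 1 - t * c / 2 := by nlinarith
  exact le_of_sq_le_sq h3 h4

/-- parametrisation of a sector at the boundary point `ζ` -/
noncomputable def sec (ζ ξ : ℂ) : ℂ := ζ * (1 - exp ξ)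

lemma sec_hasDerivAt (ζ ξ : ℂ) : HasDerivAt (sec ζ) (-(ζ * exp ξ)) ξ := by
  have := ((Complex.hasDerivAt_exp ξ).const_sub 1).const_mul ζ
  exact this.congr_deriv (by ring)

lemma sec_norm_le {ζ : ℂ} (hζ : ‖ζ‖ = 1) {ξ : ℂ} {φ0 : ℝ} (hφ : φ0 < π / 2) (him : |ξ.im| ≤ φ0)
    (hre : Real.exp ξ.re ≤ Real.cos φ0) :
    ‖sec ζ ξ‖ ≤ 1 - Real.exp ξ.re * Real.cos φ0 / 2 := by
  rw [sec, norm_mul, hζ, one_mul]
  exact norm_one_sub_exp_le hφ him hre

lemma sec_mem {ζ : ℂ} (hζ : ‖ζ‖ = 1) {ξ : ℂ} {φ0 : ℝ} (hφ : φ0 < π / 2) (him : |ξ.im| ≤ φ0)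
    (hre : Real.exp ξ.re ≤ Real.cos φ0) : sec ζ ξ ∈ ball (0 : ℂ) 1 := by
  rw [mem_ball_zero_iff]
  have h1 := sec_norm_le hζ hφ him hre
  have h2 : 0 < Real.cos φ0 :=
    Real.cos_pos_of_mem_Ioo ⟨by linarith [Real.pi_pos, (abs_nonneg _).trans him], hφ⟩
  have h3 : 0 < Real.exp ξ.re * Real.cos φ0 / 2 := by positivity
  linarith

lemma sec_injOn {ζ : ℂ} (hζ : ζ ≠ 0) {a b c d : ℝ} (h : d - c ≤ 2 * π) :
    InjOn (sec ζ) (Ioo a b ×ℂ Ioo c d) := by
  intro z hz w hw hzw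
  apply exp_injOn_rect h hz hw
  have h1 := mul_left_cancel₀ hζ hzw
  linear_combination -h1

lemma sector_lower {F : ℂ → ℂ} (hF : DifferentiableOn ℂ F (ball 0 1)) {g g1 : ℝ → ℝ}
    (hg : ∀ v, HasDerivAt g (g1 v) v) (hg1c : Continuous g1)
    {ζ : ℂ} (hζ : ‖ζ‖ = 1) {φ0 : ℝ} (h0 : 0 < φ0) (hφ : φ0 < π / 2) {x0 x1 : ℝ} (hx : x0 < x1)
    (hx1 : Real.exp x1 ≤ Real.cos φ0) {L : ℝ} (hL : 0 ≤ L)
    (hD : ∀ y ∈ Icc (-φ0) φ0, L ≤ g (F (sec ζ (x0 + y * I))).re - g (F (sec ζ (x1 + y * I))).re) :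
    ENNReal.ofReal (2 * φ0 * L ^ 2 / (x1 - x0)) ≤
      ∫⁻ z in sec ζ '' (Ioo x0 x1 ×ℂ Ioo (-φ0) φ0),
        ENNReal.ofReal ((g1 (F z).re) ^ 2 * ‖deriv F z‖ ^ 2) := by
  have hpi := Real.pi_pos
  have hζ0 : ζ ≠ 0 := by
    rintro rfl
    simp at hζ
  have hmeas : MeasurableSet (Ioo x0 x1 ×ℂ Ioo (-φ0) φ0) :=
    (isOpen_Ioo.reProdIm isOpen_Ioo).measurableSet
  set c0 : ℝ := L / (x1 - x0) with hc0
  have hX : 0 < x1 - x0 := by linarith
  -- membership
  have hmem : ∀ x ∈ Icc x0 x1, ∀ y ∈ Icc (-φ0) φ0, sec ζ (x + y * I) ∈ ball (0 : ℂ) 1 := by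
    intro x hx' y hy
    apply sec_mem hζ hφ
    · simp only [add_im, ofReal_im, mul_im, ofReal_re, I_im, mul_one, I_re, mul_zero, add_zero,
        zero_add]
      exact abs_le.mpr hy
    · simp only [add_re, ofReal_re, mul_re, I_re, mul_zero, ofReal_im, I_im, mul_one, sub_self,
        add_zero]
      exact (Real.exp_le_exp.mpr hx'.2).trans hx1
  have hFd : ∀ z ∈ ball (0 : ℂ) 1, HasDerivAt F (deriv F z) z := fun z hz =>
    (hF.differentiableAt (isOpen_ball.mem_nhds hz)).hasDerivAt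
  have hg1c' : ∀ z ∈ ball (0 : ℂ) 1, ContinuousAt (fun z => g1 (F z).re) z := fun z hz =>
    hg1c.continuousAt.comp (Complex.continuous_re.continuousAt.comp (hFd z hz).continuousAt)
  have hF'c : ∀ z ∈ ball (0 : ℂ) 1, ContinuousAt (deriv F) z := fun z hz =>
    ((hF.deriv isOpen_ball).differentiableAt (isOpen_ball.mem_nhds hz)).continuousAt
  have hsc : Continuous (sec ζ) := continuous_iff_continuousAt.mpr fun ξ =>
    (sec_hasDerivAt ζ ξ).continuousAt
  -- the integrand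
  set h : ℝ → ℝ → ℝ := fun x y => ‖-(ζ * exp (x + y * I))‖ ^ 2 *
    ((g1 (F (sec ζ (x + y * I))).re) ^ 2 * ‖deriv F (sec ζ (x + y * I))‖ ^ 2) with hh
  have hcont : ContinuousOn (fun q : ℝ × ℝ => h q.1 q.2) (Icc x0 x1 ×ˢ Icc (-φ0) φ0) := by
    intro q hq
    have hz := hmem q.1 hq.1 q.2 hq.2
    have h1 : ContinuousAt (fun q : ℝ × ℝ => sec ζ ((q.1 : ℂ) + q.2 * I)) q :=
      hsc.continuousAt.comp (by fun_prop : ContinuousAt (fun q : ℝ × ℝ => (q.1 : ℂ) + q.2 * I) q)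
    have h2 : ContinuousAt (fun q : ℝ × ℝ => g1 (F (sec ζ ((q.1 : ℂ) + q.2 * I))).re) q :=
      (hg1c' _ hz).comp (f := fun q : ℝ × ℝ => sec ζ ((q.1 : ℂ) + q.2 * I)) h1
    have h3 : ContinuousAt (fun q : ℝ × ℝ => deriv F (sec ζ ((q.1 : ℂ) + q.2 * I))) q :=
      (hF'c _ hz).comp (f := fun q : ℝ × ℝ => sec ζ ((q.1 : ℂ) + q.2 * I)) h1
    have h4 : ContinuousAt (fun q : ℝ × ℝ => -(ζ * exp ((q.1 : ℂ) + q.2 * I))) q := by fun_prop
    exact ((h4.norm.pow 2).mul ((h2.pow 2).mul (h3.norm.pow 2))).continuousWithinAt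
  have hnn : ∀ x ∈ Icc x0 x1, ∀ y ∈ Icc (-φ0) φ0, 0 ≤ h x y := fun x _ y _ => by
    simp only [hh]; positivity
  have e1 : ∫⁻ z in sec ζ '' (Ioo x0 x1 ×ℂ Ioo (-φ0) φ0),
        ENNReal.ofReal ((g1 (F z).re) ^ 2 * ‖deriv F z‖ ^ 2)
      = ENNReal.ofReal (∫ x in x0..x1, ∫ y in (-φ0)..φ0, h x y) := by
    rw [lintegral_holo_image hmeas (fun z _ => sec_hasDerivAt ζ z) (sec_injOn hζ0 (by linarith)),
      rect_lintegral hx.le (by linarith) hcont hnn]
    have e2 : ∀ ξ : ℂ, ENNReal.ofReal (‖-(ζ * exp ξ)‖ ^ 2) *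
        ENNReal.ofReal ((g1 (F (sec ζ ξ)).re) ^ 2 * ‖deriv F (sec ζ ξ)‖ ^ 2)
        = ENNReal.ofReal (‖-(ζ * exp ξ)‖ ^ 2 * ((g1 (F (sec ζ ξ)).re) ^ 2 * ‖deriv F (sec ζ ξ)‖ ^ 2)) :=
      fun ξ => by rw [← ENNReal.ofReal_mul (by positivity)]
    simp_rw [e2]
    rw [lintegral_rect]
    have hc3 : ContinuousOn (fun ξ => ‖-(ζ * exp ξ)‖ ^ 2 *
        ((g1 (F (sec ζ ξ)).re) ^ 2 * ‖deriv F (sec ζ ξ)‖ ^ 2)) (Ioo x0 x1 ×ℂ Ioo (-φ0) φ0) := by
      intro ξ hξ
      have hz : sec ζ ξ ∈ ball (0 : ℂ) 1 := by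
        have := hmem ξ.re ⟨hξ.1.1.le, hξ.1.2.le⟩ ξ.im ⟨hξ.2.1.le, hξ.2.2.le⟩
        rwa [Complex.re_add_im] at this
      have h2 : ContinuousAt (fun ξ => g1 (F (sec ζ ξ)).re) ξ :=
        (hg1c' _ hz).comp (f := sec ζ) hsc.continuousAt
      have h3 : ContinuousAt (fun ξ => deriv F (sec ζ ξ)) ξ :=
        (hF'c _ hz).comp (f := sec ζ) hsc.continuousAt
      have h4 : ContinuousAt (fun ξ => -(ζ * exp ξ)) ξ := by fun_prop
      exact ((h4.norm.pow 2).mul ((h2.pow 2).mul (h3.norm.pow 2))).continuousWithinAt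
    exact (hc3.aemeasurable hmeas).ennreal_ofReal
  rw [e1]
  apply ENNReal.ofReal_le_ofReal
  rw [rect_swap hx.le (by linarith) hcont]
  -- inner estimate
  have hin : ∀ y ∈ Icc (-φ0) φ0, L ^ 2 / (x1 - x0) ≤ ∫ x in x0..x1, h x y := by
    intro y hy
    set D : ℝ → ℝ := fun x => g1 (F (sec ζ (x + y * I))).re *
      (deriv F (sec ζ (x + y * I)) * -(ζ * exp (x + y * I))).re with hDdef
    have hder : ∀ x ∈ uIcc x0 x1, HasDerivAt (fun x : ℝ => g (F (sec ζ (x + y * I))).re) (D x) x := by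
      intro x hx'
      rw [uIcc_of_le hx.le] at hx'
      have hz := hmem x hx' y hy
      have h3 : HasDerivAt (fun t : ℝ => ((t : ℂ) + y * I)) 1 x :=
        (Complex.ofRealCLM.hasDerivAt (x := x)).add_const _
      have h4 : HasDerivAt (fun ξ => F (sec ζ ξ)) (deriv F (sec ζ (x + y * I)) *
          -(ζ * exp (x + y * I))) (x + y * I) := (hFd _ hz).comp _ (sec_hasDerivAt ζ _)
      have h5 := h4.comp_of_eq (𝕜 := ℝ) x h3 rfl
      have h6 : HasDerivAt (fun t : ℝ => (F (sec ζ (t + y * I))).re)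
          (deriv F (sec ζ (x + y * I)) * -(ζ * exp (x + y * I))).re x := by
        have h7 := Complex.reCLM.hasFDerivAt.comp_hasDerivAt x h5
        exact h7.congr_deriv (by simp)
      exact (hg _).comp x h6
    have hDc : ContinuousOn D (Icc x0 x1) := by
      intro x hx'
      have hz := hmem x hx' y hy
      have h1 : ContinuousAt (fun x : ℝ => sec ζ ((x : ℂ) + y * I)) x :=
        hsc.continuousAt.comp (by fun_prop : ContinuousAt (fun x : ℝ => (x : ℂ) + y * I) x)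
      have h2 : ContinuousAt (fun x : ℝ => g1 (F (sec ζ ((x : ℂ) + y * I))).re) x :=
        (hg1c' _ hz).comp (f := fun x : ℝ => sec ζ ((x : ℂ) + y * I)) h1
      have h3 : ContinuousAt (fun x : ℝ => deriv F (sec ζ ((x : ℂ) + y * I))) x :=
        (hF'c _ hz).comp (f := fun x : ℝ => sec ζ ((x : ℂ) + y * I)) h1
      have h4 : ContinuousAt (fun x : ℝ => -(ζ * exp ((x : ℂ) + y * I))) x := by fun_prop
      exact (h2.mul (Complex.continuous_re.continuousAt.comp (h3.mul h4))).continuousWithinAt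
    have hDi : IntervalIntegrable D volume x0 x1 := by
      apply ContinuousOn.intervalIntegrable
      rwa [uIcc_of_le hx.le]
    have hFTC := intervalIntegral.integral_eq_sub_of_hasDerivAt hder hDi
    have hhc : ContinuousOn (fun x => h x y) (Icc x0 x1) :=
      hcont.comp (f := fun x : ℝ => (x, y)) (by fun_prop) (fun x hx => ⟨hx, hy⟩)
    have hhi : IntervalIntegrable (fun x => h x y) volume x0 x1 := by
      apply ContinuousOn.intervalIntegrable
      rwa [uIcc_of_le hx.le]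
    have hle : ∀ x ∈ Icc x0 x1, -(2 * c0) * D x - c0 ^ 2 ≤ h x y := by
      intro x _
      have h1 : D x ^ 2 ≤ h x y := by
        simp only [hDdef, hh, mul_pow]
        have h2 : (deriv F (sec ζ (x + y * I)) * -(ζ * exp (x + y * I))).re ^ 2 ≤
            ‖deriv F (sec ζ (x + y * I)) * -(ζ * exp (x + y * I))‖ ^ 2 := by
          rw [← sq_abs]
          gcongr
          exact Complex.abs_re_le_norm _
        rw [norm_mul, mul_pow] at h2
        calc _ ≤ g1 (F (sec ζ (x + y * I))).re ^ 2 * (‖deriv F (sec ζ (x + y * I))‖ ^ 2 *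
              ‖-(ζ * exp (x + y * I))‖ ^ 2) := by gcongr
          _ = _ := by ring
      nlinarith [sq_nonneg (D x + c0)]
    have hmono := intervalIntegral.integral_mono_on hx.le
      ((hDi.const_mul (-(2 * c0))).sub intervalIntegrable_const) hhi hle
    rw [intervalIntegral.integral_sub (hDi.const_mul _) intervalIntegrable_const,
      intervalIntegral.integral_const_mul, intervalIntegral.integral_const, hFTC, smul_eq_mul] at hmono
    have hDy := hD y hy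
    have hc0' : 0 ≤ c0 := by positivity
    refine le_trans ?_ hmono
    have h8 : c0 * L ≤ c0 * (g (F (sec ζ (x0 + y * I))).re - g (F (sec ζ (x1 + y * I))).re) :=
      mul_le_mul_of_nonneg_left hDy hc0'
    have h9 : c0 * (x1 - x0) = L := by rw [hc0]; field_simp
    have h10 : L ^ 2 / (x1 - x0) = c0 * L := by rw [hc0]; ring
    rw [h10]
    have h11 : (x1 - x0) * c0 ^ 2 = c0 * L := by rw [← h9]; ring
    rw [h11]
    linarith
  have hcontI : IntervalIntegrable (fun y => ∫ x in x0..x1, h x y) volume (-φ0) φ0 := by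
    rw [intervalIntegrable_iff_integrableOn_Ioc_of_le (by linarith)]
    simp only [intervalIntegral.integral_of_le hx.le]
    exact (rect_integrable hcont).integral_prod_right
  have hfin := intervalIntegral.integral_mono_on (by linarith : -φ0 ≤ φ0) intervalIntegrable_const
    hcontI hin
  rw [intervalIntegral.integral_const, smul_eq_mul] at hfin
  refine le_trans (le_of_eq ?_) hfin
  ring

end Pool.Agent.Run7.h820
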