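import Pool.Agent.Run7.h820.KoebeAsymp
import Pool.Agent.Run7.h820.PertMem3
import Pool.Agent.Run7.h820.Limit

open Complex MeasureTheory Metric Set Filter Topology
open scoped ENNReal Real ComplexConjugate NNReal

set_option autoImplicit false

namespace Pool.Agent.Run7.h820

/-- comparison of the coefficients -/
lemma ratio_bound {p : ℝ} (hp : 1 / 2 ≤ p) (hp1 : p < 1) {L : ℝ≥0∞}
    (hL : Tendsto (fun n : ℕ => A p n * ENNReal.ofReal ((n : ℝ) ^ (1 - 2 * p))) atTop (𝓝 L))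
    (hLe : L ≤ ENNReal.ofReal (2 ^ (2 * p) / Real.Gamma (2 * p))) {η : ℝ} (hη : 0 < η) (hη1 : η ≤ 1) :
    ∃ k0 : ℕ, ∀ n : ℕ, k0 ≤ n → (A p n).toReal ≤ (1 + η) * kc (2 * p) n := by
  have hG : 0 < Real.Gamma (2 * p) := Real.Gamma_pos_of_pos (by linarith)
  set κ : ℝ := 2 ^ (2 * p) / Real.Gamma (2 * p) with hκ
  have hκ0 : 0 < κ := by positivity
  have h1 : ∀ᶠ n : ℕ in atTop, A p n * ENNReal.ofReal ((n : ℝ) ^ (1 - 2 * p)) <
      ENNReal.ofReal (κ * (1 + η / 3)) := by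
    apply hL.eventually_lt_const
    refine lt_of_le_of_lt hLe ?_
    rw [ENNReal.ofReal_lt_ofReal_iff (by positivity)]
    nlinarith
  have h2 : ∀ᶠ n : ℕ in atTop, κ / (1 + η / 3) < kc (2 * p) n * (n : ℝ) ^ (1 - 2 * p) := by
    apply (kc_asymp (a := 2 * p) (by linarith) (by linarith)).eventually_const_lt
    rw [div_lt_iff₀ (by positivity)]
    nlinarith
  obtain ⟨k0, hk0⟩ := eventually_atTop.mp (h1.and (h2.and (eventually_ge_atTop 1)))
  refine ⟨k0, fun n hn => ?_⟩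
  obtain ⟨h3, h4, h5⟩ := hk0 n hn
  have hn0 : (0 : ℝ) < n := by exact_mod_cast h5
  have hnp : 0 < (n : ℝ) ^ (1 - 2 * p) := by positivity
  have h6 : (A p n).toReal * (n : ℝ) ^ (1 - 2 * p) < κ * (1 + η / 3) := by
    have h7 : A p n = ENNReal.ofReal (A p n).toReal := (ENNReal.ofReal_toReal (A_ne_top hp hp1 n)).symm
    rw [h7, ← ENNReal.ofReal_mul ENNReal.toReal_nonneg, ENNReal.ofReal_lt_ofReal_iff (by positivity)] at h3
    exact h3
  rw [div_lt_iff₀ (by positivity)] at h4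
  have h8 : (A p n).toReal * (n : ℝ) ^ (1 - 2 * p) ≤ ((1 + η) * kc (2 * p) n) * (n : ℝ) ^ (1 - 2 * p) := by
    have h9 : 0 < kc (2 * p) n * (n : ℝ) ^ (1 - 2 * p) := by
      by_contra hcon
      push Not at hcon
      nlinarith
    nlinarith [mul_pos h9 (by positivity : 0 < η), mul_pos (mul_pos h9 (by positivity : 0 < η)) (by positivity : 0 < η)]
  exact le_of_mul_le_mul_right h8 hnp

/-- the two-point inequality -/
lemma two_pt_ineq {p : ℝ} (hp : 1 / 2 ≤ p) (hp1 : p < 1) {η : ℝ} (hη : 0 ≤ η) {k0 : ℕ}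
    (hk0 : ∀ n : ℕ, k0 ≤ n → (A p n).toReal ≤ (1 + η) * kc (2 * p) n) :
    ∃ C : ℝ, ∀ f ∈ classS p, ∀ z b : ℂ, ‖z‖ < 1 → ‖b‖ = 1 →
      ‖f (‖z‖ : ℝ) - (b * f z + conj b * f (conj z)) / 2‖ ≤
        C + (1 + η) * ((kp p (‖z‖ : ℝ)).re - (b * kp p z).re) := by
  set e : ℕ → ℝ := fun k => if k < k0 then 2 * ((A p k).toReal + (1 + η) * |kc (2 * p) k|) else 0 with he
  have hes : HasSum e (∑ k ∈ Finset.range k0, e k) := by
    apply hasSum_sum_of_ne_finset_zero
    intro n hn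
    rw [Finset.mem_range] at hn
    simp [he, hn]
  refine ⟨∑ k ∈ Finset.range k0, e k, ?_⟩
  intro f hf z b hz hb
  have hfd : DifferentiableOn ℂ f (ball 0 1) := ((mem_classS_iff (by linarith) hp1).mp hf).1
  have hz0 := norm_nonneg z
  have hzn : ‖((‖z‖ : ℝ) : ℂ)‖ < 1 := by rwa [Complex.norm_real, norm_norm]
  have hzc : ‖conj z‖ < 1 := by rwa [RCLike.norm_conj]
  set w : ℕ → ℝ := fun k => ‖z‖ ^ k - (b * z ^ k).re with hw
  have hbz : ∀ k, |(b * z ^ k).re| ≤ ‖z‖ ^ k := by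
    intro k
    refine (Complex.abs_re_le_norm _).trans ?_
    rw [norm_mul, hb, one_mul, norm_pow]
  have hw0 : ∀ k, 0 ≤ w k := fun k => sub_nonneg.mpr ((le_abs_self _).trans (hbz k))
  have hw2 : ∀ k, w k ≤ 2 := by
    intro k
    have h1 := (abs_le.mp (hbz k)).1
    have h2 : ‖z‖ ^ k ≤ 1 := pow_le_one₀ hz0 hz.le
    simp only [hw]
    linarith
  -- the sum for f
  have hs1 := tc_hasSum hfd (z := ((‖z‖ : ℝ) : ℂ)) (by rwa [mem_ball_zero_iff])
  have hs2 := tc_hasSum hfd (z := z) (by rwa [mem_ball_zero_iff])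
  have hs3 := tc_hasSum hfd (z := conj z) (by rwa [mem_ball_zero_iff])
  have hsf : HasSum (fun k => coeff f k * (w k : ℂ))
      (f (‖z‖ : ℝ) - (b * f z + conj b * f (conj z)) / 2) := by
    have h1 := hs1.sub (((hs2.mul_left b).add (hs3.mul_left (conj b))).div_const 2)
    refine h1.congr_fun ?_
    intro k
    rw [coeff_eq_tc]
    have h2 : (((b * z ^ k).re : ℝ) : ℂ) = (b * z ^ k + conj b * (conj z) ^ k) / 2 := by
      rw [Complex.re_eq_add_conj, map_mul, map_pow]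
    simp only [hw]
    push_cast
    rw [h2]
    ring
  -- the sum for the Koebe function
  have hk1 := Complex.hasSum_re (kp_hasSum (p := p) hzn)
  have hk2 := Complex.hasSum_re ((kp_hasSum (p := p) hz).mul_left b)
  have hsk : HasSum (fun k => kc (2 * p) k * w k) ((kp p (‖z‖ : ℝ)).re - (b * kp p z).re) := by
    refine (hk1.sub hk2).congr_fun ?_
    intro k
    simp only [hw]
    rw [Complex.re_ofReal_mul, ← Complex.ofReal_pow, Complex.ofReal_re]
    have h3 : b * ((kc (2 * p) k : ℝ) * z ^ k) = (kc (2 * p) k : ℝ) * (b * z ^ k) := by ring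
    rw [h3, Complex.re_ofReal_mul]
    ring
  have hbound := (hes.add (hsk.mul_left (1 + η)))
  have hfin := tsum_of_norm_bounded hbound (f := fun k => coeff f k * (w k : ℂ)) (by
    intro k
    rw [norm_mul, Complex.norm_real, Real.norm_eq_abs, abs_of_nonneg (hw0 k)]
    have hA := le_A_toReal hp hp1 hf k
    have hA0 : 0 ≤ (A p k).toReal := ENNReal.toReal_nonneg
    by_cases hk : k < k0
    · have h1 : e k = 2 * ((A p k).toReal + (1 + η) * |kc (2 * p) k|) := by simp [he, hk]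
      rw [h1]
      have h2 : ‖coeff f k‖ * w k ≤ (A p k).toReal * 2 :=
        mul_le_mul hA (hw2 k) (hw0 k) hA0
      have h3 : -(|kc (2 * p) k| * 2) ≤ kc (2 * p) k * w k := by
        have h4 : |kc (2 * p) k * w k| ≤ |kc (2 * p) k| * 2 := by
          rw [abs_mul, abs_of_nonneg (hw0 k)]
          have := hw2 k
          gcongr
        exact (abs_le.mp h4).1
      nlinarith
    · have h1 : e k = 0 := by simp [he, hk]
      rw [h1, zero_add]
      push Not at hk
      have h2 := hA.trans (hk0 k hk)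
      have h3 := hw0 k
      calc ‖coeff f k‖ * w k ≤ ((1 + η) * kc (2 * p) k) * w k := by gcongr
        _ = _ := by ring)
  rwa [hsf.tsum_eq] at hfin

end Pool.Agent.Run7.h820
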