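import Pool.Agent.Run7.h820.Strict1

open Complex MeasureTheory Metric Set Filter Topology
open scoped ENNReal Real ComplexConjugate NNReal

set_option autoImplicit false

namespace Pool.Agent.Run7.h820

/-- the point of the disc corresponding to `ζ` -/
noncomputable def zN (N : ℝ) (ζ : ℂ) : ℂ := (N - ζ) / (N + ζ)

section
variable {N : ℝ} (hN : 0 < N) {ζ : ℂ} (hζ : 0 < ζ.re)
include hN hζ

lemma N_add_ne : (N : ℂ) + ζ ≠ 0 := by
  intro h
  have := congrArg Complex.re h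
  simp at this
  linarith

lemma zN_norm_lt : ‖zN N ζ‖ < 1 := by
  have h := N_add_ne hN hζ
  rw [zN, norm_div, div_lt_one (norm_pos_iff.mpr h)]
  have h2 : ‖(N : ℂ) - ζ‖ ^ 2 < ‖(N : ℂ) + ζ‖ ^ 2 := by
    rw [← Complex.normSq_eq_norm_sq, ← Complex.normSq_eq_norm_sq, Complex.normSq_apply, Complex.normSq_apply]
    simp
    nlinarith
  exact lt_of_pow_lt_pow_left₀ 2 (norm_nonneg _) h2

lemma lk_zN : lk (zN N ζ) = (Real.log N : ℂ) - Complex.log ζ := by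
  have h := N_add_ne hN hζ
  have hζ0 : ζ ≠ 0 := by
    rintro rfl
    simp at hζ
  have hNc : (N : ℂ) ≠ 0 := by exact_mod_cast hN.ne'
  have e1 : (1 + zN N ζ) / (1 - zN N ζ) = N / ζ := by
    rw [zN]
    have e2 : 1 + ((N : ℂ) - ζ) / (N + ζ) = 2 * N / (N + ζ) := by field_simp; ring
    have e3 : 1 - ((N : ℂ) - ζ) / (N + ζ) = 2 * ζ / (N + ζ) := by field_simp; ring
    rw [e2, e3]
    field_simp
  have e2 : (N : ℂ) / ζ = exp ((Real.log N : ℂ) - Complex.log ζ) := by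
    rw [Complex.exp_sub, Complex.exp_log hζ0, ← Complex.ofReal_exp, Real.exp_log hN]
  have a1 := abs_lt.mp (Complex.abs_arg_lt_pi_div_two_iff.mpr (Or.inl hζ))
  have hpi := Real.pi_pos
  rw [lk, e1, e2, Complex.log_exp]
  · rw [sub_im, Complex.log_im, ofReal_im]; linarith
  · rw [sub_im, Complex.log_im, ofReal_im]; linarith

lemma pG_zN (a s : ℝ) : pG a s N (lk (zN N ζ)) = pg a s ζ := by
  have hζ0 : ζ ≠ 0 := by
    rintro rfl
    simp at hζ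
  have hNc : (N : ℂ) ≠ 0 := by exact_mod_cast hN.ne'
  rw [pG, lk_zN hN hζ, neg_sub, Complex.exp_sub, Complex.exp_log hζ0, ← Complex.ofReal_exp, Real.exp_log hN]
  congr 1
  field_simp

lemma pf_zN (a s ε : ℝ) : pf a s N ε (zN N ζ) =
    exp (a * (Real.log N)) * (exp (-(a * Complex.log ζ)) * exp (-(a * ε * (pg a s ζ - pg a s N)))) := by
  rw [pf, pE, pG_zN hN hζ, lk_zN hN hζ, ← Complex.exp_add, ← Complex.exp_add]
  congr 1
  ring

lemma kp_zN (p : ℝ) : kp p (zN N ζ) =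
    exp (((2 * p : ℝ) : ℂ) * (Real.log N)) * exp (-(((2 * p : ℝ) : ℂ) * Complex.log ζ)) := by
  rw [kp, lk_zN hN hζ, ← Complex.exp_add]
  congr 1
  ring

lemma zN_conj : conj (zN N ζ) = zN N (conj ζ) := by
  simp [zN]

end

/-- the real point with the same modulus -/
noncomputable def xN (N : ℝ) (ζ : ℂ) : ℝ := 4 * N ^ 2 * ζ.re / (‖(N : ℂ) + ζ‖ + ‖(N : ℂ) - ζ‖) ^ 2

lemma xN_pos {N : ℝ} (hN : 0 < N) {ζ : ℂ} (hζ : 0 < ζ.re) : 0 < xN N ζ := by
  have h := norm_pos_iff.mpr (N_add_ne hN hζ)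
  have h2 := norm_nonneg ((N : ℂ) - ζ)
  unfold xN
  positivity

lemma norm_zN {N : ℝ} (hN : 0 < N) {ζ : ℂ} (hζ : 0 < ζ.re) :
    ((‖zN N ζ‖ : ℝ) : ℂ) = zN N (xN N ζ : ℝ) := by
  have h := norm_pos_iff.mpr (N_add_ne hN hζ)
  have h2 := norm_nonneg ((N : ℂ) - ζ)
  have h3 := xN_pos hN hζ
  set P := ‖(N : ℂ) + ζ‖ with hP
  set Q := ‖(N : ℂ) - ζ‖ with hQ
  have hPQ : P ^ 2 - Q ^ 2 = 4 * N * ζ.re := by
    rw [hP, hQ, ← Complex.normSq_eq_norm_sq, ← Complex.normSq_eq_norm_sq, Complex.normSq_apply,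
      Complex.normSq_apply]
    simp
    ring
  have hx : xN N ζ = N * (P - Q) / (P + Q) := by
    have hne : P + Q ≠ 0 := by positivity
    rw [xN, ← hP, ← hQ, div_eq_div_iff (by positivity) hne]
    have : 4 * N ^ 2 * ζ.re = N * (P ^ 2 - Q ^ 2) := by rw [hPQ]; ring
    rw [this]
    ring
  have hr : ‖zN N ζ‖ = (N - xN N ζ) / (N + xN N ζ) := by
    rw [zN, norm_div, ← hP, ← hQ, hx]
    have hne : P + Q ≠ 0 := by positivity
    have e1 : N - N * (P - Q) / (P + Q) = 2 * N * Q / (P + Q) := by field_simp; ring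
    have e2 : N + N * (P - Q) / (P + Q) = 2 * N * P / (P + Q) := by field_simp; ring
    rw [e1, e2]
    field_simp
  rw [hr, zN]
  push_cast
  rfl

lemma xN_tendsto {ζ : ℂ} (hζ : 0 < ζ.re) : Tendsto (fun N : ℝ => xN N ζ) atTop (𝓝 ζ.re) := by
  have h0 : Tendsto (fun N : ℝ => ζ / (N : ℂ)) atTop (𝓝 0) := by
    rw [tendsto_zero_iff_norm_tendsto_zero]
    have h1 : Tendsto (fun N : ℝ => ‖ζ‖ / N) atTop (𝓝 0) := tendsto_const_nhds.div_atTop tendsto_id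
    refine h1.congr' ?_
    filter_upwards [eventually_gt_atTop 0] with N hN
    rw [norm_div, Complex.norm_real, Real.norm_eq_abs, abs_of_pos hN]
  have h1 : Tendsto (fun N : ℝ => 4 * ζ.re / (‖1 + ζ / (N : ℂ)‖ + ‖1 - ζ / (N : ℂ)‖) ^ 2) atTop
      (𝓝 (4 * ζ.re / (‖(1 : ℂ) + 0‖ + ‖(1 : ℂ) - 0‖) ^ 2)) := by
    apply Tendsto.div tendsto_const_nhds
    · exact (((tendsto_const_nhds.add h0).norm).add ((tendsto_const_nhds.sub h0).norm)).pow 2
    · simp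
  have h2 : 4 * ζ.re / (‖(1 : ℂ) + 0‖ + ‖(1 : ℂ) - 0‖) ^ 2 = ζ.re := by
    simp
    norm_num
  rw [h2] at h1
  refine h1.congr' ?_
  filter_upwards [eventually_gt_atTop 0] with N hN
  have hNc : (N : ℂ) ≠ 0 := by exact_mod_cast hN.ne'
  have e1 : ‖(N : ℂ) + ζ‖ = N * ‖1 + ζ / (N : ℂ)‖ := by
    have : (N : ℂ) + ζ = N * (1 + ζ / N) := by field_simp
    rw [this, norm_mul, Complex.norm_real, Real.norm_eq_abs, abs_of_pos hN]
  have e2 : ‖(N : ℂ) - ζ‖ = N * ‖1 - ζ / (N : ℂ)‖ := by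
    have : (N : ℂ) - ζ = N * (1 - ζ / N) := by field_simp
    rw [this, norm_mul, Complex.norm_real, Real.norm_eq_abs, abs_of_pos hN]
  rw [xN, e1, e2, ← mul_add, mul_pow]
  have : 4 * N ^ 2 * ζ.re / (N ^ 2 * (‖1 + ζ / (N : ℂ)‖ + ‖1 - ζ / (N : ℂ)‖) ^ 2) =
      (N ^ 2 * (4 * ζ.re)) / (N ^ 2 * (‖1 + ζ / (N : ℂ)‖ + ‖1 - ζ / (N : ℂ)‖) ^ 2) := by ring
  rw [this, mul_div_mul_left _ _ (by positivity)]

lemma pg_tendsto_zero {a s : ℝ} (ha0 : 0 ≤ a) (ha2 : a ≤ 2) (hs0 : 0 < s) (hs1 : s ≤ 1) :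
    Tendsto (fun N : ℝ => pg a s N) atTop (𝓝 0) := by
  rw [tendsto_zero_iff_norm_tendsto_zero]
  have h1 : Tendsto (fun N : ℝ => pC s / (1 + N) ^ 2) atTop (𝓝 0) := by
    apply tendsto_const_nhds.div_atTop
    apply (tendsto_pow_atTop (by norm_num)).comp
    exact tendsto_atTop_add_const_left _ _ tendsto_id
  refine squeeze_zero' (Eventually.of_forall fun _ => norm_nonneg _) ?_ h1
  filter_upwards [eventually_gt_atTop 0] with N hN
  have := pg_bound ha0 ha2 hs0 hs1 (ζ := (N : ℂ)) (by simpa using hN.le)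
  rwa [Complex.norm_real, Real.norm_eq_abs, abs_of_pos hN] at this

end Pool.Agent.Run7.h820
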