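import Pool.Agent.Run7.h820.Strict2

open Complex MeasureTheory Metric Set Filter Topology
open scoped ENNReal Real ComplexConjugate NNReal

set_option autoImplicit false

namespace Pool.Agent.Run7.h820

/-- the limit of the scaled function at `ζ` -/
noncomputable def Wl (a s ε : ℝ) (ζ : ℂ) : ℂ :=
  exp (-(a * Complex.log ζ)) * exp (-(a * ε * pg a s ζ))

lemma Wl_conj {a s ε : ℝ} {ζ : ℂ} (hζ : 0 < ζ.re) : Wl a s ε (conj ζ) = conj (Wl a s ε ζ) := by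
  have hlog : Complex.log (conj ζ) = conj (Complex.log ζ) := by
    apply Complex.log_conj
    intro h
    have := Complex.abs_arg_lt_pi_div_two_iff.mpr (Or.inl hζ)
    rw [h, abs_of_pos Real.pi_pos] at this
    linarith [Real.pi_pos]
  rw [Wl, Wl, hlog, pg_conj, map_mul, ← Complex.exp_conj, ← Complex.exp_conj]
  simp only [map_neg, map_mul, conj_ofReal]

lemma limit_ineq {p : ℝ} (hp : 1 / 2 ≤ p) (hp1 : p < 1) {η : ℝ} (hη : 0 ≤ η) {k0 : ℕ}
    (hk0 : ∀ n : ℕ, k0 ≤ n → (A p n).toReal ≤ (1 + η) * kc (2 * p) n)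
    {s : ℝ} (hs0 : 0 < s) (hs1 : s ≤ 1) {ε : ℝ}
    (hmem : ∀ N : ℝ, 0 < N → pf (2 * p) s N ε ∈ classS p) {ζ : ℂ} (hζ : 0 < ζ.re) {b : ℂ} (hb : ‖b‖ = 1) :
    ‖Wl (2 * p) s ε (ζ.re : ℝ) - (b * Wl (2 * p) s ε ζ + conj b * Wl (2 * p) s ε (conj ζ)) / 2‖ ≤
      (1 + η) * ((Wl (2 * p) s 0 (ζ.re : ℝ)).re - (b * Wl (2 * p) s 0 ζ).re) := by
  obtain ⟨C, hC⟩ := two_pt_ineq hp hp1 hη hk0
  have hζc : 0 < (conj ζ).re := by rwa [conj_re]
  set a : ℝ := 2 * p with ha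
  have ha0 : 0 < a := by linarith
  have hxt := xN_tendsto hζ
  have hpgt := pg_tendsto_zero (a := a) ha0.le (by linarith) hs0 hs1
  have hxc : Tendsto (fun N : ℝ => ((xN N ζ : ℝ) : ℂ)) atTop (𝓝 ((ζ.re : ℝ) : ℂ)) :=
    (Complex.continuous_ofReal.tendsto _).comp hxt
  have hζre : 0 < ((ζ.re : ℝ) : ℂ).re := by simpa using hζ
  have hlogt : Tendsto (fun N : ℝ => Complex.log ((xN N ζ : ℝ) : ℂ)) atTop (𝓝 (Complex.log ((ζ.re : ℝ) : ℂ))) :=
    hxc.clog (Or.inl hζre)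
  have hpgx : Tendsto (fun N : ℝ => pg a s ((xN N ζ : ℝ) : ℂ)) atTop (𝓝 (pg a s ((ζ.re : ℝ) : ℂ))) :=
    ((pg_hasDerivAt (a := a) hs0 hs1 hζre.le).continuousAt.tendsto).comp hxc
  -- left hand side
  have hL1 : Tendsto (fun N : ℝ => exp (-(a * Complex.log ((xN N ζ : ℝ) : ℂ))) *
      exp (-(a * ε * (pg a s ((xN N ζ : ℝ) : ℂ) - pg a s N)))) atTop (𝓝 (Wl a s ε (ζ.re : ℝ))) := by
    have h1 := ((hlogt.const_mul (a : ℂ)).neg.cexp).mul
      ((((hpgx.sub hpgt).const_mul ((a : ℂ) * ε)).neg).cexp)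
    rw [sub_zero] at h1
    exact h1
  have hL2 : ∀ ξ : ℂ, Tendsto (fun N : ℝ => exp (-(a * Complex.log ξ)) *
      exp (-(a * ε * (pg a s ξ - pg a s N)))) atTop (𝓝 (Wl a s ε ξ)) := by
    intro ξ
    have h1 := ((((tendsto_const_nhds (x := pg a s ξ)).sub hpgt).const_mul ((a : ℂ) * ε)).neg).cexp.const_mul
      (exp (-(a * Complex.log ξ)))
    rw [sub_zero] at h1
    exact h1
  have hLHS := (hL1.sub ((((hL2 ζ).const_mul b).add ((hL2 (conj ζ)).const_mul (conj b))).div_const 2)).norm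
  -- right hand side
  have hR1 : Tendsto (fun N : ℝ => exp (-(a * Complex.log ((xN N ζ : ℝ) : ℂ)))) atTop
      (𝓝 (Wl a s 0 (ζ.re : ℝ))) := by
    have h1 := (hlogt.const_mul (a : ℂ)).neg.cexp
    have h2 : Wl a s 0 ((ζ.re : ℝ) : ℂ) = exp (-(a * Complex.log ((ζ.re : ℝ) : ℂ))) := by simp [Wl]
    rw [h2]; exact h1
  have hR2 : (b * exp (-(a * Complex.log ζ))).re = (b * Wl a s 0 ζ).re := by simp [Wl]
  have hR3 : Tendsto (fun N : ℝ => C * Real.exp (-(a * Real.log N))) atTop (𝓝 0) := by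
    have h1 : Tendsto (fun N : ℝ => -(a * Real.log N)) atTop atBot :=
      tendsto_neg_atTop_atBot.comp (Real.tendsto_log_atTop.const_mul_atTop ha0)
    have h2 := (Real.tendsto_exp_atBot.comp h1).const_mul C
    rw [mul_zero] at h2
    exact h2
  have hRHS : Tendsto (fun N : ℝ => C * Real.exp (-(a * Real.log N)) + (1 + η) *
      ((exp (-(a * Complex.log ((xN N ζ : ℝ) : ℂ)))).re - (b * exp (-(a * Complex.log ζ))).re)) atTop
      (𝓝 (0 + (1 + η) * ((Wl a s 0 (ζ.re : ℝ)).re - (b * Wl a s 0 ζ).re))) := by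
    rw [hR2]
    exact hR3.add (((Complex.continuous_re.tendsto _).comp hR1).sub_const _ |>.const_mul (1 + η))
  rw [zero_add] at hRHS
  refine le_of_tendsto_of_tendsto hLHS hRHS ?_
  filter_upwards [eventually_gt_atTop 0] with N hN
  have hx0 := xN_pos hN hζ
  have hx0' : 0 < ((xN N ζ : ℝ) : ℂ).re := by simpa using hx0
  have h1 := hC _ (hmem N hN) (zN N ζ) b (zN_norm_lt hN hζ) hb
  rw [norm_zN hN hζ, zN_conj hN hζ, pf_zN hN hx0', pf_zN hN hζ, pf_zN hN hζc, kp_zN hN hx0', kp_zN hN hζ] at h1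
  rw [← ha] at h1
  set T : ℝ := Real.exp (a * Real.log N) with hT
  have hTc : exp ((a : ℂ) * (Real.log N : ℝ)) = (T : ℂ) := by
    rw [hT]; push_cast; rfl
  rw [hTc] at h1
  have hT0 : 0 < T := Real.exp_pos _
  have hTinv : Real.exp (-(a * Real.log N)) = T⁻¹ := by rw [hT, Real.exp_neg]
  rw [hTinv]
  set X1 := exp (-((a : ℂ) * Complex.log ((xN N ζ : ℝ) : ℂ))) * exp (-(a * ε * (pg a s ((xN N ζ : ℝ) : ℂ) - pg a s N)))
  set X2 := exp (-((a : ℂ) * Complex.log ζ)) * exp (-(a * ε * (pg a s ζ - pg a s N)))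
  set X3 := exp (-((a : ℂ) * Complex.log (conj ζ))) * exp (-(a * ε * (pg a s (conj ζ) - pg a s N)))
  have e1 : (T : ℂ) * X1 - (b * ((T : ℂ) * X2) + conj b * ((T : ℂ) * X3)) / 2 =
      (T : ℂ) * (X1 - (b * X2 + conj b * X3) / 2) := by ring
  have e2 : b * ((T : ℂ) * exp (-((a : ℂ) * Complex.log ζ))) = (T : ℂ) * (b * exp (-((a : ℂ) * Complex.log ζ))) := by
    ring
  rw [e1, e2, norm_mul, Complex.norm_real, Real.norm_eq_abs, abs_of_pos hT0, Complex.re_ofReal_mul,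
    Complex.re_ofReal_mul] at h1
  have h2 : T * ‖X1 - (b * X2 + conj b * X3) / 2‖ ≤ T * (C * T⁻¹ + (1 + η) *
      ((exp (-((a : ℂ) * Complex.log ((xN N ζ : ℝ) : ℂ)))).re - (b * exp (-((a : ℂ) * Complex.log ζ))).re)) := by
    refine h1.trans (le_of_eq ?_)
    field_simp
  exact le_of_mul_le_mul_left h2 hT0

/-- first variation -/
lemma first_var {a s : ℝ} (ζ : ℂ) :
    HasDerivAt (fun ε : ℝ => Wl a s ε ζ) (-(a * pg a s ζ) * Wl a s 0 ζ) 0 := by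
  have h1 : HasDerivAt (fun ε : ℝ => -((a : ℂ) * ε * pg a s ζ)) (-((a : ℂ) * pg a s ζ)) 0 := by
    have h2 : HasDerivAt (fun ε : ℝ => (ε : ℂ)) 1 0 := Complex.ofRealCLM.hasDerivAt
    have h3 := ((h2.const_mul (a : ℂ)).mul_const (pg a s ζ)).neg
    refine h3.congr_deriv ?_
    ring
  have h2 := (h1.cexp.const_mul (exp (-(a * Complex.log ζ))))
  refine h2.congr_deriv ?_
  simp only [Wl]
  push_cast
  ring

theorem no_small_limit {p : ℝ} (hp : 1 / 2 ≤ p) (hp1 : p < 1) {L : ℝ≥0∞}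
    (hL : Tendsto (fun n : ℕ => A p n * ENNReal.ofReal ((n : ℝ) ^ (1 - 2 * p))) atTop (𝓝 L))
    (hLe : L ≤ ENNReal.ofReal (2 ^ (2 * p) / Real.Gamma (2 * p))) {s : ℝ} (hs0 : 0 < s) (hs1 : s ≤ 1)
    {ζ : ℂ} (hζ : 0 < ζ.re) :
    ‖pg (2 * p) s ζ * Wl (2 * p) s 0 ζ‖ ≤ (pg (2 * p) s (ζ.re : ℝ) * Wl (2 * p) s 0 (ζ.re : ℝ)).re := by
  have ha1 : 1 ≤ 2 * p := by linarith
  have ha2 : 2 * p < 2 := by linarith
  obtain ⟨ε0, hε0, hmem⟩ := pf_mem_eventually ha1 ha2 hs0 hs1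
  have hp2 : 2 * p / 2 = p := by ring
  rw [hp2] at hmem
  -- key inequality
  have key : ∀ b : ℂ, ‖b‖ = 1 → (b * (pg (2 * p) s ζ * Wl (2 * p) s 0 ζ)).re ≤
      (pg (2 * p) s (ζ.re : ℝ) * Wl (2 * p) s 0 (ζ.re : ℝ)).re := by
    intro b hb
    set φ : ℝ → ℝ := fun ε => (Wl (2 * p) s ε (ζ.re : ℝ) - b * Wl (2 * p) s ε ζ).re with hφ
    have h1 : ∀ ε : ℝ, 0 < ε → ε < ε0 → φ ε ≤ φ 0 := by
      intro ε hε hε1
      have h2 : ∀ η : ℝ, 0 < η → η ≤ 1 → φ ε ≤ (1 + η) * φ 0 := by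
        intro η hη hη1
        obtain ⟨k0, hk0⟩ := ratio_bound hp hp1 hL hLe hη hη1
        have h3 := limit_ineq hp hp1 hη.le hk0 hs0 hs1 (hmem ε hε hε1) hζ hb
        rw [Wl_conj hζ, ← map_mul] at h3
        have h4 := (Complex.re_le_norm _).trans h3
        have h5 : (Wl (2 * p) s ε (ζ.re : ℝ) - (b * Wl (2 * p) s ε ζ + conj (b * Wl (2 * p) s ε ζ)) / 2).re
            = φ ε := by
          simp only [hφ]
          rw [← Complex.re_eq_add_conj, sub_re, sub_re, ofReal_re]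
        rw [h5] at h4
        refine h4.trans (le_of_eq ?_)
        simp only [hφ, sub_re]
      have h3 : Tendsto (fun η : ℝ => (1 + η) * φ 0) (𝓝[>] 0) (𝓝 ((1 + 0) * φ 0)) := by
        apply Tendsto.mono_left _ nhdsWithin_le_nhds
        apply Continuous.tendsto
        fun_prop
      rw [add_zero, one_mul] at h3
      apply ge_of_tendsto h3
      have hev : ∀ᶠ η : ℝ in 𝓝[>] 0, η < 1 := nhdsWithin_le_nhds (gt_mem_nhds one_pos)
      filter_upwards [hev, self_mem_nhdsWithin] with η h4 h5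
      exact h2 η h5 h4.le
    have hd : HasDerivAt φ ((-(((2 * p : ℝ) : ℂ) * pg (2 * p) s (ζ.re : ℝ)) * Wl (2 * p) s 0 (ζ.re : ℝ) -
        b * (-(((2 * p : ℝ) : ℂ) * pg (2 * p) s ζ) * Wl (2 * p) s 0 ζ)).re) 0 := by
      have h2 := (first_var (a := 2 * p) (s := s) ((ζ.re : ℝ) : ℂ)).sub
        ((first_var (a := 2 * p) (s := s) ζ).const_mul b)
      exact (Complex.reCLM.hasFDerivAt.comp_hasDerivAt (0 : ℝ) h2)
    have h2 := (hasDerivAt_iff_tendsto_slope.mp hd).mono_left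
      (show 𝓝[>] (0 : ℝ) ≤ 𝓝[≠] 0 from nhdsWithin_mono _ (fun x hx => ne_of_gt hx))
    have h3 : (-(((2 * p : ℝ) : ℂ) * pg (2 * p) s (ζ.re : ℝ)) * Wl (2 * p) s 0 (ζ.re : ℝ) -
        b * (-(((2 * p : ℝ) : ℂ) * pg (2 * p) s ζ) * Wl (2 * p) s 0 ζ)).re ≤ 0 := by
      apply le_of_tendsto h2
      have hev : ∀ᶠ ε : ℝ in 𝓝[>] 0, ε < ε0 := nhdsWithin_le_nhds (gt_mem_nhds hε0)
      filter_upwards [hev, self_mem_nhdsWithin] with ε h4 h5
      rw [slope_def_field, sub_zero]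
      apply div_nonpos_of_nonpos_of_nonneg
      · linarith [h1 ε h5 h4]
      · exact le_of_lt h5
    have h4 : -(((2 * p : ℝ) : ℂ) * pg (2 * p) s (ζ.re : ℝ)) * Wl (2 * p) s 0 (ζ.re : ℝ) -
        b * (-(((2 * p : ℝ) : ℂ) * pg (2 * p) s ζ) * Wl (2 * p) s 0 ζ) =
        ((2 * p : ℝ) : ℂ) * (b * (pg (2 * p) s ζ * Wl (2 * p) s 0 ζ) -
          pg (2 * p) s (ζ.re : ℝ) * Wl (2 * p) s 0 (ζ.re : ℝ)) := by ring
    rw [h4, Complex.re_ofReal_mul, sub_re] at h3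
    have h5 : 0 < 2 * p := by linarith
    nlinarith
  set v : ℂ := pg (2 * p) s ζ * Wl (2 * p) s 0 ζ with hv
  rcases eq_or_ne v 0 with h0 | h0
  · have := key 1 (by simp)
    rw [h0] at this ⊢
    simpa using this
  · have hvn : 0 < ‖v‖ := norm_pos_iff.mpr h0
    have h1 := key (conj v / ‖v‖) (by
      rw [norm_div, RCLike.norm_conj, Complex.norm_real, norm_norm, div_self hvn.ne'])
    have h2 : conj v / ‖v‖ * v = ((‖v‖ : ℝ) : ℂ) := by
      have h3 : conj v * v = ((‖v‖ ^ 2 : ℝ) : ℂ) := by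
        rw [mul_comm, Complex.mul_conj, Complex.normSq_eq_norm_sq]
      have h4 : ((‖v‖ : ℝ) : ℂ) ≠ 0 := by exact_mod_cast hvn.ne'
      rw [div_mul_eq_mul_div, h3, div_eq_iff h4]
      push_cast
      ring
    rw [h2, ofReal_re] at h1
    exact h1

end Pool.Agent.Run7.h820
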