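import Pool.Agent.Run7.h820.Strict3

open Complex MeasureTheory Metric Set Filter Topology
open scoped ENNReal Real ComplexConjugate NNReal

set_option autoImplicit false

namespace Pool.Agent.Run7.h820

lemma pg_lower {a x : ℝ} (ha0 : 0 ≤ a) (ha2 : a ≤ 2) (hx0 : 0 < x) :
    1 / (8 * x ^ 2 * (1 + x ^ 2)) - 1 / x ≤ ‖pg a x (x + I)‖ := by
  have hD : pD x (x + I) = ((4 * x : ℝ) : ℂ) * (x + I) := by
    rw [pD]
    push_cast
    linear_combination I_sq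
  have hn : ‖(x : ℂ) + I‖ ^ 2 = 1 + x ^ 2 := by
    rw [← Complex.normSq_eq_norm_sq, Complex.normSq_apply]
    simp
    ring
  have hn1 : 1 ≤ ‖(x : ℂ) + I‖ := by
    have := Complex.abs_im_le_norm ((x : ℂ) + I)
    simpa using this
  have hu1 : 1 ≤ ‖(x : ℂ) + I + x‖ := by
    have := Complex.abs_im_le_norm ((x : ℂ) + I + x)
    simpa using this
  have hDn : ‖pD x (x + I)‖ = 4 * x * ‖(x : ℂ) + I‖ := by
    rw [hD, norm_mul, Complex.norm_real, Real.norm_eq_abs, abs_of_pos (by positivity)]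
  have hDpos : 0 < ‖pD x (x + I)‖ := by rw [hDn]; positivity
  have h1 : 1 / (8 * x ^ 2 * (1 + x ^ 2)) ≤ ‖2 * ((x : ℂ) + I) * ((x : ℂ) + I + x) / pD x (x + I) ^ 2‖ := by
    rw [norm_div, norm_mul, norm_mul, norm_pow, Complex.norm_ofNat, hDn, mul_pow, hn]
    have e1 : 1 / (8 * x ^ 2 * (1 + x ^ 2)) = 2 * 1 * 1 / ((4 * x) ^ 2 * (1 + x ^ 2)) := by
      field_simp; ring
    rw [e1]
    gcongr
  have h2 : ‖2 * (a : ℂ) / pD x (x + I)‖ ≤ 1 / x := by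
    rw [norm_div, norm_mul, Complex.norm_ofNat, Complex.norm_real, Real.norm_eq_abs, abs_of_nonneg ha0, hDn]
    calc 2 * a / (4 * x * ‖(x : ℂ) + I‖) ≤ 2 * 2 / (4 * x * 1) := by gcongr
      _ = 1 / x := by field_simp; norm_num
  rw [pg]
  have h3 := norm_sub_norm_le (2 * ((x : ℂ) + I) * ((x : ℂ) + I + x) / pD x (x + I) ^ 2) (-(2 * (a : ℂ) / pD x (x + I)))
  rw [norm_neg, sub_neg_eq_add] at h3
  linarith

lemma pg_upper_real {a x : ℝ} (ha0 : 0 ≤ a) (ha2 : a ≤ 2) (hx0 : 0 < x) :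
    ‖pg a x (x : ℝ)‖ ≤ 4 * x ^ 2 + 4 := by
  have hD : pD x (x : ℝ) = ((4 * x ^ 2 + 1 : ℝ) : ℂ) := by
    rw [pD]
    push_cast
    ring
  have hDn : ‖pD x (x : ℝ)‖ = 4 * x ^ 2 + 1 := by
    rw [hD, Complex.norm_real, Real.norm_eq_abs, abs_of_pos (by positivity)]
  have h1 : ‖2 * (x : ℂ) * ((x : ℂ) + x) / pD x (x : ℝ) ^ 2‖ ≤ 4 * x ^ 2 := by
    rw [norm_div, norm_mul, norm_mul, norm_pow, Complex.norm_ofNat, hDn, ← Complex.ofReal_add,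
      Complex.norm_real, Complex.norm_real, Real.norm_eq_abs, Real.norm_eq_abs, abs_of_pos hx0,
      abs_of_pos (by positivity)]
    have : 1 ≤ (4 * x ^ 2 + 1) ^ 2 := by nlinarith [sq_nonneg x, sq_nonneg (x ^ 2)]
    rw [div_le_iff₀ (by positivity)]
    nlinarith [mul_nonneg (sq_nonneg x) (sub_nonneg.mpr this)]
  have h2 : ‖2 * (a : ℂ) / pD x (x : ℝ)‖ ≤ 4 := by
    rw [norm_div, norm_mul, Complex.norm_ofNat, Complex.norm_real, Real.norm_eq_abs, abs_of_nonneg ha0, hDn]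
    rw [div_le_iff₀ (by positivity)]
    nlinarith [sq_nonneg x]
  rw [pg]
  exact (norm_add_le _ _).trans (add_le_add h1 h2)

lemma Wl_lower {a s x : ℝ} (ha0 : 0 ≤ a) (ha2 : a ≤ 2) (hx0 : 0 < x) :
    1 / (1 + x ^ 2) ≤ ‖Wl a s 0 (x + I)‖ := by
  have hn : ‖(x : ℂ) + I‖ ^ 2 = 1 + x ^ 2 := by
    rw [← Complex.normSq_eq_norm_sq, Complex.normSq_apply]
    simp
    ring
  have hn1 : 1 ≤ ‖(x : ℂ) + I‖ := by
    have := Complex.abs_im_le_norm ((x : ℂ) + I)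
    simpa using this
  have h1 : ‖Wl a s 0 (x + I)‖ = Real.exp (-(a * Real.log ‖(x : ℂ) + I‖)) := by
    have : Wl a s 0 (x + I) = exp (-((a : ℂ) * Complex.log (x + I))) := by simp [Wl]
    rw [this, Complex.norm_exp, neg_re, Complex.re_ofReal_mul, Complex.log_re]
  rw [h1, ← hn]
  have hlog : 0 ≤ Real.log ‖(x : ℂ) + I‖ := Real.log_nonneg hn1
  calc 1 / ‖(x : ℂ) + I‖ ^ 2 = Real.exp (-(2 * Real.log ‖(x : ℂ) + I‖)) := by
        have h2 : Real.exp (2 * Real.log ‖(x : ℂ) + I‖) = ‖(x : ℂ) + I‖ ^ 2 := by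
          rw [two_mul, Real.exp_add, Real.exp_log (by linarith)]; ring
        rw [Real.exp_neg, h2, one_div]
    _ ≤ Real.exp (-(a * Real.log ‖(x : ℂ) + I‖)) := by
        apply Real.exp_le_exp.mpr
        nlinarith

lemma final_ineq {p : ℝ} (hp : 1 / 2 ≤ p) (hp1 : p < 1) {L : ℝ≥0∞}
    (hL : Tendsto (fun n : ℕ => A p n * ENNReal.ofReal ((n : ℝ) ^ (1 - 2 * p))) atTop (𝓝 L))
    (hLe : L ≤ ENNReal.ofReal (2 ^ (2 * p) / Real.Gamma (2 * p))) {x : ℝ} (hx0 : 0 < x) (hx1 : x ≤ 1) :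
    (1 / (8 * (1 + x ^ 2)) - x) * (1 / (1 + x ^ 2)) ≤ (4 * x ^ 2 + 4) * x ^ (2 - 2 * p) := by
  set a : ℝ := 2 * p with ha
  have ha0 : 0 ≤ a := by linarith
  have ha2 : a ≤ 2 := by linarith
  have hre : ((x : ℂ) + I).re = x := by simp
  have h1 := no_small_limit hp hp1 hL hLe hx0 hx1 (ζ := (x : ℂ) + I) (by rw [hre]; exact hx0)
  rw [hre, ← ha, norm_mul] at h1
  have h2 := pg_lower ha0 ha2 hx0
  have h3 := Wl_lower (s := x) ha0 ha2 hx0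
  have h4 := pg_upper_real ha0 ha2 hx0
  have h5 : ‖Wl a x 0 (x : ℝ)‖ = x ^ (-a) := by
    have : Wl a x 0 (x : ℝ) = exp (-((a : ℂ) * Complex.log (x : ℝ))) := by simp [Wl]
    rw [this, Complex.norm_exp, neg_re, Complex.re_ofReal_mul, Complex.log_re, Complex.norm_real,
      Real.norm_eq_abs, abs_of_pos hx0, Real.rpow_def_of_pos hx0]
    congr 1
    ring
  have h6 : (pg a x (x : ℝ) * Wl a x 0 (x : ℝ)).re ≤ (4 * x ^ 2 + 4) * x ^ (-a) := by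
    refine (Complex.re_le_norm _).trans ?_
    rw [norm_mul, h5]
    gcongr
  have h7 : 0 ≤ ‖pg a x (x + I)‖ := norm_nonneg _
  have h8 : (1 / (8 * x ^ 2 * (1 + x ^ 2)) - 1 / x) * (1 / (1 + x ^ 2)) ≤ (4 * x ^ 2 + 4) * x ^ (-a) := by
    have h9 : 0 < 1 / (1 + x ^ 2) := by positivity
    calc (1 / (8 * x ^ 2 * (1 + x ^ 2)) - 1 / x) * (1 / (1 + x ^ 2))
        ≤ ‖pg a x (x + I)‖ * (1 / (1 + x ^ 2)) := by gcongr
      _ ≤ ‖pg a x (x + I)‖ * ‖Wl a x 0 (x + I)‖ := by gcongr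
      _ ≤ _ := h1.trans h6
  have h10 : x ^ (2 - a) = x ^ 2 * x ^ (-a) := by
    rw [sub_eq_add_neg, Real.rpow_add hx0]
    norm_num
  rw [h10]
  have h11 : (1 / (8 * (1 + x ^ 2)) - x) * (1 / (1 + x ^ 2)) =
      x ^ 2 * ((1 / (8 * x ^ 2 * (1 + x ^ 2)) - 1 / x) * (1 / (1 + x ^ 2))) := by
    field_simp
  rw [h11]
  calc x ^ 2 * ((1 / (8 * x ^ 2 * (1 + x ^ 2)) - 1 / x) * (1 / (1 + x ^ 2)))
      ≤ x ^ 2 * ((4 * x ^ 2 + 4) * x ^ (-a)) := by gcongr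
    _ = _ := by ring

/-- the limit exceeds the value given by the Koebe function -/
theorem limit_gt {p : ℝ} (hp : 1 / 2 ≤ p) (hp1 : p < 1) {L : ℝ≥0∞}
    (hL : Tendsto (fun n : ℕ => A p n * ENNReal.ofReal ((n : ℝ) ^ (1 - 2 * p))) atTop (𝓝 L)) :
    ENNReal.ofReal (2 ^ (2 * p) / Real.Gamma (2 * p)) < L := by
  by_contra hcon
  push Not at hcon
  have h1 : Tendsto (fun x : ℝ => (1 / (8 * (1 + x ^ 2)) - x) * (1 / (1 + x ^ 2))) (𝓝[>] 0)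
      (𝓝 ((1 / (8 * (1 + (0 : ℝ) ^ 2)) - 0) * (1 / (1 + (0 : ℝ) ^ 2)))) := by
    apply Tendsto.mono_left _ nhdsWithin_le_nhds
    apply ContinuousAt.tendsto (f := fun x : ℝ => (1 / (8 * (1 + x ^ 2)) - x) * (1 / (1 + x ^ 2)))
    have h2 : ContinuousAt (fun x : ℝ => 1 / (8 * (1 + x ^ 2))) 0 :=
      ContinuousAt.div (by fun_prop) (by fun_prop) (by norm_num)
    have h3 : ContinuousAt (fun x : ℝ => 1 / (1 + x ^ 2)) 0 :=
      ContinuousAt.div (by fun_prop) (by fun_prop) (by norm_num)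
    exact (h2.sub continuousAt_id).mul h3
  have h2 : Tendsto (fun x : ℝ => (4 * x ^ 2 + 4) * x ^ (2 - 2 * p)) (𝓝[>] 0)
      (𝓝 ((4 * (0 : ℝ) ^ 2 + 4) * (0 : ℝ) ^ (2 - 2 * p))) := by
    apply Tendsto.mono_left _ nhdsWithin_le_nhds
    apply ContinuousAt.tendsto (f := fun x : ℝ => (4 * x ^ 2 + 4) * x ^ (2 - 2 * p))
    have h3 : ContinuousAt (fun x : ℝ => x ^ (2 - 2 * p)) 0 :=
      Real.continuousAt_rpow_const 0 (2 - 2 * p) (Or.inr (by linarith))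
    exact ContinuousAt.mul (by fun_prop) h3
  rw [Real.zero_rpow (by linarith), mul_zero] at h2
  have h3 := le_of_tendsto_of_tendsto h1 h2 (by
    have hev : ∀ᶠ x : ℝ in 𝓝[>] 0, x < 1 := nhdsWithin_le_nhds (gt_mem_nhds one_pos)
    filter_upwards [hev, self_mem_nhdsWithin] with x h4 h5
    exact final_ineq hp hp1 hL hcon h5 h4.le)
  norm_num at h3

theorem liminf_gt {p : ℝ} (hp : 1 / 2 ≤ p) (hp1 : p < 1) :
    ENNReal.ofReal (4 ^ p / Real.Gamma (2 * p)) <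
      liminf (fun n : ℕ => A p n * ENNReal.ofReal ((n : ℝ) ^ (1 - 2 * p))) atTop := by
  obtain ⟨L, hLt, hL⟩ := limit_exists hp hp1
  rw [hL.liminf_eq]
  have h1 : (4 : ℝ) ^ p = 2 ^ (2 * p) := by
    rw [Real.rpow_mul (by norm_num)]
    norm_num
  rw [h1]
  exact limit_gt hp hp1 hL

end Pool.Agent.Run7.h820
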