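import Pool.Agent.Run7.h820.Sector

open Complex MeasureTheory Metric Set Filter Topology
open scoped ENNReal Real ComplexConjugate

set_option autoImplicit false

namespace Pool.Agent.Run7.h820

noncomputable def psiR (R1 R2 R : ℝ) : ℝ := ((R2 - R1) / ((R + R1) * (R + R2))) ^ 2

noncomputable def gR (R1 R2 v : ℝ) : ℝ := Real.log (Real.exp v + R1) - Real.log (Real.exp v + R2)

noncomputable def gR1 (R1 R2 v : ℝ) : ℝ :=
  Real.exp v / (Real.exp v + R1) - Real.exp v / (Real.exp v + R2)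

lemma gR_hasDerivAt {R1 R2 : ℝ} (h1 : 0 < R1) (h2 : 0 < R2) (v : ℝ) :
    HasDerivAt (gR R1 R2) (gR1 R1 R2 v) v := by
  have ha : Real.exp v + R1 ≠ 0 := by positivity
  have hb : Real.exp v + R2 ≠ 0 := by positivity
  exact (((Real.hasDerivAt_exp v).add_const R1).log ha).sub (((Real.hasDerivAt_exp v).add_const R2).log hb)

lemma gR1_cont {R1 R2 : ℝ} (h1 : 0 < R1) (h2 : 0 < R2) : Continuous (gR1 R1 R2) := by
  unfold gR1
  apply Continuous.sub
  · exact Real.continuous_exp.div (by fun_prop) (fun x => by positivity)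
  · exact Real.continuous_exp.div (by fun_prop) (fun x => by positivity)

lemma gR1_sq {R1 R2 : ℝ} (h1 : 0 < R1) (h2 : 0 < R2) (v w : ℝ) :
    gR1 R1 R2 v ^ 2 * w = psiR R1 R2 (Real.exp v) * (w * Real.exp (2 * v)) := by
  unfold gR1 psiR
  have h3 : Real.exp (2 * v) = Real.exp v ^ 2 := by
    rw [← Real.exp_nat_mul]; norm_num
  rw [h3]
  have := Real.exp_pos v
  field_simp
  ring

lemma psiR_meas (R1 R2 : ℝ) : Measurable (psiR R1 R2) := by
  unfold psiR
  fun_prop

lemma psiR_anti {R1 R2 : ℝ} (h1 : 0 < R1) (h2 : R1 < R2) : AntitoneOn (psiR R1 R2) (Ioi 0) := by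
  intro a ha b hb hab
  have ha' : (0 : ℝ) < a := ha
  have hb' : (0 : ℝ) < b := hb
  have h3 : 0 ≤ R2 - R1 := by linarith
  have h4 : 0 < R2 := by linarith
  have h5 : 0 < a + R1 := by linarith
  have h6 : 0 < a + R2 := by linarith
  have h7 : (R2 - R1) / ((b + R1) * (b + R2)) ≤ (R2 - R1) / ((a + R1) * (a + R2)) := by
    gcongr
  have h8 : 0 ≤ (R2 - R1) / ((b + R1) * (b + R2)) := by positivity
  unfold psiR
  gcongr

lemma psiR_int {p R1 R2 : ℝ} (hp : 0 ≤ p) (h1 : 0 < R1) (h2 : R1 < R2) :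
    ∫⁻ R in Ioi (0 : ℝ), ENNReal.ofReal (psiR R1 R2 R * (2 * (π * p) * R))
      ≤ ENNReal.ofReal (2 * π * p * Real.log (R2 / R1)) := by
  have hpi := Real.pi_pos
  have hd : 0 < R2 - R1 := by linarith
  have hR2 : 0 < R2 := by linarith
  have key := lint_Ioi_eq
    (g := fun R => 2 * (π * p) * (-((R2 + R1) / (R2 - R1)) * (Real.log ((R + R2) / (R + R1)))
      + R1 / (R + R1) + R2 / (R + R2)))
    (g' := fun R => psiR R1 R2 R * (2 * (π * p) * R)) (l := 0) ?_ ?_ ?_ ?_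
  · rw [key]
    apply ENNReal.ofReal_le_ofReal
    simp only [zero_add]
    rw [div_self h1.ne', div_self hR2.ne']
    set L := Real.log (R2 / R1) with hL
    have hL0 : 0 < L := Real.log_pos (by rw [lt_div_iff₀ h1]; linarith)
    have he : Real.exp L = R2 / R1 := Real.exp_log (by positivity)
    have h3 : (L + 1) * R1 ≤ R2 := by
      have := Real.add_one_le_exp L
      rw [he, le_div_iff₀ h1] at this
      exact this
    have h4 : (R2 + R1) / (R2 - R1) * L ≤ L + 2 := by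
      rw [div_mul_eq_mul_div, div_le_iff₀ hd]
      nlinarith
    nlinarith [mul_nonneg hpi.le hp]
  · have hc : ContinuousAt (fun R => 2 * (π * p) * (-((R2 + R1) / (R2 - R1)) * (Real.log ((R + R2) / (R + R1)))
      + R1 / (R + R1) + R2 / (R + R2))) 0 := by
      have ha : (0 : ℝ) + R1 ≠ 0 := by simpa using h1.ne'
      have hb : (0 : ℝ) + R2 ≠ 0 := by simpa using hR2.ne'
      have hc1 : ContinuousAt (fun R : ℝ => R + R1) 0 := by fun_prop
      have hc2 : ContinuousAt (fun R : ℝ => R + R2) 0 := by fun_prop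
      have hc3 : ContinuousAt (fun R : ℝ => Real.log ((R + R2) / (R + R1))) 0 :=
        (hc2.div hc1 ha).log (div_ne_zero hb ha)
      have hc4 : ContinuousAt (fun R : ℝ => R1 / (R + R1)) 0 := continuousAt_const.div hc1 ha
      have hc5 : ContinuousAt (fun R : ℝ => R2 / (R + R2)) 0 := continuousAt_const.div hc2 hb
      exact continuousAt_const.mul (((continuousAt_const.mul hc3).add hc4).add hc5)
    exact hc.continuousWithinAt
  · intro R hR
    have hR' : (0 : ℝ) < R := hR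
    have ha : R + R1 ≠ 0 := by positivity
    have hb : R + R2 ≠ 0 := by positivity
    have d1 : HasDerivAt (fun R : ℝ => R + R1) 1 R := (hasDerivAt_id R).add_const R1
    have d2 : HasDerivAt (fun R : ℝ => R + R2) 1 R := (hasDerivAt_id R).add_const R2
    have d3 := (d2.div d1 ha).log (div_ne_zero hb ha)
    have d4 := (hasDerivAt_const R R1).div d1 ha
    have d5 := (hasDerivAt_const R R2).div d2 hb
    have d6 := (((d3.const_mul (-((R2 + R1) / (R2 - R1)))).add d4).add d5).const_mul (2 * (π * p))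
    refine d6.congr_deriv ?_
    unfold psiR
    simp only [Pi.div_apply]
    field_simp
    ring
  · intro R hR
    have hR' : (0 : ℝ) < R := hR
    unfold psiR
    positivity
  · have hx : Tendsto (fun R : ℝ => (R + R1)⁻¹) atTop (𝓝 0) :=
      tendsto_inv_atTop_zero.comp (tendsto_atTop_add_const_right _ _ tendsto_id)
    have hy : Tendsto (fun R : ℝ => (R + R2)⁻¹) atTop (𝓝 0) :=
      tendsto_inv_atTop_zero.comp (tendsto_atTop_add_const_right _ _ tendsto_id)
    have h5 : Tendsto (fun R : ℝ => 1 + (R2 - R1) * (R + R1)⁻¹) atTop (𝓝 (1 + (R2 - R1) * 0)) :=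
      (hx.const_mul _).const_add _
    rw [mul_zero, add_zero] at h5
    have h6 : Tendsto (fun R : ℝ => Real.log (1 + (R2 - R1) * (R + R1)⁻¹)) atTop (𝓝 (Real.log 1)) :=
      h5.log (by norm_num)
    rw [Real.log_one] at h6
    have h7 : Tendsto (fun R : ℝ => 2 * (π * p) * (-((R2 + R1) / (R2 - R1)) *
        Real.log (1 + (R2 - R1) * (R + R1)⁻¹) + R1 * (R + R1)⁻¹ + R2 * (R + R2)⁻¹)) atTop
        (𝓝 (2 * (π * p) * (-((R2 + R1) / (R2 - R1)) * 0 + R1 * 0 + R2 * 0))) :=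
      ((((h6.const_mul _).add (hx.const_mul _)).add (hy.const_mul _))).const_mul _
    have h8 : (2 * (π * p) * (-((R2 + R1) / (R2 - R1)) * 0 + R1 * 0 + R2 * 0)) = 0 := by ring
    rw [h8] at h7
    refine h7.congr' ?_
    filter_upwards [eventually_gt_atTop 0] with R hR
    have ha : R + R1 ≠ 0 := by positivity
    have h9 : 1 + (R2 - R1) * (R + R1)⁻¹ = (R + R2) / (R + R1) := by
      field_simp
      ring
    rw [h9, div_eq_mul_inv R1, div_eq_mul_inv R2 (R + R2)]

lemma two_sector {p : ℝ} (hp : 0 ≤ p) {F : ℂ → ℂ} (h : LogArea p F) {R1 R2 : ℝ} (hR1 : 0 < R1)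
    (hR : 4 * R1 ≤ R2) {ζ1 ζ2 : ℂ} (hζ1 : ‖ζ1‖ = 1) (hζ2 : ‖ζ2‖ = 1) {φ0 : ℝ} (h0 : 0 < φ0)
    (hφ : φ0 < π / 2) {a1 a2 b : ℝ} (ha1 : a1 < b) (ha2 : a2 < b) (hb : Real.exp b ≤ Real.cos φ0)
    (hdist : 2 * Real.exp b ≤ ‖ζ1 - ζ2‖)
    (hs1 : ∀ y ∈ Icc (-φ0) φ0, R2 ≤ Real.exp (F (sec ζ1 (a1 + y * I))).re)
    (hs2 : ∀ y ∈ Icc (-φ0) φ0, R2 ≤ Real.exp (F (sec ζ2 (a2 + y * I))).re)
    (he1 : ∀ y ∈ Icc (-φ0) φ0, Real.exp (F (sec ζ1 (b + y * I))).re ≤ R1)
    (he2 : ∀ y ∈ Icc (-φ0) φ0, Real.exp (F (sec ζ2 (b + y * I))).re ≤ R1) :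
    2 * φ0 * (Real.log (R2 / R1) - Real.log 4) ^ 2 * (1 / (b - a1) + 1 / (b - a2))
      ≤ 2 * π * p * Real.log (R2 / R1) := by
  have hpi := Real.pi_pos
  have hR2 : 0 < R2 := by linarith
  have hlt : R1 < R2 := by linarith
  set L := Real.log (R2 / R1) - Real.log 4 with hL
  have hL0 : 0 ≤ L := by
    rw [hL, ← Real.log_div (by positivity) (by norm_num)]
    apply Real.log_nonneg
    rw [le_div_iff₀ (by norm_num), le_div_iff₀ hR1]
    linarith
  have hLpos : 0 ≤ Real.log (R2 / R1) := by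
    have : 0 ≤ Real.log 4 := Real.log_nonneg (by norm_num)
    linarith
  -- variation of g
  have hvar : ∀ u v : ℝ, R2 ≤ Real.exp u → Real.exp v ≤ R1 → L ≤ gR R1 R2 u - gR R1 R2 v := by
    intro u v hu hv
    have hev := Real.exp_pos v
    have e1 : gR R1 R2 u = Real.log ((Real.exp u + R1) / (Real.exp u + R2)) := by
      rw [gR, Real.log_div (by positivity) (by positivity)]
    have e2 : gR R1 R2 v = Real.log ((Real.exp v + R1) / (Real.exp v + R2)) := by
      rw [gR, Real.log_div (by positivity) (by positivity)]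
    have h3 : Real.log (1 / 2) ≤ gR R1 R2 u := by
      rw [e1]
      apply Real.log_le_log (by norm_num)
      rw [div_le_div_iff₀ (by norm_num) (by positivity)]
      linarith
    have h4 : gR R1 R2 v ≤ Real.log (2 * R1 / R2) := by
      rw [e2]
      apply Real.log_le_log (by positivity)
      rw [div_le_div_iff₀ (by positivity) hR2]
      nlinarith
    have h5 : Real.log (2 * R1 / R2) = Real.log 2 - Real.log (R2 / R1) := by
      rw [Real.log_div (by positivity) (by positivity), Real.log_mul (by norm_num) (by positivity),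
        Real.log_div (by positivity) (by positivity)]
      ring
    have h6 : Real.log (1 / 2) = - Real.log 2 := by
      rw [one_div, Real.log_inv]
    have h7 : Real.log 4 = 2 * Real.log 2 := by
      have : (4 : ℝ) = 2 ^ (2 : ℕ) := by norm_num
      rw [this, Real.log_pow]; norm_num
    rw [hL, h7]
    linarith
  set k : ℂ → ℝ≥0∞ := fun z => ENNReal.ofReal ((gR1 R1 R2 (F z).re) ^ 2 * ‖deriv F z‖ ^ 2) with hk
  have s1 := sector_lower h.diff (gR_hasDerivAt hR1 hR2) (gR1_cont hR1 hR2) hζ1 h0 hφ ha1 hb hL0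
    (fun y hy => hvar _ _ (hs1 y hy) (he1 y hy))
  have s2 := sector_lower h.diff (gR_hasDerivAt hR1 hR2) (gR1_cont hR1 hR2) hζ2 h0 hφ ha2 hb hL0
    (fun y hy => hvar _ _ (hs2 y hy) (he2 y hy))
  have hw := h.weight hp (psiR R1 R2) (psiR_meas R1 R2) (psiR_anti hR1 hlt)
    (fun R hR => by unfold psiR; positivity)
  have hw2 : ∫⁻ z in ball (0 : ℂ) 1, k z ≤ ENNReal.ofReal (2 * π * p * Real.log (R2 / R1)) := by
    refine le_trans (le_of_eq ?_) (hw.trans (psiR_int hp hR1 hlt))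
    refine lintegral_congr fun z => ?_
    simp only [hk]
    rw [gR1_sq hR1 hR2]
  -- inclusion of the sectors
  have hin : ∀ ζ : ℂ, ‖ζ‖ = 1 → ∀ a : ℝ, sec ζ '' (Ioo a b ×ℂ Ioo (-φ0) φ0) ⊆
      ball ζ (Real.exp b) ∩ ball 0 1 := by
    rintro ζ hζ a w ⟨ξ, hξ, rfl⟩
    have h1 : ξ.re < b := hξ.1.2
    have h2 : |ξ.im| ≤ φ0 := abs_le.mpr ⟨hξ.2.1.le, hξ.2.2.le⟩
    refine ⟨?_, sec_mem hζ hφ h2 ((Real.exp_le_exp.mpr h1.le).trans hb)⟩
    rw [mem_ball, dist_eq_norm]
    have h3 : sec ζ ξ - ζ = -(ζ * exp ξ) := by unfold sec; ring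
    rw [h3, norm_neg, norm_mul, hζ, one_mul, Complex.norm_exp]
    exact Real.exp_lt_exp.mpr h1
  have hdisj : Disjoint (ball ζ1 (Real.exp b) ∩ ball (0 : ℂ) 1) (ball ζ2 (Real.exp b) ∩ ball 0 1) := by
    apply Disjoint.mono inter_subset_left inter_subset_left
    apply ball_disjoint_ball
    rw [dist_eq_norm]
    linarith
  have hsum : (∫⁻ z in sec ζ1 '' (Ioo a1 b ×ℂ Ioo (-φ0) φ0), k z) +
      (∫⁻ z in sec ζ2 '' (Ioo a2 b ×ℂ Ioo (-φ0) φ0), k z) ≤ ∫⁻ z in ball (0 : ℂ) 1, k z := by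
    calc _ ≤ (∫⁻ z in ball ζ1 (Real.exp b) ∩ ball (0 : ℂ) 1, k z) +
          (∫⁻ z in ball ζ2 (Real.exp b) ∩ ball (0 : ℂ) 1, k z) :=
          add_le_add (lintegral_mono_set (hin ζ1 hζ1 a1)) (lintegral_mono_set (hin ζ2 hζ2 a2))
      _ = ∫⁻ z in (ball ζ1 (Real.exp b) ∩ ball (0 : ℂ) 1) ∪ (ball ζ2 (Real.exp b) ∩ ball (0 : ℂ) 1), k z :=
          (lintegral_union (measurableSet_ball.inter measurableSet_ball) hdisj).symm
      _ ≤ _ := lintegral_mono_set (union_subset inter_subset_right inter_subset_right)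
  have hA1 : 0 ≤ 2 * φ0 * L ^ 2 / (b - a1) := by
    have : 0 < b - a1 := by linarith
    positivity
  have hA2 : 0 ≤ 2 * φ0 * L ^ 2 / (b - a2) := by
    have : 0 < b - a2 := by linarith
    positivity
  have hfin := (add_le_add s1 s2).trans (hsum.trans hw2)
  rw [← ENNReal.ofReal_add hA1 hA2, ENNReal.ofReal_le_ofReal_iff (by positivity)] at hfin
  calc _ = 2 * φ0 * L ^ 2 / (b - a1) + 2 * φ0 * L ^ 2 / (b - a2) := by ring
    _ ≤ _ := hfin

end Pool.Agent.Run7.h820
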